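import Mathlib
import Pool.Agent.Lib_helper9.LG.Stmts
import Pool.Agent.UNI.B2

set_option autoImplicit false

/-!
# FXC (MP_e1dc24_nt): large gaps for a FIXED residue class, modulus varying. Statements and proofs.

`x` is the length of the interval of moduli, `L = log x`, `w = log L`, `v = log w`, `y = yM 8 x = ⌊L / 39⌋`,
`a ≠ 0` the class, `M = |a|`. Sites: the numbers `a + k m`, `1 ≤ k ≤ T`. A prime `l` which does not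
divide `a` divides `a + k m` for all `k` in ONE nonzero class modulo `l`, which can be prescribed by
the choice of `m` modulo `l`.
-/

namespace Pool.Agent.FXC

open Finset Filter BlockSieve Pool.Agent.UNI

noncomputable section

/-- The reciprocal sum of the prime factors of `M` in the interval (z, y]. -/
def SG (M z : ℕ) (y : ℝ) : ℝ :=
  ∑ p ∈ M.primeFactors.filter (fun p : ℕ => z < p ∧ (p : ℝ) ≤ y), (1 : ℝ) / p

/-- **ENG** (architect helper9): the dual engine. Compare `Lib_helper9/LG/Stmts.lean`, `StmtE`. -/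
def S_ENG : Prop := ∃ c₁ : ℝ, 0 < c₁ ∧ ∀ A : ℕ, ∃ X₀ : ℝ, ∀ X : ℝ, X₀ ≤ X →
  ∀ (a : ℤ) (W b : ℕ), a ≠ 0 → (a.natAbs : ℝ) ≤ X ^ A → 1 ≤ W → (W : ℝ) ^ 8 ≤ X →
  W.Coprime a.natAbs → (∀ p : ℕ, p.Prime → p ∣ W → (p : ℝ) ≤ (Real.log X) ^ 4) →
  ∀ S : Finset ℕ, (∀ k ∈ S, 1 ≤ k ∧ (k : ℝ) ≤ (Real.log X) ^ 4) →
  (S.card : ℝ) ≤ c₁ * Real.log X →
  ∃ x : ℕ, ((W * x : ℕ) : ℝ) ≤ X ∧ (b + W * x).Coprime a.natAbs ∧ ∀ k ∈ S, ∃ l : ℕ, l.Prime ∧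
    (Real.log X) ^ 4 < (l : ℝ) ∧ (l : ℝ) ≤ Real.exp (Real.sqrt (Real.log X)) ∧
    (l : ℤ) ∣ a + k * ((b + W * x : ℕ) : ℤ)

/-- **AVG**. The function `g(k) = ∏ l / (l - 1)` over the `l ∈ P` with `l ∣ k` has bounded mean over
every interval of length `H = ⌊exp (sqrt w)⌋` below `exp (2 w)`.
Proof (constant `18`). Let `v = log w`, `P₁` the `l ∈ P` with `l ≤ w²`, `P₂` the rest. A number
`k ≤ exp (2w)`, `k ≥ 1`, has at most `3 w` prime factors (`2 ^ ω(k) ≤ k`), so the product over the `l ∈ P₂`,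
`l ∣ k`, of `1 + 1/(l-1)` is at most `exp (3 w * 2 / w²) ≤ e`. For `P₁` expand (`Finset.prod_one_add` or
`Finset.prod_add`): `∏_(l ∈ P₁, l ∣ k) (1 + 1/(l-1))` is the sum over the subsets `D ⊆ P₁` with
`l ∣ k` for all `l ∈ D` of `a_D = ∏_(l ∈ D) 1/(l-1)`. Let `N_D = ∏_(l ∈ D) l` (it divides `k` for these `D`).
(i) `N_D ≤ H`: the number of the `t ∈ [1, H]` with `N_D ∣ j + t` is at most `H / N_D + 1 ≤ 2 H / N_D`, and
`∑_D a_D / N_D = ∏_(l ∈ P₁) (1 + 1/(l (l-1))) ≤ exp (∑ 1/(l(l-1))) ≤ e` (`sum_telescope_le`).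
(ii) `N_D > H`: drop the divisibility: at most `H ∑_D a_D (N_D / H)^α` for `α = 1/(2v)`, that is
`H * H^(-α) * ∏_(l ∈ P₁) (1 + l^α / (l-1))`. Here `l^α ≤ e ≤ 3` and
`1 + 3/(l-1) ≤ (1 + 1/(l-1))^3 = (l/(l-1))^3`, `∏_(l ∈ P₁) l/(l-1) ≤ ∏_(2 ≤ i ≤ w²) i/(i-1) ≤ w²`, and
`w^6 ≤ H^α` for large `w`, since `log H ≥ sqrt w - 1` and `12 v² + 1 ≤ sqrt w`. So (ii) is at most `H`.
Total: `e (2 e + 1) H ≤ 18 H`. -/
def S_AVG : Prop := ∃ C : ℝ, 1 ≤ C ∧ ∃ w₀ : ℝ, ∀ w : ℝ, w₀ ≤ w → ∀ P : Finset ℕ,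
  (∀ l ∈ P, l.Prime) → ∀ j : ℕ, (j : ℝ) + Real.exp (Real.sqrt w) ≤ Real.exp (2 * w) →
  ∑ t ∈ Icc 1 ⌊Real.exp (Real.sqrt w)⌋₊, ∏ l ∈ P.filter (fun l => l ∣ j + t),
    ((l : ℝ) / ((l : ℝ) - 1)) ≤ C * (⌊Real.exp (Real.sqrt w)⌋₊ : ℝ)

/-- **GRU**. Choice of a nonzero class for every prime of `Q`, by averaging.
Proof. Prove more generally with weights: for every `ω ≥ 0` there is `κ` with
`∑_(k ∈ S, k not ≡ κ l mod l for all l ∈ Q) ω k ≤ ∑_(k ∈ S) ω k * ∏_(l ∈ Q, l not dividing k) (1 - 1/(l-1))`,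
by induction on `Q` (`Finset.induction_on`). Step `insert l Q`: take `κ` on `Q` for the weight
`ω' k = ω k * (if l ∣ k then 1 else 1 - 1/(l-1))`; let `S'` be the survivors. The sum over
`c = 1, ..., l-1` of `∑_(k ∈ S', k not ≡ c) ω k` is l-1 times `∑_(k ∈ S') ω' k`, since a `k` with `l ∣ k` is in
none of the classes `c` and any other `k` in exactly one. So some `c` is good; put `κ l = c`
(`Function.update`). For `l = 2` the factor is `0`. -/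
def S_GRU : Prop := ∀ S Q : Finset ℕ, (∀ l ∈ Q, l.Prime) → ∃ κ : ℕ → ℕ, (∀ l ∈ Q, ¬ l ∣ κ l) ∧
  ((S.filter (fun k => ∀ l ∈ Q, ¬ k ≡ κ l [MOD l])).card : ℝ) ≤
    ∑ k ∈ S, ∏ l ∈ Q.filter (fun l => ¬ l ∣ k), (1 - 1 / ((l : ℝ) - 1))

/-- **EXC**. The class modulo `∏ l`. Proof. For `l ∈ Q` choose `β l` with `κ l * β l ≡ -a` modulo `l`
(`κ l` is a unit in `ZMod l`), then `b ≡ β l` modulo `l` for all `l ∈ Q` by the Chinese remainder theorem, with a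
representative in `[y, y + ∏ l)`: compare `exists_class` in `Pool/Agent/UNI/B5.lean` (72 lines). -/
def S_EXC : Prop := ∀ (a : ℤ) (y : ℕ) (Q : Finset ℕ), (∀ l ∈ Q, l.Prime) → ∀ κ : ℕ → ℕ,
  (∀ l ∈ Q, ¬ l ∣ κ l) → ∃ b : ℕ, y ≤ b ∧ b < y + ∏ l ∈ Q, l ∧
    ∀ l ∈ Q, ∀ k : ℕ, k ≡ κ l [MOD l] → (l : ℤ) ∣ a + k * (b : ℤ)

/-- **J0B**. The integers `k ≤ T` without prime factors in (z, y] (except those dividing `M`): second half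
of the proof of `survivorsV` in `Pool/Agent/UNI/SURV.lean`. -/
def S_J0B : Prop := ∃ K : ℝ, 1 ≤ K ∧ ∀ δ : ℝ, 0 < δ → δ ≤ 1 → ∃ N₀ : ℕ, ∀ N : ℕ, N₀ ≤ N →
  ∀ M : ℕ, 1 ≤ M → ∀ z : ℕ, Real.sqrt (Real.log (Real.log N)) ≤ Real.log z → z ≤ yM 8 N →
  ∀ T : ℕ, δ * Real.log N < T → (T : ℝ) ≤ Real.log N * Real.log (Real.log N) ^ 2 →
  (((Icc 1 T).filter (fun k => ∀ l ∈ (pr (yM 8 N) \ pr z).filter (fun l => ¬ l ∣ M),
    ¬ l ∣ k)).card : ℝ) ≤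
    K * (T * (Real.exp (2 * (Real.log (Real.log N) / Real.log z) -
        Real.log (Real.log N) / Real.log z * Real.log (Real.log (Real.log N) / Real.log z)) +
      Real.log (Real.log (Real.log N)) / Real.log (Real.log N) + SG M z (yM 8 N)))

/-- **SVD**. The covering with nonzero classes. `T = ⌊δ (φ(M)/M) (L log z / s)⌋`.
Proof. As in `survivorsV`: `T ≤ L w²`. If `T ≤ δ L` take `κ = 1`. Otherwise `H = ⌊exp (sqrt w)⌋ ≤ z`;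
`Q₁` = primes in (z, y], `Q₂` = primes up to `z`, not dividing `M`; `J₀` = the `j ∈ [1, T]` without prime
factors in `Q₁`. By `AVG` (for `P = Q₂`) summed over `j ∈ J₀` there is `t ∈ [1, H]` with
`∑_(j ∈ J₀) g(j + t) ≤ C |J₀|`. Put `κ l = t` for `l ∈ Q₁` (`1 ≤ t ≤ H ≤ z < l`), and take `κ` on `Q₂` from `GRU`
for `S₁ = J₀ + t`. A survivor `k > H` is `j + t` with `j ∈ J₀`. So the number of the survivors is at most
`H + ∑_(k ∈ S₁) ∏_(l ∈ Q₂, l not | k) (1 - 1/(l-1))`, the product is at most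
`∏_(l ∈ Q₂, l not | k) (1 - 1/l) = ∏_(l ∈ Q₂) (1 - 1/l) g(k)`, and
`∏_(l ∈ Q₂) (1 - 1/l) (φ(M)/M) ≤ 1 / log z` (`prod_coprime_le`). With `|J₀| ≤ T` if `s = 1` and `J0B` if
not: at most `H + C K δ L ≤ (1 + C K) δ L`. -/
def S_SVD : Prop := ∃ K : ℝ, 1 ≤ K ∧ ∀ δ : ℝ, 0 < δ → δ ≤ 1 → ∃ N₀ : ℕ, ∀ N : ℕ, N₀ ≤ N →
  60 ≤ Real.log (Real.log N) ∧ (yM 8 N : ℝ) ≤ Real.log N / 39 ∧
  ∀ M : ℕ, 1 ≤ M → ∀ z : ℕ, Real.sqrt (Real.log (Real.log N)) ≤ Real.log z → z ≤ yM 8 N →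
  ∀ s : ℝ, s ≤ 1 → Real.log (Real.log (Real.log N)) / Real.log (Real.log N) ≤ s →
  (s = 1 ∨ Real.exp (2 * (Real.log (Real.log N) / Real.log z) -
      Real.log (Real.log N) / Real.log z * Real.log (Real.log (Real.log N) / Real.log z)) +
    Real.log (Real.log (Real.log N)) / Real.log (Real.log N) + SG M z (yM 8 N) ≤ s) →
  (⌊δ * ((M.totient : ℝ) / M) * (Real.log N * Real.log z / s)⌋₊ : ℝ) ≤
    Real.log N * Real.log (Real.log N) ^ 2 ∧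
  ∃ κ : ℕ → ℕ, (∀ l ∈ pr (yM 8 N), ¬ l ∣ M → ¬ l ∣ κ l) ∧
    (((Icc 1 ⌊δ * ((M.totient : ℝ) / M) * (Real.log N * Real.log z / s)⌋₊).filter
      (fun k => ∀ l ∈ pr (yM 8 N), ¬ l ∣ M → ¬ k ≡ κ l [MOD l])).card : ℝ) ≤ K * δ * Real.log N

/-- **THD**. Compare `thV` in `Pool/Agent/UNI/THV.lean`. `X = n/4`, `y' = y + n/4 + 1`, `m = b + W x`. For `k ≥ 1`
the number `a + k m` is at least `m - |a| > X`. -/
def S_THD : Prop := ∃ c₀ : ℝ, 0 < c₀ ∧ c₀ ≤ 1 ∧ ∀ B : ℕ,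
  ∃ n₀ : ℕ, ∀ n : ℕ, n₀ ≤ n → ∀ a : ℤ, a ≠ 0 → a.natAbs ≤ n ^ B → ∀ z : ℕ,
  Real.sqrt (Real.log (Real.log n)) ≤ Real.log z → z ≤ yM 8 n →
  ∀ s : ℝ, s ≤ 1 → Real.log (Real.log (Real.log n)) / Real.log (Real.log n) ≤ s →
  (s = 1 ∨ Real.exp (2 * (Real.log (Real.log n) / Real.log z) -
      Real.log (Real.log n) / Real.log z * Real.log (Real.log (Real.log n) / Real.log z)) +
    Real.log (Real.log (Real.log n)) / Real.log (Real.log n) + SG a.natAbs z (yM 8 n) ≤ s) →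
  ∀ y : ℕ, a.natAbs ≤ y → ∃ m : ℕ, y ≤ m ∧ m ≤ y + n ∧ a.natAbs < m ∧ m.Coprime a.natAbs ∧
    ∀ k : ℕ, 1 ≤ k →
      (k : ℝ) ≤ c₀ * ((a.natAbs.totient : ℝ) / a.natAbs) * (Real.log n * Real.log z / s) →
      ∀ q : ℕ, q.Prime → (q : ℤ) ≠ a + k * (m : ℤ)

/-- **FGD**, the theorem. Compare `gapV` in `Pool/Agent/UNI/FGAP.lean`. -/
def S_FGD : Prop := ∃ c₀ : ℝ, 0 < c₀ ∧ ∀ κ : ℝ, 0 < κ → ∀ B : ℕ, ∃ x₀ : ℕ, ∀ x : ℕ, x₀ ≤ x →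
  ∀ a : ℤ, a ≠ 0 → a.natAbs ≤ x ^ B → ∀ y : ℕ, a.natAbs ≤ y → ∃ m : ℕ, y ≤ m ∧ m ≤ y + x ∧
    IsCoprime a (m : ℤ) ∧ ∀ q : ℕ, q.Prime → (q : ℤ) ≡ a [ZMOD m] → (q : ℤ) ≠ a →
      c₀ * ((a.natAbs.totient : ℝ) / a.natAbs) * (m * (Real.log x * Real.log (Real.log x) ^ 2 *
          Real.log (Real.log (Real.log (Real.log x))) / (Real.log (Real.log (Real.log x))) ^ 2)) /
        (1 + Real.log (Real.log x) / Real.log (Real.log (Real.log x)) *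
          ∑ p ∈ a.natAbs.primeFactors.filter (fun p : ℕ =>
            Real.exp ((1 - κ) * (Real.log (Real.log x) *
            Real.log (Real.log (Real.log (Real.log x))) / Real.log (Real.log (Real.log x)))) <
              (p : ℝ) ∧ (p : ℝ) ≤ Real.log x), (1 : ℝ) / p) < q

end

end Pool.Agent.FXC
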