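import Mathlib
import Pool.Agent.FXC.St
import Pool.Agent.UNI.B3
import Pool.Agent.UNI.B4

set_option autoImplicit false

/-!
# FXC, module J0B: the integers up to `T` without middle prime factors
-/

namespace Pool.Agent.FXC

open Finset Filter BlockSieve Pool.Agent.UNI

noncomputable section

/-- Conditions on `w`. -/
lemma j0b_ev (δ : ℝ) : ∀ᶠ w : ℝ in atTop, 3136 ≤ w ∧ 16 * (Real.log w) ≤ Real.sqrt w ∧
    Real.log w * (Real.log w + 1) ≤ Real.sqrt w ∧ 32 ≤ Real.log w ∧ -Real.log δ ≤ Real.log w := by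
  have h1 := Real.isLittleO_log_id_atTop
  have h2 := h1.def (c := 1 / 32) (by norm_num)
  have h3 : ∀ᶠ x : ℝ in atTop, Real.log x ≤ x / 32 := by
    filter_upwards [h2, eventually_ge_atTop (1 : ℝ)] with x hx hx1
    rw [Real.norm_eq_abs, abs_of_nonneg (Real.log_nonneg hx1), id, Real.norm_eq_abs,
      abs_of_nonneg (by linarith)] at hx
    linarith
  have h4 := Real.tendsto_sqrt_atTop.eventually h3
  have h5 : ∀ᶠ x : ℝ in atTop, 2 * x * (2 * x + 1) ≤ Real.exp x := by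
    filter_upwards [eventually_ge_atTop (30 : ℝ)] with x hx1
    have h8 := Real.pow_div_factorial_le_exp x (by linarith) 3
    have h9 : ((Nat.factorial 3 : ℕ) : ℝ) = 6 := by norm_num [Nat.factorial]
    rw [h9] at h8
    have h10 : 2 * x * (2 * x + 1) ≤ x ^ 3 / 6 := by
      have k1 : 30 * (x * x) ≤ x * (x * x) := mul_le_mul_of_nonneg_right hx1 (mul_self_nonneg x)
      have k2 : 30 * x ≤ x * x := mul_le_mul_of_nonneg_right hx1 (by linarith)
      have k3 : x ^ 3 = x * (x * x) := by ring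
      have k4 : 2 * x * (2 * x + 1) = 4 * (x * x) + 2 * x := by ring
      rw [k3, k4]
      linarith
    linarith
  have t1 : Tendsto (fun w : ℝ => Real.log (Real.sqrt w)) atTop atTop :=
    Real.tendsto_log_atTop.comp Real.tendsto_sqrt_atTop
  have h7 := t1.eventually h5
  filter_upwards [eventually_ge_atTop (3136 : ℝ), h4, h7,
    Real.tendsto_log_atTop.eventually_ge_atTop 32,
    Real.tendsto_log_atTop.eventually_ge_atTop (-Real.log δ)] with w g1 g2 g3 g4 g5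
  have hw0 : 0 < w := by linarith
  have hs : 0 < Real.sqrt w := Real.sqrt_pos.2 hw0
  have e1 : 2 * Real.log (Real.sqrt w) = Real.log w := by
    rw [Real.log_sqrt hw0.le]
    ring
  rw [Real.exp_log hs, e1] at g3
  refine ⟨g1, ?_, g3, g4, g5⟩
  linarith

lemma j0b_ax1 {v w r : ℝ} (h1 : 16 * v ≤ r) (h2 : r * r = w) (h3 : 56 ≤ r) :
    5 * v ≤ w ∧ r ≤ w := by
  have h4 : 56 * r ≤ r * r := mul_le_mul_of_nonneg_right h3 (by linarith)
  constructor
  · linarith
  · linarith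

lemma j0b_ax3 {u l : ℝ} (h0 : 0 < u) (h1 : l ≤ 2) : 0 ≤ 2 * u - u * l := by
  have h2 := mul_nonneg h0.le (sub_nonneg.2 h1)
  linarith

lemma j0b_ax4 {e : ℝ} (h : 2 ≤ e) : 4 ≤ e * e := by nlinarith

lemma j0b_ax5 {w : ℝ} (h : 60 ≤ w) : 1 ≤ w ^ 2 := by nlinarith

lemma j0b_ax6 {v w : ℝ} (h : 60 ≤ w) (h1 : 32 ≤ v) : 1 ≤ v * w := by nlinarith

/-- The exponent `2 u - u log u` under the change of `u` to `u' = u - v / Λ`. -/
lemma j0b_exp {u u' v Λ C' r : ℝ} (hu0 : 0 < u) (hu'0 : 0 < u') (huu' : u' = u - v / Λ)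
    (hv0 : 0 < v) (hΛ0 : 0 < Λ) (hloguv : Real.log u ≤ v) (g3 : v * (v + 1) ≤ r) (hz1 : r ≤ Λ) :
    2 * u' + C' - u' * Real.log u' ≤ (C' + 1) + (2 * u - u * Real.log u) := by
  have hvΛ0 : 0 < v / Λ := by positivity
  have h1 : u * Real.log u - u' * Real.log u' ≤ (v / Λ) * (Real.log u + 1) := by
    have h2 : Real.log u - Real.log u' ≤ u / u' - 1 := by
      rw [← Real.log_div hu0.ne' hu'0.ne']
      exact Real.log_le_sub_one_of_pos (by positivity)
    have h3 : u' * (Real.log u - Real.log u') ≤ u - u' := by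
      calc u' * (Real.log u - Real.log u') ≤ u' * (u / u' - 1) :=
            mul_le_mul_of_nonneg_left h2 hu'0.le
        _ = u - u' := by field_simp
    have h4 : u - u' = v / Λ := by rw [huu']; ring
    have h5 : u * Real.log u - u' * Real.log u' =
        (u - u') * Real.log u + u' * (Real.log u - Real.log u') := by ring
    rw [h5, h4]
    rw [h4] at h3
    linarith
  have h6 : (v / Λ) * (Real.log u + 1) ≤ 1 := by
    rw [div_mul_eq_mul_div, div_le_one hΛ0]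
    calc v * (Real.log u + 1) ≤ v * (v + 1) := by gcongr
      _ ≤ r := g3
      _ ≤ Λ := hz1
  linarith

/-- The large prime factors: `∑_(j ≤ T / y) 1/φ(j) ≤ 16 v`. -/
lemma j0b_large {T y : ℕ} {L w v : ℝ} (hL : 0 < L) (hw : 60 ≤ w) (hv : v = Real.log w)
    (hv0 : 32 ≤ v) (hTL : (T : ℝ) ≤ L * w ^ 2) (hy2 : L / (4 * 13) ≤ y)
    (hlogy : w / 2 ≤ Real.log y) (hT0 : (0 : ℝ) < T) :
    (2 * Real.log 4 * T / Real.log y) * ∑ j ∈ Icc 1 (T / y), (1 : ℝ) / j.totient ≤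
      89 * (T * (v / w)) := by
  have hw0 : 0 < w := by linarith
  have hTy : Real.log ((T / y : ℕ) : ℝ) ≤ 3 * v := by
    rcases Nat.eq_zero_or_pos (T / y) with h | h
    · rw [h]
      simp only [Nat.cast_zero, Real.log_zero]
      linarith
    · have h2 : ((T / y : ℕ) : ℝ) ≤ T / y := Nat.cast_div_le
      have h3 : (T : ℝ) / y ≤ w ^ 3 := by
        calc (T : ℝ) / y ≤ (L * w ^ 2) / (L / (4 * 13)) := by
              gcongr
          _ = 52 * w ^ 2 := by
              field_simp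
              norm_num
          _ ≤ w * w ^ 2 := by gcongr; linarith
          _ = w ^ 3 := by ring
      have h4 := Real.log_le_log (by exact_mod_cast h) (h2.trans h3)
      rw [Real.log_pow, ← hv] at h4
      push_cast at h4
      exact h4
  have hJ : ∑ j ∈ Icc 1 (T / y), (1 : ℝ) / j.totient ≤ 16 * v := by
    refine (sum_inv_totient_le _).trans ?_
    have h2 := harm_le hTy
    linarith
  have hlogy0 : 0 < Real.log y := by linarith
  have hv00 : 0 < v := by linarith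
  have h1 := log_four_le
  calc (2 * Real.log 4 * T / Real.log y) * ∑ j ∈ Icc 1 (T / y), (1 : ℝ) / j.totient ≤
        (2 * (1387 / 1000) * T / (w / 2)) * (16 * v) := by gcongr
    _ = (64 * (1387 / 1000)) * (T * (v / w)) := by
        field_simp
        ring
    _ ≤ 89 * (T * (v / w)) := by
        apply mul_le_mul_of_nonneg_right (by norm_num)
        positivity

open Classical in
/-- The decomposition of the set. -/
lemma j0b_decomp {M z y T : ℕ} (hM0 : 0 < M) :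
    (((Icc 1 T).filter (fun k => ∀ l ∈ (pr y \ pr z).filter (fun l => ¬ l ∣ M), ¬ l ∣ k)).card : ℝ) ≤
      ((sm z T).card : ℝ) +
        (((Icc 1 T).filter (fun k => ∃ l, l.Prime ∧ y < l ∧ l ∣ k)).card : ℝ) +
        T * SG M z y := by
  classical
  obtain ⟨S₀, hS₀⟩ : ∃ S₀, S₀ =
    (Icc 1 T).filter (fun k => ∀ l ∈ (pr y \ pr z).filter (fun l => ¬ l ∣ M), ¬ l ∣ k) := ⟨_, rfl⟩
  obtain ⟨K₁, hK₁⟩ : ∃ K₁, K₁ = (Icc 1 T).filter (fun k => ∃ l, l.Prime ∧ y < l ∧ l ∣ k) :=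
    ⟨_, rfl⟩
  rw [← hS₀, ← hK₁]
  obtain ⟨PM, hPM⟩ : ∃ PM, PM = M.primeFactors.filter (fun p : ℕ => z < p ∧ (p : ℝ) ≤ y) :=
    ⟨_, rfl⟩
  have hsub : S₀ ⊆ (sm z T ∪ K₁) ∪ PM.biUnion (fun p => (Icc 1 T).filter (fun k => p ∣ k)) := by
    intro k hk
    rw [hS₀, mem_filter, mem_Icc] at hk
    rw [mem_union, mem_union]
    by_cases h4 : ∃ l, l.Prime ∧ y < l ∧ l ∣ k
    · left
      right
      rw [hK₁, mem_filter, mem_Icc]
      exact ⟨hk.1, h4⟩
    by_cases h3 : ∃ p, p.Prime ∧ p ∣ M ∧ z < p ∧ p ∣ k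
    · right
      obtain ⟨p, hp, hpM, hzp, hpk⟩ := h3
      have hpy : p ≤ y := by
        by_contra hcon
        exact h4 ⟨p, hp, not_le.1 hcon, hpk⟩
      rw [mem_biUnion]
      refine ⟨p, ?_, mem_filter.2 ⟨mem_Icc.2 hk.1, hpk⟩⟩
      rw [hPM, mem_filter, Nat.mem_primeFactors]
      exact ⟨⟨hp, hpM, hM0.ne'⟩, hzp, by exact_mod_cast hpy⟩
    left
    left
    rw [mem_sm]
    refine ⟨hk.1.1, hk.1.2, ?_⟩
    intro l hl
    have hlp := Nat.prime_of_mem_primeFactors hl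
    have hld := Nat.dvd_of_mem_primeFactors hl
    by_contra hlz
    have hlz' : z < l := by
      by_contra hcon
      exact hlz (mem_pr.2 ⟨hlp, not_lt.1 hcon⟩)
    have hly : l ≤ y := by
      by_contra hcon
      exact h4 ⟨l, hlp, not_le.1 hcon, hld⟩
    have hlM : ¬ l ∣ M := fun h => h3 ⟨l, hlp, h, hlz', hld⟩
    refine hk.2 l ?_ hld
    rw [mem_filter, Finset.mem_sdiff]
    exact ⟨⟨mem_pr.2 ⟨hlp, hly⟩, hlz⟩, hlM⟩
  have h2 : ((PM.biUnion (fun p => (Icc 1 T).filter (fun k => p ∣ k))).card : ℝ) ≤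
      T * SG M z y := by
    have h0 : ((PM.biUnion (fun p => (Icc 1 T).filter (fun k => p ∣ k))).card : ℝ) ≤
        ((∑ p ∈ PM, ((Icc 1 T).filter (fun k => p ∣ k)).card : ℕ) : ℝ) :=
      Nat.cast_le.2 Finset.card_biUnion_le
    refine h0.trans ?_
    rw [Nat.cast_sum, SG, ← hPM, Finset.mul_sum]
    refine Finset.sum_le_sum fun p hp => ?_
    have h4 : ((Icc 1 T).filter (fun k => p ∣ k)).card = T / p := by
      have h5 := Nat.Ioc_filter_dvd_card_eq_div T p
      rw [← h5]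
      rfl
    rw [h4, mul_one_div]
    exact Nat.cast_div_le
  have h5 : (S₀.card : ℝ) ≤ ((sm z T).card + K₁.card : ℕ) +
      ((PM.biUnion (fun p => (Icc 1 T).filter (fun k => p ∣ k))).card : ℝ) := by
    have h6 := (Finset.card_le_card hsub).trans (Finset.card_union_le _ _)
    have h7 := Finset.card_union_le (sm z T) K₁
    exact_mod_cast h6.trans (Nat.add_le_add_right h7 _)
  push_cast at h5
  linarith

/-- The smooth part. -/
lemma j0b_smooth {z T : ℕ} {w v Λ u C' : ℝ} (hC' : C' = 4 + 5 / 2 * zth) (hw : 3136 ≤ w)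
    (hv : v = Real.log w) (hv32 : 32 ≤ v)
    (g2 : 16 * v ≤ Real.sqrt w) (g3 : v * (v + 1) ≤ Real.sqrt w) (hz1 : Real.sqrt w ≤ Λ)
    (hΛ : Λ = Real.log z) (hz0 : (0 : ℝ) < z) (hz2 : 2 ≤ z) (hu : u = w / Λ) (hlogu2 : 2 < Real.log u)
    (hlogT : w - v ≤ Real.log T) :
    ((sm z T).card : ℝ) ≤ T * (v / w) +
      32 * Real.exp (C' + 1) * (T * Real.exp (2 * u - u * Real.log u)) := by
  have hw0 : 0 < w := by linarith
  have hv0 : 0 < v := by linarith
  have hsw : 0 < Real.sqrt w := Real.sqrt_pos.2 hw0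
  have hssw : Real.sqrt w * Real.sqrt w = w := Real.mul_self_sqrt hw0.le
  have hs56 : 56 ≤ Real.sqrt w := Real.le_sqrt_of_sq_le (by linarith)
  have h5v := (j0b_ax1 g2 hssw hs56).1
  have hsqw := (j0b_ax1 g2 hssw hs56).2
  have hΛ0 : 0 < Λ := by linarith
  have hu0 : 0 < u := by rw [hu]; positivity
  have hu4 : 4 < u := by
    have h1 : Real.exp 2 < u := by
      rw [← Real.exp_log hu0]
      exact Real.exp_lt_exp.2 hlogu2
    have h2 : (4 : ℝ) ≤ Real.exp 2 := by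
      have h3 : Real.exp 2 = Real.exp 1 * Real.exp 1 := by
        rw [← Real.exp_add]
        norm_num
      have h4 : (2 : ℝ) ≤ Real.exp 1 := by
        have := Real.add_one_le_exp (1 : ℝ)
        linarith
      rw [h3]
      exact j0b_ax4 h4
    linarith
  have huw : u ≤ Real.sqrt w := by
    rw [hu, div_le_iff₀ hΛ0]
    calc w = Real.sqrt w * Real.sqrt w := hssw.symm
      _ ≤ _ := mul_le_mul_of_nonneg_left hz1 hsw.le
  have hloguv : Real.log u ≤ v := by
    rw [hv]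
    exact Real.log_le_log hu0 (huw.trans hsqw)
  obtain ⟨u', hu'⟩ : ∃ u' : ℝ, u' = (w - v) / Λ := ⟨_, rfl⟩
  have hu'Λ : u' * Λ = w - v := by rw [hu']; field_simp
  have huu' : u' = u - v / Λ := by rw [hu', hu]; ring
  have hvΛ : v / Λ ≤ 1 / 16 := by
    rw [div_le_iff₀ hΛ0]
    linarith
  have hvΛ0 : 0 < v / Λ := by positivity
  have hu'1 : 1 ≤ u' := by rw [huu']; linarith
  have hu'u : u' ≤ u := by rw [huu']; linarith
  have hu'0 : 0 < u' := by linarith
  have hlogu' : Real.log u' ≤ Λ / 4 := by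
    have h1 : Real.log u' ≤ Real.log u := Real.log_le_log hu'0 hu'u
    linarith
  have hΛ4 : 4 ≤ Λ := by linarith
  have hw60 : 60 ≤ w := by linarith
  have hsm := smooth_card_le (D := w ^ 2) (u := u') (T := T) hz2 hΛ.symm.le
    (by rw [hΛ, Real.exp_log hz0]; linarith) hΛ4 hu'1 hlogu' (by rw [hu'Λ]; exact hlogT)
    (j0b_ax5 hw60)
    (by
      rw [hu'Λ, Real.log_pow, ← hv]
      push_cast
      linarith)
  have hexp := j0b_exp (C' := C') hu0 hu'0 huu' hv0 hΛ0 hloguv g3 hz1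
  have h4 : (T : ℝ) / w ^ 2 ≤ T * (v / w) := by
    rw [mul_div_assoc', div_le_div_iff₀ (by positivity) hw0]
    have h5 : (1 : ℝ) ≤ v * w := j0b_ax6 hw60 hv32
    calc (T : ℝ) * w = T * w * 1 := by ring
      _ ≤ T * w * (v * w) := by gcongr
      _ = _ := by ring
  rw [← hC'] at hsm
  have h5 : Real.exp (2 * u' + C' - u' * Real.log u') ≤
      Real.exp (C' + 1) * Real.exp (2 * u - u * Real.log u) := by
    rw [← Real.exp_add]
    exact Real.exp_le_exp.2 hexp
  calc ((sm z T).card : ℝ) ≤ T / w ^ 2 +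
        32 * (T * Real.exp (2 * u' + C' - u' * Real.log u')) := hsm
    _ ≤ T * (v / w) + 32 * (T * (Real.exp (C' + 1) * Real.exp (2 * u - u * Real.log u))) := by
        gcongr
    _ = _ := by ring

lemma j0b_fin {T K E σ x C₀ s1 k1 c : ℝ} (hT : 0 ≤ T) (hx : 0 ≤ x) (hE : 0 ≤ E) (hσ : 0 ≤ σ)
    (hK : K = 91 + 32 * C₀) (hC₀ : 0 ≤ C₀) (h : c ≤ s1 + k1 + T * σ)
    (h1 : s1 ≤ T * x + 32 * C₀ * (T * E)) (h2 : k1 ≤ 89 * (T * x)) :
    c ≤ K * (T * (E + x + σ)) := by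
  have e0 : 0 ≤ C₀ * (T * σ) := by positivity
  have e1 : 0 ≤ C₀ * (T * x) := by positivity
  have e2 : 0 ≤ T * E := by positivity
  have e3 : 0 ≤ T * σ := by positivity
  have e4 : 0 ≤ T * x := by positivity
  have e5 : K * (T * (E + x + σ)) = 91 * (T * E) + 91 * (T * x) + 91 * (T * σ) +
      32 * C₀ * (T * E) + 32 * (C₀ * (T * x)) + 32 * (C₀ * (T * σ)) := by
    rw [hK]
    ring
  linarith

theorem t_J0B : S_J0B := by
  classical
  have hzth : 0 ≤ zth := by
    unfold zth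
    apply tsum_nonneg
    intro i
    positivity
  obtain ⟨C', hC'⟩ : ∃ C' : ℝ, C' = 4 + 5 / 2 * zth := ⟨_, rfl⟩
  obtain ⟨K, hK⟩ : ∃ K : ℝ, K = 91 + 32 * Real.exp (C' + 1) := ⟨_, rfl⟩
  have hC0 : 0 < Real.exp (C' + 1) := Real.exp_pos (C' + 1)
  have hK1 : 91 ≤ K := by
    rw [hK]
    linarith
  refine ⟨K, by linarith, fun δ hδ hδ1 => ?_⟩
  have hev : ∀ᶠ N : ℕ in atTop, _ :=
    (Real.tendsto_log_atTop.comp tendsto_log_nat).eventually (j0b_ev δ)
  obtain ⟨M₁, hM₁⟩ := eventually_atTop.1 hev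
  refine ⟨max M₁ (10 ^ 16), fun N hN => ?_⟩
  obtain ⟨g1, g2, g3, g4, g5⟩ := hM₁ N ((le_max_left _ _).trans hN)
  have hM1 : 10 ^ 16 ≤ N := (le_max_right _ _).trans hN
  have hM1' : 1 ≤ N := le_trans (by norm_num) hM1
  clear hM1
  simp only [Function.comp] at g1 g2 g3 g4 g5
  obtain ⟨L, hL⟩ : ∃ L, L = Real.log (N : ℝ) := ⟨_, rfl⟩
  obtain ⟨w, hw⟩ : ∃ w, w = Real.log L := ⟨_, rfl⟩
  obtain ⟨v, hv⟩ : ∃ v, v = Real.log w := ⟨_, rfl⟩
  obtain ⟨y, hy⟩ : ∃ y, y = yM 8 N := ⟨_, rfl⟩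
  rw [← hL, ← hw] at g1 g2 g3 g4 g5
  rw [← hv] at g2 g3 g4 g5
  rw [← hy, ← hL, ← hw, ← hv]
  have hw60 : 60 ≤ w := by linarith
  have hw0 : 0 < w := by linarith
  have hv0 : 0 < v := by linarith
  have hL0 : 0 ≤ L := by
    rw [hL]
    exact Real.log_nonneg (by exact_mod_cast hM1')
  have hLpos : 0 < L := by
    rcases hL0.lt_or_eq with h | h
    · exact h
    · exfalso
      rw [← h, Real.log_zero] at hw
      linarith
  have hwL : w ≤ L - 1 := by
    rw [hw]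
    exact Real.log_le_sub_one_of_pos hLpos
  have hsw : 0 < Real.sqrt w := Real.sqrt_pos.2 hw0
  have hssw : Real.sqrt w * Real.sqrt w = w := Real.mul_self_sqrt hw0.le
  have hs56 : 56 ≤ Real.sqrt w := Real.le_sqrt_of_sq_le (by linarith)
  have h5v := (j0b_ax1 g2 hssw hs56).1
  have h2v : 2 * v ≤ w := by linarith
  have hy' : y = ⌊L / (3 * (13 : ℝ))⌋₊ := by
    rw [hy, yM, hL]
    norm_num
  obtain ⟨hy2, hy3, hlogy1, hlogy2⟩ :=
    y_facts (by norm_num) hLpos hw hv (by linarith) (by linarith) h2v hy'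
  intro M hMpos z hz1 hzy T hTδ hTL
  obtain ⟨Λ, hΛ⟩ : ∃ Λ : ℝ, Λ = Real.log z := ⟨_, rfl⟩
  rw [← hΛ] at hz1 ⊢
  have hΛ0 : 0 < Λ := by linarith
  have hz0 : (0 : ℝ) < z := by
    rcases Nat.eq_zero_or_pos z with h | h
    · rw [h, Nat.cast_zero, Real.log_zero] at hΛ
      linarith
    · exact_mod_cast h
  have hz2 : 2 ≤ z := by
    by_contra hcon
    have h1 : z ≤ 1 := by omega
    have h2 : (z : ℝ) ≤ 1 := by exact_mod_cast h1
    have h3 := Real.log_nonpos hz0.le h2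
    linarith
  have hT0 : (0 : ℝ) < T := lt_trans (by positivity) hTδ
  obtain ⟨u, hu⟩ : ∃ u : ℝ, u = w / Λ := ⟨_, rfl⟩
  rw [← hu]
  have hu0 : 0 < u := by rw [hu]; positivity
  have hσ0 : 0 ≤ SG M z y := by
    unfold SG
    exact Finset.sum_nonneg fun p _ => by positivity
  have hvw0 : 0 < v / w := by positivity
  have hE0 : 0 < Real.exp (2 * u - u * Real.log u) := Real.exp_pos _
  rcases le_or_gt (Real.log u) 2 with hlogu | hlogu2
  · -- trivial case
    have h1 : 0 ≤ 2 * u - u * Real.log u := j0b_ax3 hu0 hlogu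
    have h2 := Real.one_le_exp h1
    have h3 : (((Icc 1 T).filter (fun k => ∀ l ∈ (pr y \ pr z).filter (fun l => ¬ l ∣ M),
        ¬ l ∣ k)).card : ℝ) ≤ T := by
      have h4 := Finset.card_filter_le (Icc 1 T)
        (fun k => ∀ l ∈ (pr y \ pr z).filter (fun l => ¬ l ∣ M), ¬ l ∣ k)
      rw [Nat.card_Icc, Nat.add_sub_cancel] at h4
      exact_mod_cast h4
    refine h3.trans ?_
    have h5 : (T : ℝ) * 1 ≤ T * (Real.exp (2 * u - u * Real.log u) + v / w + SG M z y) := by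
      apply mul_le_mul_of_nonneg_left _ hT0.le
      linarith
    have h6 : 0 ≤ T * (Real.exp (2 * u - u * Real.log u) + v / w + SG M z y) := by
      positivity
    have h7 := le_mul_of_one_le_left h6 (by linarith : (1 : ℝ) ≤ K)
    linarith
  -- the logarithm of `T`
  have hlogT : w - v ≤ Real.log T := by
    have h1 := Real.log_le_log (by positivity) hTδ.le
    rw [Real.log_mul hδ.ne' hLpos.ne', ← hw] at h1
    linarith
  have hsmooth := j0b_smooth hC' g1 hv g4 g2 g3 hz1 hΛ hz0 hz2 hu hlogu2 hlogT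
  have hpart2 := j0b_large hLpos hw60 hv g4 hTL hy2 hlogy2 hT0
  have h1 : (((Icc 1 T).filter (fun k => ∃ l, l.Prime ∧ y < l ∧ l ∣ k)).card : ℝ) ≤
      89 * (T * (v / w)) := by
    refine (large_card_le hy3 _ ?_).trans hpart2
    intro k hk
    rw [mem_filter, mem_Icc] at hk
    exact ⟨hk.1.1, hk.1.2, hk.2⟩
  exact j0b_fin hT0.le hvw0.le hE0.le hσ0 hK hC0.le (j0b_decomp hMpos) hsmooth h1

end

end Pool.Agent.FXC
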