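import Mathlib
import Pool.Agent.FXC.St

set_option autoImplicit false

/-!
# FXC, module EXC (helper86): the class modulo the product
-/

namespace Pool.Agent.FXC

open Finset

/-- A class `β` modulo the prime `l` with `l ∣ a + κ β`. -/
lemma exc_local (a : ℤ) (l κ : ℕ) (hl : l.Prime) (hκ : ¬ l ∣ κ) :
    ∃ β : ℕ, (l : ℤ) ∣ a + (κ : ℤ) * (β : ℤ) := by
  haveI : Fact l.Prime := ⟨hl⟩
  have hne : (κ : ZMod l) ≠ 0 := fun h => hκ ((ZMod.natCast_eq_zero_iff κ l).1 h)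
  refine ⟨(-(a : ZMod l) * (κ : ZMod l)⁻¹).val, ?_⟩
  rw [← ZMod.intCast_zmod_eq_zero_iff_dvd]
  push_cast
  rw [ZMod.natCast_zmod_val]
  field_simp
  ring

theorem t_EXC : S_EXC := by
  classical
  intro a y Q hQ κ hκ
  have hex : ∀ l : ℕ, ∃ β : ℕ, l ∈ Q → (l : ℤ) ∣ a + (κ l : ℤ) * (β : ℤ) := by
    intro l
    by_cases hl : l ∈ Q
    · obtain ⟨β, hβ⟩ := exc_local a l (κ l) (hQ l hl) (hκ l hl)
      exact ⟨β, fun _ => hβ⟩
    · exact ⟨0, fun h => absurd h hl⟩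
  choose β hβ using hex
  have hcop : (Q : Set ℕ).Pairwise (Function.onFun Nat.Coprime (fun l : ℕ => l)) := by
    intro l hl q hq hne
    exact (Nat.coprime_primes (hQ l hl) (hQ q hq)).2 hne
  have hpos : ∀ l ∈ Q, (fun l : ℕ => l) l ≠ 0 := fun l hl => (hQ l hl).ne_zero
  obtain ⟨b₀, hb₀⟩ := Nat.chineseRemainderOfFinset β (fun l => l) Q hpos hcop
  set W := ∏ l ∈ Q, l with hW
  have hWpos : 0 < W := Finset.prod_pos fun l hl => (hQ l hl).pos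
  obtain ⟨b, hb1, hb2, hb3⟩ : ∃ b : ℕ, y ≤ b ∧ b < y + W ∧ b ≡ b₀ [MOD W] := by
    refine ⟨y + (b₀ + (W - 1) * y) % W, by omega, ?_, ?_⟩
    · have := Nat.mod_lt (b₀ + (W - 1) * y) hWpos
      omega
    · have h1 : y + (b₀ + (W - 1) * y) % W ≡ y + (b₀ + (W - 1) * y) [MOD W] :=
        Nat.ModEq.add_left _ (Nat.mod_modEq _ _)
      have h2 : y + (b₀ + (W - 1) * y) = b₀ + W * y := by
        obtain ⟨V, hV⟩ := Nat.exists_eq_succ_of_ne_zero hWpos.ne'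
        rw [hV, Nat.succ_sub_one, Nat.succ_eq_add_one]
        ring
      rw [h2] at h1
      refine h1.trans ?_
      have h3 : b₀ + W * y ≡ b₀ + 0 [MOD W] :=
        Nat.ModEq.add_left _ ((Nat.modEq_zero_iff_dvd).2 (Dvd.intro _ rfl))
      exact h3
  refine ⟨b, hb1, hb2, ?_⟩
  intro l hl k hk
  have hlW : l ∣ W := Finset.dvd_prod_of_mem _ hl
  have h1 : b ≡ β l [MOD l] := (hb3.of_dvd hlW).trans (hb₀ l hl)
  have h2 : (b : ZMod l) = (β l : ZMod l) := (ZMod.natCast_eq_natCast_iff _ _ _).2 h1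
  have h3 : (k : ZMod l) = (κ l : ZMod l) := (ZMod.natCast_eq_natCast_iff _ _ _).2 hk
  have h4 := (ZMod.intCast_zmod_eq_zero_iff_dvd _ l).2 (hβ l hl)
  rw [← ZMod.intCast_zmod_eq_zero_iff_dvd]
  push_cast at h4 ⊢
  rw [h2, h3]
  exact h4

end Pool.Agent.FXC
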