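import Mathlib
import Pool.Agent.FXC.St

set_option autoImplicit false

/-!
# FXC, second part (MP_e1dc24_nt): all small multiples of a fixed class at once

Notation as in `St.lean`: `L = log x`, `w = log L`, `v = log w`, `y = yM 8 x`, `A = |a|`, and
`H' = ⌊exp (sqrt w)⌋`. Sites: the numbers `h a + k m` for the pairs (h, k), `0 < |h| ≤ H`, `1 ≤ k ≤ T`,
`gcd(h, k) = 1`, where `H T ≤ c (φ(A)/A) L log z / s` and `H ≤ w²`. Choice of `m` modulo the primes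
`l` not dividing `a`: middle primes `z < l ≤ y`: `m ≡ - a / t`, so that `h a + k m ≡ (a / t) (h t - k)`, for
ONE `t ≤ H'`; primes `l ≤ z`: a nonzero class by averaging over the pairs.
-/

namespace Pool.Agent.FXC

open Finset Filter BlockSieve Pool.Agent.UNI

noncomputable section

/-- The product of `l / (l - 1)` over the primes `l ∈ P` dividing the integer `n`. -/
def gI (P : Finset ℕ) (n : ℤ) : ℝ :=
  ∏ l ∈ P.filter (fun l : ℕ => (l : ℤ) ∣ n), ((l : ℝ) / ((l : ℝ) - 1))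

/-- **AVH**: `AVG` for the progressions `j + h t`, `gcd(j, h) = 1` (`AVG` is the case `h = 1`).
Proof: that of `t_AVG` (`Pool/Agent/FXC/AVG.lean`), with `avg_count` replaced by: for `N ≥ 1` the number of
`t ∈ [1, H']` with `N ∣ j + h t` is at most `H'/N + 1`. Indeed if there is such a `t` then `gcd(N, h) = 1`
(a common prime would divide `j`), and two such `t`, `t'` satisfy `N ∣ h (t - t')`, so `N ∣ t - t'`. The
number `j + h t` is positive and at most `exp (2 w)`, so it has at most `3 w` prime factors. -/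
def S_AVH : Prop := ∃ C : ℝ, 1 ≤ C ∧ ∃ w₀ : ℝ, ∀ w : ℝ, w₀ ≤ w → ∀ P : Finset ℕ,
  (∀ l ∈ P, l.Prime) → ∀ j h : ℤ, IsCoprime j h →
  |(j : ℝ)| + |(h : ℝ)| * Real.exp (Real.sqrt w) ≤ Real.exp (2 * w) →
  ∑ t ∈ (Icc 1 ⌊Real.exp (Real.sqrt w)⌋₊).filter (fun t : ℕ => 0 < j + h * (t : ℤ)),
    gI P (j + h * (t : ℤ)) ≤ C * (⌊Real.exp (Real.sqrt w)⌋₊ : ℝ)

/-- **SMH**: the mean of `g` over `[1, H]`. Proof: for `h ≥ 1` the product is at most `h / φ(h)` (it runs over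
some of the prime factors of `h`, all factors are `≥ 1`; `totient_div_eq` in `UNI/B2` or `ratio_eq_prod` in
`UNI/B1`), `h / φ(h) ≤ ∑_(e ∣ h) τ(e)/e` (`ratio_le` in `UNI/B1`), so the sum is at most
`∑_(e ≤ H) (τ(e)/e) (H/e) ≤ 4 H` (`sum_divisors_div_sq_le` in `UNI/B1`). -/
def S_SMH : Prop := ∀ P : Finset ℕ, (∀ l ∈ P, l.Prime) → ∀ H : ℕ,
  ∑ h ∈ Icc 1 H, gI P (h : ℤ) ≤ 4 * (H : ℝ)

/-- **GRH**: the greedy choice for pairs. Proof: that of `t_GRU` (`Pool/Agent/FXC/GRU.lean`), weights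
`ω p`, step `insert l Q` with `ω' p = ω p * (if l ∣ p.1 ∨ l ∣ p.2 then 1 else 1 - 1/(l-1))`: for a pair `p` with
`l` dividing neither `p.1` nor `p.2` there is exactly ONE `c ∈ [1, l-1]` with `l ∣ p.1 a + p.2 c`
(`c ≡ - p.1 a / p.2`), so the sum over `c` of the weights of the remaining pairs is at most
l-1 times `∑ ω' p`. -/
def S_GRH : Prop := ∀ (a : ℤ) (S : Finset (ℤ × ℕ)) (Q : Finset ℕ), (∀ l ∈ Q, l.Prime) →
  (∀ l ∈ Q, ¬ (l : ℤ) ∣ a) → ∃ β : ℕ → ℕ, (∀ l ∈ Q, ¬ l ∣ β l) ∧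
  ((S.filter (fun p => ∀ l ∈ Q, ¬ (l : ℤ) ∣ p.1 * a + (p.2 : ℤ) * (β l : ℤ))).card : ℝ) ≤
    ∑ p ∈ S, ∏ l ∈ Q.filter (fun l : ℕ => ¬ (l : ℤ) ∣ p.1 ∧ ¬ l ∣ p.2), (1 - 1 / ((l : ℝ) - 1))

/-- **EXH**: a representative of the classes `β l` (Chinese remainder theorem; part of `exists_class` in
`UNI/B5` and of `t_EXC`). -/
def S_EXH : Prop := ∀ (y : ℕ) (Q : Finset ℕ), (∀ l ∈ Q, l.Prime) → ∀ β : ℕ → ℕ,
  ∃ b : ℕ, y ≤ b ∧ b < y + ∏ l ∈ Q, l ∧ ∀ l ∈ Q, b ≡ β l [MOD l]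

/-- **ENH**: the engine for pairs. Proof (from `Pool.Agent.DLG.engL`, compare `FXC/ENG.lean`): the forms
`h a + k n`; a window prime `l > (log X)^4` does not divide `k ≤ T`, and for different pairs
(h a) k' - (h' a) k = a (h k' - h' k) with `l ∤ a` and `0 < |h k' - h' k| ≤ 2 H T < l`
(`h k' = h' k` with `gcd(h, k) = gcd(h', k') = 1` and `k, k' ≥ 1` gives (h, k) = (h', k')). -/
def S_ENH : Prop := ∃ c₁ : ℝ, 0 < c₁ ∧ ∀ A : ℕ, ∃ X₀ : ℝ, ∀ X : ℝ, X₀ ≤ X →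
  ∀ (a : ℤ) (W b : ℕ), a ≠ 0 → (a.natAbs : ℝ) ≤ X ^ A → 1 ≤ W → (W : ℝ) ^ 8 ≤ X →
  W.Coprime a.natAbs → (∀ p : ℕ, p.Prime → p ∣ W → (p : ℝ) ≤ (Real.log X) ^ 4) →
  ∀ (H T : ℕ), 1 ≤ H → 2 * (H : ℝ) * T ≤ (Real.log X) ^ 4 →
  ∀ S : Finset (ℤ × ℕ), (∀ p ∈ S, IsCoprime p.1 (p.2 : ℤ) ∧ |p.1| ≤ H ∧ 1 ≤ p.2 ∧ p.2 ≤ T) →
  (S.card : ℝ) ≤ c₁ * Real.log X →
  ∃ x : ℕ, ((W * x : ℕ) : ℝ) ≤ X ∧ (b + W * x).Coprime a.natAbs ∧ ∀ p ∈ S, ∃ l : ℕ, l.Prime ∧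
    (Real.log X) ^ 4 < (l : ℝ) ∧ (l : ℝ) ≤ Real.exp (Real.sqrt (Real.log X)) ∧
    (l : ℤ) ∣ p.1 * a + (p.2 : ℤ) * ((b + W * x : ℕ) : ℤ)

/-- **J0H**: `J0B` in the range `L / w⁴ < T ≤ 2 L w²` (proof of `t_J0B` with `w - 4 v ≤ log T`). -/
def S_J0H : Prop := ∃ K : ℝ, 1 ≤ K ∧ ∃ N₀ : ℕ, ∀ N : ℕ, N₀ ≤ N →
  ∀ M : ℕ, 1 ≤ M → ∀ z : ℕ, Real.sqrt (Real.log (Real.log N)) ≤ Real.log z → z ≤ yM 8 N →
  ∀ T : ℕ, Real.log N / Real.log (Real.log N) ^ 4 < T →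
  (T : ℝ) ≤ 2 * (Real.log N * Real.log (Real.log N) ^ 2) →
  (((Icc 1 T).filter (fun k => ∀ l ∈ (pr (yM 8 N) \ pr z).filter (fun l => ¬ l ∣ M),
    ¬ l ∣ k)).card : ℝ) ≤
    K * (T * (Real.exp (2 * (Real.log (Real.log N) / Real.log z) -
        Real.log (Real.log N) / Real.log z * Real.log (Real.log (Real.log N) / Real.log z)) +
      Real.log (Real.log (Real.log N)) / Real.log (Real.log N) + SG M z (yM 8 N)))

/-- The pairs (h, k), `0 < |h| ≤ H`, `1 ≤ k ≤ T`, `gcd(h, k) = 1`. -/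
def PR (H T : ℕ) : Finset (ℤ × ℕ) :=
  ((Icc (-(H : ℤ)) H) ×ˢ (Icc 1 T)).filter (fun p => p.1 ≠ 0 ∧ IsCoprime p.1 (p.2 : ℤ))

/-- **SVH**: the covering. `X = δ (φ(A)/A) (L log z / s)`, `T = ⌊X / H⌋`.
Proof. `H T ≤ X ≤ L w²` as in `svd`. If `X ≤ δ L` take `β = 1` (at most `2 H T ≤ 2 δ L` pairs). Otherwise
`T ≥ L / w³`, `T₁ = T + H H' ≤ 2 T`; `J₀` = the `j ∈ [1, T₁]` without prime factors in (z, y] not dividing
`A`; `|J₀| ≤ 2 K₀ T s` (`J0H`, or `|J₀| ≤ T₁` if `s = 1`). For `t ≤ H'` and `k > H H'` put `j = k - h t`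
(`1 ≤ j ≤ T₁`, `gcd(j, h) = 1`). By `AVH` for every `h` and every `j ∈ J₀` prime to `h`, and `SMH`
(twice, for `h > 0` and `h < 0`), there is a `t ∈ [1, H']` with
`∑_h g(h) ∑_(j ∈ J₀, gcd(j, h) = 1, j + h t > 0) g(j + h t) ≤ 8 C H |J₀|`. For the middle `l` choose `β l` with
`t β l ≡ - a` modulo `l` (then `l ∤ β l`), for `l ≤ z` take `β` from `GRH` applied to the pairs with
`k > H H'` whose `j` is in `J₀`. If `l` middle does not divide `h a + k β l` then it does not divide `k - h t`. The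
number of the pairs with `k ≤ H H'` is at most `2 H² H' ≤ δ L`. -/
def S_SVH : Prop := ∃ K : ℝ, 1 ≤ K ∧ ∀ δ : ℝ, 0 < δ → δ ≤ 1 → ∃ N₀ : ℕ, ∀ N : ℕ, N₀ ≤ N →
  60 ≤ Real.log (Real.log N) ∧ (yM 8 N : ℝ) ≤ Real.log N / 39 ∧
  ∀ a : ℤ, a ≠ 0 → ∀ z : ℕ, Real.sqrt (Real.log (Real.log N)) ≤ Real.log z → z ≤ yM 8 N →
  ∀ s : ℝ, s ≤ 1 → Real.log (Real.log (Real.log N)) / Real.log (Real.log N) ≤ s →
  (s = 1 ∨ Real.exp (2 * (Real.log (Real.log N) / Real.log z) -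
      Real.log (Real.log N) / Real.log z * Real.log (Real.log (Real.log N) / Real.log z)) +
    Real.log (Real.log (Real.log N)) / Real.log (Real.log N) + SG a.natAbs z (yM 8 N) ≤ s) →
  ∀ H : ℕ, 1 ≤ H → (H : ℝ) ≤ Real.log (Real.log N) ^ 2 → ∀ T : ℕ,
  T = ⌊δ * ((a.natAbs.totient : ℝ) / a.natAbs) * (Real.log N * Real.log z / s) / H⌋₊ →
  (H : ℝ) * T ≤ Real.log N * Real.log (Real.log N) ^ 2 ∧
  ∃ β : ℕ → ℕ, (∀ l ∈ pr (yM 8 N), ¬ l ∣ a.natAbs → ¬ l ∣ β l) ∧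
    (((PR H T).filter (fun p => ∀ l ∈ pr (yM 8 N), ¬ l ∣ a.natAbs →
      ¬ (l : ℤ) ∣ p.1 * a + (p.2 : ℤ) * (β l : ℤ))).card : ℝ) ≤ K * δ * Real.log N

/-- **THH**. As `thd`; a pair with `gcd(h, k) = g > 1` gives `g (h' a + k' m)` with `h' a + k' m ≥ 2`; `m` is
prime to every `0 < |h| ≤ H`: a prime `l ≤ H` divides `a` (and `m` is prime to `a`) or `m ≡ β l` modulo `l`. -/
def S_THH : Prop := ∃ c₀ : ℝ, 0 < c₀ ∧ c₀ ≤ 1 ∧ ∀ B : ℕ,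
  ∃ n₀ : ℕ, ∀ n : ℕ, n₀ ≤ n → ∀ a : ℤ, a ≠ 0 → a.natAbs ≤ n ^ B → ∀ z : ℕ,
  Real.sqrt (Real.log (Real.log n)) ≤ Real.log z → z ≤ yM 8 n →
  ∀ s : ℝ, s ≤ 1 → Real.log (Real.log (Real.log n)) / Real.log (Real.log n) ≤ s →
  (s = 1 ∨ Real.exp (2 * (Real.log (Real.log n) / Real.log z) -
      Real.log (Real.log n) / Real.log z * Real.log (Real.log (Real.log n) / Real.log z)) +
    Real.log (Real.log (Real.log n)) / Real.log (Real.log n) + SG a.natAbs z (yM 8 n) ≤ s) →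
  ∀ H : ℕ, 1 ≤ H → (H : ℝ) ≤ Real.log (Real.log n) ^ 2 →
  ∀ y : ℕ, H * a.natAbs ≤ y → ∃ m : ℕ, y ≤ m ∧ m ≤ y + n ∧ H * a.natAbs < m ∧
    ∀ h : ℤ, h ≠ 0 → |h| ≤ H → IsCoprime (h * a) (m : ℤ) ∧ ∀ k : ℕ, 1 ≤ k →
      (k : ℝ) ≤ c₀ * ((a.natAbs.totient : ℝ) / a.natAbs) * (Real.log n * Real.log z / s) / H →
      ∀ q : ℕ, q.Prime → (q : ℤ) ≠ h * a + k * (m : ℤ)

/-- **FGH**, the theorem. As `fgd`; `q = h a + k m ≥ k m / 2` since `|h a| ≤ m / 2`. -/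
def S_FGH : Prop := ∃ c₀ : ℝ, 0 < c₀ ∧ ∀ κ : ℝ, 0 < κ → ∀ B : ℕ, ∃ x₀ : ℕ, ∀ x : ℕ, x₀ ≤ x →
  ∀ a : ℤ, a ≠ 0 → a.natAbs ≤ x ^ B → ∀ H : ℕ, 1 ≤ H → (H : ℝ) ≤ Real.log (Real.log x) ^ 2 →
  ∀ y : ℕ, 2 * H * a.natAbs ≤ y → ∃ m : ℕ, y ≤ m ∧ m ≤ y + x ∧
    ∀ h : ℤ, h ≠ 0 → |h| ≤ H → IsCoprime (h * a) (m : ℤ) ∧
      ∀ q : ℕ, q.Prime → (q : ℤ) ≡ h * a [ZMOD m] → (q : ℤ) ≠ h * a →
      c₀ * ((a.natAbs.totient : ℝ) / a.natAbs) * (m * (Real.log x * Real.log (Real.log x) ^ 2 *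
          Real.log (Real.log (Real.log (Real.log x))) / (Real.log (Real.log (Real.log x))) ^ 2)) /
        (H * (1 + Real.log (Real.log x) / Real.log (Real.log (Real.log x)) *
          ∑ p ∈ a.natAbs.primeFactors.filter (fun p : ℕ =>
            Real.exp ((1 - κ) * (Real.log (Real.log x) *
            Real.log (Real.log (Real.log (Real.log x))) / Real.log (Real.log (Real.log x)))) <
              (p : ℝ) ∧ (p : ℝ) ≤ Real.log x), (1 : ℝ) / p)) < q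

end

end Pool.Agent.FXC
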