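import Mathlib
import Pool.Agent.FXC.StH

set_option autoImplicit false

/-!
# SMH: the mean of `g` over `[1, H]`
-/

namespace Pool.Agent.FXC

open Finset Filter BlockSieve Pool.Agent.UNI

noncomputable section

theorem smh_le (P : Finset ℕ) (hP : ∀ l ∈ P, l.Prime) (h : ℕ) (hh : 0 < h) :
    gI P (h : ℤ) ≤ ∑ e ∈ h.divisors, (e.divisors.card : ℝ) / e := by
  refine le_trans ?_ (ratio_le hh)
  rw [ratio_eq_prod hh]
  unfold gI
  have hsub : P.filter (fun l : ℕ => (l : ℤ) ∣ (h : ℤ)) ⊆ h.primeFactors := by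
    intro l hl
    rw [Finset.mem_filter] at hl
    exact Nat.mem_primeFactors.2 ⟨hP l hl.1, Int.natCast_dvd_natCast.1 hl.2, hh.ne'⟩
  have hfac : ∀ l : ℕ, l.Prime → (l : ℝ) / ((l : ℝ) - 1) = 1 + invPhi l := by
    intro l hl
    have h1 : (1 : ℝ) < l := by exact_mod_cast hl.one_lt
    rw [invPhi_apply, Nat.totient_prime hl, Nat.cast_sub hl.one_le, Nat.cast_one]
    have h2 : (l : ℝ) - 1 ≠ 0 := by linarith
    field_simp
    ring
  have h1 : ∏ l ∈ P.filter (fun l : ℕ => (l : ℤ) ∣ (h : ℤ)), ((l : ℝ) / ((l : ℝ) - 1)) =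
      ∏ l ∈ h.primeFactors, if l ∈ P.filter (fun l : ℕ => (l : ℤ) ∣ (h : ℤ)) then
        (1 + invPhi l) else 1 := by
    rw [Finset.prod_ite_mem, Finset.inter_eq_right.2 hsub]
    refine Finset.prod_congr rfl fun l hl => hfac l (hP l (Finset.mem_filter.1 hl).1)
  rw [h1]
  refine Finset.prod_le_prod (fun l _ => ?_) (fun l _ => ?_)
  · split_ifs
    · rw [invPhi_apply]
      positivity
    · exact zero_le_one
  · have h2 : (0 : ℝ) ≤ invPhi l := by
      rw [invPhi_apply]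
      positivity
    split_ifs
    · exact le_rfl
    · linarith

theorem t_SMH : S_SMH := by
  intro P hP H
  have h1 : ∑ h ∈ Icc 1 H, gI P (h : ℤ) ≤
      ∑ h ∈ Icc 1 H, ∑ e ∈ Icc 1 H, if e ∣ h then (e.divisors.card : ℝ) / e else 0 := by
    refine Finset.sum_le_sum fun h hh => ?_
    rw [Finset.mem_Icc] at hh
    refine (smh_le P hP h hh.1).trans (le_of_eq ?_)
    rw [← Finset.sum_filter]
    refine Finset.sum_congr ?_ fun _ _ => rfl
    ext e
    rw [Nat.mem_divisors, Finset.mem_filter, Finset.mem_Icc]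
    constructor
    · rintro ⟨h2, h3⟩
      exact ⟨⟨Nat.pos_of_dvd_of_pos h2 hh.1, (Nat.le_of_dvd hh.1 h2).trans hh.2⟩, h2⟩
    · rintro ⟨_, h2⟩
      exact ⟨h2, by omega⟩
  rw [Finset.sum_comm] at h1
  have h2 : ∀ e ∈ Icc 1 H, (∑ h ∈ Icc 1 H, if e ∣ h then (e.divisors.card : ℝ) / e else 0) ≤
      (H : ℝ) * ((e.divisors.card : ℝ) / (e : ℝ) ^ 2) := by
    intro e he
    rw [Finset.mem_Icc] at he
    have he0 : (0 : ℝ) < e := by exact_mod_cast he.1
    have h3 : ((Icc 1 H).filter (fun h => e ∣ h)).card = H / e := by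
      rw [← Nat.Ioc_filter_dvd_card_eq_div H e]
      rfl
    rw [← Finset.sum_filter, Finset.sum_const, h3, nsmul_eq_mul]
    have h4 : ((H / e : ℕ) : ℝ) ≤ (H : ℝ) / e := Nat.cast_div_le
    calc ((H / e : ℕ) : ℝ) * ((e.divisors.card : ℝ) / e)
        ≤ (H : ℝ) / e * ((e.divisors.card : ℝ) / e) :=
          mul_le_mul_of_nonneg_right h4 (by positivity)
      _ = (H : ℝ) * ((e.divisors.card : ℝ) / (e : ℝ) ^ 2) := by
          field_simp
  refine h1.trans ((Finset.sum_le_sum h2).trans ?_)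
  rw [← Finset.mul_sum, mul_comm (4 : ℝ)]
  exact mul_le_mul_of_nonneg_left (sum_divisors_div_sq_le H) (by positivity)

end

end Pool.Agent.FXC
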