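import Mathlib
import Pool.Agent.FXC.St

set_option autoImplicit false
set_option maxHeartbeats 4000000

namespace Pool.Agent.FXC

open Finset Filter BlockSieve Pool.Agent.UNI

lemma avg_tel (n : ℕ) (hn : 1 ≤ n) : ∏ i ∈ Icc 2 n, ((i : ℝ) / ((i : ℝ) - 1)) = n := by
  induction n, hn using Nat.le_induction with
  | base => simp
  | succ n hn ih =>
    rw [Finset.prod_Icc_succ_top (by omega), ih]
    have h : (n : ℝ) ≠ 0 := by positivity
    push_cast
    rw [add_sub_cancel_right]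
    field_simp

lemma avg_prod_le (P : Finset ℕ) (n : ℕ) (hn : 1 ≤ n) (h2 : ∀ l ∈ P, 2 ≤ l)
    (hP : ∀ l ∈ P, l ≤ n) : ∏ l ∈ P, ((l : ℝ) / ((l : ℝ) - 1)) ≤ n := by
  rw [← avg_tel n hn]
  have hsub : P ⊆ Icc 2 n := fun l hl => mem_Icc.2 ⟨h2 l hl, hP l hl⟩
  have hone : ∀ i ∈ Icc 2 n, (1 : ℝ) ≤ (i : ℝ) / ((i : ℝ) - 1) := by
    intro i hi
    have h1 : (2 : ℝ) ≤ i := by exact_mod_cast (mem_Icc.1 hi).1
    rw [le_div_iff₀ (by linarith)]
    linarith
  rw [← Finset.prod_sdiff hsub]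
  have h1 : (1 : ℝ) ≤ ∏ i ∈ Icc 2 n \ P, ((i : ℝ) / ((i : ℝ) - 1)) := by
    calc (1 : ℝ) = ∏ i ∈ Icc 2 n \ P, (1 : ℝ) := by rw [Finset.prod_const_one]
      _ ≤ _ := Finset.prod_le_prod (fun _ _ => zero_le_one)
        (fun i hi => hone i (mem_sdiff.1 hi).1)
  have h0 : (0 : ℝ) ≤ ∏ l ∈ P, ((l : ℝ) / ((l : ℝ) - 1)) :=
    Finset.prod_nonneg fun i hi => zero_le_one.trans (hone i (hsub hi))
  nlinarith

lemma avg_sumtel (n : ℕ) (hn : 1 ≤ n) :
    ∑ i ∈ Icc 2 n, (1 : ℝ) / ((i : ℝ) * ((i : ℝ) - 1)) = 1 - 1 / n := by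
  induction n, hn using Nat.le_induction with
  | base => simp
  | succ n hn ih =>
    rw [Finset.sum_Icc_succ_top (by omega), ih]
    have h : (n : ℝ) ≠ 0 := by positivity
    have h' : (n : ℝ) + 1 ≠ 0 := by positivity
    push_cast
    rw [add_sub_cancel_right]
    field_simp
    ring

lemma avg_sum_le (P : Finset ℕ) (h2 : ∀ l ∈ P, 2 ≤ l) :
    ∑ l ∈ P, (1 : ℝ) / ((l : ℝ) * ((l : ℝ) - 1)) ≤ 1 := by
  have hsub : P ⊆ Icc 2 (P.sup id + 1) := fun l hl =>
    mem_Icc.2 ⟨h2 l hl, (Finset.le_sup (f := id) hl).trans (Nat.le_succ _)⟩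
  refine (Finset.sum_le_sum_of_subset_of_nonneg hsub ?_).trans ?_
  · intro i hi _
    have h1 : (2 : ℝ) ≤ i := by exact_mod_cast (mem_Icc.1 hi).1
    have : (0 : ℝ) ≤ (i : ℝ) * ((i : ℝ) - 1) := by nlinarith
    positivity
  · rw [avg_sumtel _ (by omega)]
    have : (0 : ℝ) ≤ 1 / ((P.sup id + 1 : ℕ) : ℝ) := by positivity
    linarith

lemma avg_count (j H N : ℕ) (hN : 1 ≤ N) :
    (((Icc 1 H).filter (fun t => N ∣ j + t)).card : ℝ) ≤ H / N + 1 := by
  have h1 : ((Icc 1 H).filter (fun t => N ∣ j + t)).card ≤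
      (Ioc (j / N) ((j + H) / N)).card := by
    apply Finset.card_le_card_of_injOn (fun t => (j + t) / N)
    · intro t ht
      rw [Finset.mem_coe, mem_filter, mem_Icc] at ht
      obtain ⟨⟨ht1, ht2⟩, q, hq⟩ := ht
      rw [Finset.mem_coe, mem_Ioc]
      refine ⟨?_, Nat.div_le_div_right (by omega)⟩
      show j / N < (j + t) / N
      rw [hq, Nat.mul_div_cancel_left _ (by omega)]
      rw [Nat.div_lt_iff_lt_mul (by omega)]
      rw [mul_comm]
      omega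
    · intro t ht t' ht' h
      rw [Finset.mem_coe, mem_filter] at ht ht'
      have e1 := Nat.div_mul_cancel ht.2
      have e2 := Nat.div_mul_cancel ht'.2
      simp only at h
      rw [h] at e1
      omega
  rw [Nat.card_Ioc] at h1
  have h2 : (((j + H) / N - j / N : ℕ) : ℝ) ≤ H / N + 1 := by
    have hle : j / N ≤ (j + H) / N := Nat.div_le_div_right (by omega)
    rw [Nat.cast_sub hle]
    have hN' : (0 : ℝ) < N := by exact_mod_cast hN
    have a1 : (((j + H) / N : ℕ) : ℝ) ≤ ((j : ℝ) + H) / N := by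
      have := @Nat.cast_div_le ℝ _ _ _ (j + H) N
      push_cast at this
      exact this
    have a2 : (j : ℝ) / N < ((j / N : ℕ) : ℝ) + 1 := by
      rw [div_lt_iff₀ hN']
      have h3 : j < (j / N + 1) * N := by
        have := Nat.div_add_mod j N
        have h4 := Nat.mod_lt j (show N > 0 by omega)
        nlinarith
      exact_mod_cast h3
    rw [add_div] at a1
    linarith
  calc (((Icc 1 H).filter (fun t => N ∣ j + t)).card : ℝ)
      ≤ (((j + H) / N - j / N : ℕ) : ℝ) := by exact_mod_cast h1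
    _ ≤ _ := h2

/-- expansion of the product over the small primes dividing `k` -/
lemma avg_expand (P : Finset ℕ) (hP : ∀ l ∈ P, l.Prime) (k : ℕ) :
    ∏ l ∈ P.filter (fun l => l ∣ k), ((l : ℝ) / ((l : ℝ) - 1)) =
      ∑ D ∈ P.powerset, if (∏ l ∈ D, l) ∣ k then ∏ l ∈ D, (1 : ℝ) / ((l : ℝ) - 1) else 0 := by
  have h1 : ∏ l ∈ P.filter (fun l => l ∣ k), ((l : ℝ) / ((l : ℝ) - 1)) =
      ∏ l ∈ P.filter (fun l => l ∣ k), (1 + (1 : ℝ) / ((l : ℝ) - 1)) := by
    apply Finset.prod_congr rfl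
    intro l hl
    have h2 : (2 : ℝ) ≤ l := by exact_mod_cast (hP l (mem_filter.1 hl).1).two_le
    have : (l : ℝ) - 1 ≠ 0 := by linarith
    field_simp
    ring
  rw [h1, Finset.prod_one_add, ← Finset.sum_filter]
  apply Finset.sum_congr _ (fun _ _ => rfl)
  ext D
  rw [mem_powerset, mem_filter, mem_powerset]
  constructor
  · intro h
    refine ⟨h.trans (filter_subset _ _), ?_⟩
    exact Finset.prod_primes_dvd k (fun l hl => (hP l (mem_filter.1 (h hl)).1).prime)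
      (fun l hl => (mem_filter.1 (h hl)).2)
  · rintro ⟨h1, h2⟩ l hl
    exact mem_filter.2 ⟨h1 hl, (Finset.dvd_prod_of_mem _ hl).trans h2⟩

/-- one subset -/
lemma avg_term (P D : Finset ℕ) (hP : ∀ l ∈ P, l.Prime) (hD : D ⊆ P) (j H : ℕ) (hH : 1 ≤ H)
    (α : ℝ) (hα : 0 ≤ α) :
    ∑ t ∈ Icc 1 H, (if (∏ l ∈ D, l) ∣ j + t then ∏ l ∈ D, (1 : ℝ) / ((l : ℝ) - 1) else 0) ≤
      2 * H * ∏ l ∈ D, (1 : ℝ) / ((l : ℝ) * ((l : ℝ) - 1)) +
      H * (H : ℝ) ^ (-α) * ∏ l ∈ D, ((l : ℝ) ^ α / ((l : ℝ) - 1)) := by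
  have h2 : ∀ l ∈ D, (2 : ℝ) ≤ l := fun l hl => by exact_mod_cast (hP l (hD hl)).two_le
  set N := ∏ l ∈ D, l with hN
  have hN1 : 1 ≤ N := Finset.prod_pos fun l hl => (hP l (hD hl)).pos
  have hNr : (0 : ℝ) < N := by exact_mod_cast hN1
  have hHr : (0 : ℝ) < H := by exact_mod_cast hH
  set A := ∏ l ∈ D, (1 : ℝ) / ((l : ℝ) - 1) with hA
  have hA0 : 0 ≤ A := Finset.prod_nonneg fun l hl => by
    have := h2 l hl
    have : (0 : ℝ) < (l : ℝ) - 1 := by linarith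
    positivity
  have e1 : ∏ l ∈ D, (1 : ℝ) / ((l : ℝ) * ((l : ℝ) - 1)) = A / N := by
    rw [hA, hN, Nat.cast_prod, ← Finset.prod_div_distrib]
    apply Finset.prod_congr rfl
    intro l hl
    have := h2 l hl
    have h3 : (l : ℝ) - 1 ≠ 0 := by linarith
    have h4 : (l : ℝ) ≠ 0 := by linarith
    field_simp
  have e2 : ∏ l ∈ D, ((l : ℝ) ^ α / ((l : ℝ) - 1)) = A * (N : ℝ) ^ α := by
    rw [hA, hN, Nat.cast_prod, ← Real.finsetProd_rpow _ _ (fun l hl => by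
      have := h2 l hl; linarith), ← Finset.prod_mul_distrib]
    apply Finset.prod_congr rfl
    intro l hl
    ring
  rw [e1, e2, ← Finset.sum_filter, Finset.sum_const, nsmul_eq_mul]
  have hcH : (((Icc 1 H).filter (fun t => N ∣ j + t)).card : ℝ) ≤ H := by
    have := Finset.card_filter_le (Icc 1 H) (fun t => N ∣ j + t)
    rw [Nat.card_Icc] at this
    have h5 : ((Icc 1 H).filter (fun t => N ∣ j + t)).card ≤ H := by omega
    exact_mod_cast h5
  have hc := avg_count j H N hN1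
  by_cases hcase : N ≤ H
  · have hr : (1 : ℝ) ≤ H / N := by
      rw [le_div_iff₀ hNr, one_mul]
      exact_mod_cast hcase
    have h6 : (((Icc 1 H).filter (fun t => N ∣ j + t)).card : ℝ) * A ≤ 2 * H * (A / N) := by
      calc (((Icc 1 H).filter (fun t => N ∣ j + t)).card : ℝ) * A
          ≤ (2 * (H / N)) * A := by
            apply mul_le_mul_of_nonneg_right _ hA0
            linarith
        _ = 2 * H * (A / N) := by ring
    have h7 : 0 ≤ H * (H : ℝ) ^ (-α) * (A * (N : ℝ) ^ α) := by positivity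
    linarith
  · have h8 : (H : ℝ) ≤ N := by
      have : H ≤ N := by omega
      exact_mod_cast this
    have h9 : 1 ≤ (H : ℝ) ^ (-α) * (N : ℝ) ^ α := by
      rw [Real.rpow_neg hHr.le, inv_mul_eq_div, le_div_iff₀ (by positivity), one_mul]
      exact Real.rpow_le_rpow hHr.le h8 hα
    have h10 : (((Icc 1 H).filter (fun t => N ∣ j + t)).card : ℝ) * A ≤
        H * (H : ℝ) ^ (-α) * (A * (N : ℝ) ^ α) := by
      calc (((Icc 1 H).filter (fun t => N ∣ j + t)).card : ℝ) * A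
          ≤ H * A := mul_le_mul_of_nonneg_right hcH hA0
        _ = H * A * 1 := by ring
        _ ≤ H * A * ((H : ℝ) ^ (-α) * (N : ℝ) ^ α) :=
            mul_le_mul_of_nonneg_left h9 (by positivity)
        _ = _ := by ring
    have h11 : 0 ≤ 2 * H * (A / N) := by positivity
    linarith

/-- the small primes -/
lemma avg_small (P : Finset ℕ) (hP : ∀ l ∈ P, l.Prime) (j H : ℕ) (hH : 1 ≤ H)
    (α : ℝ) (hα : 0 ≤ α) :
    ∑ t ∈ Icc 1 H, ∏ l ∈ P.filter (fun l => l ∣ j + t), ((l : ℝ) / ((l : ℝ) - 1)) ≤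
      2 * H * ∏ l ∈ P, (1 + (1 : ℝ) / ((l : ℝ) * ((l : ℝ) - 1))) +
      H * (H : ℝ) ^ (-α) * ∏ l ∈ P, (1 + (l : ℝ) ^ α / ((l : ℝ) - 1)) := by
  have h1 : ∑ t ∈ Icc 1 H, ∏ l ∈ P.filter (fun l => l ∣ j + t), ((l : ℝ) / ((l : ℝ) - 1)) =
      ∑ D ∈ P.powerset, ∑ t ∈ Icc 1 H,
        (if (∏ l ∈ D, l) ∣ j + t then ∏ l ∈ D, (1 : ℝ) / ((l : ℝ) - 1) else 0) := by
    rw [Finset.sum_comm]
    apply Finset.sum_congr rfl
    intro t _
    exact avg_expand P hP (j + t)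
  rw [h1, Finset.prod_one_add, Finset.prod_one_add, Finset.mul_sum, Finset.mul_sum,
    ← Finset.sum_add_distrib]
  apply Finset.sum_le_sum
  intro D hD
  exact avg_term P D hP (mem_powerset.1 hD) j H hH α hα

/-- the large primes: each value of the product is at most `e` -/
lemma avg_large (P : Finset ℕ) (hP : ∀ l ∈ P, l.Prime) (w : ℝ) (hw : 6 ≤ w)
    (hbig : ∀ l ∈ P, w ^ 2 < l) (k : ℕ) (hk : 1 ≤ k) (hk2 : (k : ℝ) ≤ Real.exp (2 * w)) :
    ∏ l ∈ P.filter (fun l => l ∣ k), ((l : ℝ) / ((l : ℝ) - 1)) ≤ Real.exp 1 := by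
  set Q := P.filter (fun l => l ∣ k) with hQ
  have hQP : ∀ l ∈ Q, l.Prime := fun l hl => hP l (mem_filter.1 hl).1
  have hcard : (Q.card : ℝ) ≤ 3 * w := by
    have h1 : ∏ l ∈ Q, l ∣ k := Finset.prod_primes_dvd k (fun l hl => (hQP l hl).prime)
      (fun l hl => (mem_filter.1 hl).2)
    have h2 : 2 ^ Q.card ≤ ∏ l ∈ Q, l := Finset.pow_card_le_prod _ _ _
      (fun l hl => (hQP l hl).two_le)
    have h3 : (2 : ℝ) ^ Q.card ≤ Real.exp (2 * w) := by
      have h4 : 2 ^ Q.card ≤ k := h2.trans (Nat.le_of_dvd hk h1)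
      exact le_trans (by exact_mod_cast h4) hk2
    have h5 := Real.log_le_log (by positivity) h3
    rw [Real.log_exp, Real.log_pow] at h5
    have h6 := Real.log_two_gt_d9
    have h7 : (0 : ℝ) ≤ Q.card := by positivity
    nlinarith
  have hterm : ∀ l ∈ Q, (l : ℝ) / ((l : ℝ) - 1) ≤ Real.exp (2 / w ^ 2) := by
    intro l hl
    have hl1 := hbig l (mem_filter.1 hl).1
    have hw2 : 36 ≤ w ^ 2 := by nlinarith
    have h1 : (l : ℝ) / ((l : ℝ) - 1) = 1 / ((l : ℝ) - 1) + 1 := by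
      have : (l : ℝ) - 1 ≠ 0 := by linarith
      field_simp
      ring
    rw [h1]
    refine le_trans ?_ (Real.add_one_le_exp _)
    have h2 : 1 / ((l : ℝ) - 1) ≤ 2 / w ^ 2 := by
      rw [div_le_div_iff₀ (by linarith) (by linarith)]
      linarith
    linarith
  calc ∏ l ∈ Q, ((l : ℝ) / ((l : ℝ) - 1)) ≤ ∏ l ∈ Q, Real.exp (2 / w ^ 2) := by
        apply Finset.prod_le_prod
        · intro l hl
          have h2 : (2 : ℝ) ≤ l := by exact_mod_cast (hQP l hl).two_le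
          apply div_nonneg <;> linarith
        · exact hterm
    _ = Real.exp (Q.card * (2 / w ^ 2)) := by
        rw [Finset.prod_const, ← Real.exp_nat_mul]
    _ ≤ Real.exp 1 := by
        apply Real.exp_le_exp.2
        have hw0 : (0 : ℝ) < w ^ 2 := by positivity
        rw [mul_div_assoc', div_le_one hw0]
        nlinarith

/-- the product with the power `α` -/
lemma avg_pow (P : Finset ℕ) (hP : ∀ l ∈ P, l.Prime) (w : ℝ) (hw : 6 ≤ w)
    (hs : ∀ l ∈ P, (l : ℝ) ≤ w ^ 2) :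
    ∏ l ∈ P, (1 + (l : ℝ) ^ (1 / (2 * Real.log w)) / ((l : ℝ) - 1)) ≤ w ^ 6 := by
  have hlog : 0 < Real.log w := Real.log_pos (by linarith)
  have hw2 : 36 ≤ w ^ 2 := by nlinarith
  have h1 : ∏ l ∈ P, (1 + (l : ℝ) ^ (1 / (2 * Real.log w)) / ((l : ℝ) - 1)) ≤
      ∏ l ∈ P, ((l : ℝ) / ((l : ℝ) - 1)) ^ 3 := by
    apply Finset.prod_le_prod
    · intro l hl
      have h2 : (2 : ℝ) ≤ l := by exact_mod_cast (hP l hl).two_le
      have : (0 : ℝ) < (l : ℝ) - 1 := by linarith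
      positivity
    · intro l hl
      have h2 : (2 : ℝ) ≤ l := by exact_mod_cast (hP l hl).two_le
      have h3 : (0 : ℝ) < (l : ℝ) - 1 := by linarith
      have h4 : (l : ℝ) ^ (1 / (2 * Real.log w)) ≤ 3 := by
        have h5 : (l : ℝ) ^ (1 / (2 * Real.log w)) ≤ (w ^ 2) ^ (1 / (2 * Real.log w)) :=
          Real.rpow_le_rpow (by linarith) (hs l hl) (by positivity)
        have h6 : (w ^ 2) ^ (1 / (2 * Real.log w)) = Real.exp 1 := by
          rw [Real.rpow_def_of_pos (by positivity), Real.log_pow]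
          congr 1
          push_cast
          field_simp
        rw [h6] at h5
        linarith [Real.exp_one_lt_d9]
      have h7 : (l : ℝ) / ((l : ℝ) - 1) = 1 + 1 / ((l : ℝ) - 1) := by
        field_simp
        ring
      rw [h7]
      set u := 1 / ((l : ℝ) - 1) with hu
      have hu0 : 0 ≤ u := by positivity
      have h8 : (l : ℝ) ^ (1 / (2 * Real.log w)) / ((l : ℝ) - 1) ≤ 3 * u := by
        rw [hu, mul_one_div]
        exact div_le_div_of_nonneg_right h4 h3.le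
      have h9 : (1 + u) ^ 3 = 1 + 3 * u + 3 * u ^ 2 + u ^ 3 := by ring
      have h10 : 0 ≤ 3 * u ^ 2 + u ^ 3 := by positivity
      linarith
  refine h1.trans ?_
  rw [Finset.prod_pow]
  have hn : 1 ≤ ⌊w ^ 2⌋₊ := by
    apply Nat.le_floor
    push_cast
    linarith
  have h2 := avg_prod_le P ⌊w ^ 2⌋₊ hn (fun l hl => (hP l hl).two_le)
    (fun l hl => Nat.le_floor (hs l hl))
  have h3 : (⌊w ^ 2⌋₊ : ℝ) ≤ w ^ 2 := Nat.floor_le (by positivity)
  have h0 : (0 : ℝ) ≤ ∏ l ∈ P, ((l : ℝ) / ((l : ℝ) - 1)) := by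
    apply Finset.prod_nonneg
    intro l hl
    have h2 : (2 : ℝ) ≤ l := by exact_mod_cast (hP l hl).two_le
    apply div_nonneg <;> linarith
  calc (∏ l ∈ P, ((l : ℝ) / ((l : ℝ) - 1))) ^ 3 ≤ (w ^ 2) ^ 3 :=
        pow_le_pow_left₀ h0 (h2.trans h3) 3
    _ = w ^ 6 := by ring

lemma avg_one (P : Finset ℕ) (hP : ∀ l ∈ P, l.Prime) :
    ∏ l ∈ P, (1 + (1 : ℝ) / ((l : ℝ) * ((l : ℝ) - 1))) ≤ Real.exp 1 := by
  calc ∏ l ∈ P, (1 + (1 : ℝ) / ((l : ℝ) * ((l : ℝ) - 1)))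
      ≤ ∏ l ∈ P, Real.exp ((1 : ℝ) / ((l : ℝ) * ((l : ℝ) - 1))) := by
        apply Finset.prod_le_prod
        · intro l hl
          have h2 : (2 : ℝ) ≤ l := by exact_mod_cast (hP l hl).two_le
          have : (0 : ℝ) < (l : ℝ) * ((l : ℝ) - 1) := by nlinarith
          positivity
        · intro l hl
          have := Real.add_one_le_exp ((1 : ℝ) / ((l : ℝ) * ((l : ℝ) - 1)))
          linarith
    _ = Real.exp (∑ l ∈ P, (1 : ℝ) / ((l : ℝ) * ((l : ℝ) - 1))) := (Real.exp_sum _ _).symm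
    _ ≤ Real.exp 1 := Real.exp_le_exp.2 (avg_sum_le P fun l hl => (hP l hl).two_le)

lemma avg_ev : ∃ w₀ : ℝ, ∀ w : ℝ, w₀ ≤ w → 6 ≤ w ∧ 12 * Real.log w ^ 2 + 1 ≤ Real.sqrt w := by
  have h1 := (Real.isLittleO_pow_log_id_atTop (n := 2)).def (show (0 : ℝ) < 1 / 96 by norm_num)
  have h2 := Real.tendsto_sqrt_atTop.eventually h1
  obtain ⟨w₁, h3⟩ := Filter.eventually_atTop.1 h2
  refine ⟨max w₁ 6, fun w hw => ?_⟩
  have hw1 : w₁ ≤ w := (le_max_left _ _).trans hw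
  have hw6 : 6 ≤ w := (le_max_right _ _).trans hw
  refine ⟨hw6, ?_⟩
  have h4 := h3 w hw1
  have hs : 0 ≤ Real.sqrt w := Real.sqrt_nonneg w
  rw [id, Real.norm_eq_abs, Real.norm_eq_abs, abs_of_nonneg hs, abs_of_nonneg (by positivity),
    Real.log_sqrt (by linarith)] at h4
  have hs2 : 2 ≤ Real.sqrt w := by
    rw [Real.le_sqrt (by norm_num) (by linarith)]
    linarith
  nlinarith

theorem t_AVG : S_AVG := by
  refine ⟨18, by norm_num, ?_⟩
  obtain ⟨w₀, hw₀⟩ := avg_ev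
  refine ⟨w₀, ?_⟩
  intro w hw P hP j hj
  obtain ⟨hw6, hlog⟩ := hw₀ w hw
  have hv : 0 < Real.log w := Real.log_pos (by linarith)
  have hs1 : 1 ≤ Real.sqrt w := by
    rw [Real.le_sqrt (by norm_num) (by linarith)]
    linarith
  set H := ⌊Real.exp (Real.sqrt w)⌋₊ with hH
  have hHfl : (H : ℝ) ≤ Real.exp (Real.sqrt w) := Nat.floor_le (Real.exp_pos _).le
  have hHge : Real.exp (Real.sqrt w) < H + 1 := Nat.lt_floor_add_one _
  have hexp1 : Real.exp 1 ≤ Real.exp (Real.sqrt w) := Real.exp_le_exp.2 hs1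
  have he1 := Real.exp_one_gt_d9
  have he2 := Real.exp_one_lt_d9
  have hHe : Real.exp (Real.sqrt w - 1) ≤ H := by
    rw [Real.exp_sub, div_le_iff₀ (Real.exp_pos _)]
    nlinarith
  have hH1 : 1 ≤ H := by
    have : (0 : ℝ) < H := (Real.exp_pos _).trans_le hHe
    have : 0 < H := by exact_mod_cast this
    omega
  have hHr : (0 : ℝ) < H := by exact_mod_cast hH1
  set α := 1 / (2 * Real.log w) with hα
  have hα0 : 0 ≤ α := by positivity
  set P₁ := P.filter (fun l : ℕ => (l : ℝ) ≤ w ^ 2) with hP₁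
  set P₂ := P.filter (fun l : ℕ => ¬ (l : ℝ) ≤ w ^ 2) with hP₂
  have hpow : (H : ℝ) ^ (-α) * w ^ 6 ≤ 1 := by
    rw [Real.rpow_neg hHr.le, inv_mul_eq_div, div_le_one (by positivity)]
    have h1 : w ^ 6 = Real.exp (6 * Real.log w) := by
      rw [mul_comm, Real.exp_mul, Real.exp_log (by linarith)]
      norm_num
    rw [h1, Real.rpow_def_of_pos hHr]
    apply Real.exp_le_exp.2
    have h2 : Real.sqrt w - 1 ≤ Real.log H := by
      rw [Real.le_log_iff_exp_le hHr]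
      exact hHe
    rw [hα, mul_one_div, le_div_iff₀ (by positivity)]
    nlinarith
  have hstep : ∀ t ∈ Icc 1 H, ∏ l ∈ P.filter (fun l => l ∣ j + t), ((l : ℝ) / ((l : ℝ) - 1)) ≤
      Real.exp 1 * ∏ l ∈ P₁.filter (fun l => l ∣ j + t), ((l : ℝ) / ((l : ℝ) - 1)) := by
    intro t ht
    rw [mem_Icc] at ht
    have h1 := Finset.prod_filter_mul_prod_filter_not (P.filter (fun l => l ∣ j + t))
      (fun l : ℕ => (l : ℝ) ≤ w ^ 2) (fun l : ℕ => (l : ℝ) / ((l : ℝ) - 1))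
    rw [← h1, Finset.filter_comm, Finset.filter_comm (fun l => l ∣ j + t), mul_comm]
    apply mul_le_mul_of_nonneg_right
    · apply avg_large P₂ (fun l hl => hP l (mem_filter.1 hl).1) w hw6
        (fun l hl => not_le.1 (mem_filter.1 hl).2) (j + t) (by omega)
      push_cast
      have : (t : ℝ) ≤ H := by exact_mod_cast ht.2
      linarith
    · apply Finset.prod_nonneg
      intro l hl
      have h2 : (2 : ℝ) ≤ l := by
        exact_mod_cast (hP l (mem_filter.1 (mem_filter.1 hl).1).1).two_le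
      apply div_nonneg <;> linarith
  refine (Finset.sum_le_sum hstep).trans ?_
  rw [← Finset.mul_sum]
  have hP1p : ∀ l ∈ P₁, l.Prime := fun l hl => hP l (mem_filter.1 hl).1
  have h1 := avg_small P₁ hP1p j H hH1 α hα0
  have h2 := avg_one P₁ hP1p
  have h3 := avg_pow P₁ hP1p w hw6 (fun l hl => (mem_filter.1 hl).2)
  have h4 : 2 * H * ∏ l ∈ P₁, (1 + (1 : ℝ) / ((l : ℝ) * ((l : ℝ) - 1))) ≤
      2 * H * Real.exp 1 := mul_le_mul_of_nonneg_left h2 (by positivity)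
  have h5 : H * (H : ℝ) ^ (-α) * ∏ l ∈ P₁, (1 + (l : ℝ) ^ α / ((l : ℝ) - 1)) ≤ H := by
    calc H * (H : ℝ) ^ (-α) * ∏ l ∈ P₁, (1 + (l : ℝ) ^ α / ((l : ℝ) - 1))
        ≤ H * (H : ℝ) ^ (-α) * w ^ 6 := mul_le_mul_of_nonneg_left h3 (by positivity)
      _ = H * ((H : ℝ) ^ (-α) * w ^ 6) := by ring
      _ ≤ H * 1 := mul_le_mul_of_nonneg_left hpow hHr.le
      _ = H := mul_one _
  have h6 : ∑ t ∈ Icc 1 H, ∏ l ∈ P₁.filter (fun l => l ∣ j + t), ((l : ℝ) / ((l : ℝ) - 1)) ≤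
      (2 * Real.exp 1 + 1) * H := by linarith
  calc Real.exp 1 * ∑ t ∈ Icc 1 H, ∏ l ∈ P₁.filter (fun l => l ∣ j + t),
        ((l : ℝ) / ((l : ℝ) - 1))
      ≤ Real.exp 1 * ((2 * Real.exp 1 + 1) * H) :=
        mul_le_mul_of_nonneg_left h6 (Real.exp_pos _).le
    _ = (Real.exp 1 * (2 * Real.exp 1 + 1)) * H := by ring
    _ ≤ 18 * H := by
        apply mul_le_mul_of_nonneg_right _ hHr.le
        nlinarith

end Pool.Agent.FXC
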