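import Mathlib
import Pool.Agent.FXC.StH
import Pool.Agent.FXC.AVG

/-!
# FXC, module AVH: the mean value over a progression
-/

set_option autoImplicit false

namespace Pool.Agent.FXC

open Finset Filter BlockSieve Pool.Agent.UNI

lemma avh_gI (P : Finset ℕ) (k : ℤ) :
    gI P k = ∏ l ∈ P.filter (fun l => l ∣ k.natAbs), ((l : ℝ) / ((l : ℝ) - 1)) := by
  unfold gI
  congr 1
  apply Finset.filter_congr
  intro l _
  exact Int.natCast_dvd

lemma avh_count (j h : ℤ) (hjh : IsCoprime j h) (H N : ℕ) (_hN : 1 ≤ N) :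
    (((Icc 1 H).filter (fun t : ℕ => N ∣ (j + h * (t : ℤ)).natAbs)).card : ℝ) ≤ H / N + 1 := by
  have h1 : ((Icc 1 H).filter (fun t : ℕ => N ∣ (j + h * (t : ℤ)).natAbs)).card ≤
      (range (H / N + 1)).card := by
    apply Finset.card_le_card_of_injOn (fun t => t / N)
    · intro t ht
      rw [Finset.mem_coe, mem_filter, mem_Icc] at ht
      rw [Finset.mem_coe, mem_range]
      exact Nat.lt_succ_of_le (Nat.div_le_div_right ht.1.2)
    · intro t ht t' ht' he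
      rw [Finset.mem_coe, mem_filter] at ht ht'
      have d1 : (N : ℤ) ∣ j + h * (t : ℤ) := Int.natCast_dvd.2 ht.2
      have d2 : (N : ℤ) ∣ j + h * (t' : ℤ) := Int.natCast_dvd.2 ht'.2
      have c1 : IsCoprime (j + h * (t : ℤ)) h := hjh.add_mul_left_left _
      have c2 : IsCoprime (N : ℤ) h := c1.of_isCoprime_of_dvd_left d1
      have d3 : (N : ℤ) ∣ h * ((t : ℤ) - t') := by
        have e : h * ((t : ℤ) - t') = (j + h * (t : ℤ)) - (j + h * (t' : ℤ)) := by ring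
        rw [e]
        exact dvd_sub d1 d2
      have d4 : (N : ℤ) ∣ (t : ℤ) - t' := c2.dvd_of_dvd_mul_left d3
      have m : t' % N = t % N := Nat.modEq_iff_dvd.2 d4
      have he' : t / N = t' / N := he
      rw [← Nat.div_add_mod t N, ← Nat.div_add_mod t' N, m, he']
  rw [card_range] at h1
  have h2 : ((H / N + 1 : ℕ) : ℝ) ≤ H / N + 1 := by
    have a1 : ((H / N : ℕ) : ℝ) ≤ (H : ℝ) / N := Nat.cast_div_le
    push_cast
    linarith
  calc (((Icc 1 H).filter (fun t : ℕ => N ∣ (j + h * (t : ℤ)).natAbs)).card : ℝ)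
      ≤ ((H / N + 1 : ℕ) : ℝ) := by exact_mod_cast h1
    _ ≤ _ := h2

/-- one subset -/
lemma avh_term (P D : Finset ℕ) (hP : ∀ l ∈ P, l.Prime) (hD : D ⊆ P) (j h : ℤ) (hjh : IsCoprime j h)
    (H : ℕ) (hH : 1 ≤ H)
    (α : ℝ) (hα : 0 ≤ α) :
    ∑ t ∈ Icc 1 H, (if (∏ l ∈ D, l) ∣ (j + h * (t : ℤ)).natAbs then ∏ l ∈ D, (1 : ℝ) / ((l : ℝ) - 1) else 0) ≤
      2 * H * ∏ l ∈ D, (1 : ℝ) / ((l : ℝ) * ((l : ℝ) - 1)) +
      H * (H : ℝ) ^ (-α) * ∏ l ∈ D, ((l : ℝ) ^ α / ((l : ℝ) - 1)) := by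
  have h2 : ∀ l ∈ D, (2 : ℝ) ≤ l := fun l hl => by exact_mod_cast (hP l (hD hl)).two_le
  set N := ∏ l ∈ D, l with hN
  have hN1 : 1 ≤ N := Finset.prod_pos fun l hl => (hP l (hD hl)).pos
  have hNr : (0 : ℝ) < N := by exact_mod_cast hN1
  have hHr : (0 : ℝ) < H := by exact_mod_cast hH
  set A := ∏ l ∈ D, (1 : ℝ) / ((l : ℝ) - 1) with hA
  have hA0 : 0 ≤ A := Finset.prod_nonneg fun l hl => by
    have := h2 l hl
    have : (0 : ℝ) < (l : ℝ) - 1 := by linarith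
    positivity
  have e1 : ∏ l ∈ D, (1 : ℝ) / ((l : ℝ) * ((l : ℝ) - 1)) = A / N := by
    rw [hA, hN, Nat.cast_prod, ← Finset.prod_div_distrib]
    apply Finset.prod_congr rfl
    intro l hl
    have := h2 l hl
    have h3 : (l : ℝ) - 1 ≠ 0 := by linarith
    have h4 : (l : ℝ) ≠ 0 := by linarith
    field_simp
  have e2 : ∏ l ∈ D, ((l : ℝ) ^ α / ((l : ℝ) - 1)) = A * (N : ℝ) ^ α := by
    rw [hA, hN, Nat.cast_prod, ← Real.finsetProd_rpow _ _ (fun l hl => by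
      have := h2 l hl; linarith), ← Finset.prod_mul_distrib]
    apply Finset.prod_congr rfl
    intro l hl
    ring
  rw [e1, e2, ← Finset.sum_filter, Finset.sum_const, nsmul_eq_mul]
  have hcH : (((Icc 1 H).filter (fun t : ℕ => N ∣ (j + h * (t : ℤ)).natAbs)).card : ℝ) ≤ H := by
    have := Finset.card_filter_le (Icc 1 H) (fun t : ℕ => N ∣ (j + h * (t : ℤ)).natAbs)
    rw [Nat.card_Icc] at this
    have h5 : ((Icc 1 H).filter (fun t : ℕ => N ∣ (j + h * (t : ℤ)).natAbs)).card ≤ H := by omega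
    exact_mod_cast h5
  have hc := avh_count j h hjh H N hN1
  by_cases hcase : N ≤ H
  · have hr : (1 : ℝ) ≤ H / N := by
      rw [le_div_iff₀ hNr, one_mul]
      exact_mod_cast hcase
    have h6 : (((Icc 1 H).filter (fun t : ℕ => N ∣ (j + h * (t : ℤ)).natAbs)).card : ℝ) * A ≤ 2 * H * (A / N) := by
      calc (((Icc 1 H).filter (fun t : ℕ => N ∣ (j + h * (t : ℤ)).natAbs)).card : ℝ) * A
          ≤ (2 * (H / N)) * A := by
            apply mul_le_mul_of_nonneg_right _ hA0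
            linarith
        _ = 2 * H * (A / N) := by ring
    have h7 : 0 ≤ H * (H : ℝ) ^ (-α) * (A * (N : ℝ) ^ α) := by positivity
    linarith
  · have h8 : (H : ℝ) ≤ N := by
      have : H ≤ N := by omega
      exact_mod_cast this
    have h9 : 1 ≤ (H : ℝ) ^ (-α) * (N : ℝ) ^ α := by
      rw [Real.rpow_neg hHr.le, inv_mul_eq_div, le_div_iff₀ (by positivity), one_mul]
      exact Real.rpow_le_rpow hHr.le h8 hα
    have h10 : (((Icc 1 H).filter (fun t : ℕ => N ∣ (j + h * (t : ℤ)).natAbs)).card : ℝ) * A ≤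
        H * (H : ℝ) ^ (-α) * (A * (N : ℝ) ^ α) := by
      calc (((Icc 1 H).filter (fun t : ℕ => N ∣ (j + h * (t : ℤ)).natAbs)).card : ℝ) * A
          ≤ H * A := mul_le_mul_of_nonneg_right hcH hA0
        _ = H * A * 1 := by ring
        _ ≤ H * A * ((H : ℝ) ^ (-α) * (N : ℝ) ^ α) :=
            mul_le_mul_of_nonneg_left h9 (by positivity)
        _ = _ := by ring
    have h11 : 0 ≤ 2 * H * (A / N) := by positivity
    linarith

/-- the small primes -/
lemma avh_small (P : Finset ℕ) (hP : ∀ l ∈ P, l.Prime) (j h : ℤ) (hjh : IsCoprime j h)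
    (H : ℕ) (hH : 1 ≤ H)
    (α : ℝ) (hα : 0 ≤ α) :
    ∑ t ∈ Icc 1 H, ∏ l ∈ P.filter (fun l => l ∣ (j + h * (t : ℤ)).natAbs), ((l : ℝ) / ((l : ℝ) - 1)) ≤
      2 * H * ∏ l ∈ P, (1 + (1 : ℝ) / ((l : ℝ) * ((l : ℝ) - 1))) +
      H * (H : ℝ) ^ (-α) * ∏ l ∈ P, (1 + (l : ℝ) ^ α / ((l : ℝ) - 1)) := by
  have h1 : ∑ t ∈ Icc 1 H, ∏ l ∈ P.filter (fun l => l ∣ (j + h * (t : ℤ)).natAbs), ((l : ℝ) / ((l : ℝ) - 1)) =
      ∑ D ∈ P.powerset, ∑ t ∈ Icc 1 H,
        (if (∏ l ∈ D, l) ∣ (j + h * (t : ℤ)).natAbs then ∏ l ∈ D, (1 : ℝ) / ((l : ℝ) - 1) else 0) := by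
    rw [Finset.sum_comm]
    apply Finset.sum_congr rfl
    intro t _
    exact avg_expand P hP (j + h * (t : ℤ)).natAbs
  rw [h1, Finset.prod_one_add, Finset.prod_one_add, Finset.mul_sum, Finset.mul_sum,
    ← Finset.sum_add_distrib]
  apply Finset.sum_le_sum
  intro D hD
  exact avh_term P D hP (mem_powerset.1 hD) j h hjh H hH α hα

theorem t_AVH : S_AVH := by
  refine ⟨18, by norm_num, ?_⟩
  obtain ⟨w₀, hw₀⟩ := avg_ev
  refine ⟨w₀, ?_⟩
  intro w hw P hP j h hjh hj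
  obtain ⟨hw6, hlog⟩ := hw₀ w hw
  have hv : 0 < Real.log w := Real.log_pos (by linarith)
  have hs1 : 1 ≤ Real.sqrt w := by
    rw [Real.le_sqrt (by norm_num) (by linarith)]
    linarith
  set H := ⌊Real.exp (Real.sqrt w)⌋₊ with hH
  have hHfl : (H : ℝ) ≤ Real.exp (Real.sqrt w) := Nat.floor_le (Real.exp_pos _).le
  have hHge : Real.exp (Real.sqrt w) < H + 1 := Nat.lt_floor_add_one _
  have hexp1 : Real.exp 1 ≤ Real.exp (Real.sqrt w) := Real.exp_le_exp.2 hs1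
  have he1 := Real.exp_one_gt_d9
  have he2 := Real.exp_one_lt_d9
  have hHe : Real.exp (Real.sqrt w - 1) ≤ H := by
    rw [Real.exp_sub, div_le_iff₀ (Real.exp_pos _)]
    nlinarith
  have hH1 : 1 ≤ H := by
    have : (0 : ℝ) < H := (Real.exp_pos _).trans_le hHe
    have : 0 < H := by exact_mod_cast this
    omega
  have hHr : (0 : ℝ) < H := by exact_mod_cast hH1
  set α := 1 / (2 * Real.log w) with hα
  have hα0 : 0 ≤ α := by positivity
  set P₁ := P.filter (fun l : ℕ => (l : ℝ) ≤ w ^ 2) with hP₁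
  set P₂ := P.filter (fun l : ℕ => ¬ (l : ℝ) ≤ w ^ 2) with hP₂
  have hpow : (H : ℝ) ^ (-α) * w ^ 6 ≤ 1 := by
    rw [Real.rpow_neg hHr.le, inv_mul_eq_div, div_le_one (by positivity)]
    have h1 : w ^ 6 = Real.exp (6 * Real.log w) := by
      rw [mul_comm, Real.exp_mul, Real.exp_log (by linarith)]
      norm_num
    rw [h1, Real.rpow_def_of_pos hHr]
    apply Real.exp_le_exp.2
    have h2 : Real.sqrt w - 1 ≤ Real.log H := by
      rw [Real.le_log_iff_exp_le hHr]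
      exact hHe
    rw [hα, mul_one_div, le_div_iff₀ (by positivity)]
    nlinarith
  have hgn : ∀ Q : Finset ℕ, (∀ l ∈ Q, l.Prime) → ∀ k : ℤ, 0 ≤ gI Q k := by
    intro Q hQ k
    rw [avh_gI]
    apply Finset.prod_nonneg
    intro l hl
    have h2 : (2 : ℝ) ≤ l := by exact_mod_cast (hQ l (mem_filter.1 hl).1).two_le
    apply div_nonneg <;> linarith
  have hP1p : ∀ l ∈ P₁, l.Prime := fun l hl => hP l (mem_filter.1 hl).1
  have hstep : ∀ t ∈ (Icc 1 H).filter (fun t : ℕ => 0 < j + h * (t : ℤ)),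
      gI P (j + h * (t : ℤ)) ≤ Real.exp 1 * gI P₁ (j + h * (t : ℤ)) := by
    intro t ht
    rw [mem_filter, mem_Icc] at ht
    obtain ⟨ht, hpos⟩ := ht
    rw [avh_gI, avh_gI]
    have h1 := Finset.prod_filter_mul_prod_filter_not
      (P.filter (fun l => l ∣ (j + h * (t : ℤ)).natAbs))
      (fun l : ℕ => (l : ℝ) ≤ w ^ 2) (fun l : ℕ => (l : ℝ) / ((l : ℝ) - 1))
    rw [← h1, Finset.filter_comm, Finset.filter_comm (fun l => l ∣ (j + h * (t : ℤ)).natAbs),
      mul_comm]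
    apply mul_le_mul_of_nonneg_right
    · apply avg_large P₂ (fun l hl => hP l (mem_filter.1 hl).1) w hw6
        (fun l hl => not_le.1 (mem_filter.1 hl).2) (j + h * (t : ℤ)).natAbs
        (Int.natAbs_pos.2 hpos.ne')
      have ht2 : (t : ℝ) ≤ Real.exp (Real.sqrt w) := by
        have : (t : ℝ) ≤ H := by exact_mod_cast ht.2
        linarith
      have e1 : (((j + h * (t : ℤ)).natAbs : ℕ) : ℝ) = |(j : ℝ) + h * t| := by
        rw [Nat.cast_natAbs, Int.cast_abs]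
        push_cast
        rfl
      rw [e1]
      have e2 : |(j : ℝ) + h * t| ≤ |(j : ℝ)| + |(h : ℝ)| * t := by
        have := abs_add_le (j : ℝ) (h * t)
        rw [abs_mul, Nat.abs_cast] at this
        exact this
      have e3 : |(h : ℝ)| * t ≤ |(h : ℝ)| * Real.exp (Real.sqrt w) :=
        mul_le_mul_of_nonneg_left ht2 (abs_nonneg _)
      linarith
    · have := hgn P₁ hP1p (j + h * (t : ℤ))
      rw [avh_gI] at this
      exact this
  refine (Finset.sum_le_sum hstep).trans ?_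
  refine (Finset.sum_le_sum_of_subset_of_nonneg (Finset.filter_subset _ _) ?_).trans
    (?_ : ∑ t ∈ Icc 1 H, Real.exp 1 * gI P₁ (j + h * (t : ℤ)) ≤ _)
  · intro t _ _
    exact mul_nonneg (Real.exp_pos _).le (hgn P₁ hP1p _)
  rw [← Finset.mul_sum]
  have h1 := avh_small P₁ hP1p j h hjh H hH1 α hα0
  have h2 := avg_one P₁ hP1p
  have h3 := avg_pow P₁ hP1p w hw6 (fun l hl => (mem_filter.1 hl).2)
  have h4 : 2 * H * ∏ l ∈ P₁, (1 + (1 : ℝ) / ((l : ℝ) * ((l : ℝ) - 1))) ≤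
      2 * H * Real.exp 1 := mul_le_mul_of_nonneg_left h2 (by positivity)
  have h5 : H * (H : ℝ) ^ (-α) * ∏ l ∈ P₁, (1 + (l : ℝ) ^ α / ((l : ℝ) - 1)) ≤ H := by
    calc H * (H : ℝ) ^ (-α) * ∏ l ∈ P₁, (1 + (l : ℝ) ^ α / ((l : ℝ) - 1))
        ≤ H * (H : ℝ) ^ (-α) * w ^ 6 := mul_le_mul_of_nonneg_left h3 (by positivity)
      _ = H * ((H : ℝ) ^ (-α) * w ^ 6) := by ring
      _ ≤ H * 1 := mul_le_mul_of_nonneg_left hpow hHr.le
      _ = H := mul_one _
  have h6 : ∑ t ∈ Icc 1 H, gI P₁ (j + h * (t : ℤ)) ≤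
      (2 * Real.exp 1 + 1) * H := by
    rw [Finset.sum_congr rfl fun t _ => avh_gI P₁ (j + h * ((t : ℕ) : ℤ))]
    linarith
  calc Real.exp 1 * ∑ t ∈ Icc 1 H, gI P₁ (j + h * (t : ℤ))
      ≤ Real.exp 1 * ((2 * Real.exp 1 + 1) * H) :=
        mul_le_mul_of_nonneg_left h6 (Real.exp_pos _).le
    _ = (Real.exp 1 * (2 * Real.exp 1 + 1)) * H := by ring
    _ ≤ 18 * H := by
        apply mul_le_mul_of_nonneg_right _ hHr.le
        nlinarith

end Pool.Agent.FXC
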