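import Mathlib
import Pool.Agent.FXC.StH

set_option autoImplicit false

/-!
# FXC, third part (MP_e1dc24_nt): the final form

`ρ` is the radical of `a`, `H ρ ≤ δ L`, `T = ⌊δ (L + R/H)⌋`. Classes: `l ∣ a + c l * m` for the primes
`l ≤ y` not dividing `a`, and `l ∣ c l` for the `l` dividing `a`. For both kinds `l ∣ k - h c l` implies
`l ∣ h a + k m`. All tiny and all middle primes get the class `c l = ρ` (nonzero modulo `l` if `l` does not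
divide `a`, zero if it does), so that there is NO loss from the prime factors of `a`.
-/

namespace Pool.Agent.FXC

open Finset Filter BlockSieve Pool.Agent.UNI

noncomputable section

/-- The function `R(x)`. -/
def RR (x : ℕ) : ℝ := Real.log x * Real.log (Real.log x) ^ 2 *
  Real.log (Real.log (Real.log (Real.log x))) / (Real.log (Real.log (Real.log x))) ^ 2

/-- **COV** (from `Pool/Agent/DLG/{Gr,Rough,Pairs,Sur,Comb,SurvS}.lean`, helper9). Proof.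
Case `H L ≥ R`: `c l = ρ` for all `l`; `T ≤ 2 δ L`, `|k - h ρ| ≤ 3 δ L < y`, so a pair is uncovered only if
`k - h ρ = 1` or `-1` (a number `0` is covered by every `l`, a number of modulus `≥ 2` by its prime factors):
at most two `h` for every `k`, at most `2 T ≤ 4 δ L` pairs.
Case `H L < R`: then `T ≤ 2 δ R / H`, `H ≤ w²`. `c l = ρ` for `l ≤ w'` and for `z < l ≤ y`; `c l = 0` for
`w' < l ≤ z`, `l ∣ ρ`; greedy (`greedyP` with `av s l := ¬ l ∣ s.1 ∧ ¬ l ∣ s.2 ∧ ¬ l ∣ ρ`) for the other `l`.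
As `surv_comb` with `k - h ρ` in place of `k - h` (`pairs_card` with `T + H ρ`), and `prod_av_le` with
`a = |h| k ρ`, `log (|h| k ρ) ≤ 4 w`, so the primes `l > w'` dividing `ρ` cost only a constant.
As in `sizes`: `H (T + H ρ) ≤ 2 δ R + δ L H ≤ 3 δ R`, `δ L ≤ T + H ρ ≤ 2 L w²`. -/
def S_COV : Prop := ∃ K : ℝ, 1 ≤ K ∧ ∀ δ : ℝ, 0 < δ → δ ≤ 1 / 200 → ∃ N₀ : ℕ, ∀ N : ℕ, N₀ ≤ N →
  ∀ ρ H T : ℕ, 1 ≤ ρ → 1 ≤ H → (H : ℝ) * ρ ≤ δ * Real.log N →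
  T = ⌊δ * (Real.log N + RR N / H)⌋₊ →
  (H : ℝ) * T ≤ Real.log N ^ 2 ∧ (T : ℝ) ≤ Real.log N ^ 2 ∧
  ∃ c : ℕ → ℕ, (∀ l ∈ pr (yM 8 N), (l ∣ ρ → l ∣ c l) ∧ (¬ l ∣ ρ → ¬ l ∣ c l)) ∧
    ((((Icc (-(H : ℤ)) H) ×ˢ (Icc 1 T)).filter (fun s : ℤ × ℕ => s.1 ≠ 0 ∧
      ∀ l ∈ pr (yM 8 N), ¬ ((l : ℤ) ∣ (s.2 : ℤ) - s.1 * (c l : ℤ)))).card : ℝ) ≤
      K * δ * Real.log N

/-- **SIV**. All the numbers `h a + k m` are composite. `ρ` = product of the prime factors of `a`. -/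
def S_SIV : Prop := ∃ δ : ℝ, 0 < δ ∧ δ ≤ 1 ∧ ∃ n₀ : ℕ, ∀ n : ℕ, n₀ ≤ n → ∀ a : ℤ, a ≠ 0 →
  ∀ H : ℕ, 1 ≤ H → (H : ℝ) * ((∏ p ∈ a.natAbs.primeFactors, p : ℕ) : ℝ) ≤ δ * Real.log n →
  ∀ y : ℕ, H * a.natAbs ≤ y → ∃ m : ℕ, y ≤ m ∧ m ≤ y + n ∧ H * a.natAbs < m ∧
    ∀ h : ℤ, h ≠ 0 → |h| ≤ H → IsCoprime (h * a) (m : ℤ) ∧ ∀ k : ℕ, 1 ≤ k →
      (k : ℝ) ≤ δ * (Real.log n + RR n / H) → ∀ q : ℕ, q.Prime → (q : ℤ) ≠ h * a + k * (m : ℤ)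

/-- **FGV**, the theorem. -/
def S_FGV : Prop := ∃ c₀ : ℝ, 0 < c₀ ∧ ∃ x₀ : ℕ, ∀ x : ℕ, x₀ ≤ x →
  ∀ a : ℤ, a ≠ 0 → ∀ H : ℕ, 1 ≤ H →
  (H : ℝ) * ((∏ p ∈ a.natAbs.primeFactors, p : ℕ) : ℝ) ≤ c₀ * Real.log x →
  ∀ y : ℕ, 2 * H * a.natAbs ≤ y → ∃ m : ℕ, y ≤ m ∧ m ≤ y + x ∧
    ∀ h : ℤ, h ≠ 0 → |h| ≤ H → IsCoprime (h * a) (m : ℤ) ∧
      ∀ q : ℕ, q.Prime → (q : ℤ) ≡ h * a [ZMOD m] → (q : ℤ) ≠ h * a →
        c₀ * (m * (Real.log x + Real.log x * Real.log (Real.log x) ^ 2 *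
          Real.log (Real.log (Real.log (Real.log x))) /
            (Real.log (Real.log (Real.log x))) ^ 2 / H)) < q

end

end Pool.Agent.FXC
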