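import Mathlib
import Pool.Agent.DLG.Comb
import Pool.Agent.FXC.StV

set_option autoImplicit false

/-!
# FXC, module COV, first part: the classes and the count of the uncovered pairs (helper9)
-/

namespace Pool.Agent.FXC

open Finset Filter BlockSieve Pool.Agent.UNI Pool.Agent.DLG

noncomputable section

/-- The pairs `(h, k)` with `k - h ρ` without tiny and middle prime factors. -/
lemma pairs_cardR (H T ρ w z y : ℕ) (hH : 1 ≤ H) (hw : 2 ≤ w) (hy : 2 ≤ y) :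
    ((((Icc (-(H : ℤ)) H) ×ˢ (Icc 1 T)).filter (fun s : ℤ × ℕ =>
      ∀ l ∈ pr y, (l ≤ w ∨ z < l) → ¬ ((l : ℤ) ∣ (s.2 : ℤ) - s.1 * (ρ : ℤ)))).card : ℝ) ≤
      6 * H * (((Icc 1 (T + H * ρ)).filter
        (fun n => ∀ l ∈ pr y, (l ≤ w ∨ z < l) → ¬ l ∣ n)).card : ℝ) := by
  classical
  obtain ⟨G, hG⟩ : ∃ G, G = (Icc 1 (T + H * ρ)).filter
    (fun n => ∀ l ∈ pr y, (l ≤ w ∨ z < l) → ¬ l ∣ n) := ⟨_, rfl⟩
  rw [← hG]
  have h1 : (((Icc (-(H : ℤ)) H) ×ˢ (Icc 1 T)).filter (fun s : ℤ × ℕ =>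
      ∀ l ∈ pr y, (l ≤ w ∨ z < l) → ¬ ((l : ℤ) ∣ (s.2 : ℤ) - s.1 * (ρ : ℤ)))).card ≤
      (((Icc (-(H : ℤ)) H) ×ˢ G) ×ˢ (univ : Finset Bool)).card := by
    refine Finset.card_le_card_of_injOn
      (fun s : ℤ × ℕ => ((s.1, ((s.2 : ℤ) - s.1 * (ρ : ℤ)).natAbs),
        decide (0 ≤ (s.2 : ℤ) - s.1 * (ρ : ℤ)))) ?_ ?_
    · rintro ⟨h, k⟩ hs
      rw [Finset.mem_coe, mem_filter, mem_product, mem_Icc, mem_Icc] at hs
      dsimp only at hs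
      obtain ⟨⟨⟨a1, a2⟩, a3, a4⟩, a5⟩ := hs
      rw [Finset.mem_coe, mem_product, mem_product, hG, mem_filter, mem_Icc, mem_Icc]
      dsimp only
      have hr : (0 : ℤ) ≤ (ρ : ℤ) := Int.natCast_nonneg _
      have b1 : h * (ρ : ℤ) ≤ (H : ℤ) * ρ := mul_le_mul_of_nonneg_right a2 hr
      have b2 : -(H : ℤ) * ρ ≤ h * (ρ : ℤ) := mul_le_mul_of_nonneg_right a1 hr
      obtain ⟨u, hu⟩ : ∃ u : ℤ, u = h * (ρ : ℤ) := ⟨_, rfl⟩
      obtain ⟨U, hU⟩ : ∃ U : ℕ, U = H * ρ := ⟨_, rfl⟩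
      have hU' : (H : ℤ) * ρ = U := by rw [hU]; push_cast; rfl
      have b3 : -(H : ℤ) * ρ = -(U : ℤ) := by rw [← hU']; ring
      rw [hU', ← hu] at b1
      rw [b3, ← hu] at b2
      rw [← hu] at a5 ⊢
      rw [← hU]
      refine ⟨⟨⟨a1, a2⟩, ⟨?_, ?_⟩, ?_⟩, mem_univ _⟩
      · by_contra hcon
        have h2 : (k : ℤ) - u = 0 := by omega
        exact a5 2 (mem_pr.2 ⟨Nat.prime_two, hy⟩) (Or.inl hw) (by rw [h2]; exact dvd_zero _)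
      · omega
      · intro l hl hlw hd
        exact a5 l hl hlw (Int.natCast_dvd.2 hd)
    · rintro ⟨h, k⟩ _ ⟨h', k'⟩ _ hs
      dsimp only at hs
      rw [Prod.mk.injEq, Prod.mk.injEq, decide_eq_decide] at hs
      obtain ⟨⟨b1, b2⟩, b3⟩ := hs
      subst b1
      obtain ⟨u, hu⟩ : ∃ u : ℤ, u = h * (ρ : ℤ) := ⟨_, rfl⟩
      rw [← hu] at b2 b3
      have h2 : k = k' := by omega
      rw [h2]
  have h2 : (((Icc (-(H : ℤ)) H) ×ˢ G) ×ˢ (univ : Finset Bool)).card = (2 * H + 1) * G.card * 2 := by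
    rw [card_product, card_product, Int.card_Icc, Finset.card_univ, Fintype.card_bool]
    congr 2
    omega
  rw [h2] at h1
  have h3 : (2 * H + 1) * G.card * 2 ≤ 6 * H * G.card := by
    have h4 : (2 * H + 1) * 2 ≤ 6 * H := by omega
    calc (2 * H + 1) * G.card * 2 = (2 * H + 1) * 2 * G.card := by ring
      _ ≤ 6 * H * G.card := Nat.mul_le_mul_right _ h4
  exact_mod_cast h1.trans h3

theorem surv_combR {H T ρ w' z y : ℕ} (hH : 1 ≤ H) (hρ : 1 ≤ ρ) (hw' : 2 ≤ w') (hzy : z ≤ y)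
    (hy : 2 ≤ y) {c₀ : ℝ} (hc : Real.log ((H * T * ρ : ℕ) : ℝ) ≤ c₀) :
    ∃ c : ℕ → ℕ, (∀ l ∈ pr y, (l ∣ ρ → l ∣ c l) ∧ (¬ l ∣ ρ → ¬ l ∣ c l)) ∧
      ((((Icc (-(H : ℤ)) H) ×ˢ (Icc 1 T)).filter (fun s : ℤ × ℕ => s.1 ≠ 0 ∧
        ∀ l ∈ pr y, ¬ ((l : ℤ) ∣ (s.2 : ℤ) - s.1 * (c l : ℤ)))).card : ℝ) ≤
      (6 * H * (((Icc 1 (T + H * ρ)).filter
        (fun n => ∀ l ∈ pr y, (l ≤ w' ∨ z < l) → ¬ l ∣ n)).card : ℝ)) *
      (Real.exp (2 * c₀ / w') * ∏ l ∈ (pr z).filter (fun l => w' < l), (1 - (1 : ℝ) / l)) := by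
  classical
  obtain ⟨Q, hQ⟩ : ∃ Q, Q = (pr z).filter (fun l => w' < l) := ⟨_, rfl⟩
  have hQp : ∀ l ∈ Q, l.Prime ∧ w' < l := by
    intro l hl
    rw [hQ, mem_filter, mem_pr] at hl
    exact ⟨hl.1.1, hl.2⟩
  obtain ⟨av, hav⟩ : ∃ av : ℤ × ℕ → ℕ → Prop, av = fun (s : ℤ × ℕ) (l : ℕ) =>
      ¬ (l : ℤ) ∣ s.1 ∧ ¬ l ∣ s.2 ∧ ¬ l ∣ ρ := ⟨_, rfl⟩
  obtain ⟨S₁, hS₁⟩ : ∃ S₁, S₁ = ((Icc (-(H : ℤ)) H) ×ˢ (Icc 1 T)).filter (fun s : ℤ × ℕ =>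
      s.1 ≠ 0 ∧ ∀ l ∈ pr y, (l ≤ w' ∨ z < l) → ¬ ((l : ℤ) ∣ (s.2 : ℤ) - s.1 * (ρ : ℤ))) :=
    ⟨_, rfl⟩
  obtain ⟨c, hc1, hc2⟩ := greedyP Q (fun l hl => (hQp l hl).1) quo av
    (by
      intro s l hl h
      rw [hav] at h
      exact quo_range (hQp l hl).1 h.1 h.2.1) S₁
  refine ⟨fun l => if l ∈ Q ∧ ¬ l ∣ ρ then c l else ρ, ?_, ?_⟩
  · intro l hl
    dsimp only
    constructor
    · intro hlρ
      rw [if_neg (fun h => h.2 hlρ)]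
      exact hlρ
    · intro hlρ
      by_cases h : l ∈ Q
      · rw [if_pos ⟨h, hlρ⟩]
        intro hd
        have h1 := hc1 l h
        have h2 := Nat.le_of_dvd (by omega) hd
        omega
      · rw [if_neg (fun hh => h hh.1)]
        exact hlρ
  have hsub : ((Icc (-(H : ℤ)) H) ×ˢ (Icc 1 T)).filter (fun s : ℤ × ℕ => s.1 ≠ 0 ∧
        ∀ l ∈ pr y, ¬ ((l : ℤ) ∣ (s.2 : ℤ) -
          s.1 * ((if l ∈ Q ∧ ¬ l ∣ ρ then c l else ρ : ℕ) : ℤ))) ⊆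
      S₁.filter (fun s => ∀ l ∈ Q, ¬ (av s l ∧ quo s l = c l)) := by
    intro s hs
    rw [mem_filter] at hs
    obtain ⟨h1, h2, h3⟩ := hs
    rw [mem_filter, hS₁, mem_filter]
    refine ⟨⟨h1, h2, ?_⟩, ?_⟩
    · intro l hl hlw hd
      have hlQ : ¬ (l ∈ Q ∧ ¬ l ∣ ρ) := by
        rintro ⟨hlQ, -⟩
        have h4 := (hQp l hlQ).2
        rw [hQ, mem_filter, mem_pr] at hlQ
        omega
      have h4 := h3 l hl
      rw [if_neg hlQ] at h4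
      exact h4 hd
    · rintro l hlQ ⟨h4, h5⟩
      have hly : l ∈ pr y := by
        have h6 := hlQ
        rw [hQ, mem_filter, mem_pr] at h6
        exact mem_pr.2 ⟨h6.1.1, by omega⟩
      rw [hav] at h4
      have h6 := h3 l hly
      rw [if_pos ⟨hlQ, h4.2.2⟩, ← h5] at h6
      exact h6 (quo_dvd (hQp l hlQ).1 h4.1)
  have hprod0 : 0 ≤ ∏ l ∈ Q, (1 - (1 : ℝ) / l) := by
    apply Finset.prod_nonneg
    intro l hl
    have h1 : (2 : ℝ) ≤ l := by exact_mod_cast (hQp l hl).1.two_le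
    rw [sub_nonneg, div_le_one (by linarith)]
    linarith
  have hterm : ∀ s ∈ S₁, ∏ l ∈ Q.filter (fun l => av s l), (1 - 1 / ((l : ℝ) - 1)) ≤
      Real.exp (2 * c₀ / w') * ∏ l ∈ Q, (1 - (1 : ℝ) / l) := by
    intro s hs
    rw [hS₁, mem_filter, mem_product, mem_Icc, mem_Icc] at hs
    obtain ⟨⟨⟨a1, a2⟩, a3, a4⟩, a5, -⟩ := hs
    have ha : 1 ≤ s.1.natAbs * s.2 * ρ :=
      Nat.mul_pos (Nat.mul_pos (Int.natAbs_pos.2 a5) a3) hρ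
    refine prod_av_le hw' hQp ha (fun l => av s l) ?_ ?_
    · intro l hl h
      rw [hav] at h
      by_cases h1 : (l : ℤ) ∣ s.1
      · exact ((Int.natCast_dvd.1 h1).mul_right _).mul_right _
      · by_cases h2 : l ∣ s.2
        · exact (h2.mul_left _).mul_right _
        · have h3 : l ∣ ρ := by
            by_contra hcon
            exact h ⟨h1, h2, hcon⟩
          exact h3.mul_left _
    · refine le_trans ?_ hc
      apply Real.log_le_log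
      · exact_mod_cast ha
      · have h1 : s.1.natAbs * s.2 * ρ ≤ H * T * ρ :=
          Nat.mul_le_mul_right _ (Nat.mul_le_mul (by omega) a4)
        exact_mod_cast h1
  have h1 : ((S₁.filter (fun s => ∀ l ∈ Q, ¬ (av s l ∧ quo s l = c l))).card : ℝ) ≤
      (S₁.card : ℝ) * (Real.exp (2 * c₀ / w') * ∏ l ∈ Q, (1 - (1 : ℝ) / l)) := by
    refine hc2.trans ?_
    refine (Finset.sum_le_sum hterm).trans (le_of_eq ?_)
    rw [Finset.sum_const, nsmul_eq_mul]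
  have h2 : (S₁.card : ℝ) ≤ 6 * H * (((Icc 1 (T + H * ρ)).filter
        (fun n => ∀ l ∈ pr y, (l ≤ w' ∨ z < l) → ¬ l ∣ n)).card : ℝ) := by
    refine le_trans ?_ (pairs_cardR H T ρ w' z y hH hw' hy)
    have h3 : S₁ ⊆ ((Icc (-(H : ℤ)) H) ×ˢ (Icc 1 T)).filter (fun s : ℤ × ℕ =>
        ∀ l ∈ pr y, (l ≤ w' ∨ z < l) → ¬ ((l : ℤ) ∣ (s.2 : ℤ) - s.1 * (ρ : ℤ))) := by
      intro s hs
      rw [hS₁, mem_filter] at hs
      rw [mem_filter]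
      exact ⟨hs.1, hs.2.2⟩
    exact_mod_cast Finset.card_le_card h3
  have h3 : ((((Icc (-(H : ℤ)) H) ×ˢ (Icc 1 T)).filter (fun s : ℤ × ℕ => s.1 ≠ 0 ∧
        ∀ l ∈ pr y, ¬ ((l : ℤ) ∣ (s.2 : ℤ) -
          s.1 * ((if l ∈ Q ∧ ¬ l ∣ ρ then c l else ρ : ℕ) : ℤ)))).card : ℝ)
      ≤ ((S₁.filter (fun s => ∀ l ∈ Q, ¬ (av s l ∧ quo s l = c l))).card : ℝ) := by
    exact_mod_cast Finset.card_le_card hsub
  refine h3.trans (h1.trans ?_)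
  rw [← hQ]
  exact mul_le_mul_of_nonneg_right h2 (by positivity)

/-- **The box**: all classes `ρ`. -/
theorem boxR {H T ρ y : ℕ} (hρ : 1 ≤ ρ) (hy : 2 ≤ y) (hT : T + H * ρ ≤ y) :
    ((((Icc (-(H : ℤ)) H) ×ˢ (Icc 1 T)).filter (fun s : ℤ × ℕ => s.1 ≠ 0 ∧
        ∀ l ∈ pr y, ¬ ((l : ℤ) ∣ (s.2 : ℤ) - s.1 * (ρ : ℤ)))).card : ℝ) ≤ 2 * T := by
  classical
  have h1 : (((Icc (-(H : ℤ)) H) ×ˢ (Icc 1 T)).filter (fun s : ℤ × ℕ => s.1 ≠ 0 ∧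
        ∀ l ∈ pr y, ¬ ((l : ℤ) ∣ (s.2 : ℤ) - s.1 * (ρ : ℤ)))).card ≤
      ((Icc 1 T) ×ˢ (univ : Finset Bool)).card := by
    refine Finset.card_le_card_of_injOn
      (fun s : ℤ × ℕ => (s.2, decide ((s.2 : ℤ) - s.1 * (ρ : ℤ) = 1))) ?_ ?_
    · rintro ⟨h, k⟩ hs
      rw [Finset.mem_coe, mem_filter, mem_product, mem_Icc, mem_Icc] at hs
      rw [Finset.mem_coe, mem_product, mem_Icc]
      exact ⟨hs.1.2, mem_univ _⟩
    · have key : ∀ s ∈ (((Icc (-(H : ℤ)) H) ×ˢ (Icc 1 T)).filter (fun s : ℤ × ℕ => s.1 ≠ 0 ∧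
          ∀ l ∈ pr y, ¬ ((l : ℤ) ∣ (s.2 : ℤ) - s.1 * (ρ : ℤ)))),
          (s.2 : ℤ) - s.1 * (ρ : ℤ) = 1 ∨ (s.2 : ℤ) - s.1 * (ρ : ℤ) = -1 := by
        rintro ⟨h, k⟩ hs
        rw [mem_filter, mem_product, mem_Icc, mem_Icc] at hs
        dsimp only at hs ⊢
        obtain ⟨⟨⟨a1, a2⟩, a3, a4⟩, -, a5⟩ := hs
        have hr : (0 : ℤ) ≤ (ρ : ℤ) := Int.natCast_nonneg _
        have b1 : h * (ρ : ℤ) ≤ (H : ℤ) * ρ := mul_le_mul_of_nonneg_right a2 hr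
        have b2 : -(H : ℤ) * ρ ≤ h * (ρ : ℤ) := mul_le_mul_of_nonneg_right a1 hr
        obtain ⟨u, hu⟩ : ∃ u : ℤ, u = h * (ρ : ℤ) := ⟨_, rfl⟩
        obtain ⟨U, hU⟩ : ∃ U : ℕ, U = H * ρ := ⟨_, rfl⟩
        have hU' : (H : ℤ) * ρ = U := by rw [hU]; push_cast; rfl
        have b3 : -(H : ℤ) * ρ = -(U : ℤ) := by rw [← hU']; ring
        rw [hU', ← hu] at b1
        rw [b3, ← hu] at b2
        rw [← hu] at a5 ⊢
        rw [← hU] at hT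
        by_contra hcon
        push Not at hcon
        by_cases h0 : (k : ℤ) - u = 0
        · exact a5 2 (mem_pr.2 ⟨Nat.prime_two, hy⟩) (by rw [h0]; exact dvd_zero _)
        · have h2 : ((k : ℤ) - u).natAbs ≠ 1 := by omega
          obtain ⟨l, hl, hld⟩ := Nat.exists_prime_and_dvd h2
          have h3 := Nat.le_of_dvd (Int.natAbs_pos.2 h0) hld
          exact a5 l (mem_pr.2 ⟨hl, by omega⟩) (Int.natCast_dvd.2 hld)
      intro s hs t ht hst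
      have k1 := key s hs
      have k2 := key t ht
      dsimp only at hst
      rw [Prod.mk.injEq, decide_eq_decide] at hst
      obtain ⟨b1, b2⟩ := hst
      have h3 : s.1 * (ρ : ℤ) = t.1 * (ρ : ℤ) := by
        rw [b1] at k1 b2
        obtain ⟨u, hu⟩ : ∃ u : ℤ, u = s.1 * (ρ : ℤ) := ⟨_, rfl⟩
        obtain ⟨u', hu'⟩ : ∃ u' : ℤ, u' = t.1 * (ρ : ℤ) := ⟨_, rfl⟩
        rw [← hu] at k1 b2 ⊢
        rw [← hu'] at k2 b2 ⊢
        omega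
      have h4 : s.1 = t.1 := mul_right_cancel₀ (by omega) h3
      exact Prod.ext h4 b1
  rw [card_product, Nat.card_Icc, Finset.card_univ, Fintype.card_bool] at h1
  have h2 : (T + 1 - 1) * 2 = 2 * T := by omega
  rw [h2] at h1
  exact_mod_cast h1

end

end Pool.Agent.FXC
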