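import Mathlib
import Pool.Agent.DLG.SurvS
import Pool.Agent.FXC.COVa

set_option autoImplicit false

/-!
# FXC, module COV (helper9)
-/

namespace Pool.Agent.FXC

open Finset Filter BlockSieve Pool.Agent.UNI Pool.Agent.DLG

noncomputable section

/-- Sizes of the parameters (`H L < R`). -/
lemma sizesR {δ L w v q R : ℝ} {H T ρ : ℕ} (hδ : 0 < δ) (hδ1 : δ ≤ 1 / 200) (hL : 0 < L)
    (hw : 3136 ≤ w) (hv : 32 ≤ v) (hq : 32 ≤ q) (hqv : q ≤ v) (hR : R = L * w ^ 2 * q / v ^ 2)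
    (hH : 1 ≤ H) (hρ : 1 ≤ ρ) (hHρ : (H : ℝ) * ρ ≤ δ * L) (hHR : (H : ℝ) * L ≤ R)
    (hT : T = ⌊δ * (L + R / H)⌋₊) (hwL : 1 / δ * w ^ 2 ≤ L) :
    (T : ℝ) ≤ L * w ^ 2 ∧ (H : ℝ) ≤ w ^ 2 ∧ (H : ℝ) * T ≤ L * w ^ 2 ∧
      (H : ℝ) * ((T + H * ρ : ℕ) : ℝ) ≤ 3 * (δ * R) ∧
      δ * L ≤ ((T + H * ρ : ℕ) : ℝ) ∧ ((T + H * ρ : ℕ) : ℝ) ≤ 2 * (L * w ^ 2) := by
  have hv0 : 0 < v := by linarith
  have hq0 : 0 < q := by linarith
  have hw0 : 0 < w := by linarith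
  have hH1 : (1 : ℝ) ≤ H := by exact_mod_cast hH
  have hρ1 : (1 : ℝ) ≤ ρ := by exact_mod_cast hρ
  have hH0 : (0 : ℝ) < H := by linarith
  have hqv2 : q / v ^ 2 ≤ 1 := by
    rw [div_le_one (by positivity)]
    calc q ≤ v := hqv
      _ = v * 1 := (mul_one v).symm
      _ ≤ v * v := by gcongr; linarith
      _ = v ^ 2 := by ring
  have hR' : R = L * (w ^ 2 * (q / v ^ 2)) := by rw [hR]; ring
  have hR0 : 0 < R := by rw [hR]; positivity
  have hHw : (H : ℝ) ≤ w ^ 2 := by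
    have h1 : L * (H : ℝ) ≤ L * (w ^ 2 * (q / v ^ 2)) := by rw [← hR']; linarith
    have h2 := le_of_mul_le_mul_left h1 hL
    refine h2.trans ?_
    calc w ^ 2 * (q / v ^ 2) ≤ w ^ 2 * 1 := by gcongr
      _ = w ^ 2 := mul_one _
  have hRw : R ≤ L * w ^ 2 := by
    rw [hR']
    gcongr
    calc w ^ 2 * (q / v ^ 2) ≤ w ^ 2 * 1 := by gcongr
      _ = w ^ 2 := mul_one _
  have hLR : L ≤ R / H := by
    rw [le_div_iff₀ hH0]
    linarith
  have hRH0 : 0 < R / H := by positivity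
  have hTle : (T : ℝ) ≤ δ * (L + R / H) := by rw [hT]; exact Nat.floor_le (by positivity)
  have hTlt : δ * (L + R / H) < T + 1 := by rw [hT]; exact Nat.lt_floor_add_one _
  have hTle2 : (T : ℝ) ≤ 2 * δ * (R / H) := by
    refine hTle.trans ?_
    calc δ * (L + R / H) ≤ δ * (R / H + R / H) := by gcongr
      _ = _ := by ring
  have hHT : (H : ℝ) * T ≤ 2 * δ * R := by
    calc (H : ℝ) * T ≤ H * (2 * δ * (R / H)) := by gcongr
      _ = 2 * δ * R := by field_simp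
  have h2δ : 2 * δ ≤ 1 := by linarith
  have hHT2 : (H : ℝ) * T ≤ L * w ^ 2 := by
    refine hHT.trans (le_trans ?_ hRw)
    calc 2 * δ * R ≤ 1 * R := by gcongr
      _ = R := one_mul R
  have hTw : (T : ℝ) ≤ L * w ^ 2 := by
    refine le_trans ?_ hHT2
    calc (T : ℝ) = 1 * T := (one_mul _).symm
      _ ≤ H * T := by gcongr
  have hHρ0 : (0 : ℝ) ≤ (H : ℝ) * ρ := by positivity
  have hδL : δ * (2 * L) ≤ δ * (L + R / H) := by
    gcongr
    linarith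
  have hδL0 : 0 < δ * L := by positivity
  refine ⟨hTw, hHw, hHT2, ?_, ?_, ?_⟩
  · push_cast
    have h1 : (H : ℝ) * (H * ρ) ≤ δ * R := by
      calc (H : ℝ) * (H * ρ) ≤ H * (δ * L) := by gcongr
        _ = δ * (H * L) := by ring
        _ ≤ δ * R := by gcongr
    linarith
  · push_cast
    have h1 : (1 : ℝ) ≤ (H : ℝ) * ρ := by
      calc (1 : ℝ) = 1 * 1 := (one_mul 1).symm
        _ ≤ H * ρ := by gcongr
    linarith
  · push_cast
    have h1 : δ * L ≤ L * w ^ 2 := by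
      calc δ * L ≤ 1 * L := by gcongr; linarith
        _ = L * 1 := by ring
        _ ≤ L * w ^ 2 := by
            gcongr
            nlinarith
    linarith

/-- The last computation. -/
lemma last_bdR {K1 H N0 R δ L w v q Λ E1 G P : ℝ} (hK1 : 0 ≤ K1) (hH : 0 ≤ H) (hw : 0 < w)
    (hv : 0 < v) (hq : 0 < q) (hL : 0 < L) (hΛ : w * q / (2 * v) ≤ Λ)
    (hR : R = L * w ^ 2 * q / v ^ 2) (hδ : 0 ≤ δ)
    (hHN : H * N0 ≤ 3 * (δ * R)) (hG : G ≤ K1 * (N0 / w)) (hE1 : E1 ≤ Real.exp 12)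
    (hE10 : 0 ≤ E1) (hP0 : 0 ≤ P) (hP : P ≤ Real.exp 5 * v / Λ) :
    (6 * H * G) * (E1 * P) ≤ 36 * K1 * Real.exp 17 * δ * L := by
  have h1 : E1 * Real.exp (-4) ≤ Real.exp 8 := by
    calc E1 * Real.exp (-4) ≤ Real.exp 12 * Real.exp (-4) := by gcongr
      _ = Real.exp 8 := by rw [← Real.exp_add]; norm_num
  have h2 := last_bd (K1 := K1) (H := H) (N0 := N0) (R := R) (δ := 3 / 2 * δ) (L := L) (w := w)
    (v := v) (q := q) (Λ := Λ) (E1 := E1 * Real.exp (-4))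
    (E2 := (6 * H * G) * ((E1 * Real.exp (-4)) * P)) (G := G) (P := P) hK1 hH hw hv hq hL hΛ hR
    (by positivity) (by linarith) hG h1 (by positivity) hP0 hP rfl
  have h3 : Real.exp 17 = Real.exp 13 * Real.exp 4 := by rw [← Real.exp_add]; norm_num
  have h4 : Real.exp (-4) * Real.exp 4 = 1 := by rw [← Real.exp_add]; norm_num
  calc (6 * H * G) * (E1 * P) = ((6 * H * G) * ((E1 * Real.exp (-4)) * P)) * Real.exp 4 := by
        have : (6 * H * G) * ((E1 * Real.exp (-4)) * P) * Real.exp 4 =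
            (6 * H * G) * (E1 * P) * (Real.exp (-4) * Real.exp 4) := by ring
        rw [this, h4, mul_one]
    _ ≤ (24 * K1 * Real.exp 13 * (3 / 2 * δ) * L) * Real.exp 4 := by
        gcongr
    _ = _ := by rw [h3]; ring

/-- The case `H L ≥ R`. -/
lemma covB {δ L R : ℝ} {H T ρ y : ℕ} (hδ : 0 < δ) (hδ1 : δ ≤ 1 / 200) (hL : 200 ≤ L)
    (hR0 : 0 ≤ R) (hH : 1 ≤ H) (hρ : 1 ≤ ρ) (hHρ : (H : ℝ) * ρ ≤ δ * L) (hHR : R ≤ (H : ℝ) * L)
    (hT : T = ⌊δ * (L + R / H)⌋₊) (hy' : L / 39 < y + 1) :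
    (H : ℝ) * T ≤ L ^ 2 ∧ (T : ℝ) ≤ L ^ 2 ∧
    ∃ c : ℕ → ℕ, (∀ l ∈ pr y, (l ∣ ρ → l ∣ c l) ∧ (¬ l ∣ ρ → ¬ l ∣ c l)) ∧
    ((((Icc (-(H : ℤ)) H) ×ˢ (Icc 1 T)).filter (fun s : ℤ × ℕ => s.1 ≠ 0 ∧
      ∀ l ∈ pr y, ¬ ((l : ℤ) ∣ (s.2 : ℤ) - s.1 * (c l : ℤ)))).card : ℝ) ≤ 4 * δ * L := by
  have hH1 : (1 : ℝ) ≤ H := by exact_mod_cast hH
  have hρ1 : (1 : ℝ) ≤ ρ := by exact_mod_cast hρ
  have hH0 : (0 : ℝ) < H := by linarith
  have hRL : R / H ≤ L := by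
    rw [div_le_iff₀ hH0]
    linarith
  have hTle : (T : ℝ) ≤ δ * (L + R / H) := by rw [hT]; exact Nat.floor_le (by positivity)
  have hT2 : (T : ℝ) ≤ 2 * δ * L := by
    refine hTle.trans ?_
    calc δ * (L + R / H) ≤ δ * (L + L) := by gcongr
      _ = _ := by ring
  have hδL : δ * L ≤ 1 / 200 * L := by gcongr
  have hTL : (T : ℝ) ≤ L := by linarith
  have hHL : (H : ℝ) ≤ L := by
    have h1 : (H : ℝ) ≤ H * ρ := by
      calc (H : ℝ) = H * 1 := (mul_one _).symm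
        _ ≤ H * ρ := by gcongr
    linarith
  have hL2 : L ≤ L ^ 2 := by nlinarith
  have hTy : T + H * ρ ≤ y := by
    have h1 : ((T + H * ρ : ℕ) : ℝ) ≤ y := by
      push_cast
      linarith
    exact_mod_cast h1
  have hy2 : 2 ≤ y := by
    have h1 : (1 : ℝ) < y := by linarith
    have h2 : 1 < y := by exact_mod_cast h1
    omega
  refine ⟨?_, hTL.trans hL2, fun _ => ρ, fun l _ => ⟨fun h => h, fun h => h⟩, ?_⟩
  · calc (H : ℝ) * T ≤ L * L := by gcongr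
      _ = L ^ 2 := by ring
  · refine (boxR hρ hy2 hTy).trans ?_
    linarith

theorem t_COV : S_COV := by
  obtain ⟨C', hC'⟩ : ∃ C' : ℝ, C' = 4 + 5 / 2 * zth := ⟨_, rfl⟩
  obtain ⟨K1, hK1⟩ : ∃ K1 : ℝ, K1 = 1 + 32 * Real.exp (C' + 1) + 9 * Real.exp 5 := ⟨_, rfl⟩
  have hK11 : 1 ≤ K1 := by
    rw [hK1]
    have h1 := Real.exp_pos (C' + 1)
    have h2 := Real.exp_pos 5
    linarith
  have he17 : 1 ≤ Real.exp 17 := Real.one_le_exp (by norm_num)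
  have hK4 : (4 : ℝ) ≤ 36 * K1 * Real.exp 17 := by
    calc (4 : ℝ) ≤ 36 * 1 * 1 := by norm_num
      _ ≤ 36 * K1 * Real.exp 17 := by gcongr
  refine ⟨36 * K1 * Real.exp 17, by linarith, fun δ hδ hδ1 => ?_⟩
  have hev : ∀ᶠ N : ℕ in atTop, _ := tendsto_log_nat.eventually (ev_sur δ)
  obtain ⟨M₁, hM₁⟩ := eventually_atTop.1 hev
  refine ⟨max M₁ 3, fun N hN ρ H T hρ hH hHρ hT => ?_⟩
  obtain ⟨⟨⟨e1, e2, e3, e4⟩, f1, f2, f3, f4, f5⟩, e5, e6⟩ := hM₁ N ((le_max_left _ _).trans hN)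
  obtain ⟨R, hR⟩ : ∃ R, R = RR N := ⟨_, rfl⟩
  rw [← hR] at hT
  rw [RR] at hR
  obtain ⟨L, hL⟩ : ∃ L, L = Real.log (N : ℝ) := ⟨_, rfl⟩
  obtain ⟨w, hw⟩ : ∃ w, w = Real.log L := ⟨_, rfl⟩
  obtain ⟨v, hv⟩ : ∃ v, v = Real.log w := ⟨_, rfl⟩
  obtain ⟨q, hq⟩ : ∃ q, q = Real.log v := ⟨_, rfl⟩
  rw [← hL] at e1 e2 e3 e4 f1 f2 f3 f4 f5 e5 e6
  rw [← hw] at e1 e2 e3 e4 f1 f2 f3 f4 f5 e5
  rw [← hv] at e1 e2 e3 e4 f2 f3 f4 f5
  rw [← hq] at e1 e4
  have hw0 : 0 < w := by linarith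
  have hv0 : 0 < v := by linarith
  have hq0 : 0 < q := by linarith
  have hL0 : 0 < L := by
    have : 0 < 2 / δ := by positivity
    linarith
  have hwL : w ≤ L - 1 := by
    rw [hw]
    exact Real.log_le_sub_one_of_pos hL0
  rw [← hL, ← hw, ← hv, ← hq] at hR
  rw [← hL] at hHρ hT ⊢
  have hL200 : 200 ≤ L := by linarith
  obtain ⟨y, hy⟩ : ∃ y, y = yM 8 N := ⟨_, rfl⟩
  rw [← hy]
  have hy' : y = ⌊L / (3 * (13 : ℝ))⌋₊ := by
    rw [hy, yM, hL]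
    norm_num
  have hR0 : 0 ≤ R := by rw [hR]; positivity
  rcases le_total R ((H : ℝ) * L) with hHR | hHR
  · have hy39 : L / 39 < y + 1 := by
      have h1 := Nat.lt_floor_add_one (L / (3 * (13 : ℝ)))
      rw [← hy'] at h1
      norm_num at h1
      exact h1
    obtain ⟨b1, b2, c, b3, b4⟩ := covB hδ hδ1 hL200 hR0 hH hρ hHρ hHR hT hy39
    refine ⟨b1, b2, c, b3, b4.trans ?_⟩
    calc 4 * δ * L = 4 * (δ * L) := by ring
      _ ≤ (36 * K1 * Real.exp 17) * (δ * L) := by gcongr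
      _ = _ := by ring
  obtain ⟨Λ, hΛ⟩ : ∃ Λ, Λ = (1 - 1 / 2) * (w * q / v) := ⟨_, rfl⟩
  obtain ⟨u, hu⟩ : ∃ u, u = w / Λ := ⟨_, rfl⟩
  obtain ⟨z, hz⟩ : ∃ z : ℕ, z = ⌊Real.exp Λ⌋₊ := ⟨_, rfl⟩
  obtain ⟨n1, n2, n3, n4, n5, n6, n7, n8, n9⟩ := num_factsC (κ := 1) one_pos le_rfl hv hq
    (by rw [hΛ]) hu e1 e2 (by simpa using e3) (by simpa using e4)
  obtain ⟨s1, s2, s6, s3, s4, s5⟩ := sizesR hδ hδ1 hL0 f1 f4 e1 n7 hR hH hρ hHρ hHR hT e5
  have h2v : 2 * v ≤ w := by nlinarith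
  obtain ⟨hy2, hy3, hlogy1, hlogy2⟩ :=
    y_facts (by norm_num) hL0 hw hv (by linarith) (by linarith) h2v hy'
  obtain ⟨hz3, hlogz1, hlogz2⟩ := z_facts (by linarith) hz
  obtain ⟨w', hw'⟩ : ∃ w' : ℕ, w' = ⌊w⌋₊ := ⟨_, rfl⟩
  have hw'1 : (w' : ℝ) ≤ w := by rw [hw']; exact Nat.floor_le hw0.le
  have hw'2 : w < w' + 1 := by rw [hw']; exact Nat.lt_floor_add_one _
  have hw'3 : w / 2 ≤ w' := by linarith
  have hw'4 : 2 ≤ w' := by
    have h1 : (2 : ℝ) ≤ w' := by linarith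
    exact_mod_cast h1
  have hw'0 : (0 : ℝ) < w' := by linarith
  have hw2L : w ^ 2 ≤ L := by
    refine le_trans ?_ e5
    have h1 : 1 ≤ 1 / δ := by
      rw [le_div_iff₀ hδ]
      linarith
    calc w ^ 2 = 1 * w ^ 2 := (one_mul _).symm
      _ ≤ 1 / δ * w ^ 2 := by gcongr
  have hLw2 : L * w ^ 2 ≤ L ^ 2 := by
    calc L * w ^ 2 ≤ L * L := by gcongr
      _ = L ^ 2 := by ring
  refine ⟨s6.trans hLw2, s1.trans hLw2, ?_⟩
  have hw'y : w' ≤ y := by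
    have h1 : (w' : ℝ) ≤ y := by
      refine hw'1.trans (le_trans ?_ hy2)
      rw [le_div_iff₀ (by norm_num)]
      calc w * (4 * 13) ≤ w * w := by gcongr; linarith
        _ = w ^ 2 := by ring
        _ ≤ L := hw2L
    exact_mod_cast h1
  have hzY : z ≤ y := by
    have hz0 : (0 : ℝ) < z := by
      have : (2 : ℝ) ≤ z := by exact_mod_cast hz3
      linarith
    have hy0 : (0 : ℝ) < y := by
      have : (2 : ℝ) ≤ y := by exact_mod_cast hy3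
      linarith
    have h1 : Real.log z < Real.log y := by linarith
    have h2 : (z : ℝ) < y := (Real.log_lt_log_iff hz0 hy0).1 h1
    exact_mod_cast h2.le
  have hvΛ : v ≤ Λ := by
    refine le_trans ?_ n9
    rw [le_div_iff₀ (by positivity)]
    calc v * (2 * v) ≤ 1024 * v ^ 2 := by nlinarith
      _ ≤ w * 1 := by linarith
      _ ≤ w * q := by gcongr; linarith
  have hwz : w' ≤ z := by
    rw [hw', hz]
    apply Nat.floor_le_floor
    calc w = Real.exp v := by rw [hv, Real.exp_log hw0]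
      _ ≤ Real.exp Λ := Real.exp_le_exp.2 hvΛ
  have hlogN0 : w - v ≤ Real.log ((T + H * ρ : ℕ) : ℝ) := by
    have h1 : δ / 2 * L ≤ ((T + H * ρ : ℕ) : ℝ) := by
      refine le_trans ?_ s4
      have : 0 ≤ δ * L := by positivity
      linarith
    have h2 := Real.log_le_log (by positivity) h1
    rw [Real.log_mul (by positivity) hL0.ne', ← hw] at h2
    linarith
  have hN0y : (T + H * ρ) / y ≤ w' ^ 3 := by
    have h1 : (((T + H * ρ) / y : ℕ) : ℝ) ≤ ((T + H * ρ : ℕ) : ℝ) / y := Nat.cast_div_le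
    have h2 : ((T + H * ρ : ℕ) : ℝ) / y ≤ (w' : ℝ) ^ 3 := by
      calc ((T + H * ρ : ℕ) : ℝ) / y ≤ (2 * (L * w ^ 2)) / (L / (4 * 13)) := by gcongr
        _ = 104 * w ^ 2 := by
            field_simp
            norm_num
        _ ≤ (w / 8) * w ^ 2 := by gcongr; linarith
        _ = (w / 2) ^ 3 := by ring
        _ ≤ (w' : ℝ) ^ 3 := by gcongr
    exact_mod_cast h1.trans h2
  have hG := rough_bd (w' := w') (z := z) (y := y) (N := T + H * ρ) hC' f1 hv hq hΛ hu hz e1 e2 e3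
    e4 f2 f3 hlogN0 hw'4 hw'y hN0y hlogy2
  rw [← hK1] at hG
  have hlogHT : Real.log ((H * T * ρ : ℕ) : ℝ) ≤ 3 * w := by
    rcases Nat.eq_zero_or_pos T with h | h
    · rw [h, mul_zero, zero_mul, Nat.cast_zero, Real.log_zero]
      linarith
    · have h1 : (0 : ℝ) < ((H * T * ρ : ℕ) : ℝ) := by
        have : 0 < H * T * ρ := Nat.mul_pos (Nat.mul_pos hH h) hρ
        exact_mod_cast this
      have hρL : (ρ : ℝ) ≤ L := by
        have hH1 : (1 : ℝ) ≤ H := by exact_mod_cast hH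
        calc (ρ : ℝ) = 1 * ρ := (one_mul _).symm
          _ ≤ H * ρ := by gcongr
          _ ≤ δ * L := hHρ
          _ ≤ 1 * L := by gcongr; linarith
          _ = L := one_mul L
      have h2 : ((H * T * ρ : ℕ) : ℝ) ≤ L ^ 2 * w ^ 2 := by
        push_cast
        calc (H : ℝ) * T * ρ ≤ (L * w ^ 2) * L := by gcongr
          _ = L ^ 2 * w ^ 2 := by ring
      have h3 := Real.log_le_log h1 h2
      rw [Real.log_mul (by positivity) (by positivity), Real.log_pow, Real.log_pow, ← hw,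
        ← hv] at h3
      have h4 : (((2 : ℕ) : ℝ)) = 2 := by norm_num
      rw [h4] at h3
      linarith
  obtain ⟨c, hc1, hc2⟩ := surv_combR (H := H) (T := T) (ρ := ρ) (w' := w') (z := z) (y := y) hH hρ
    hw'4 hzY hy3 hlogHT
  refine ⟨c, hc1, hc2.trans ?_⟩
  have hP := prod_mid_le (w' := w') (z := z) (v := v) (Λ := Λ) hw'4 hwz (by
    rw [hv]
    exact Real.log_le_log hw'0 hw'1) (by linarith) hlogz2
  have hP0 : 0 ≤ ∏ l ∈ (pr z).filter (fun l => w' < l), (1 - (1 : ℝ) / l) :=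
    Finset.prod_nonneg fun l hl => (one_sub_pos (mem_filter.1 hl).1).le
  have hE1 : Real.exp (2 * (3 * w) / w') ≤ Real.exp 12 := by
    apply Real.exp_le_exp.2
    rw [div_le_iff₀ hw'0]
    linarith
  exact last_bdR (by linarith) (Nat.cast_nonneg H) hw0 hv0 hq0 hL0 n9 hR hδ.le s3 hG hE1
    (Real.exp_pos _).le hP0 hP

end

end Pool.Agent.FXC
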