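import Mathlib
import Pool.Agent.UNI.B1

set_option autoImplicit false

/-!
# FXC, module COV, the box
-/

namespace Pool.Agent.FXC

open Finset BlockSieve

/-- A nonzero integer of modulus at most `y` without prime factors up to `y` is `1` or `-1`. -/
lemma cov_unit {y : ℕ} {j : ℤ} (hy : 2 ≤ y) (hj : |j| ≤ y) (h : ∀ l ∈ pr y, ¬ (l : ℤ) ∣ j) :
    j = 1 ∨ j = -1 := by
  have h1 : j.natAbs = 1 := by
    by_contra hcon
    have h2 : (j.natAbs.minFac).Prime := Nat.minFac_prime hcon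
    have h3 : j.natAbs.minFac ∣ j.natAbs := Nat.minFac_dvd _
    rcases Nat.eq_zero_or_pos j.natAbs with h0 | h0
    · have h4 : j = 0 := Int.natAbs_eq_zero.1 h0
      apply h 2 (mem_pr.2 ⟨Nat.prime_two, hy⟩)
      rw [h4]
      exact dvd_zero _
    · have h4 : j.natAbs.minFac ≤ y := by
        have h5 := Nat.le_of_dvd h0 h3
        have h6 : ((j.natAbs : ℕ) : ℤ) ≤ y := by
          rw [Int.natCast_natAbs]
          exact hj
        have h7 : j.natAbs ≤ y := by exact_mod_cast h6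
        exact h5.trans h7
      exact h _ (mem_pr.2 ⟨h2, h4⟩) (Int.natCast_dvd.2 h3)
  exact Int.natAbs_eq_iff.1 h1

/-- **The box.** -/
theorem cov_box {y ρ H T : ℕ} (hρ : 1 ≤ ρ) (hy : 2 ≤ y) (hT : T + H * ρ ≤ y) :
    ((((Icc (-(H : ℤ)) H) ×ˢ (Icc 1 T)).filter (fun s : ℤ × ℕ => s.1 ≠ 0 ∧
      ∀ l ∈ pr y, ¬ ((l : ℤ) ∣ (s.2 : ℤ) - s.1 * (ρ : ℤ)))).card : ℝ) ≤ 2 * T := by
  classical
  obtain ⟨F, hF⟩ : ∃ F, F = ((Icc (-(H : ℤ)) H) ×ˢ (Icc 1 T)).filter (fun s : ℤ × ℕ => s.1 ≠ 0 ∧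
      ∀ l ∈ pr y, ¬ ((l : ℤ) ∣ (s.2 : ℤ) - s.1 * (ρ : ℤ))) := ⟨_, rfl⟩
  rw [← hF]
  have hmem : ∀ s ∈ F, 1 ≤ s.2 ∧ s.2 ≤ T ∧
      ((s.2 : ℤ) - s.1 * (ρ : ℤ) = 1 ∨ (s.2 : ℤ) - s.1 * (ρ : ℤ) = -1) := by
    intro s hs
    rw [hF, mem_filter, mem_product, mem_Icc, mem_Icc] at hs
    obtain ⟨⟨h1, h2⟩, h3, h4⟩ := hs
    refine ⟨h2.1, h2.2, cov_unit hy ?_ h4⟩
    have h5 : |s.1 * (ρ : ℤ)| ≤ H * ρ := by
      rw [abs_mul, Nat.abs_cast]
      exact mul_le_mul_of_nonneg_right (abs_le.2 h1) (Int.natCast_nonneg _)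
    have h6 : (s.2 : ℤ) ≤ T := by exact_mod_cast h2.2
    have h7 : (1 : ℤ) ≤ s.2 := by exact_mod_cast h2.1
    have h8 : (T : ℤ) + H * ρ ≤ y := by exact_mod_cast hT
    rw [abs_le] at h5 ⊢
    constructor
    · linarith [h5.2]
    · linarith [h5.1]
  have hcard : F.card ≤ ((Icc 1 T) ×ˢ (univ : Finset Bool)).card := by
    refine Finset.card_le_card_of_injOn
      (fun s => (s.2, decide ((s.2 : ℤ) - s.1 * (ρ : ℤ) = 1))) ?_ ?_
    · intro s hs
      have h1 := hmem s (by simpa using hs)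
      rw [Finset.mem_coe, mem_product, mem_Icc]
      exact ⟨⟨h1.1, h1.2.1⟩, mem_univ _⟩
    · intro s hs t ht hst
      have h1 := (hmem s (by simpa using hs)).2.2
      have h2 := (hmem t (by simpa using ht)).2.2
      have h3 : s.2 = t.2 := congrArg Prod.fst hst
      have h4 : decide ((s.2 : ℤ) - s.1 * (ρ : ℤ) = 1) = decide ((t.2 : ℤ) - t.1 * (ρ : ℤ) = 1) :=
        congrArg Prod.snd hst
      have h5 : (s.2 : ℤ) - s.1 * (ρ : ℤ) = (t.2 : ℤ) - t.1 * (ρ : ℤ) := by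
        rw [decide_eq_decide] at h4
        rcases h1 with h1 | h1
        · rw [h1, h4.1 h1]
        · rcases h2 with h2 | h2
          · have := h4.2 h2
            rw [h1] at this
            norm_num at this
          · rw [h1, h2]
      have h6 : s.1 * (ρ : ℤ) = t.1 * (ρ : ℤ) := by
        rw [h3] at h5
        linarith
      have h7 : s.1 = t.1 := mul_right_cancel₀ (by omega) h6
      exact Prod.ext h7 h3
  rw [Finset.card_product, Nat.card_Icc, Nat.add_sub_cancel, Finset.card_univ, Fintype.card_bool]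
    at hcard
  have h9 : (F.card : ℝ) ≤ ((T * 2 : ℕ) : ℝ) := by exact_mod_cast hcard
  push_cast at h9
  linarith

end Pool.Agent.FXC
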