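import Mathlib
import Pool.Agent.FXC.St
import Pool.Agent.DLG.Lin

set_option autoImplicit false

/-!
# Module ENG: the dual engine
-/

namespace Pool.Agent.FXC

open Finset Pool.Agent.Lib_helper9.LG Pool.Agent.DLG

namespace ENGaux

lemma not_dvd_of_lt {l : ℕ} {n : ℤ} (h0 : n ≠ 0) (h : |n| < l) : ¬ (l : ℤ) ∣ n := by
  intro hd
  have := Int.le_of_dvd (abs_pos.2 h0) ((dvd_abs _ _).2 hd)
  omega

end ENGaux

open ENGaux in
theorem t_ENG : S_ENG := by
  obtain ⟨c₁, hc₁, h⟩ := engL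
  refine ⟨c₁, hc₁, fun A => ?_⟩
  obtain ⟨X₀, hX₀⟩ := h A
  refine ⟨X₀, fun X hX a W b ha haX hW hWX hWm hWp S hS hc => ?_⟩
  have hlt : ∀ l ∈ PL a.natAbs X, ∀ k ∈ S, (k : ℤ) < l := by
    intro l hl k hk
    have h1 := (mem_PLe hl).2.1
    have h2 := (hS k hk).2.trans_lt h1
    exact_mod_cast h2
  obtain ⟨x, h1, h2, h3⟩ := hX₀ X hX a.natAbs W b (Int.natAbs_pos.2 ha) haX hW hWX hWm hWp
    {k // k ∈ S} (fun _ => a) (fun k => ((k : ℕ) : ℤ))
    (by
      intro l hl k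
      have h4 := hlt l hl k k.2
      have h5 := (hS k k.2).1
      refine not_dvd_of_lt (by omega) ?_
      rw [abs_of_nonneg (by omega)]
      exact h4)
    (by
      intro l hl k j hkj
      have hlp : Prime (l : ℤ) := Nat.prime_iff_prime_int.1 (mem_PLe hl).1
      have hla : ¬ (l : ℤ) ∣ a := by
        intro hd
        exact (mem_PLe hl).2.2.1 (Int.natCast_dvd.1 hd)
      have h4 := hlt l hl k k.2
      have h5 := hlt l hl j j.2
      have hne : (k : ℕ) ≠ (j : ℕ) := fun he => hkj (Subtype.ext he)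
      intro hd
      have h6 : a * ((j : ℕ) : ℤ) - a * ((k : ℕ) : ℤ) = a * (((j : ℕ) : ℤ) - ((k : ℕ) : ℤ)) := by
        ring
      rw [h6] at hd
      rcases hlp.dvd_or_dvd hd with h7 | h7
      · exact hla h7
      · refine not_dvd_of_lt (l := l) (by omega) ?_ h7
        rw [abs_lt]
        omega)
    (by
      rw [Fintype.card_coe]
      exact hc)
  refine ⟨x, h1, h2, fun k hk => ?_⟩
  obtain ⟨l, hl, h4⟩ := h3 ⟨k, hk⟩
  obtain ⟨g1, g2, -, g4⟩ := mem_PLe hl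
  exact ⟨l, g1, g2, g4, h4⟩

end Pool.Agent.FXC
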