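import Mathlib
import Pool.Agent.FXC.StH
import Pool.Agent.DLG.Lin

set_option autoImplicit false

/-!
# Module ENH: the dual engine for pairs
-/

namespace Pool.Agent.FXC

open Finset Pool.Agent.Lib_helper9.LG Pool.Agent.DLG

namespace ENHaux

lemma enh_not_dvd_of_lt {l : ℕ} {n : ℤ} (h0 : n ≠ 0) (h : |n| < l) : ¬ (l : ℤ) ∣ n := by
  intro hd
  have := Int.le_of_dvd (abs_pos.2 h0) ((dvd_abs _ _).2 hd)
  omega

lemma enh_eq {h h' : ℤ} {k k' : ℕ} (hc : IsCoprime h (k : ℤ)) (hc' : IsCoprime h' (k' : ℤ))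
    (hk : 1 ≤ k) (he : h * (k' : ℤ) = h' * (k : ℤ)) : k = k' ∧ h = h' := by
  have h1 : (k : ℤ) ∣ (k' : ℤ) := by
    refine (hc.symm).dvd_of_dvd_mul_left (?_ : (k : ℤ) ∣ h * (k' : ℤ))
    rw [he]
    exact dvd_mul_left _ _
  have h2 : (k' : ℤ) ∣ (k : ℤ) := by
    refine (hc'.symm).dvd_of_dvd_mul_left (?_ : (k' : ℤ) ∣ h' * (k : ℤ))
    rw [← he]
    exact dvd_mul_left _ _
  have h3 : k = k' := Nat.dvd_antisymm (Int.natCast_dvd_natCast.1 h1) (Int.natCast_dvd_natCast.1 h2)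
  refine ⟨h3, ?_⟩
  subst h3
  have h4 : (k : ℤ) ≠ 0 := by omega
  exact mul_right_cancel₀ h4 he

lemma enh_bound {h h' : ℤ} {k k' H T : ℕ} (hh : |h| ≤ H) (hh' : |h'| ≤ H) (hk : k ≤ T)
    (hk' : k' ≤ T) : |h * (k' : ℤ) - h' * (k : ℤ)| ≤ 2 * (H : ℤ) * T := by
  have h1 : |h * (k' : ℤ)| ≤ (H : ℤ) * T := by
    rw [abs_mul, Nat.abs_cast]
    exact mul_le_mul hh (by exact_mod_cast hk') (by omega) (by omega)
  have h2 : |h' * (k : ℤ)| ≤ (H : ℤ) * T := by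
    rw [abs_mul, Nat.abs_cast]
    exact mul_le_mul hh' (by exact_mod_cast hk) (by omega) (by omega)
  have h3 := abs_sub (h * (k' : ℤ)) (h' * (k : ℤ))
  have h4 : 2 * (H : ℤ) * T = (H : ℤ) * T + (H : ℤ) * T := by ring
  rw [h4]
  omega

end ENHaux

open ENHaux in
theorem t_ENH : S_ENH := by
  obtain ⟨c₁, hc₁, h⟩ := engL
  refine ⟨c₁, hc₁, fun A => ?_⟩
  obtain ⟨X₀, hX₀⟩ := h A
  refine ⟨X₀, fun X hX a W b ha haX hW hWX hWm hWp H T hH hHT S hS hc => ?_⟩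
  have hlt : ∀ l ∈ PL a.natAbs X, 2 * (H : ℤ) * T < l := by
    intro l hl
    have h1 := (mem_PLe hl).2.1
    have h2 : 2 * (H : ℝ) * T < (l : ℝ) := hHT.trans_lt h1
    exact_mod_cast h2
  have hT : (T : ℤ) ≤ 2 * (H : ℤ) * T := by
    have h1 : (1 : ℤ) ≤ 2 * (H : ℤ) := by omega
    calc (T : ℤ) = 1 * T := (one_mul _).symm
      _ ≤ 2 * (H : ℤ) * T := mul_le_mul_of_nonneg_right h1 (by omega)
  obtain ⟨x, h1, h2, h3⟩ := hX₀ X hX a.natAbs W b (Int.natAbs_pos.2 ha) haX hW hWX hWm hWp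
    {p // p ∈ S} (fun p => p.1.1 * a) (fun p => ((p.1.2 : ℕ) : ℤ))
    (by
      intro l hl p
      have h4 := hlt l hl
      obtain ⟨-, -, h5, h6⟩ := hS p.1 p.2
      refine enh_not_dvd_of_lt (by omega) ?_
      rw [abs_of_nonneg (by omega)]
      omega)
    (by
      intro l hl p q hpq
      have hlp : Prime (l : ℤ) := Nat.prime_iff_prime_int.1 (mem_PLe hl).1
      have hla : ¬ (l : ℤ) ∣ a := by
        intro hd
        exact (mem_PLe hl).2.2.1 (Int.natCast_dvd.1 hd)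
      have h4 := hlt l hl
      obtain ⟨p1, p2, p3, p4⟩ := hS p.1 p.2
      obtain ⟨q1, q2, q3, q4⟩ := hS q.1 q.2
      intro hd
      have h6 : p.1.1 * a * ((q.1.2 : ℕ) : ℤ) - q.1.1 * a * ((p.1.2 : ℕ) : ℤ) =
          a * (p.1.1 * ((q.1.2 : ℕ) : ℤ) - q.1.1 * ((p.1.2 : ℕ) : ℤ)) := by
        ring
      rw [h6] at hd
      rcases hlp.dvd_or_dvd hd with h7 | h7
      · exact hla h7
      · refine enh_not_dvd_of_lt (l := l) ?_ ?_ h7
        · intro he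
          obtain ⟨e1, e2⟩ := enh_eq p1 q1 p3 (sub_eq_zero.1 he)
          exact hpq (Subtype.ext (Prod.ext e2 e1))
        · exact (enh_bound p2 q2 p4 q4).trans_lt h4)
    (by
      rw [Fintype.card_coe]
      exact hc)
  refine ⟨x, h1, h2, fun p hp => ?_⟩
  obtain ⟨l, hl, h4⟩ := h3 ⟨p, hp⟩
  obtain ⟨g1, g2, -, g4⟩ := mem_PLe hl
  exact ⟨l, g1, g2, g4, h4⟩

end Pool.Agent.FXC
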