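import Mathlib
import Pool.Agent.FXC.StH

set_option autoImplicit false

/-!
# FXC (MP_e1dc24_nt): module EXH, a representative of the classes
-/

namespace Pool.Agent.FXC

open Finset

theorem t_EXH : S_EXH := by
  intro y Q hQ β
  have hpp : Set.Pairwise (Q : Set ℕ) (Function.onFun Nat.Coprime (fun l : ℕ => l)) := by
    intro l hl l' hl' hne
    exact (Nat.coprime_primes (hQ l hl) (hQ l' hl')).2 hne
  obtain ⟨k, hk⟩ := Nat.chineseRemainderOfFinset β (fun l : ℕ => l) Q
    (fun l hl => (hQ l hl).ne_zero) hpp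
  have hM : 0 < ∏ l ∈ Q, l := Finset.prod_pos fun l hl => (hQ l hl).pos
  set M : ℕ := ∏ l ∈ Q, l with hMdef
  refine ⟨y + (k + M * y - y) % M, Nat.le_add_right _ _,
    Nat.add_lt_add_left (Nat.mod_lt _ hM) _, fun l hl => ?_⟩
  have h1 : y + (k + M * y - y) % M ≡ y + (k + M * y - y) [MOD M] :=
    (Nat.ModEq.refl y).add (Nat.mod_modEq _ _)
  have h2 : y + (k + M * y - y) = k + M * y := by
    have : y ≤ M * y := Nat.le_mul_of_pos_left y hM
    omega
  have h3 : k + M * y ≡ k [MOD M] := by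
    unfold Nat.ModEq
    rw [Nat.add_mul_mod_self_left]
  rw [h2] at h1
  have h4 := (h1.trans h3).of_dvd (Finset.dvd_prod_of_mem (fun l : ℕ => l) hl)
  exact h4.trans (hk l hl)

end Pool.Agent.FXC
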