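import Mathlib
import Pool.Agent.FXC.St
import Pool.Agent.UNI.B2
import Pool.Agent.UNI.B4

set_option autoImplicit false

/-!
# FXC, module FGD: the theorem, in terms of the primes in the residue class
-/

namespace Pool.Agent.FXC

open Finset Filter BlockSieve Pool.Agent.UNI

noncomputable section

lemma fgd_zth : 0 ≤ zth := by
  unfold zth
  apply tsum_nonneg
  intro i
  positivity

/-- A product over a finite set of integers `≥ 2`. -/
lemma fgd_prod (F : Finset ℕ) (h : ∀ p ∈ F, 2 ≤ p) :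
    1 / ((F.card : ℝ) + 1) ≤ ∏ p ∈ F, (1 - (1 : ℝ) / p) := by
  induction F using Finset.induction_on_max with
  | empty => simp
  | insert m F hF ih =>
    have hm2 : 2 ≤ m := h m (mem_insert_self _ _)
    have hmF : m ∉ F := fun hm => lt_irrefl _ (hF m hm)
    have h1 := ih (fun p hp => h p (mem_insert_of_mem hp))
    have hcard : F.card + 2 ≤ m := by
      have hsub : F ⊆ Ico 2 m := fun p hp => mem_Ico.2 ⟨h p (mem_insert_of_mem hp), hF p hp⟩
      have h2 := Finset.card_le_card hsub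
      rw [Nat.card_Ico] at h2
      omega
    rw [Finset.prod_insert hmF, Finset.card_insert_of_notMem hmF]
    obtain ⟨c, hc⟩ : ∃ c : ℝ, c = (F.card : ℝ) := ⟨_, rfl⟩
    have hc0 : 0 ≤ c := by rw [hc]; positivity
    have hcm : c + 2 ≤ m := by
      rw [hc]
      exact_mod_cast hcard
    push_cast
    rw [← hc] at h1 ⊢
    have h3 : 1 - 1 / (c + 2) ≤ 1 - (1 : ℝ) / m := by
      have : (1 : ℝ) / m ≤ 1 / (c + 2) := one_div_le_one_div_of_le (by linarith) hcm
      linarith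
    have h4 : 1 / (c + 1 + 1) = (1 - 1 / (c + 2)) * (1 / (c + 1)) := by
      have e1 : c + 1 ≠ 0 := by linarith
      have e2 : c + 2 ≠ 0 := by linarith
      have e3 : c + 1 + 1 = c + 2 := by ring
      rw [e3]
      field_simp
      ring
    rw [h4]
    apply mul_le_mul h3 h1 (by positivity)
    have : (1 : ℝ) / m ≤ 1 := by
      rw [div_le_one (by linarith)]
      linarith
    linarith

lemma fgd_card {A : ℕ} (hA : 1 ≤ A) : (A.primeFactors.card : ℝ) * Real.log 2 ≤ Real.log A := by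
  have h1 : 2 ^ A.primeFactors.card ≤ A := by
    calc 2 ^ A.primeFactors.card ≤ ∏ p ∈ A.primeFactors, p :=
          Finset.pow_card_le_prod _ _ _ (fun p hp => (Nat.prime_of_mem_primeFactors hp).two_le)
      _ ≤ A := Nat.le_of_dvd hA (Nat.prod_primeFactors_dvd A)
  have h2 : ((2 : ℝ)) ^ A.primeFactors.card ≤ A := by exact_mod_cast h1
  have h3 := Real.log_le_log (by positivity) h2
  rw [Real.log_pow] at h3
  exact h3

/-- A lower bound of `φ(A)/A`. -/
lemma fgd_tot {A : ℕ} (hA : 1 ≤ A) {B : ℕ} {L : ℝ} (hL : 1 ≤ L) (h : Real.log A ≤ B * L) :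
    1 / ((2 * B + 1) * L) ≤ (A.totient : ℝ) / A := by
  rw [totient_div_eq hA]
  refine le_trans ?_ (fgd_prod A.primeFactors
    (fun p hp => (Nat.prime_of_mem_primeFactors hp).two_le))
  apply one_div_le_one_div_of_le (by positivity)
  have h1 := fgd_card hA
  have h2 := Real.log_two_gt_d9
  have hB : (0 : ℝ) ≤ B := Nat.cast_nonneg B
  have h3 : (A.primeFactors.card : ℝ) * (1 / 2) ≤ A.primeFactors.card * Real.log 2 := by
    apply mul_le_mul_of_nonneg_left _ (Nat.cast_nonneg _)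
    linarith
  have h4 : (2 * (B : ℝ) + 1) * L = 2 * (B * L) + L := by ring
  linarith

/-- The multiple of the modulus. -/
lemma fgd_k {a : ℤ} {m q : ℕ} (hlt : a.natAbs < m) (hq : (q : ℤ) ≡ a [ZMOD m])
    (hne : (q : ℤ) ≠ a) : ∃ k : ℕ, 1 ≤ k ∧ (q : ℤ) = a + k * m := by
  obtain ⟨c, hc⟩ := Int.modEq_iff_dvd.1 hq.symm
  have hc1 : 1 ≤ c := by
    by_contra hcon
    have hc0 : c ≤ 0 := by omega
    rcases eq_or_lt_of_le hc0 with h | h
    · apply hne
      rw [h, mul_zero] at hc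
      omega
    · have h1 : (m : ℤ) * c ≤ m * (-1) := by
        apply mul_le_mul_of_nonneg_left (by omega) (by omega)
      omega
  refine ⟨c.toNat, by omega, ?_⟩
  have h1 : ((c.toNat : ℕ) : ℤ) = c := Int.toNat_of_nonneg (by omega)
  rw [h1, mul_comm]
  omega

/-- The size of the number. -/
lemma fgd_size {a : ℤ} {m q k : ℕ} (hlt : a.natAbs < m) (hk : 2 ≤ k)
    (hq : (q : ℤ) = a + k * m) : (k : ℝ) * m / 2 ≤ q := by
  have h1 : (m : ℤ) * k ≤ 2 * q := by
    have h2 : (m : ℤ) * 2 ≤ m * k := by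
      apply mul_le_mul_of_nonneg_left (by exact_mod_cast hk) (by omega)
    rw [hq]
    have h3 : (k : ℤ) * m = m * k := mul_comm _ _
    omega
  have h2 : (m : ℝ) * k ≤ 2 * q := by exact_mod_cast h1
  linarith

/-- Comparison of the two bounds. -/
lemma fgd_cmp {L w v q Z s S σ : ℝ} (hL : 0 < L) (hw : 0 < w) (hv : 0 < v)
    (hq : 0 < q) (hs : 0 < s) (hS0 : 0 ≤ S) (hσS : σ ≤ S) (hs4 : s ≤ 2 * (v / w) + σ)
    (hZ : w * q / (2 * v) / 2 ≤ Z) :
    L * w ^ 2 * q / v ^ 2 / (1 + w / v * S) ≤ 8 * (L * Z / s) := by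
  have hD0 : 0 < 1 + w / v * S := by positivity
  have e1 : s ≤ 2 * (v / w) * (1 + w / v * S) := by
    have e2 : 2 * (v / w) * (1 + w / v * S) = 2 * (v / w) + 2 * S := by
      field_simp
    rw [e2]
    linarith
  have hZ0 : 0 < w * q / (2 * v) / 2 := by positivity
  have e3 : L * (w * q / (2 * v) / 2) / (2 * (v / w) * (1 + w / v * S)) ≤
      L * Z / s := by
    apply div_le_div₀ (mul_nonneg hL.le (by linarith)) (mul_le_mul_of_nonneg_left hZ hL.le) hs e1
  calc L * w ^ 2 * q / v ^ 2 / (1 + w / v * S) =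
        8 * (L * (w * q / (2 * v) / 2) / (2 * (v / w) * (1 + w / v * S))) := by
        field_simp
        ring
    _ ≤ 8 * (L * Z / s) := by linarith

/-- The last step. -/
lemma fgd_last {c₁ R E D Q0 : ℝ} {m k q : ℕ} (hc : 0 < c₁) (hR : 0 < R) (hm : 0 < m)
    (hE : E / D ≤ 8 * Q0) (hkT : c₁ * R * Q0 < k) (hq : (k : ℝ) * m / 2 ≤ q) :
    c₁ / 16 * R * (m * E) / D < q := by
  have hm0 : (0 : ℝ) < m := by exact_mod_cast hm
  have h1 : c₁ / 16 * R * (m * E) / D = c₁ / 16 * R * m * (E / D) := by ring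
  have h2 : c₁ / 16 * R * m * (E / D) ≤ c₁ / 16 * R * m * (8 * Q0) := by gcongr
  have h3 : c₁ / 16 * R * m * (8 * Q0) = c₁ * R * Q0 * (m / 2) := by ring
  have h4 : c₁ * R * Q0 * (m / 2) < k * (m / 2) := mul_lt_mul_of_pos_right hkT (by positivity)
  have h5 : (k : ℝ) * (m / 2) = k * m / 2 := by ring
  linarith

theorem fgd (hth : S_THD) : S_FGD := by
  classical
  obtain ⟨c₁, hc₁, -, hth⟩ := hth
  refine ⟨c₁ / 16, by positivity, fun κ hκ B => ?_⟩
  obtain ⟨κ', hκ'⟩ : ∃ κ', κ' = min κ 1 := ⟨_, rfl⟩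
  have hk0 : 0 < κ' := by rw [hκ']; exact lt_min hκ one_pos
  have hk1 : κ' ≤ 1 := by rw [hκ']; exact min_le_right _ _
  have hk2 : κ' ≤ κ := by rw [hκ']; exact min_le_left _ _
  obtain ⟨n₀, hn₀⟩ := hth B
  have hev : ∀ᶠ M : ℕ in atTop, _ :=
    ((Real.tendsto_log_atTop.comp tendsto_log_nat).eventually (ev_conditionsC 8 1 κ' hk0)).and
      ((Real.tendsto_sqrt_atTop.comp (Real.tendsto_log_atTop.comp
        tendsto_log_nat)).eventually_ge_atTop ((2 * (B : ℝ) + 1) / c₁))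
  obtain ⟨M₁, hM₁⟩ := eventually_atTop.1 hev
  refine ⟨max n₀ (max M₁ 3), fun x hx a ha0 hax y hay => ?_⟩
  have hxn : n₀ ≤ x := (le_max_left _ _).trans hx
  obtain ⟨⟨⟨g1, g3, g4, g5⟩, g6, g7, g8⟩, g9⟩ :=
    hM₁ x ((le_max_left _ _).trans ((le_max_right _ _).trans hx))
  have hx3 : 3 ≤ x := (le_max_right _ _).trans ((le_max_right _ _).trans hx)
  simp only [Function.comp] at g1 g3 g4 g5 g6 g7 g8 g9
  obtain ⟨A, hA⟩ : ∃ A : ℕ, A = a.natAbs := ⟨_, rfl⟩
  have hA1 : 1 ≤ A := by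
    rw [hA]
    exact Int.natAbs_pos.2 ha0
  obtain ⟨L, hL⟩ : ∃ L, L = Real.log (x : ℝ) := ⟨_, rfl⟩
  obtain ⟨w, hw⟩ : ∃ w, w = Real.log L := ⟨_, rfl⟩
  obtain ⟨v, hv⟩ : ∃ v, v = Real.log w := ⟨_, rfl⟩
  obtain ⟨q, hq⟩ : ∃ q, q = Real.log v := ⟨_, rfl⟩
  obtain ⟨Λ, hΛ⟩ : ∃ Λ, Λ = (1 - κ' / 2) * (w * q / v) := ⟨_, rfl⟩
  obtain ⟨u, hu⟩ : ∃ u, u = w / Λ := ⟨_, rfl⟩
  obtain ⟨z, hz⟩ : ∃ z : ℕ, z = ⌊Real.exp Λ⌋₊ := ⟨_, rfl⟩
  obtain ⟨Y, hY⟩ : ∃ Y : ℕ, Y = yM 8 x := ⟨_, rfl⟩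
  have hY' : Y = ⌊L / (3 * (13 : ℝ))⌋₊ := by
    rw [hY, yM, hL]
    norm_num
  have hLA : Real.log A ≤ B * L := by
    have h1 : (A : ℝ) ≤ (x : ℝ) ^ B := by
      rw [hA]
      exact_mod_cast hax
    have h2 := Real.log_le_log (by exact_mod_cast hA1) h1
    rw [Real.log_pow, ← hL] at h2
    exact h2
  specialize hn₀ x hxn a ha0 hax z
  rw [← hL, ← hw] at g1 g3 g4 g5 g6 g7 g8 g9
  rw [← hv] at g1 g3 g4 g6 g7 g8
  rw [← hq] at g1 g8
  rw [← hL, ← hw, ← hv, ← hY, ← hA] at hn₀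
  rw [← hL, ← hw, ← hv, ← hq, ← hA]
  clear hY
  obtain ⟨n1, n2, n3, n4, n5, n6, n7, n8, n9⟩ := num_factsC hk0 hk1 hv hq hΛ hu g1 g3 g7 g8
  have hw60 : 60 ≤ w := by linarith
  have hw0 : 0 < w := by linarith
  have hv0 : 0 < v := n6
  have hq0 : 0 < q := by linarith
  have hΛ0 : 0 < Λ := by linarith
  have hu0 : 0 < u := by linarith
  have hL0 : 0 ≤ L := by
    rw [hL]
    exact Real.log_nonneg (by exact_mod_cast (by omega : 1 ≤ x))
  have hLpos : 0 < L := by
    rcases hL0.lt_or_eq with h | h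
    · exact h
    · exfalso
      rw [← h, Real.log_zero] at hw
      linarith
  have hvv : v * 32 ≤ v ^ 2 := by
    rw [sq]
    exact mul_le_mul_of_nonneg_left (by linarith) (by linarith)
  have h2v : 2 * v ≤ w := by linarith
  have hwL : w ≤ L - 1 := by
    rw [hw]
    exact Real.log_le_sub_one_of_pos hLpos
  obtain ⟨hy2, hy3, hlogy1, hlogy2⟩ :=
    y_facts (by norm_num) hLpos hw hv (by linarith) (by linarith) h2v hY'
  obtain ⟨hz3, hlogz1, hlogz2⟩ := z_facts (by linarith) hz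
  have hz0 : (0 : ℝ) < z := by
    have : (2 : ℝ) ≤ z := by exact_mod_cast hz3
    linarith
  have hzY : z ≤ Y := by
    have hy0 : (0 : ℝ) < Y := by
      have : (2 : ℝ) ≤ Y := by exact_mod_cast hy3
      linarith
    have h1 : Real.log z < Real.log Y := by linarith
    have h2 : (z : ℝ) < Y := (Real.log_lt_log_iff hz0 hy0).1 h1
    exact_mod_cast h2.le
  have hYL : (Y : ℝ) ≤ L := by
    rw [hY']
    refine (Nat.floor_le (by positivity)).trans ?_
    rw [div_le_iff₀ (by norm_num)]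
    linarith
  -- the logarithm of `z`
  have hlz : Λ / 2 ≤ Real.log z := by
    have h1 : Real.log ((z : ℝ) + 1) ≤ Real.log (2 * z) := by
      apply Real.log_le_log (by linarith)
      have : (2 : ℝ) ≤ z := by exact_mod_cast hz3
      linarith
    rw [Real.log_mul (by norm_num) hz0.ne'] at h1
    have h2 := Real.log_two_lt_d9
    linarith
  have hlz0 : 0 < Real.log z := by linarith
  have hsw : 0 < Real.sqrt w := Real.sqrt_pos.2 hw0
  have hssw : Real.sqrt w * Real.sqrt w = w := Real.mul_self_sqrt hw0.le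
  have hs32 : 32 * v ≤ Real.sqrt w := by
    apply Real.le_sqrt_of_sq_le
    calc (32 * v) ^ 2 = 1024 * v ^ 2 := by ring
      _ ≤ w := g3
  have hz1 : Real.sqrt w ≤ Real.log z := by
    refine le_trans ?_ hlz
    have h1 : Real.sqrt w * 2 ≤ w * q / (2 * v) := by
      rw [le_div_iff₀ (by positivity)]
      calc Real.sqrt w * 2 * (2 * v) = (Real.sqrt w * (4 * v)) * 1 := by ring
        _ ≤ (Real.sqrt w * Real.sqrt w) * q := by
            gcongr
            · linarith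
            · linarith
        _ = w * q := by rw [hssw]
    linarith
  -- the smooth part
  have hzth : 0 ≤ zth := fgd_zth
  have hlogu2 : 2 ≤ Real.log u := by
    by_contra hcon
    push Not at hcon
    have h1 : u * Real.log u ≤ u * 2 := by gcongr
    linarith
  obtain ⟨u', hu'⟩ : ∃ u', u' = w / Real.log z := ⟨_, rfl⟩
  have huu' : u ≤ u' := by
    rw [hu, hu']
    gcongr
  have hE : Real.exp (2 * u' - u' * Real.log u') ≤ v / w := by
    have h1 : u * (Real.log u - 2) ≤ u' * (Real.log u' - 2) := by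
      have h2 : Real.log u ≤ Real.log u' := Real.log_le_log hu0 huu'
      apply mul_le_mul huu' (by linarith) (by linarith) (by linarith)
    have h3 : 2 * u' - u' * Real.log u' ≤ -v := by
      have h4 : u * (Real.log u - 2) = u * Real.log u - 2 * u := by ring
      have h5 : u' * (Real.log u' - 2) = u' * Real.log u' - 2 * u' := by ring
      linarith
    have h6 : Real.exp (-v) = 1 / w := by
      rw [Real.exp_neg, hv, Real.exp_log hw0, one_div]
    calc Real.exp (2 * u' - u' * Real.log u') ≤ Real.exp (-v) := Real.exp_le_exp.2 h3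
      _ = 1 / w := h6
      _ ≤ v / w := by
          gcongr
          linarith
  rw [← hu'] at hn₀
  -- the parameter `s`
  obtain ⟨σ, hσ⟩ : ∃ σ, σ = SG A z Y := ⟨_, rfl⟩
  have hσ0 : 0 ≤ σ := by
    rw [hσ, SG]
    exact Finset.sum_nonneg fun p _ => by positivity
  obtain ⟨s, hs⟩ : ∃ s, s = min 1 (2 * (v / w) + σ) := ⟨_, rfl⟩
  have hvw0 : 0 < v / w := by positivity
  have hs1 : s ≤ 1 := by rw [hs]; exact min_le_left _ _
  have hs2 : v / w ≤ s := by
    rw [hs]
    apply le_min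
    · rw [div_le_one hw0]
      linarith
    · linarith
  have hs3 : s = 1 ∨ Real.exp (2 * u' - u' * Real.log u') + v / w + SG A z Y ≤ s := by
    rcases le_total (1 : ℝ) (2 * (v / w) + σ) with h | h
    · left
      rw [hs, min_eq_left h]
    · right
      rw [hs, min_eq_right h, ← hσ]
      linarith
  have hs4 : s ≤ 2 * (v / w) + σ := by rw [hs]; exact min_le_right _ _
  have hs0 : 0 < s := lt_of_lt_of_le hvw0 hs2
  obtain ⟨m, f1, f2, f3, f4, f5⟩ := hn₀ hz1 hzY s hs1 hs2 hs3 y (by rw [hA]; exact hay)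
  have f3' : a.natAbs < m := by rw [← hA]; exact f3
  refine ⟨m, f1, f2, ?_, fun r hr hrc hcr => ?_⟩
  · rw [Int.isCoprime_iff_nat_coprime, Int.natAbs_natCast, ← hA]
    exact f4.symm
  obtain ⟨k, hk1', hrk⟩ := fgd_k f3' hrc hcr
  obtain ⟨S, hS⟩ : ∃ S : ℝ, S = ∑ p ∈ A.primeFactors.filter (fun p : ℕ =>
      Real.exp ((1 - κ) * (w * q / v)) < (p : ℝ) ∧ (p : ℝ) ≤ L), (1 : ℝ) / p := ⟨_, rfl⟩
  rw [← hS]
  have hσS : σ ≤ S := by
    rw [hσ, hS, SG]
    apply Finset.sum_le_sum_of_subset_of_nonneg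
    · intro p hp
      rw [mem_filter] at hp ⊢
      refine ⟨hp.1, ?_, hp.2.2.trans hYL⟩
      have h1 : ((z : ℝ) + 1) ≤ p := by exact_mod_cast hp.2.1
      have h2 : Real.exp Λ ≤ (z : ℝ) + 1 := by
        rw [hz]
        exact (Nat.lt_floor_add_one _).le
      refine lt_of_lt_of_le ?_ (h2.trans h1)
      apply Real.exp_lt_exp.2
      rw [hΛ]
      apply mul_lt_mul_of_pos_right _ (by positivity)
      linarith
    · intro p _ _
      positivity
  have hS0 : 0 ≤ S := hσ0.trans hσS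
  -- the multiple is larger than the bound
  have hkT : c₁ * ((A.totient : ℝ) / A) * (L * Real.log z / s) < k := by
    by_contra hcon
    push Not at hcon
    exact f5 k hk1' hcon r hr hrk
  have hR1 := fgd_tot hA1 (B := B) (L := L) (by linarith) hLA
  have hB : (0 : ℝ) ≤ B := Nat.cast_nonneg B
  have hR0 : 0 < (A.totient : ℝ) / A := lt_of_lt_of_le (by positivity) hR1
  have hT1 : 1 ≤ c₁ * ((A.totient : ℝ) / A) * (L * Real.log z / s) := by
    have h1 : L * Real.sqrt w ≤ L * Real.log z / s := by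
      rw [le_div_iff₀ hs0]
      have e1 : L * Real.sqrt w * s ≤ L * Real.sqrt w * 1 :=
        mul_le_mul_of_nonneg_left hs1 (by positivity)
      have e2 : L * Real.sqrt w ≤ L * Real.log z := mul_le_mul_of_nonneg_left hz1 hLpos.le
      linarith
    have h2 : 2 * (B : ℝ) + 1 ≤ c₁ * Real.sqrt w := by
      rw [div_le_iff₀ hc₁] at g9
      linarith
    calc (1 : ℝ) = (2 * (B : ℝ) + 1) * (1 / ((2 * B + 1) * L) * L) := by field_simp
      _ ≤ c₁ * Real.sqrt w * (1 / ((2 * B + 1) * L) * L) :=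
          mul_le_mul_of_nonneg_right h2 (by positivity)
      _ ≤ c₁ * Real.sqrt w * ((A.totient : ℝ) / A * L) := by
          apply mul_le_mul_of_nonneg_left _ (by positivity)
          exact mul_le_mul_of_nonneg_right hR1 hLpos.le
      _ = c₁ * ((A.totient : ℝ) / A) * (L * Real.sqrt w) := by ring
      _ ≤ _ := mul_le_mul_of_nonneg_left h1 (by positivity)
  have hk2' : 2 ≤ k := by
    have h1 : (1 : ℝ) < k := lt_of_le_of_lt hT1 hkT
    have h2 : 1 < k := by exact_mod_cast h1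
    omega
  have hsize := fgd_size f3' hk2' hrk
  have hcmp := fgd_cmp (Z := Real.log z) hLpos hw0 hv0 hq0 hs0 hS0 hσS hs4 (by linarith)
  have hm1 : 0 < m := by omega
  exact fgd_last hc₁ hR0 hm1 hcmp hkT hsize

end

end Pool.Agent.FXC
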