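import Mathlib
import Pool.Agent.FXC.StH
import Pool.Agent.FXC.FGD

set_option autoImplicit false

/-!
# FXC, module FGH: the theorem for all small multiples of a class, in terms of the primes
-/

namespace Pool.Agent.FXC

open Finset Filter BlockSieve Pool.Agent.UNI

noncomputable section

lemma fgh_mul {a h : ℤ} {H : ℕ} (hh : |h| ≤ H) : (h * a).natAbs ≤ H * a.natAbs := by
  rw [Int.natAbs_mul]
  apply Nat.mul_le_mul_right
  have h3 : ((h.natAbs : ℕ) : ℤ) ≤ H := by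
    rw [Int.natCast_natAbs]
    exact hh
  exact_mod_cast h3

/-- The size of the number. -/
lemma fgh_size {a : ℤ} {m q k : ℕ} (hlt : 2 * a.natAbs ≤ m) (hk : 1 ≤ k)
    (hq : (q : ℤ) = a + k * m) : (k : ℝ) * m / 2 ≤ q := by
  have h1 : (m : ℤ) * k ≤ 2 * q := by
    have h2 : (m : ℤ) * 1 ≤ m * k := by
      apply mul_le_mul_of_nonneg_left (by exact_mod_cast hk) (by omega)
    rw [hq]
    have h3 : (k : ℤ) * m = m * k := mul_comm _ _
    omega
  have h2 : (m : ℝ) * k ≤ 2 * q := by exact_mod_cast h1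
  linarith

/-- The last step. -/
lemma fgh_last {c₁ R E D Q0 H : ℝ} {m k q : ℕ} (hc : 0 < c₁) (hR : 0 < R) (hm : 0 < m)
    (hH : 0 < H) (hE : E / D ≤ 8 * Q0) (hkT : c₁ * R * Q0 / H < k) (hq : (k : ℝ) * m / 2 ≤ q) :
    c₁ / 16 * R * (m * E) / (H * D) < q := by
  have hm0 : (0 : ℝ) < m := by exact_mod_cast hm
  have h1 : c₁ / 16 * R * (m * E) / (H * D) = c₁ / 16 * R * m / H * (E / D) := by
    rw [div_mul_div_comm]
    ring
  have h2 : c₁ / 16 * R * m / H * (E / D) ≤ c₁ / 16 * R * m / H * (8 * Q0) := by gcongr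
  have h3 : c₁ / 16 * R * m / H * (8 * Q0) = c₁ * R * Q0 / H * (m / 2) := by ring
  have h4 : c₁ * R * Q0 / H * (m / 2) < k * (m / 2) := mul_lt_mul_of_pos_right hkT (by positivity)
  have h5 : (k : ℝ) * (m / 2) = k * m / 2 := by ring
  linarith

theorem fgh (hth : S_THH) : S_FGH := by
  classical
  obtain ⟨c₁, hc₁, -, hth⟩ := hth
  refine ⟨c₁ / 16, by positivity, fun κ hκ B => ?_⟩
  obtain ⟨κ', hκ'⟩ : ∃ κ', κ' = min κ 1 := ⟨_, rfl⟩
  have hk0 : 0 < κ' := by rw [hκ']; exact lt_min hκ one_pos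
  have hk1 : κ' ≤ 1 := by rw [hκ']; exact min_le_right _ _
  have hk2 : κ' ≤ κ := by rw [hκ']; exact min_le_left _ _
  obtain ⟨n₀, hn₀⟩ := hth B
  have hev : ∀ᶠ M : ℕ in atTop, _ :=
    (Real.tendsto_log_atTop.comp tendsto_log_nat).eventually (ev_conditionsC 8 1 κ' hk0)
  obtain ⟨M₁, hM₁⟩ := eventually_atTop.1 hev
  refine ⟨max n₀ (max M₁ 3), fun x hx a ha0 hax H hH1 hHw y hay => ?_⟩
  have hxn : n₀ ≤ x := (le_max_left _ _).trans hx
  obtain ⟨⟨g1, g3, g4, g5⟩, g6, g7, g8⟩ :=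
    hM₁ x ((le_max_left _ _).trans ((le_max_right _ _).trans hx))
  have hx3 : 3 ≤ x := (le_max_right _ _).trans ((le_max_right _ _).trans hx)
  simp only [Function.comp] at g1 g3 g4 g5 g6 g7 g8
  obtain ⟨A, hA⟩ : ∃ A : ℕ, A = a.natAbs := ⟨_, rfl⟩
  have hA1 : 1 ≤ A := by
    rw [hA]
    exact Int.natAbs_pos.2 ha0
  obtain ⟨L, hL⟩ : ∃ L, L = Real.log (x : ℝ) := ⟨_, rfl⟩
  obtain ⟨w, hw⟩ : ∃ w, w = Real.log L := ⟨_, rfl⟩
  obtain ⟨v, hv⟩ : ∃ v, v = Real.log w := ⟨_, rfl⟩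
  obtain ⟨q, hq⟩ : ∃ q, q = Real.log v := ⟨_, rfl⟩
  obtain ⟨Λ, hΛ⟩ : ∃ Λ, Λ = (1 - κ' / 2) * (w * q / v) := ⟨_, rfl⟩
  obtain ⟨u, hu⟩ : ∃ u, u = w / Λ := ⟨_, rfl⟩
  obtain ⟨z, hz⟩ : ∃ z : ℕ, z = ⌊Real.exp Λ⌋₊ := ⟨_, rfl⟩
  obtain ⟨Y, hY⟩ : ∃ Y : ℕ, Y = yM 8 x := ⟨_, rfl⟩
  have hY' : Y = ⌊L / (3 * (13 : ℝ))⌋₊ := by
    rw [hY, yM, hL]
    norm_num
  specialize hn₀ x hxn a ha0 hax z
  rw [← hL, ← hw] at g1 g3 g4 g5 g6 g7 g8 hHw
  rw [← hv] at g1 g3 g4 g6 g7 g8
  rw [← hq] at g1 g8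
  rw [← hL, ← hw, ← hv, ← hY, ← hA] at hn₀
  rw [← hL, ← hw, ← hv, ← hq, ← hA]
  clear hY
  obtain ⟨n1, n2, n3, n4, n5, n6, n7, n8, n9⟩ := num_factsC hk0 hk1 hv hq hΛ hu g1 g3 g7 g8
  have hw60 : 60 ≤ w := by linarith
  have hw0 : 0 < w := by linarith
  have hv0 : 0 < v := n6
  have hq0 : 0 < q := by linarith
  have hΛ0 : 0 < Λ := by linarith
  have hu0 : 0 < u := by linarith
  have hL0 : 0 ≤ L := by
    rw [hL]
    exact Real.log_nonneg (by exact_mod_cast (by omega : 1 ≤ x))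
  have hLpos : 0 < L := by
    rcases hL0.lt_or_eq with h | h
    · exact h
    · exfalso
      rw [← h, Real.log_zero] at hw
      linarith
  have hvv : v * 32 ≤ v ^ 2 := by
    rw [sq]
    exact mul_le_mul_of_nonneg_left (by linarith) (by linarith)
  have h2v : 2 * v ≤ w := by linarith
  have hwL : w ≤ L - 1 := by
    rw [hw]
    exact Real.log_le_sub_one_of_pos hLpos
  obtain ⟨hy2, hy3, hlogy1, hlogy2⟩ :=
    y_facts (by norm_num) hLpos hw hv (by linarith) (by linarith) h2v hY'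
  obtain ⟨hz3, hlogz1, hlogz2⟩ := z_facts (by linarith) hz
  have hz0 : (0 : ℝ) < z := by
    have : (2 : ℝ) ≤ z := by exact_mod_cast hz3
    linarith
  have hzY : z ≤ Y := by
    have hy0 : (0 : ℝ) < Y := by
      have : (2 : ℝ) ≤ Y := by exact_mod_cast hy3
      linarith
    have h1 : Real.log z < Real.log Y := by linarith
    have h2 : (z : ℝ) < Y := (Real.log_lt_log_iff hz0 hy0).1 h1
    exact_mod_cast h2.le
  have hYL : (Y : ℝ) ≤ L := by
    rw [hY']
    refine (Nat.floor_le (by positivity)).trans ?_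
    rw [div_le_iff₀ (by norm_num)]
    linarith
  -- the logarithm of `z`
  have hlz : Λ / 2 ≤ Real.log z := by
    have h1 : Real.log ((z : ℝ) + 1) ≤ Real.log (2 * z) := by
      apply Real.log_le_log (by linarith)
      have : (2 : ℝ) ≤ z := by exact_mod_cast hz3
      linarith
    rw [Real.log_mul (by norm_num) hz0.ne'] at h1
    have h2 := Real.log_two_lt_d9
    linarith
  have hlz0 : 0 < Real.log z := by linarith
  have hsw : 0 < Real.sqrt w := Real.sqrt_pos.2 hw0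
  have hssw : Real.sqrt w * Real.sqrt w = w := Real.mul_self_sqrt hw0.le
  have hs32 : 32 * v ≤ Real.sqrt w := by
    apply Real.le_sqrt_of_sq_le
    calc (32 * v) ^ 2 = 1024 * v ^ 2 := by ring
      _ ≤ w := g3
  have hz1 : Real.sqrt w ≤ Real.log z := by
    refine le_trans ?_ hlz
    have h1 : Real.sqrt w * 2 ≤ w * q / (2 * v) := by
      rw [le_div_iff₀ (by positivity)]
      calc Real.sqrt w * 2 * (2 * v) = (Real.sqrt w * (4 * v)) * 1 := by ring
        _ ≤ (Real.sqrt w * Real.sqrt w) * q := by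
            gcongr
            · linarith
            · linarith
        _ = w * q := by rw [hssw]
    linarith
  -- the smooth part
  have hzth : 0 ≤ zth := fgd_zth
  have hlogu2 : 2 ≤ Real.log u := by
    by_contra hcon
    push Not at hcon
    have h1 : u * Real.log u ≤ u * 2 := by gcongr
    linarith
  obtain ⟨u', hu'⟩ : ∃ u', u' = w / Real.log z := ⟨_, rfl⟩
  have huu' : u ≤ u' := by
    rw [hu, hu']
    gcongr
  have hE : Real.exp (2 * u' - u' * Real.log u') ≤ v / w := by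
    have h1 : u * (Real.log u - 2) ≤ u' * (Real.log u' - 2) := by
      have h2 : Real.log u ≤ Real.log u' := Real.log_le_log hu0 huu'
      apply mul_le_mul huu' (by linarith) (by linarith) (by linarith)
    have h3 : 2 * u' - u' * Real.log u' ≤ -v := by
      have h4 : u * (Real.log u - 2) = u * Real.log u - 2 * u := by ring
      have h5 : u' * (Real.log u' - 2) = u' * Real.log u' - 2 * u' := by ring
      linarith
    have h6 : Real.exp (-v) = 1 / w := by
      rw [Real.exp_neg, hv, Real.exp_log hw0, one_div]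
    calc Real.exp (2 * u' - u' * Real.log u') ≤ Real.exp (-v) := Real.exp_le_exp.2 h3
      _ = 1 / w := h6
      _ ≤ v / w := by
          gcongr
          linarith
  rw [← hu'] at hn₀
  -- the parameter `s`
  obtain ⟨σ, hσ⟩ : ∃ σ, σ = SG A z Y := ⟨_, rfl⟩
  have hσ0 : 0 ≤ σ := by
    rw [hσ, SG]
    exact Finset.sum_nonneg fun p _ => by positivity
  obtain ⟨s, hs⟩ : ∃ s, s = min 1 (2 * (v / w) + σ) := ⟨_, rfl⟩
  have hvw0 : 0 < v / w := by positivity
  have hs1 : s ≤ 1 := by rw [hs]; exact min_le_left _ _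
  have hs2 : v / w ≤ s := by
    rw [hs]
    apply le_min
    · rw [div_le_one hw0]
      linarith
    · linarith
  have hs3 : s = 1 ∨ Real.exp (2 * u' - u' * Real.log u') + v / w + SG A z Y ≤ s := by
    rcases le_total (1 : ℝ) (2 * (v / w) + σ) with h | h
    · left
      rw [hs, min_eq_left h]
    · right
      rw [hs, min_eq_right h, ← hσ]
      linarith
  have hs4 : s ≤ 2 * (v / w) + σ := by rw [hs]; exact min_le_right _ _
  have hs0 : 0 < s := lt_of_lt_of_le hvw0 hs2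
  have hay' : 2 * (H * A) ≤ y := by
    rw [hA, ← mul_assoc]
    exact hay
  obtain ⟨m, f1, f2, f3, f4⟩ := hn₀ hz1 hzY s hs1 hs2 hs3 H hH1 hHw y (by omega)
  refine ⟨m, f1, f2, fun h hh0 hhH => ⟨(f4 h hh0 hhH).1, fun r hr hrc hcr => ?_⟩⟩
  have f5 := (f4 h hh0 hhH).2
  have hmul : (h * a).natAbs ≤ H * A := by
    rw [hA]
    exact fgh_mul hhH
  obtain ⟨k, hk1', hrk⟩ := fgd_k (lt_of_le_of_lt hmul f3) hrc hcr
  obtain ⟨S, hS⟩ : ∃ S : ℝ, S = ∑ p ∈ A.primeFactors.filter (fun p : ℕ =>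
      Real.exp ((1 - κ) * (w * q / v)) < (p : ℝ) ∧ (p : ℝ) ≤ L), (1 : ℝ) / p := ⟨_, rfl⟩
  rw [← hS]
  have hσS : σ ≤ S := by
    rw [hσ, hS, SG]
    apply Finset.sum_le_sum_of_subset_of_nonneg
    · intro p hp
      rw [mem_filter] at hp ⊢
      refine ⟨hp.1, ?_, hp.2.2.trans hYL⟩
      have h1 : ((z : ℝ) + 1) ≤ p := by exact_mod_cast hp.2.1
      have h2 : Real.exp Λ ≤ (z : ℝ) + 1 := by
        rw [hz]
        exact (Nat.lt_floor_add_one _).le
      refine lt_of_lt_of_le ?_ (h2.trans h1)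
      apply Real.exp_lt_exp.2
      rw [hΛ]
      apply mul_lt_mul_of_pos_right _ (by positivity)
      linarith
    · intro p _ _
      positivity
  have hS0 : 0 ≤ S := hσ0.trans hσS
  -- the multiple is larger than the bound
  have hkT : c₁ * ((A.totient : ℝ) / A) * (L * Real.log z / s) / H < k := by
    by_contra hcon
    push Not at hcon
    exact f5 k hk1' hcon r hr hrk
  have hR0 : 0 < (A.totient : ℝ) / A := by
    have h1 : (0 : ℝ) < A.totient := by exact_mod_cast Nat.totient_pos.2 hA1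
    have h2 : (0 : ℝ) < A := by exact_mod_cast hA1
    positivity
  have hsize := fgh_size (a := h * a) (m := m) (by omega) hk1' hrk
  have hcmp := fgd_cmp (Z := Real.log z) hLpos hw0 hv0 hq0 hs0 hS0 hσS hs4 (by linarith)
  have hm1 : 0 < m := by omega
  have hH0 : (0 : ℝ) < H := by exact_mod_cast hH1
  exact fgh_last hc₁ hR0 hm1 hH0 hcmp hkT hsize

end

end Pool.Agent.FXC
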