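import Mathlib
import Pool.Agent.FXC.StH

/-!
# Choice of a nonzero class for every prime, by averaging over pairs
-/

set_option autoImplicit false

namespace Pool.Agent.FXC

open Finset

/-- the number of the nonzero classes `c` with `l ∤ h a + k c` -/
theorem grh_card (a h : ℤ) (l k : ℕ) (hl : l.Prime) (ha : ¬ (l : ℤ) ∣ a) :
    (((Icc 1 (l - 1)).filter (fun c : ℕ => ¬ (l : ℤ) ∣ h * a + (k : ℤ) * (c : ℤ))).card : ℝ) ≤
      ((l : ℝ) - 1) * (if (l : ℤ) ∣ h ∨ l ∣ k then 1 else 1 - 1 / ((l : ℝ) - 1)) := by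
  have hl2 := hl.two_le
  have hcast : ((l - 1 : ℕ) : ℝ) = (l : ℝ) - 1 := by
    rw [Nat.cast_sub (by omega), Nat.cast_one]
  have hpos : (0 : ℝ) < (l : ℝ) - 1 := by
    rw [← hcast]
    exact_mod_cast (by omega : 0 < l - 1)
  by_cases hk : (l : ℤ) ∣ h ∨ l ∣ k
  · rw [if_pos hk, mul_one, ← hcast]
    have h1 := Finset.card_filter_le (Icc 1 (l - 1))
      (fun c : ℕ => ¬ (l : ℤ) ∣ h * a + (k : ℤ) * (c : ℤ))
    rw [Nat.card_Icc] at h1
    exact_mod_cast (by omega : ((Icc 1 (l - 1)).filter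
      (fun c : ℕ => ¬ (l : ℤ) ∣ h * a + (k : ℤ) * (c : ℤ))).card ≤ l - 1)
  · rw [if_neg hk]
    push Not at hk
    have : Fact l.Prime := ⟨hl⟩
    have hk0 : ((k : ℕ) : ZMod l) ≠ 0 := fun h0 => hk.2 ((ZMod.natCast_eq_zero_iff k l).1 h0)
    have hh0 : ((h : ℤ) : ZMod l) ≠ 0 := fun h0 =>
      hk.1 ((ZMod.intCast_zmod_eq_zero_iff_dvd h l).1 h0)
    have ha0 : ((a : ℤ) : ZMod l) ≠ 0 := fun h0 =>
      ha ((ZMod.intCast_zmod_eq_zero_iff_dvd a l).1 h0)
    obtain ⟨z, hz⟩ : ∃ z : ZMod l, z = -((h : ZMod l) * a) / (k : ZMod l) := ⟨_, rfl⟩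
    have hz0 : z ≠ 0 := by
      rw [hz]
      exact div_ne_zero (neg_ne_zero.2 (mul_ne_zero hh0 ha0)) hk0
    have hz1 : z.val ∈ Icc 1 (l - 1) := by
      rw [Finset.mem_Icc]
      have h1 := ZMod.val_lt z
      have h2 : z.val ≠ 0 := fun h0 => hz0 ((ZMod.val_eq_zero z).1 h0)
      omega
    have hz2 : (l : ℤ) ∣ h * a + (k : ℤ) * ((z.val : ℕ) : ℤ) := by
      rw [← ZMod.intCast_zmod_eq_zero_iff_dvd]
      push_cast
      rw [ZMod.natCast_zmod_val, hz, mul_div_cancel₀ _ hk0, add_neg_cancel]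
    have h3 : (Icc 1 (l - 1)).filter (fun c : ℕ => ¬ (l : ℤ) ∣ h * a + (k : ℤ) * (c : ℤ)) ⊆
        (Icc 1 (l - 1)).erase z.val := by
      intro c hc
      rw [Finset.mem_filter] at hc
      rw [Finset.mem_erase]
      exact ⟨fun h4 => hc.2 (by rw [h4]; exact hz2), hc.1⟩
    have h4 := Finset.card_le_card h3
    rw [Finset.card_erase_of_mem hz1, Nat.card_Icc] at h4
    have h5 : l - 1 + 1 - 1 - 1 = l - 2 := by omega
    rw [h5] at h4
    have h6 : (((Icc 1 (l - 1)).filter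
        (fun c : ℕ => ¬ (l : ℤ) ∣ h * a + (k : ℤ) * (c : ℤ))).card : ℝ) ≤ ((l - 2 : ℕ) : ℝ) := by
      exact_mod_cast h4
    refine h6.trans (le_of_eq ?_)
    rw [Nat.cast_sub hl2]
    field_simp
    ring

/-- the weighted form -/
theorem grh_weight (a : ℤ) (S : Finset (ℤ × ℕ)) (Q : Finset ℕ) : (∀ l ∈ Q, l.Prime) →
    (∀ l ∈ Q, ¬ (l : ℤ) ∣ a) →
    ∀ w : ℤ × ℕ → ℝ, (∀ p, 0 ≤ w p) → ∃ β : ℕ → ℕ, (∀ l ∈ Q, ¬ l ∣ β l) ∧
    ∑ p ∈ S.filter (fun p => ∀ l ∈ Q, ¬ (l : ℤ) ∣ p.1 * a + (p.2 : ℤ) * (β l : ℤ)), w p ≤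
      ∑ p ∈ S, w p * ∏ l ∈ Q.filter (fun l : ℕ => ¬ (l : ℤ) ∣ p.1 ∧ ¬ l ∣ p.2),
        (1 - 1 / ((l : ℝ) - 1)) := by
  classical
  induction Q using Finset.induction_on with
  | empty =>
    intro _ _ w hw
    refine ⟨fun _ => 1, fun l hl => absurd hl (Finset.notMem_empty l), ?_⟩
    rw [Finset.filter_true_of_mem fun k _ l hl => absurd hl (Finset.notMem_empty l)]
    refine Finset.sum_le_sum fun k _ => ?_
    rw [Finset.filter_empty, Finset.prod_empty, mul_one]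
  | insert l Q hlQ ih =>
    intro hP hA w hw
    have hl : l.Prime := hP l (Finset.mem_insert_self l Q)
    have hla := hA l (Finset.mem_insert_self l Q)
    have hl2 := hl.two_le
    have hcast : ((l - 1 : ℕ) : ℝ) = (l : ℝ) - 1 := by
      rw [Nat.cast_sub (by omega), Nat.cast_one]
    have hpos : (0 : ℝ) < (l : ℝ) - 1 := by
      rw [← hcast]
      exact_mod_cast (by omega : 0 < l - 1)
    have hone : (1 : ℝ) ≤ (l : ℝ) - 1 := by
      rw [← hcast]
      exact_mod_cast (by omega : 1 ≤ l - 1)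
    have hfac : (0 : ℝ) ≤ 1 - 1 / ((l : ℝ) - 1) := by
      have : 1 / ((l : ℝ) - 1) ≤ 1 := (div_le_one hpos).2 hone
      linarith
    obtain ⟨κ, hκ, hsum⟩ := ih (fun l' hl' => hP l' (Finset.mem_insert_of_mem hl'))
      (fun l' hl' => hA l' (Finset.mem_insert_of_mem hl'))
      (fun p => w p * (if (l : ℤ) ∣ p.1 ∨ l ∣ p.2 then 1 else 1 - 1 / ((l : ℝ) - 1)))
      (fun p => by
        refine mul_nonneg (hw p) ?_
        split_ifs
        · exact zero_le_one
        · exact hfac)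
    set S' := S.filter (fun p => ∀ l ∈ Q, ¬ (l : ℤ) ∣ p.1 * a + (p.2 : ℤ) * (κ l : ℤ)) with hS'
    have hex : ∃ c ∈ Icc 1 (l - 1),
        ∑ p ∈ S'.filter (fun p => ¬ (l : ℤ) ∣ p.1 * a + (p.2 : ℤ) * (c : ℤ)), w p ≤
        ∑ p ∈ S', w p * (if (l : ℤ) ∣ p.1 ∨ l ∣ p.2 then 1 else 1 - 1 / ((l : ℝ) - 1)) := by
      refine Finset.exists_le_of_sum_le (Finset.nonempty_Icc.2 (by omega)) ?_
      rw [Finset.sum_const, Nat.card_Icc, nsmul_eq_mul]
      have h1 : (l - 1 + 1 - 1 : ℕ) = l - 1 := by omega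
      rw [h1, hcast]
      have h2 : ∀ c : ℕ,
          ∑ p ∈ S'.filter (fun p => ¬ (l : ℤ) ∣ p.1 * a + (p.2 : ℤ) * (c : ℤ)), w p =
          ∑ p ∈ S', w p * (if ¬ (l : ℤ) ∣ p.1 * a + (p.2 : ℤ) * (c : ℤ) then 1 else 0) := by
        intro c
        rw [Finset.sum_filter]
        refine Finset.sum_congr rfl fun k _ => ?_
        rw [mul_ite, mul_one, mul_zero]
      rw [Finset.sum_congr rfl fun c _ => h2 c, Finset.sum_comm, Finset.mul_sum]
      refine Finset.sum_le_sum fun p _ => ?_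
      rw [← Finset.mul_sum, ← Finset.sum_filter, Finset.sum_const, nsmul_eq_mul, mul_one]
      have h3 := mul_le_mul_of_nonneg_left (grh_card a p.1 l p.2 hl hla) (hw p)
      refine h3.trans (le_of_eq ?_)
      ring
    obtain ⟨c, hc, hcs⟩ := hex
    rw [Finset.mem_Icc] at hc
    have hne : ∀ l' ∈ Q, l' ≠ l := fun l' hl' h => hlQ (h ▸ hl')
    refine ⟨Function.update κ l c, ?_, ?_⟩
    · intro l' hl'
      rcases Finset.mem_insert.1 hl' with h | h
      · rw [h, Function.update_self]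
        exact Nat.not_dvd_of_pos_of_lt (by omega) (by omega)
      · rw [Function.update_of_ne (hne l' h)]
        exact hκ l' h
    · have hfilter : S.filter (fun p => ∀ l' ∈ insert l Q,
          ¬ (l' : ℤ) ∣ p.1 * a + (p.2 : ℤ) * (Function.update κ l c l' : ℤ)) =
          S'.filter (fun p => ¬ (l : ℤ) ∣ p.1 * a + (p.2 : ℤ) * (c : ℤ)) := by
        rw [hS', Finset.filter_filter]
        refine Finset.filter_congr fun k _ => ?_
        rw [Finset.forall_mem_insert, Function.update_self, and_comm]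
        refine and_congr_left fun _ => ?_
        constructor
        · intro h l' hl'
          have := h l' hl'
          rwa [Function.update_of_ne (hne l' hl')] at this
        · intro h l' hl'
          rw [Function.update_of_ne (hne l' hl')]
          exact h l' hl'
      rw [hfilter]
      refine hcs.trans (hsum.trans (le_of_eq ?_))
      refine Finset.sum_congr rfl fun p _ => ?_
      rw [Finset.filter_insert]
      by_cases hk : (l : ℤ) ∣ p.1 ∨ l ∣ p.2
      · rw [if_pos hk, if_neg (by tauto), mul_one]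
      · rw [if_neg hk, if_pos (by tauto), Finset.prod_insert, mul_assoc]
        intro h
        exact hlQ (Finset.mem_filter.1 h).1

theorem t_GRH : S_GRH := by
  intro a S Q hP hA
  obtain ⟨β, h1, h2⟩ := grh_weight a S Q hP hA (fun _ => 1) (fun _ => zero_le_one)
  refine ⟨β, h1, ?_⟩
  simpa only [Finset.sum_const, nsmul_eq_mul, mul_one, one_mul] using h2

end Pool.Agent.FXC
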