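import Mathlib
import Pool.Agent.FXC.St

/-!
# Choice of a nonzero class for every prime, by averaging
-/

set_option autoImplicit false

namespace Pool.Agent.FXC

open Finset

/-- the number of the nonzero classes which are not the class of `k` -/
theorem gru_card (l k : ℕ) (hl : l.Prime) :
    (((Icc 1 (l - 1)).filter (fun c => ¬ k ≡ c [MOD l])).card : ℝ) =
      ((l : ℝ) - 1) * (if l ∣ k then 1 else 1 - 1 / ((l : ℝ) - 1)) := by
  have hl2 := hl.two_le
  have hcast : ((l - 1 : ℕ) : ℝ) = (l : ℝ) - 1 := by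
    rw [Nat.cast_sub (by omega), Nat.cast_one]
  have hpos : (0 : ℝ) < (l : ℝ) - 1 := by
    rw [← hcast]
    exact_mod_cast (by omega : 0 < l - 1)
  by_cases hk : l ∣ k
  · rw [if_pos hk, mul_one, Finset.filter_true_of_mem, Nat.card_Icc]
    · rw [← hcast]
      congr 1
    · intro c hc h
      rw [Finset.mem_Icc] at hc
      have h1 : l ∣ c := (Nat.modEq_zero_iff_dvd.1 (h.symm.trans (Nat.modEq_zero_iff_dvd.2 hk)))
      have := Nat.le_of_dvd (by omega) h1
      omega
  · rw [if_neg hk]
    have hmod : k % l ∈ Icc 1 (l - 1) := by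
      rw [Finset.mem_Icc]
      have h1 : k % l < l := Nat.mod_lt _ (by omega)
      have h2 : k % l ≠ 0 := fun h => hk (Nat.dvd_of_mod_eq_zero h)
      omega
    have h3 : (Icc 1 (l - 1)).filter (fun c => ¬ k ≡ c [MOD l]) = (Icc 1 (l - 1)).erase (k % l) := by
      ext c
      rw [Finset.mem_filter, Finset.mem_erase]
      constructor
      · rintro ⟨hc, h⟩
        refine ⟨fun hh => h ?_, hc⟩
        rw [hh]
        exact (Nat.mod_modEq k l).symm
      · rintro ⟨hc, h⟩
        refine ⟨h, fun hh => hc ?_⟩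
        rw [Finset.mem_Icc] at h
        have h4 : k % l = c % l := hh
        rw [h4, Nat.mod_eq_of_lt (by omega)]
    rw [h3, Finset.card_erase_of_mem hmod, Nat.card_Icc]
    have h5 : l - 1 + 1 - 1 - 1 = l - 2 := by omega
    rw [h5, Nat.cast_sub hl2]
    field_simp
    ring

/-- the weighted form -/
theorem gru_weight (S : Finset ℕ) (Q : Finset ℕ) : (∀ l ∈ Q, l.Prime) →
    ∀ w : ℕ → ℝ, (∀ k, 0 ≤ w k) → ∃ κ : ℕ → ℕ, (∀ l ∈ Q, ¬ l ∣ κ l) ∧
    ∑ k ∈ S.filter (fun k => ∀ l ∈ Q, ¬ k ≡ κ l [MOD l]), w k ≤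
      ∑ k ∈ S, w k * ∏ l ∈ Q.filter (fun l => ¬ l ∣ k), (1 - 1 / ((l : ℝ) - 1)) := by
  classical
  induction Q using Finset.induction_on with
  | empty =>
    intro _ w hw
    refine ⟨fun _ => 1, fun l hl => absurd hl (Finset.notMem_empty l), ?_⟩
    rw [Finset.filter_true_of_mem fun k _ l hl => absurd hl (Finset.notMem_empty l)]
    refine Finset.sum_le_sum fun k _ => ?_
    rw [Finset.filter_empty, Finset.prod_empty, mul_one]
  | insert l Q hlQ ih =>
    intro hP w hw
    have hl : l.Prime := hP l (Finset.mem_insert_self l Q)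
    have hl2 := hl.two_le
    have hcast : ((l - 1 : ℕ) : ℝ) = (l : ℝ) - 1 := by
      rw [Nat.cast_sub (by omega), Nat.cast_one]
    have hpos : (0 : ℝ) < (l : ℝ) - 1 := by
      rw [← hcast]
      exact_mod_cast (by omega : 0 < l - 1)
    have hone : (1 : ℝ) ≤ (l : ℝ) - 1 := by
      rw [← hcast]
      exact_mod_cast (by omega : 1 ≤ l - 1)
    have hfac : (0 : ℝ) ≤ 1 - 1 / ((l : ℝ) - 1) := by
      have : 1 / ((l : ℝ) - 1) ≤ 1 := (div_le_one hpos).2 hone
      linarith
    obtain ⟨κ, hκ, hsum⟩ := ih (fun l' hl' => hP l' (Finset.mem_insert_of_mem hl'))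
      (fun k => w k * (if l ∣ k then 1 else 1 - 1 / ((l : ℝ) - 1))) (fun k => by
        refine mul_nonneg (hw k) ?_
        split_ifs
        · exact zero_le_one
        · exact hfac)
    set S' := S.filter (fun k => ∀ l ∈ Q, ¬ k ≡ κ l [MOD l]) with hS'
    have hex : ∃ c ∈ Icc 1 (l - 1), ∑ k ∈ S'.filter (fun k => ¬ k ≡ c [MOD l]), w k ≤
        ∑ k ∈ S', w k * (if l ∣ k then 1 else 1 - 1 / ((l : ℝ) - 1)) := by
      refine Finset.exists_le_of_sum_le (Finset.nonempty_Icc.2 (by omega)) (le_of_eq ?_)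
      rw [Finset.sum_const, Nat.card_Icc, nsmul_eq_mul]
      have h1 : (l - 1 + 1 - 1 : ℕ) = l - 1 := by omega
      rw [h1, hcast]
      have h2 : ∀ c, ∑ k ∈ S'.filter (fun k => ¬ k ≡ c [MOD l]), w k =
          ∑ k ∈ S', w k * (if ¬ k ≡ c [MOD l] then 1 else 0) := by
        intro c
        rw [Finset.sum_filter]
        refine Finset.sum_congr rfl fun k _ => ?_
        rw [mul_ite, mul_one, mul_zero]
      rw [Finset.sum_congr rfl fun c _ => h2 c, Finset.sum_comm, Finset.mul_sum]
      refine Finset.sum_congr rfl fun k _ => ?_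
      rw [← Finset.mul_sum, ← Finset.sum_filter, Finset.sum_const, nsmul_eq_mul, mul_one,
        gru_card l k hl]
      ring
    obtain ⟨c, hc, hcs⟩ := hex
    rw [Finset.mem_Icc] at hc
    have hne : ∀ l' ∈ Q, l' ≠ l := fun l' hl' h => hlQ (h ▸ hl')
    refine ⟨Function.update κ l c, ?_, ?_⟩
    · intro l' hl'
      rcases Finset.mem_insert.1 hl' with h | h
      · rw [h, Function.update_self]
        exact Nat.not_dvd_of_pos_of_lt (by omega) (by omega)
      · rw [Function.update_of_ne (hne l' h)]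
        exact hκ l' h
    · have hfilter : S.filter (fun k => ∀ l' ∈ insert l Q, ¬ k ≡ Function.update κ l c l' [MOD l']) =
          S'.filter (fun k => ¬ k ≡ c [MOD l]) := by
        rw [hS', Finset.filter_filter]
        refine Finset.filter_congr fun k _ => ?_
        rw [Finset.forall_mem_insert, Function.update_self, and_comm]
        refine and_congr_left fun _ => ?_
        constructor
        · intro h l' hl'
          have := h l' hl'
          rwa [Function.update_of_ne (hne l' hl')] at this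
        · intro h l' hl'
          rw [Function.update_of_ne (hne l' hl')]
          exact h l' hl'
      rw [hfilter]
      refine hcs.trans (hsum.trans (le_of_eq ?_))
      refine Finset.sum_congr rfl fun k _ => ?_
      rw [Finset.filter_insert]
      by_cases hk : l ∣ k
      · rw [if_pos hk, if_neg (not_not.2 hk), mul_one]
      · rw [if_neg hk, if_pos hk, Finset.prod_insert, mul_assoc]
        intro h
        exact hlQ (Finset.mem_filter.1 h).1

theorem t_GRU : S_GRU := by
  intro S Q hP
  obtain ⟨κ, h1, h2⟩ := gru_weight S Q hP (fun _ => 1) (fun _ => zero_le_one)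
  refine ⟨κ, h1, ?_⟩
  simpa only [Finset.sum_const, nsmul_eq_mul, mul_one, one_mul] using h2

end Pool.Agent.FXC
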