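import Mathlib
import Pool.Agent.FXC.StH
import Pool.Agent.FXC.J0B

set_option autoImplicit false

/-!
# FXC, module J0H: `J0B` in the range `L / w ^ 4 < T <= 2 L w ^ 2`
-/

namespace Pool.Agent.FXC

open Finset Filter BlockSieve Pool.Agent.UNI

noncomputable section

/-- One more condition on `w`. -/
lemma j0h_ev : ∀ᶠ w : ℝ in atTop,
    4 * Real.log w * (4 * Real.log w + 1) ≤ Real.sqrt w := by
  have h5 : ∀ᶠ x : ℝ in atTop, 8 * x * (8 * x + 1) ≤ Real.exp x := by
    filter_upwards [eventually_ge_atTop (400 : ℝ)] with x hx1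
    have h8 := Real.pow_div_factorial_le_exp x (by linarith) 3
    have h9 : ((Nat.factorial 3 : ℕ) : ℝ) = 6 := by norm_num [Nat.factorial]
    rw [h9] at h8
    have h10 : 8 * x * (8 * x + 1) ≤ x ^ 3 / 6 := by
      have k1 : 400 * (x * x) ≤ x * (x * x) := mul_le_mul_of_nonneg_right hx1 (mul_self_nonneg x)
      have k2 : 400 * x ≤ x * x := mul_le_mul_of_nonneg_right hx1 (by linarith)
      have k3 : x ^ 3 = x * (x * x) := by ring
      have k4 : 8 * x * (8 * x + 1) = 64 * (x * x) + 8 * x := by ring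
      rw [k3, k4]
      linarith
    linarith
  have t1 : Tendsto (fun w : ℝ => Real.log (Real.sqrt w)) atTop atTop :=
    Real.tendsto_log_atTop.comp Real.tendsto_sqrt_atTop
  have h7 := t1.eventually h5
  filter_upwards [eventually_ge_atTop (3136 : ℝ), h7] with w g1 g3
  have hw0 : 0 < w := by linarith
  have hs : 0 < Real.sqrt w := Real.sqrt_pos.2 hw0
  have e1 : Real.log (Real.sqrt w) = Real.log w / 2 := by
    rw [Real.log_sqrt hw0.le]
  rw [Real.exp_log hs, e1] at g3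
  linarith

/-- The large prime factors: `∑_(j ≤ T / y) 1/φ(j) ≤ 16 v`. -/
lemma j0h_large {T y : ℕ} {L w v : ℝ} (hL : 0 < L) (hw : 104 ≤ w) (hv : v = Real.log w)
    (hv0 : 32 ≤ v) (hTL : (T : ℝ) ≤ 2 * (L * w ^ 2)) (hy2 : L / (4 * 13) ≤ y)
    (hlogy : w / 2 ≤ Real.log y) (hT0 : (0 : ℝ) < T) :
    (2 * Real.log 4 * T / Real.log y) * ∑ j ∈ Icc 1 (T / y), (1 : ℝ) / j.totient ≤
      89 * (T * (v / w)) := by
  have hw0 : 0 < w := by linarith
  have hTy : Real.log ((T / y : ℕ) : ℝ) ≤ 3 * v := by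
    rcases Nat.eq_zero_or_pos (T / y) with h | h
    · rw [h]
      simp only [Nat.cast_zero, Real.log_zero]
      linarith
    · have h2 : ((T / y : ℕ) : ℝ) ≤ T / y := Nat.cast_div_le
      have h3 : (T : ℝ) / y ≤ w ^ 3 := by
        calc (T : ℝ) / y ≤ (2 * (L * w ^ 2)) / (L / (4 * 13)) := by
              gcongr
          _ = 104 * w ^ 2 := by
              field_simp
              norm_num
          _ ≤ w * w ^ 2 := mul_le_mul_of_nonneg_right hw (by positivity)
          _ = w ^ 3 := by ring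
      have h4 := Real.log_le_log (by exact_mod_cast h) (h2.trans h3)
      rw [Real.log_pow, ← hv] at h4
      push_cast at h4
      exact h4
  have hJ : ∑ j ∈ Icc 1 (T / y), (1 : ℝ) / j.totient ≤ 16 * v := by
    refine (sum_inv_totient_le _).trans ?_
    have h2 := harm_le hTy
    linarith
  have hlogy0 : 0 < Real.log y := by linarith
  have hv00 : 0 < v := by linarith
  have h1 := log_four_le
  calc (2 * Real.log 4 * T / Real.log y) * ∑ j ∈ Icc 1 (T / y), (1 : ℝ) / j.totient ≤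
        (2 * (1387 / 1000) * T / (w / 2)) * (16 * v) := by gcongr
    _ = (64 * (1387 / 1000)) * (T * (v / w)) := by
        field_simp
        ring
    _ ≤ 89 * (T * (v / w)) := by
        apply mul_le_mul_of_nonneg_right (by norm_num)
        positivity

/-- The smooth part. -/
lemma j0h_smooth {z T : ℕ} {w v Λ u C' : ℝ} (hC' : C' = 4 + 5 / 2 * zth) (hw : 3136 ≤ w)
    (hv : v = Real.log w) (hv32 : 32 ≤ v)
    (g2 : 16 * v ≤ Real.sqrt w) (g3 : 4 * v * (4 * v + 1) ≤ Real.sqrt w) (hz1 : Real.sqrt w ≤ Λ)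
    (hΛ : Λ = Real.log z) (hz0 : (0 : ℝ) < z) (hz2 : 2 ≤ z) (hu : u = w / Λ) (hlogu2 : 2 < Real.log u)
    (hlogT : w - 4 * v ≤ Real.log T) :
    ((sm z T).card : ℝ) ≤ T * (v / w) +
      32 * Real.exp (C' + 1) * (T * Real.exp (2 * u - u * Real.log u)) := by
  have hw0 : 0 < w := by linarith
  have hv0 : 0 < v := by linarith
  have hsw : 0 < Real.sqrt w := Real.sqrt_pos.2 hw0
  have hssw : Real.sqrt w * Real.sqrt w = w := Real.mul_self_sqrt hw0.le
  have hs56 : 56 ≤ Real.sqrt w := Real.le_sqrt_of_sq_le (by linarith)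
  have h5v := (j0b_ax1 g2 hssw hs56).1
  have hsqw := (j0b_ax1 g2 hssw hs56).2
  have hΛ0 : 0 < Λ := by linarith
  have hu0 : 0 < u := by rw [hu]; positivity
  have hu4 : 4 < u := by
    have h1 : Real.exp 2 < u := by
      rw [← Real.exp_log hu0]
      exact Real.exp_lt_exp.2 hlogu2
    have h2 : (4 : ℝ) ≤ Real.exp 2 := by
      have h3 : Real.exp 2 = Real.exp 1 * Real.exp 1 := by
        rw [← Real.exp_add]
        norm_num
      have h4 : (2 : ℝ) ≤ Real.exp 1 := by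
        have := Real.add_one_le_exp (1 : ℝ)
        linarith
      rw [h3]
      exact j0b_ax4 h4
    linarith
  have huw : u ≤ Real.sqrt w := by
    rw [hu, div_le_iff₀ hΛ0]
    calc w = Real.sqrt w * Real.sqrt w := hssw.symm
      _ ≤ _ := mul_le_mul_of_nonneg_left hz1 hsw.le
  have hloguv : Real.log u ≤ v := by
    rw [hv]
    exact Real.log_le_log hu0 (huw.trans hsqw)
  obtain ⟨u', hu'⟩ : ∃ u' : ℝ, u' = (w - 4 * v) / Λ := ⟨_, rfl⟩
  have hu'Λ : u' * Λ = w - 4 * v := by rw [hu']; field_simp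
  have huu' : u' = u - 4 * v / Λ := by rw [hu', hu]; ring
  have hvΛ : 4 * v / Λ ≤ 1 / 4 := by
    rw [div_le_iff₀ hΛ0]
    linarith
  have hvΛ0 : 0 < 4 * v / Λ := by positivity
  have hu'1 : 1 ≤ u' := by rw [huu']; linarith
  have hu'u : u' ≤ u := by rw [huu']; linarith
  have hu'0 : 0 < u' := by linarith
  have hlogu' : Real.log u' ≤ Λ / 4 := by
    have h1 : Real.log u' ≤ Real.log u := Real.log_le_log hu'0 hu'u
    linarith
  have hΛ4 : 4 ≤ Λ := by linarith
  have hw60 : 60 ≤ w := by linarith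
  have hsm := smooth_card_le (D := w ^ 2) (u := u') (T := T) hz2 hΛ.symm.le
    (by rw [hΛ, Real.exp_log hz0]; linarith) hΛ4 hu'1 hlogu' (by rw [hu'Λ]; exact hlogT)
    (j0b_ax5 hw60)
    (by
      rw [hu'Λ, Real.log_pow, ← hv]
      push_cast
      linarith)
  have hexp := j0b_exp (C' := C') (v := 4 * v) hu0 hu'0 huu' (by linarith) hΛ0 (by linarith) g3 hz1
  have h4 : (T : ℝ) / w ^ 2 ≤ T * (v / w) := by
    rw [mul_div_assoc', div_le_div_iff₀ (by positivity) hw0]
    have h5 : (1 : ℝ) ≤ v * w := j0b_ax6 hw60 hv32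
    calc (T : ℝ) * w = T * w * 1 := by ring
      _ ≤ T * w * (v * w) := by gcongr
      _ = _ := by ring
  rw [← hC'] at hsm
  have h5 : Real.exp (2 * u' + C' - u' * Real.log u') ≤
      Real.exp (C' + 1) * Real.exp (2 * u - u * Real.log u) := by
    rw [← Real.exp_add]
    exact Real.exp_le_exp.2 hexp
  calc ((sm z T).card : ℝ) ≤ T / w ^ 2 +
        32 * (T * Real.exp (2 * u' + C' - u' * Real.log u')) := hsm
    _ ≤ T * (v / w) + 32 * (T * (Real.exp (C' + 1) * Real.exp (2 * u - u * Real.log u))) := by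
        gcongr
    _ = _ := by ring

theorem t_J0H : S_J0H := by
  classical
  have hzth : 0 ≤ zth := by
    unfold zth
    apply tsum_nonneg
    intro i
    positivity
  obtain ⟨C', hC'⟩ : ∃ C' : ℝ, C' = 4 + 5 / 2 * zth := ⟨_, rfl⟩
  obtain ⟨K, hK⟩ : ∃ K : ℝ, K = 91 + 32 * Real.exp (C' + 1) := ⟨_, rfl⟩
  have hC0 : 0 < Real.exp (C' + 1) := Real.exp_pos (C' + 1)
  have hK1 : 91 ≤ K := by
    rw [hK]
    linarith
  refine ⟨K, by linarith, ?_⟩
  have hev : ∀ᶠ N : ℕ in atTop, _ :=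
    (Real.tendsto_log_atTop.comp tendsto_log_nat).eventually ((j0b_ev 1).and j0h_ev)
  obtain ⟨M₁, hM₁⟩ := eventually_atTop.1 hev
  refine ⟨max M₁ (10 ^ 16), fun N hN => ?_⟩
  obtain ⟨⟨g1, g2, g3, g4, g5⟩, g6⟩ := hM₁ N ((le_max_left _ _).trans hN)
  have hM1 : 10 ^ 16 ≤ N := (le_max_right _ _).trans hN
  have hM1' : 1 ≤ N := le_trans (by norm_num) hM1
  clear hM1
  simp only [Function.comp] at g1 g2 g3 g4 g5 g6
  obtain ⟨L, hL⟩ : ∃ L, L = Real.log (N : ℝ) := ⟨_, rfl⟩
  obtain ⟨w, hw⟩ : ∃ w, w = Real.log L := ⟨_, rfl⟩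
  obtain ⟨v, hv⟩ : ∃ v, v = Real.log w := ⟨_, rfl⟩
  obtain ⟨y, hy⟩ : ∃ y, y = yM 8 N := ⟨_, rfl⟩
  rw [← hL, ← hw] at g1 g2 g3 g4 g5 g6
  rw [← hv] at g2 g3 g4 g5 g6
  rw [← hy, ← hL, ← hw, ← hv]
  have hw60 : 60 ≤ w := by linarith
  have hw0 : 0 < w := by linarith
  have hv0 : 0 < v := by linarith
  have hL0 : 0 ≤ L := by
    rw [hL]
    exact Real.log_nonneg (by exact_mod_cast hM1')
  have hLpos : 0 < L := by
    rcases hL0.lt_or_eq with h | h
    · exact h
    · exfalso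
      rw [← h, Real.log_zero] at hw
      linarith
  have hwL : w ≤ L - 1 := by
    rw [hw]
    exact Real.log_le_sub_one_of_pos hLpos
  have hsw : 0 < Real.sqrt w := Real.sqrt_pos.2 hw0
  have hssw : Real.sqrt w * Real.sqrt w = w := Real.mul_self_sqrt hw0.le
  have hs56 : 56 ≤ Real.sqrt w := Real.le_sqrt_of_sq_le (by linarith)
  have h5v := (j0b_ax1 g2 hssw hs56).1
  have h2v : 2 * v ≤ w := by linarith
  have hy' : y = ⌊L / (3 * (13 : ℝ))⌋₊ := by
    rw [hy, yM, hL]
    norm_num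
  obtain ⟨hy2, hy3, hlogy1, hlogy2⟩ :=
    y_facts (by norm_num) hLpos hw hv (by linarith) (by linarith) h2v hy'
  intro M hMpos z hz1 hzy T hTδ hTL
  obtain ⟨Λ, hΛ⟩ : ∃ Λ : ℝ, Λ = Real.log z := ⟨_, rfl⟩
  rw [← hΛ] at hz1 ⊢
  have hΛ0 : 0 < Λ := by linarith
  have hz0 : (0 : ℝ) < z := by
    rcases Nat.eq_zero_or_pos z with h | h
    · rw [h, Nat.cast_zero, Real.log_zero] at hΛ
      linarith
    · exact_mod_cast h
  have hz2 : 2 ≤ z := by
    by_contra hcon
    have h1 : z ≤ 1 := by omega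
    have h2 : (z : ℝ) ≤ 1 := by exact_mod_cast h1
    have h3 := Real.log_nonpos hz0.le h2
    linarith
  have hT0 : (0 : ℝ) < T := lt_trans (by positivity) hTδ
  obtain ⟨u, hu⟩ : ∃ u : ℝ, u = w / Λ := ⟨_, rfl⟩
  rw [← hu]
  have hu0 : 0 < u := by rw [hu]; positivity
  have hσ0 : 0 ≤ SG M z y := by
    unfold SG
    exact Finset.sum_nonneg fun p _ => by positivity
  have hvw0 : 0 < v / w := by positivity
  have hE0 : 0 < Real.exp (2 * u - u * Real.log u) := Real.exp_pos _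
  rcases le_or_gt (Real.log u) 2 with hlogu | hlogu2
  · -- trivial case
    have h1 : 0 ≤ 2 * u - u * Real.log u := j0b_ax3 hu0 hlogu
    have h2 := Real.one_le_exp h1
    have h3 : (((Icc 1 T).filter (fun k => ∀ l ∈ (pr y \ pr z).filter (fun l => ¬ l ∣ M),
        ¬ l ∣ k)).card : ℝ) ≤ T := by
      have h4 := Finset.card_filter_le (Icc 1 T)
        (fun k => ∀ l ∈ (pr y \ pr z).filter (fun l => ¬ l ∣ M), ¬ l ∣ k)
      rw [Nat.card_Icc, Nat.add_sub_cancel] at h4
      exact_mod_cast h4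
    refine h3.trans ?_
    have h5 : (T : ℝ) * 1 ≤ T * (Real.exp (2 * u - u * Real.log u) + v / w + SG M z y) := by
      apply mul_le_mul_of_nonneg_left _ hT0.le
      linarith
    have h6 : 0 ≤ T * (Real.exp (2 * u - u * Real.log u) + v / w + SG M z y) := by
      positivity
    have h7 := le_mul_of_one_le_left h6 (by linarith : (1 : ℝ) ≤ K)
    linarith
  -- the logarithm of `T`
  have hlogT : w - 4 * v ≤ Real.log T := by
    have h1 := Real.log_le_log (by positivity) hTδ.le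
    rw [Real.log_div hLpos.ne' (by positivity), ← hw, Real.log_pow, ← hv] at h1
    push_cast at h1
    exact h1
  have hsmooth := j0h_smooth hC' g1 hv g4 g2 g6 hz1 hΛ hz0 hz2 hu hlogu2 hlogT
  have hpart2 := j0h_large hLpos (by linarith) hv g4 hTL hy2 hlogy2 hT0
  have h1 : (((Icc 1 T).filter (fun k => ∃ l, l.Prime ∧ y < l ∧ l ∣ k)).card : ℝ) ≤
      89 * (T * (v / w)) := by
    refine (large_card_le hy3 _ ?_).trans hpart2
    intro k hk
    rw [mem_filter, mem_Icc] at hk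
    exact ⟨hk.1.1, hk.1.2, hk.2⟩
  exact j0b_fin hT0.le hvw0.le hE0.le hσ0 hK hC0.le (j0b_decomp hMpos) hsmooth h1

end

end Pool.Agent.FXC
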