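import Mathlib
import Pool.Agent.FXC.St
import Pool.Agent.UNI.B4
import Pool.Agent.UNI.B5

set_option autoImplicit false

/-!
# FXC, module THD: long runs of composite numbers `a + k m` for a fixed `a`
-/

namespace Pool.Agent.FXC

open Finset Filter BlockSieve Pool.Agent.UNI

noncomputable section

lemma thd_ax7 {x : ℝ} (h : 4 ≤ x) : 4 * x ≤ x ^ 2 := by nlinarith

lemma thd_ax8 {x : ℝ} (h : 2 ≤ x) : x ≤ x ^ 2 := by nlinarith

/-- The size of the modulus `W`. -/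
lemma thd_W {n A : ℕ} {L X : ℝ} (hL0 : 0 < L) (hX0 : 0 < X) (hlX1 : L / 2 ≤ Real.log X)
    (hyL : (yM 8 n : ℝ) ≤ L / 39) :
    ((∏ l ∈ (pr (yM 8 n)).filter (fun l => ¬ l ∣ A), l : ℕ) : ℝ) ^ 8 ≤ X := by
  obtain ⟨W, hW⟩ : ∃ W : ℕ, W = ∏ l ∈ (pr (yM 8 n)).filter (fun l => ¬ l ∣ A), l := ⟨_, rfl⟩
  rw [← hW]
  have hWpos : 1 ≤ W := by
    rw [hW]
    exact Finset.prod_pos fun l hl => ((mem_pr.1 (mem_filter.1 hl).1).1).pos
  have hWr : (0 : ℝ) < W := by exact_mod_cast hWpos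
  have hlogW : Real.log W ≤ Real.log 4 * yM 8 n := by
    refine le_trans ?_ (prod_pr_log_le (yM 8 n))
    apply Real.log_le_log hWr
    have : W ≤ ∏ l ∈ pr (yM 8 n), l := by
      rw [hW]
      exact Finset.prod_le_prod_of_subset_of_one_le' (Finset.filter_subset _ _)
        (fun l hl _ => (mem_pr.1 hl).1.one_lt.le)
    exact_mod_cast this
  have hW8 : 8 * Real.log W ≤ L / 2 := by
    have h1 := log_four_le
    have hlog4 : 0 ≤ Real.log 4 := Real.log_nonneg (by norm_num)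
    calc 8 * Real.log W ≤ 8 * (Real.log 4 * yM 8 n) := by gcongr
      _ ≤ 8 * ((1387 / 1000) * (L / 39)) := by
          have h5 : (0 : ℝ) ≤ yM 8 n := Nat.cast_nonneg _
          gcongr
      _ ≤ L / 2 := by linarith
  rw [← Real.log_le_log_iff (by positivity) hX0, Real.log_pow]
  push_cast
  linarith

lemma thd_L4 {L l : ℝ} (hL16 : 16 ≤ L) (hl : L / 2 ≤ l) : L * (Real.log L) ^ 2 ≤ l ^ 4 := by
  have hL0 : 0 < L := by linarith
  have h1 : Real.log L ≤ L := (Real.log_le_sub_one_of_pos hL0).trans (by linarith)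
  have h0 : 0 ≤ Real.log L := Real.log_nonneg (by linarith)
  have h2 : (L / 2) ^ 4 ≤ l ^ 4 := by gcongr
  refine le_trans ?_ h2
  calc L * (Real.log L) ^ 2 ≤ L * L ^ 2 := by gcongr
    _ = (16 * L ^ 3) / 16 := by ring
    _ ≤ (L * L ^ 3) / 16 := by gcongr
    _ = (L / 2) ^ 4 := by ring

/-- The composite numbers, from the data of the covering and the engine. -/
lemma thd_sites {a : ℤ} {y' W b x T : ℕ} {X : ℝ} {Q : Finset ℕ} {κ : ℕ → ℕ} (hX0 : 0 < X)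
    (hlX2 : 2 ≤ Real.log X) (hW : W = ∏ l ∈ Q, l) (hQp : ∀ l ∈ Q, l.Prime) (hWpos : 1 ≤ W)
    (hWX1 : (W : ℝ) ≤ X) (hy'b : y' ≤ b) (hXy' : X + a.natAbs < y')
    (hb3 : ∀ l ∈ Q, ∀ k : ℕ, k ≡ κ l [MOD l] → (l : ℤ) ∣ a + k * (b : ℤ))
    (hx3 : ∀ k ∈ (Icc 1 T).filter (fun k => ∀ l ∈ Q, ¬ k ≡ κ l [MOD l]), ∃ l : ℕ, l.Prime ∧
      (Real.log X) ^ 4 < (l : ℝ) ∧ (l : ℝ) ≤ Real.exp (Real.sqrt (Real.log X)) ∧
      (l : ℤ) ∣ a + k * ((b + W * x : ℕ) : ℤ))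
    (k : ℕ) (hk1 : 1 ≤ k) (hkT : k ≤ T) (q : ℕ) (hq : q.Prime) :
    (q : ℤ) ≠ a + k * ((b + W * x : ℕ) : ℤ) := by
  intro hqa
  obtain ⟨m, hm⟩ : ∃ m : ℕ, m = b + W * x := ⟨_, rfl⟩
  rw [← hm] at hqa hx3
  -- the number is large
  have hqX : X < q := by
    have h1 : (y' : ℝ) ≤ m := by
      have : y' ≤ m := by rw [hm]; exact hy'b.trans (Nat.le_add_right _ _)
      exact_mod_cast this
    have h2 : (m : ℝ) - a.natAbs ≤ q := by
      have h3 : (m : ℤ) - a.natAbs ≤ q := by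
        have h4 : (m : ℤ) ≤ k * (m : ℤ) := by
          have h5 : m ≤ k * m := Nat.le_mul_of_pos_left m hk1
          exact_mod_cast h5
        rw [hqa]
        omega
      have h6 : (((m : ℤ) - a.natAbs : ℤ) : ℝ) ≤ ((q : ℤ) : ℝ) := Int.cast_le.2 h3
      push_cast at h6
      have h7 : ((a.natAbs : ℕ) : ℝ) = |(a : ℝ)| := by
        rw [Nat.cast_natAbs, Int.cast_abs]
      rw [h7]
      exact h6
    linarith
  have hdiv : ∀ l : ℕ, l.Prime → (l : ℝ) ≤ X → (l : ℤ) ∣ a + k * (m : ℤ) → False := by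
    intro l hl hlX hld
    rw [← hqa, Int.natCast_dvd_natCast] at hld
    have h1 := (Nat.prime_dvd_prime_iff_eq hl hq).1 hld
    rw [h1] at hlX
    linarith
  by_cases hkS : k ∈ (Icc 1 T).filter (fun k => ∀ l ∈ Q, ¬ k ≡ κ l [MOD l])
  · obtain ⟨l, hl1, hl2, hl3, hl4⟩ := hx3 k hkS
    refine hdiv l hl1 (hl3.trans ?_) hl4
    rw [← Real.exp_log hX0, Real.log_exp]
    apply Real.exp_le_exp.2
    rw [Real.sqrt_le_left (by linarith)]
    exact thd_ax8 hlX2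
  · rw [mem_filter, not_and] at hkS
    have h1 := hkS (mem_Icc.2 ⟨hk1, hkT⟩)
    push Not at h1
    obtain ⟨l, hlQ, hl3⟩ := h1
    have hld : (l : ℤ) ∣ a + k * (b : ℤ) := hb3 l hlQ k hl3
    have hlW : l ∣ W := by rw [hW]; exact Finset.dvd_prod_of_mem _ hlQ
    refine hdiv l (hQp l hlQ) ?_ ?_
    · have h2 : (l : ℝ) ≤ W := by exact_mod_cast Nat.le_of_dvd hWpos hlW
      exact h2.trans hWX1
    · have h2 : a + k * (m : ℤ) = (a + k * (b : ℤ)) + (W : ℤ) * (k * x) := by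
        rw [hm]
        push_cast
        ring
      rw [h2]
      exact dvd_add hld (Dvd.dvd.mul_right (Int.natCast_dvd_natCast.2 hlW) _)

theorem thd (hE : S_ENG) (hS : S_SVD) (hC : S_EXC) : S_THD := by
  classical
  obtain ⟨c₁, hc₁, hE⟩ := hE
  obtain ⟨c₂, hc₂⟩ : ∃ c₂, c₂ = min c₁ 1 := ⟨_, rfl⟩
  have hc2pos : 0 < c₂ := by rw [hc₂]; exact lt_min hc₁ one_pos
  have hc21 : c₂ ≤ 1 := by rw [hc₂]; exact min_le_right _ _
  have hc2c1 : c₂ ≤ c₁ := by rw [hc₂]; exact min_le_left _ _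
  obtain ⟨K, hK1, hsurv⟩ := hS
  have hK0 : 0 < K := by linarith
  obtain ⟨δ, hδ⟩ : ∃ δ, δ = c₂ / (4 * K) := ⟨_, rfl⟩
  have hδ0 : 0 < δ := by rw [hδ]; positivity
  have hKδ : K * δ = c₂ / 4 := by
    rw [hδ]
    field_simp
  have hδ1 : δ ≤ 1 := by
    rw [hδ, div_le_one (by positivity)]
    linarith
  refine ⟨δ, hδ0, hδ1, fun B => ?_⟩
  obtain ⟨X₀, hX₀⟩ := hE (2 * B)
  obtain ⟨N₀, hN₀⟩ := hsurv δ hδ0 hδ1
  obtain ⟨N₁, hN₁⟩ := eventually_atTop.1 (ev_gap X₀)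
  refine ⟨max N₀ N₁, fun n hn a ha0 han z hz1 hz2 s hs1 hs2 hs3 y hay => ?_⟩
  obtain ⟨A, hA⟩ : ∃ A : ℕ, A = a.natAbs := ⟨_, rfl⟩
  have hA1 : 1 ≤ A := by
    rw [hA]
    exact Int.natAbs_pos.2 ha0
  obtain ⟨f1, f2, hN₀'⟩ := hN₀ n ((le_max_left _ _).trans hn)
  rw [← hA] at hs3 hay han ⊢
  obtain ⟨f4, κ, f6, f5⟩ := hN₀' A hA1 z hz1 hz2 s hs1 hs2 hs3
  obtain ⟨g1, g2, g3⟩ := hN₁ n ((le_max_right _ _).trans hn)
  obtain ⟨T, hT⟩ : ∃ T : ℕ, T = ⌊δ * ((A.totient : ℝ) / A) * (Real.log n * Real.log z / s)⌋₊ :=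
    ⟨_, rfl⟩
  rw [← hT] at f4 f5
  obtain ⟨L, hL⟩ : ∃ L, L = Real.log (n : ℝ) := ⟨_, rfl⟩
  rw [← hL] at f1 f2 f4 f5 g3
  have hn4 : (16 : ℝ) ≤ n := by exact_mod_cast g1
  have hn0 : (0 : ℝ) < n := by linarith
  have hL0 : 0 < L := by linarith
  -- the parameter of the engine
  obtain ⟨X, hX⟩ : ∃ X : ℝ, X = (n : ℝ) / 4 := ⟨_, rfl⟩
  have hX0 : 0 < X := by rw [hX]; positivity
  have hX2 : 4 ≤ X := by rw [hX]; linarith
  have hlogX : Real.log X = L - Real.log 4 := by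
    rw [hX, Real.log_div hn0.ne' (by norm_num), ← hL]
  have hlog2 : 0 < Real.log 4 := Real.log_pos (by norm_num)
  have hlog2' : Real.log 4 < 2 := by
    have := log_four_le
    linarith
  have hlX1 : L / 2 ≤ Real.log X := by
    rw [hlogX]
    linarith
  have hlX2 : 2 ≤ Real.log X := by linarith
  have hXE : X₀ ≤ X := by
    rw [hX]
    linarith
  have hmX : (a.natAbs : ℝ) ≤ X ^ (2 * B) := by
    have h1 : (A : ℝ) ≤ (n : ℝ) ^ B := by exact_mod_cast han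
    rw [← hA]
    refine h1.trans ?_
    rw [pow_mul]
    have h2 : (n : ℝ) ≤ X ^ 2 := by
      have h3 : (n : ℝ) = 4 * X := by rw [hX]; ring
      rw [h3]
      exact thd_ax7 hX2
    gcongr
  -- the modulus
  obtain ⟨Q, hQ⟩ : ∃ Q : Finset ℕ, Q = (pr (yM 8 n)).filter (fun l => ¬ l ∣ A) := ⟨_, rfl⟩
  have hQp : ∀ l ∈ Q, l.Prime := by
    intro l hl
    rw [hQ, mem_filter, mem_pr] at hl
    exact hl.1.1
  obtain ⟨y', hy'⟩ : ∃ y' : ℕ, y' = y + n / 4 + 1 := ⟨_, rfl⟩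
  have hXy' : X + a.natAbs < y' := by
    have h1 : n < 4 * (n / 4 + 1) := by omega
    have h2 : (n : ℝ) < 4 * ((n / 4 + 1 : ℕ) : ℝ) := by exact_mod_cast h1
    have h3 : (y' : ℝ) = y + ((n / 4 + 1 : ℕ) : ℝ) := by
      rw [hy']
      push_cast
      ring
    have h4 : (A : ℝ) ≤ y := by exact_mod_cast hay
    rw [← hA, hX, h3]
    linarith
  have hκQ : ∀ l ∈ Q, ¬ l ∣ κ l := by
    intro l hl
    rw [hQ, mem_filter] at hl
    exact f6 l hl.1 hl.2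
  obtain ⟨b, hb1, hb2, hb3⟩ := hC a y' Q hQp κ hκQ
  obtain ⟨W, hW⟩ : ∃ W : ℕ, W = ∏ l ∈ Q, l := ⟨_, rfl⟩
  rw [← hW] at hb2
  have hWpos : 1 ≤ W := by rw [hW]; exact Finset.prod_pos fun l hl => (hQp l hl).pos
  have hWX : (W : ℝ) ^ 8 ≤ X := by
    rw [hW, hQ]
    exact thd_W hL0 hX0 hlX1 f2
  have hWX1 : (W : ℝ) ≤ X := by
    refine le_trans ?_ hWX
    have h1 : (1 : ℝ) ≤ W := by exact_mod_cast hWpos
    exact le_self_pow₀ h1 (by norm_num)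
  have hWm : W.Coprime a.natAbs := by
    rw [hW, ← hA]
    refine Nat.Coprime.prod_left fun l hl => ?_
    rw [hQ] at hl
    exact (Nat.Prime.coprime_iff_not_dvd (mem_pr.1 (mem_filter.1 hl).1).1).2 (mem_filter.1 hl).2
  have hL4X : L * (Real.log L) ^ 2 ≤ (Real.log X) ^ 4 := thd_L4 g3 hlX1
  have hyX : (yM 8 n : ℝ) ≤ (Real.log X) ^ 4 := by
    refine le_trans ?_ hL4X
    refine f2.trans ?_
    calc L / 39 ≤ L * 1 ^ 2 := by linarith
      _ ≤ L * (Real.log L) ^ 2 := by gcongr; linarith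
  have hWp : ∀ p : ℕ, p.Prime → p ∣ W → (p : ℝ) ≤ (Real.log X) ^ 4 := by
    intro p hp hpW
    rw [hW] at hpW
    obtain ⟨l, hl, hpl⟩ := (hp.prime.dvd_finset_prod_iff _).1 hpW
    rw [(Nat.prime_dvd_prime_iff_eq hp (hQp l hl)).1 hpl]
    have h1 : (l : ℝ) ≤ yM 8 n := by
      rw [hQ, mem_filter, mem_pr] at hl
      exact_mod_cast hl.1.2
    exact h1.trans hyX
  -- the sites
  obtain ⟨S, hS⟩ : ∃ S : Finset ℕ, S = (Icc 1 T).filter (fun k => ∀ l ∈ Q, ¬ k ≡ κ l [MOD l]) :=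
    ⟨_, rfl⟩
  have hSX : ∀ k ∈ S, 1 ≤ k ∧ (k : ℝ) ≤ (Real.log X) ^ 4 := by
    intro k hk
    rw [hS, mem_filter, mem_Icc] at hk
    have h1 : (k : ℝ) ≤ T := by exact_mod_cast hk.1.2
    exact ⟨hk.1.1, h1.trans (f4.trans hL4X)⟩
  have hScard : (S.card : ℝ) ≤ c₁ * Real.log X := by
    have h2 : S.card ≤ ((Icc 1 T).filter
        (fun k => ∀ l ∈ pr (yM 8 n), ¬ l ∣ A → ¬ k ≡ κ l [MOD l])).card := by
      apply Finset.card_le_card
      intro k hk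
      rw [hS, mem_filter] at hk
      rw [mem_filter]
      refine ⟨hk.1, fun l hl hlA => hk.2 l ?_⟩
      rw [hQ, mem_filter]
      exact ⟨hl, hlA⟩
    have h3 : (S.card : ℝ) ≤ (((Icc 1 T).filter
        (fun k => ∀ l ∈ pr (yM 8 n), ¬ l ∣ A → ¬ k ≡ κ l [MOD l])).card : ℝ) := by
      exact_mod_cast h2
    calc (S.card : ℝ) ≤ _ := h3
      _ ≤ K * δ * L := f5
      _ ≤ c₂ * Real.log X := by
          rw [hKδ]
          calc c₂ / 4 * L = c₂ * (L / 4) := by ring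
            _ ≤ c₂ * Real.log X := by
                apply mul_le_mul_of_nonneg_left _ hc2pos.le
                linarith
      _ ≤ c₁ * Real.log X := by gcongr
  obtain ⟨x, hx1, hx2, hx3⟩ := hX₀ X hXE a W b ha0 hmX hWpos hWX hWm hWp S hSX hScard
  refine ⟨b + W * x, by omega, ?_, by omega, ?_, ?_⟩
  · push_cast at hx1
    have h1 : (b : ℝ) ≤ y' + W := by exact_mod_cast hb2.le
    have h4 : 4 * (y' : ℝ) ≤ 4 * y + n + 4 := by
      have : 4 * y' ≤ 4 * y + n + 4 := by omega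
      exact_mod_cast this
    have h2 : 4 * X = (n : ℝ) := by rw [hX]; ring
    have h3 : ((b + W * x : ℕ) : ℝ) ≤ ((y + n : ℕ) : ℝ) := by
      push_cast
      linarith
    exact_mod_cast h3
  · rw [hA]
    exact hx2
  intro k hk1 hk q hq
  have hkT : k ≤ T := by
    have h2 : δ * ((A.totient : ℝ) / A) * (Real.log n * Real.log z / s) < T + 1 := by
      rw [hT]
      exact Nat.lt_floor_add_one _
    have h3 : (k : ℝ) < T + 1 := by linarith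
    have h4 : k < T + 1 := by exact_mod_cast h3
    omega
  exact thd_sites hX0 hlX2 hW hQp hWpos hWX1 hb1 hXy' hb3 (hS ▸ hx3) k hk1 hkT q hq

end

end Pool.Agent.FXC
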