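import Mathlib
import Pool.Agent.FXC.StH
import Pool.Agent.FXC.THD

set_option autoImplicit false

/-!
# FXC, module THH: long runs of composite numbers `h a + k m` for all small `h` at once
-/

namespace Pool.Agent.FXC

open Finset Filter BlockSieve Pool.Agent.UNI

noncomputable section

lemma thh_L4 {L l : ℝ} (hL16 : 32 ≤ L) (hl : L / 2 ≤ l) : 2 * (L * (Real.log L) ^ 2) ≤ l ^ 4 := by
  have hL0 : 0 < L := by linarith
  have h1 : Real.log L ≤ L := (Real.log_le_sub_one_of_pos hL0).trans (by linarith)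
  have h0 : 0 ≤ Real.log L := Real.log_nonneg (by linarith)
  have h2 : (L / 2) ^ 4 ≤ l ^ 4 := by gcongr
  refine le_trans ?_ h2
  calc 2 * (L * (Real.log L) ^ 2) ≤ 2 * (L * L ^ 2) := by gcongr
    _ = (32 * L ^ 3) / 16 := by ring
    _ ≤ (L * L ^ 3) / 16 := by gcongr
    _ = (L / 2) ^ 4 := by ring

/-- A value at a pair which is not primitive. -/
lemma thh_nonprim {a h : ℤ} {k m H q : ℕ} (hk : 1 ≤ k) (hhH : |h| ≤ H)
    (hm : (H : ℤ) * a.natAbs + 1 < m) (hq : q.Prime) (hqa : (q : ℤ) = h * a + k * (m : ℤ)) :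
    IsCoprime h (k : ℤ) := by
  obtain ⟨d, hd⟩ : ∃ d : ℕ, d = Int.gcd h (k : ℤ) := ⟨_, rfl⟩
  rw [Int.isCoprime_iff_gcd_eq_one, ← hd]
  have hd0 : d ≠ 0 := by
    intro h0
    rw [h0] at hd
    have h1 := (Int.gcd_eq_zero_iff.1 hd.symm).2
    omega
  obtain ⟨h', hh'⟩ : (d : ℤ) ∣ h := by rw [hd]; exact Int.gcd_dvd_left _ _
  obtain ⟨k', hk'⟩ : (d : ℤ) ∣ (k : ℤ) := by rw [hd]; exact Int.gcd_dvd_right _ _
  have hdpos : (1 : ℤ) ≤ d := by omega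
  have hk'1 : 1 ≤ k' := by
    by_contra hcon
    have h1 : k' ≤ 0 := by omega
    have h2 : (d : ℤ) * k' ≤ 0 := mul_nonpos_of_nonneg_of_nonpos (by omega) h1
    omega
  have hh'H : |h'| ≤ H := by
    have h1 : |h'| ≤ |h| := by
      rw [hh', abs_mul, abs_of_nonneg (by omega : (0 : ℤ) ≤ d)]
      exact le_mul_of_one_le_left (abs_nonneg _) hdpos
    exact h1.trans hhH
  obtain ⟨e, he⟩ : ∃ e : ℤ, e = h' * a + k' * (m : ℤ) := ⟨_, rfl⟩
  have hqe : (q : ℤ) = d * e := by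
    rw [hqa, he, hh', hk']
    ring
  have he1 : 1 < e := by
    have h1 : -((H : ℤ) * a.natAbs) ≤ h' * a := by
      have h2 : |h' * a| ≤ H * a.natAbs := by
        rw [abs_mul, Int.natCast_natAbs]
        exact mul_le_mul_of_nonneg_right hh'H (abs_nonneg _)
      exact (abs_le.1 h2).1
    have h3 : (m : ℤ) ≤ k' * m := le_mul_of_one_le_left (by omega) hk'1
    rw [he]
    omega
  have h1 : d ∣ q := by
    rw [← Int.natCast_dvd_natCast]
    exact ⟨e, hqe⟩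
  rcases (Nat.dvd_prime hq).1 h1 with h2 | h2
  · exact h2
  · exfalso
    rw [h2] at hqe
    have h3 : (q : ℤ) * 1 < q * e := mul_lt_mul_of_pos_left he1 (by exact_mod_cast hq.pos)
    omega

/-- The composite numbers, from the data of the covering and the engine. -/
lemma thh_sites {a : ℤ} {y' W b x H T : ℕ} {X : ℝ} {Q : Finset ℕ} {β : ℕ → ℕ} (hX0 : 0 < X)
    (hlX2 : 2 ≤ Real.log X) (hW : W = ∏ l ∈ Q, l) (hQp : ∀ l ∈ Q, l.Prime) (hWpos : 1 ≤ W)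
    (hWX1 : (W : ℝ) ≤ X) (hy'b : y' ≤ b) (hXy' : X + H * a.natAbs < y') (hX1 : 1 ≤ X)
    (hb3 : ∀ l ∈ Q, b ≡ β l [MOD l])
    (hx3 : ∀ p ∈ (PR H T).filter (fun p => ∀ l ∈ Q,
      ¬ (l : ℤ) ∣ p.1 * a + (p.2 : ℤ) * (β l : ℤ)), ∃ l : ℕ, l.Prime ∧
      (Real.log X) ^ 4 < (l : ℝ) ∧ (l : ℝ) ≤ Real.exp (Real.sqrt (Real.log X)) ∧
      (l : ℤ) ∣ p.1 * a + (p.2 : ℤ) * ((b + W * x : ℕ) : ℤ))
    (h : ℤ) (hh0 : h ≠ 0) (hhH : |h| ≤ H)
    (k : ℕ) (hk1 : 1 ≤ k) (hkT : k ≤ T) (q : ℕ) (hq : q.Prime) :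
    (q : ℤ) ≠ h * a + k * ((b + W * x : ℕ) : ℤ) := by
  intro hqa
  obtain ⟨m, hm⟩ : ∃ m : ℕ, m = b + W * x := ⟨_, rfl⟩
  rw [← hm] at hqa hx3
  have hym : y' ≤ m := by rw [hm]; exact hy'b.trans (Nat.le_add_right _ _)
  -- the number is large
  have hmul : |h * a| ≤ H * a.natAbs := by
    rw [abs_mul, Int.natCast_natAbs]
    exact mul_le_mul_of_nonneg_right hhH (abs_nonneg _)
  have hqX : X < q := by
    have h1 : (y' : ℝ) ≤ m := by exact_mod_cast hym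
    have h3 : (m : ℤ) - H * a.natAbs ≤ q := by
      have h4 : (m : ℤ) ≤ k * (m : ℤ) := by
        have h5 : m ≤ k * m := Nat.le_mul_of_pos_left m hk1
        exact_mod_cast h5
      have h6 := (abs_le.1 hmul).1
      rw [hqa]
      linarith
    have h6 : (((m : ℤ) - ((H : ℤ) * ((a.natAbs : ℕ) : ℤ)) : ℤ) : ℝ) ≤ ((q : ℤ) : ℝ) :=
      Int.cast_le.2 h3
    rw [Int.cast_sub, Int.cast_mul, Int.cast_natCast, Int.cast_natCast, Int.cast_natCast,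
      Int.cast_natCast] at h6
    linarith
  have hmH : (H : ℤ) * a.natAbs + 1 < m := by
    have h1 : (1 : ℝ) + H * a.natAbs < y' := by linarith
    have h2 : 1 + H * a.natAbs < y' := by exact_mod_cast h1
    have h3 : (1 : ℤ) + H * a.natAbs < y' := by exact_mod_cast h2
    have h4 : (y' : ℤ) ≤ m := by exact_mod_cast hym
    linarith
  have hcop := thh_nonprim hk1 hhH hmH hq hqa
  have hPR : (h, k) ∈ PR H T := by
    rw [PR, mem_filter, mem_product, mem_Icc, mem_Icc]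
    exact ⟨⟨abs_le.1 hhH, hk1, hkT⟩, hh0, hcop⟩
  have hdiv : ∀ l : ℕ, l.Prime → (l : ℝ) ≤ X → (l : ℤ) ∣ h * a + k * (m : ℤ) → False := by
    intro l hl hlX hld
    rw [← hqa, Int.natCast_dvd_natCast] at hld
    have h1 := (Nat.prime_dvd_prime_iff_eq hl hq).1 hld
    rw [h1] at hlX
    linarith
  by_cases hkS : (h, k) ∈ (PR H T).filter (fun p => ∀ l ∈ Q,
      ¬ (l : ℤ) ∣ p.1 * a + (p.2 : ℤ) * (β l : ℤ))
  · obtain ⟨l, hl1, hl2, hl3, hl4⟩ := hx3 (h, k) hkS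
    refine hdiv l hl1 (hl3.trans ?_) hl4
    rw [← Real.exp_log hX0, Real.log_exp]
    apply Real.exp_le_exp.2
    rw [Real.sqrt_le_left (by linarith)]
    exact thd_ax8 hlX2
  · rw [mem_filter, not_and] at hkS
    have h1 := hkS hPR
    push Not at h1
    obtain ⟨l, hlQ, hl3⟩ := h1
    have hlW : l ∣ W := by rw [hW]; exact Finset.dvd_prod_of_mem _ hlQ
    refine hdiv l (hQp l hlQ) ?_ ?_
    · have h2 : (l : ℝ) ≤ W := by exact_mod_cast Nat.le_of_dvd hWpos hlW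
      exact h2.trans hWX1
    · have h4 : (l : ℤ) ∣ (b : ℤ) - (β l : ℤ) := by
        have h5 := (Nat.modEq_iff_dvd.1 (hb3 l hlQ))
        have h6 : (b : ℤ) - (β l : ℤ) = -((β l : ℤ) - (b : ℤ)) := by ring
        rw [h6]
        exact (dvd_neg).2 h5
      have h2 : h * a + k * (m : ℤ) = (h * a + k * (β l : ℤ)) + (k : ℤ) * ((b : ℤ) - (β l : ℤ)) +
          (W : ℤ) * (k * x) := by
        rw [hm]
        push_cast
        ring
      rw [h2]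
      exact dvd_add (dvd_add hl3 (Dvd.dvd.mul_left h4 _))
        (Dvd.dvd.mul_right (Int.natCast_dvd_natCast.2 hlW) _)

/-- The coprimality. -/
lemma thh_coprime {a : ℤ} {W b x H Y : ℕ} {Q : Finset ℕ} {β : ℕ → ℕ}
    (hW : W = ∏ l ∈ Q, l) (hQ : Q = (pr Y).filter (fun l => ¬ l ∣ a.natAbs)) (hHY : H ≤ Y)
    (hb3 : ∀ l ∈ Q, b ≡ β l [MOD l]) (hβ : ∀ l ∈ Q, ¬ l ∣ β l)
    (hca : (b + W * x).Coprime a.natAbs) (h : ℤ) (hh0 : h ≠ 0) (hhH : |h| ≤ H) :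
    IsCoprime (h * a) ((b + W * x : ℕ) : ℤ) := by
  have h1 : IsCoprime a ((b + W * x : ℕ) : ℤ) := by
    rw [Int.isCoprime_iff_nat_coprime, Int.natAbs_natCast]
    exact hca.symm
  refine IsCoprime.mul_left ?_ h1
  rw [Int.isCoprime_iff_nat_coprime, Int.natAbs_natCast]
  rw [Nat.coprime_iff_gcd_eq_one] at *
  by_contra hcon
  obtain ⟨l, hl, hld⟩ := Nat.exists_prime_and_dvd hcon
  have hlh : l ∣ h.natAbs := hld.trans (Nat.gcd_dvd_left _ _)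
  have hlm : l ∣ b + W * x := hld.trans (Nat.gcd_dvd_right _ _)
  have hlH : l ≤ H := by
    have h2 := Nat.le_of_dvd (Int.natAbs_pos.2 hh0) hlh
    have h3 : ((h.natAbs : ℕ) : ℤ) ≤ H := by
      rw [Int.natCast_natAbs]
      exact hhH
    have h4 : h.natAbs ≤ H := by exact_mod_cast h3
    exact h2.trans h4
  by_cases hla : l ∣ a.natAbs
  · have h3 := Nat.dvd_gcd hlm hla
    rw [hca] at h3
    exact hl.one_lt.ne' (Nat.dvd_one.1 h3)
  · have hlQ : l ∈ Q := by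
      rw [hQ, mem_filter, mem_pr]
      exact ⟨⟨hl, hlH.trans hHY⟩, hla⟩
    have hlW : l ∣ W := by rw [hW]; exact Finset.dvd_prod_of_mem _ hlQ
    have h3 : l ∣ b := (Nat.dvd_add_left (Dvd.dvd.mul_right hlW x)).1 hlm
    exact hβ l hlQ (((hb3 l hlQ).dvd_iff (dvd_refl l)).1 h3)

theorem thh (hE : S_ENH) (hS : S_SVH) (hC : S_EXH) : S_THH := by
  classical
  obtain ⟨c₁, hc₁, hE⟩ := hE
  obtain ⟨c₂, hc₂⟩ : ∃ c₂, c₂ = min c₁ 1 := ⟨_, rfl⟩
  have hc2pos : 0 < c₂ := by rw [hc₂]; exact lt_min hc₁ one_pos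
  have hc21 : c₂ ≤ 1 := by rw [hc₂]; exact min_le_right _ _
  have hc2c1 : c₂ ≤ c₁ := by rw [hc₂]; exact min_le_left _ _
  obtain ⟨K, hK1, hsurv⟩ := hS
  have hK0 : 0 < K := by linarith
  obtain ⟨δ, hδ⟩ : ∃ δ, δ = c₂ / (4 * K) := ⟨_, rfl⟩
  have hδ0 : 0 < δ := by rw [hδ]; positivity
  have hKδ : K * δ = c₂ / 4 := by
    rw [hδ]
    field_simp
  have hδ1 : δ ≤ 1 := by
    rw [hδ, div_le_one (by positivity)]
    linarith
  refine ⟨δ, hδ0, hδ1, fun B => ?_⟩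
  obtain ⟨X₀, hX₀⟩ := hE (2 * B)
  obtain ⟨N₀, hN₀⟩ := hsurv δ hδ0 hδ1
  have hev : ∀ᶠ N : ℕ in atTop, _ := (ev_gap X₀).and (tendsto_log_nat.eventually (ev_real 39 2))
  obtain ⟨N₁, hN₁⟩ := eventually_atTop.1 hev
  refine ⟨max N₀ N₁, fun n hn a ha0 han z hz1 hz2 s hs1 hs2 hs3 H hH1 hHw y hay => ?_⟩
  obtain ⟨A, hA⟩ : ∃ A : ℕ, A = a.natAbs := ⟨_, rfl⟩
  have hA1 : 1 ≤ A := by
    rw [hA]
    exact Int.natAbs_pos.2 ha0
  obtain ⟨f1, f2, hN₀'⟩ := hN₀ n ((le_max_left _ _).trans hn)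
  obtain ⟨T, hT⟩ : ∃ T : ℕ,
      T = ⌊δ * ((a.natAbs.totient : ℝ) / a.natAbs) * (Real.log n * Real.log z / s) / H⌋₊ :=
    ⟨_, rfl⟩
  obtain ⟨f4, β, f6, f5⟩ := hN₀' a ha0 z hz1 hz2 s hs1 hs2 hs3 H hH1 hHw T hT
  obtain ⟨⟨g1, g2, g3⟩, g4⟩ := hN₁ n ((le_max_right _ _).trans hn)
  rw [← hA] at hay han hT f6 f5 ⊢
  obtain ⟨L, hL⟩ : ∃ L, L = Real.log (n : ℝ) := ⟨_, rfl⟩
  rw [← hL] at f1 f2 f4 f5 g3 g4 hHw
  have hn4 : (16 : ℝ) ≤ n := by exact_mod_cast g1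
  have hn0 : (0 : ℝ) < n := by linarith
  have hL0 : 0 < L := by linarith
  have hL60 : 60 ≤ L := by
    have h1 := Real.log_le_sub_one_of_pos hL0
    linarith
  have hHY : H ≤ yM 8 n := by
    have h1 : yM 8 n = ⌊L / (3 * (13 : ℝ))⌋₊ := by
      rw [yM, hL]
      norm_num
    rw [h1]
    apply Nat.le_floor
    rw [le_div_iff₀ (by norm_num)]
    linarith
  -- the parameter of the engine
  obtain ⟨X, hX⟩ : ∃ X : ℝ, X = (n : ℝ) / 4 := ⟨_, rfl⟩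
  have hX0 : 0 < X := by rw [hX]; positivity
  have hX2 : 4 ≤ X := by rw [hX]; linarith
  have hlogX : Real.log X = L - Real.log 4 := by
    rw [hX, Real.log_div hn0.ne' (by norm_num), ← hL]
  have hlog2 : 0 < Real.log 4 := Real.log_pos (by norm_num)
  have hlog2' : Real.log 4 < 2 := by
    have := log_four_le
    linarith
  have hlX1 : L / 2 ≤ Real.log X := by
    rw [hlogX]
    linarith
  have hlX2 : 2 ≤ Real.log X := by linarith
  have hXE : X₀ ≤ X := by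
    rw [hX]
    linarith
  have hmX : (a.natAbs : ℝ) ≤ X ^ (2 * B) := by
    have h1 : (A : ℝ) ≤ (n : ℝ) ^ B := by exact_mod_cast han
    rw [← hA]
    refine h1.trans ?_
    rw [pow_mul]
    have h2 : (n : ℝ) ≤ X ^ 2 := by
      have h3 : (n : ℝ) = 4 * X := by rw [hX]; ring
      rw [h3]
      exact thd_ax7 hX2
    gcongr
  -- the modulus
  obtain ⟨Q, hQ⟩ : ∃ Q : Finset ℕ, Q = (pr (yM 8 n)).filter (fun l => ¬ l ∣ A) := ⟨_, rfl⟩
  have hQp : ∀ l ∈ Q, l.Prime := by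
    intro l hl
    rw [hQ, mem_filter, mem_pr] at hl
    exact hl.1.1
  obtain ⟨y', hy'⟩ : ∃ y' : ℕ, y' = y + n / 4 + 1 := ⟨_, rfl⟩
  have hXy' : X + H * a.natAbs < y' := by
    have h1 : n < 4 * (n / 4 + 1) := by omega
    have h2 : (n : ℝ) < 4 * ((n / 4 + 1 : ℕ) : ℝ) := by exact_mod_cast h1
    have h3 : (y' : ℝ) = y + ((n / 4 + 1 : ℕ) : ℝ) := by
      rw [hy']
      push_cast
      ring
    have h4 : (H : ℝ) * A ≤ y := by exact_mod_cast hay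
    rw [← hA, hX, h3]
    linarith
  have hβQ : ∀ l ∈ Q, ¬ l ∣ β l := by
    intro l hl
    rw [hQ, mem_filter] at hl
    exact f6 l hl.1 hl.2
  obtain ⟨b, hb1, hb2, hb3⟩ := hC y' Q hQp β
  obtain ⟨W, hW⟩ : ∃ W : ℕ, W = ∏ l ∈ Q, l := ⟨_, rfl⟩
  rw [← hW] at hb2
  have hWpos : 1 ≤ W := by rw [hW]; exact Finset.prod_pos fun l hl => (hQp l hl).pos
  have hWX : (W : ℝ) ^ 8 ≤ X := by
    rw [hW, hQ]
    exact thd_W hL0 hX0 hlX1 f2
  have hWX1 : (W : ℝ) ≤ X := by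
    refine le_trans ?_ hWX
    have h1 : (1 : ℝ) ≤ W := by exact_mod_cast hWpos
    exact le_self_pow₀ h1 (by norm_num)
  have hWm : W.Coprime a.natAbs := by
    rw [hW, ← hA]
    refine Nat.Coprime.prod_left fun l hl => ?_
    rw [hQ] at hl
    exact (Nat.Prime.coprime_iff_not_dvd (mem_pr.1 (mem_filter.1 hl).1).1).2 (mem_filter.1 hl).2
  have hL4X : 2 * (L * (Real.log L) ^ 2) ≤ (Real.log X) ^ 4 := thh_L4 (by linarith) hlX1
  have hyX : (yM 8 n : ℝ) ≤ (Real.log X) ^ 4 := by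
    refine le_trans ?_ hL4X
    refine f2.trans ?_
    calc L / 39 ≤ 2 * (L * 1 ^ 2) := by linarith
      _ ≤ 2 * (L * (Real.log L) ^ 2) := by gcongr; linarith
  have hWp : ∀ p : ℕ, p.Prime → p ∣ W → (p : ℝ) ≤ (Real.log X) ^ 4 := by
    intro p hp hpW
    rw [hW] at hpW
    obtain ⟨l, hl, hpl⟩ := (hp.prime.dvd_finsetProd_iff _).1 hpW
    rw [(Nat.prime_dvd_prime_iff_eq hp (hQp l hl)).1 hpl]
    have h1 : (l : ℝ) ≤ yM 8 n := by
      rw [hQ, mem_filter, mem_pr] at hl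
      exact_mod_cast hl.1.2
    exact h1.trans hyX
  -- the sites
  obtain ⟨S, hS⟩ : ∃ S : Finset (ℤ × ℕ), S = (PR H T).filter (fun p => ∀ l ∈ Q,
      ¬ (l : ℤ) ∣ p.1 * a + (p.2 : ℤ) * (β l : ℤ)) := ⟨_, rfl⟩
  have hHT : 2 * (H : ℝ) * T ≤ (Real.log X) ^ 4 := by
    refine le_trans ?_ hL4X
    linarith
  have hSX : ∀ p ∈ S, IsCoprime p.1 (p.2 : ℤ) ∧ |p.1| ≤ H ∧ 1 ≤ p.2 ∧ p.2 ≤ T := by
    intro p hp
    rw [hS, mem_filter, PR, mem_filter, mem_product, mem_Icc, mem_Icc] at hp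
    exact ⟨hp.1.2.2, abs_le.2 hp.1.1.1, hp.1.1.2.1, hp.1.1.2.2⟩
  have hScard : (S.card : ℝ) ≤ c₁ * Real.log X := by
    have h2 : S.card ≤ ((PR H T).filter (fun p => ∀ l ∈ pr (yM 8 n), ¬ l ∣ A →
        ¬ (l : ℤ) ∣ p.1 * a + (p.2 : ℤ) * (β l : ℤ))).card := by
      apply Finset.card_le_card
      intro p hp
      rw [hS, mem_filter] at hp
      rw [mem_filter]
      refine ⟨hp.1, fun l hl hlA => hp.2 l ?_⟩
      rw [hQ, mem_filter]
      exact ⟨hl, hlA⟩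
    have h3 : (S.card : ℝ) ≤ (((PR H T).filter (fun p => ∀ l ∈ pr (yM 8 n), ¬ l ∣ A →
        ¬ (l : ℤ) ∣ p.1 * a + (p.2 : ℤ) * (β l : ℤ))).card : ℝ) := by
      exact_mod_cast h2
    calc (S.card : ℝ) ≤ _ := h3
      _ ≤ K * δ * L := f5
      _ ≤ c₂ * Real.log X := by
          rw [hKδ]
          calc c₂ / 4 * L = c₂ * (L / 4) := by ring
            _ ≤ c₂ * Real.log X := by
                apply mul_le_mul_of_nonneg_left _ hc2pos.le
                linarith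
      _ ≤ c₁ * Real.log X := by gcongr
  obtain ⟨x, hx1, hx2, hx3⟩ := hX₀ X hXE a W b ha0 hmX hWpos hWX hWm hWp H T hH1 hHT S hSX hScard
  have hnat : H * A < b + W * x := by omega
  refine ⟨b + W * x, by omega, ?_, hnat, ?_⟩
  · push_cast at hx1
    have h1 : (b : ℝ) ≤ y' + W := by exact_mod_cast hb2.le
    have h4 : 4 * (y' : ℝ) ≤ 4 * y + n + 4 := by
      have : 4 * y' ≤ 4 * y + n + 4 := by omega
      exact_mod_cast this
    have h2 : 4 * X = (n : ℝ) := by rw [hX]; ring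
    have h3 : ((b + W * x : ℕ) : ℝ) ≤ ((y + n : ℕ) : ℝ) := by
      push_cast
      linarith
    exact_mod_cast h3
  intro h hh0 hhH
  refine ⟨thh_coprime hW (hA ▸ hQ) hHY hb3 hβQ hx2 h hh0 hhH, ?_⟩
  intro k hk1 hk q hq
  have hkT : k ≤ T := by
    have h2 : δ * ((A.totient : ℝ) / A) * (Real.log n * Real.log z / s) / H < T + 1 := by
      rw [hT]
      exact Nat.lt_floor_add_one _
    have h3 : (k : ℝ) < T + 1 := by linarith
    have h4 : k < T + 1 := by exact_mod_cast h3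
    omega
  exact thh_sites hX0 hlX2 hW hQp hWpos hWX1 hb1 hXy' (by linarith) hb3 (hS ▸ hx3) h hh0 hhH
    k hk1 hkT q hq

end

end Pool.Agent.FXC
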