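import Mathlib
import Pool.Agent.FXC.StV
import Pool.Agent.FXC.THH
import Pool.Agent.FXC.FGH
import Pool.Agent.FXC.EXC
import Pool.Agent.DLG.Lin

set_option autoImplicit false

/-!
# FXC, module SIV: all the numbers `h a + k m` are composite, and the final theorem
-/

namespace Pool.Agent.FXC

open Finset Filter BlockSieve Pool.Agent.UNI Pool.Agent.DLG Pool.Agent.Lib_helper9.LG

noncomputable section

/-- Distinct primitive pairs. -/
lemma siv_inj {h h' : ℤ} {k k' : ℕ} (hk : 1 ≤ k) (h1 : IsCoprime h (k : ℤ))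
    (h2 : IsCoprime h' (k' : ℤ)) (he : h * k' = h' * k) : h = h' ∧ k = k' := by
  have a1 : (k : ℤ) ∣ k' := by
    have : (k : ℤ) ∣ h * k' := by
      rw [he]
      exact Dvd.intro_left _ rfl
    exact h1.symm.dvd_of_dvd_mul_left this
  have a2 : (k' : ℤ) ∣ k := by
    have : (k' : ℤ) ∣ h' * k := by
      rw [← he]
      exact Dvd.intro_left _ rfl
    exact h2.symm.dvd_of_dvd_mul_left this
  have a3 : k = k' := Nat.dvd_antisymm (Int.natCast_dvd_natCast.1 a1) (Int.natCast_dvd_natCast.1 a2)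
  subst a3
  exact ⟨mul_right_cancel₀ (by omega) he, rfl⟩

/-- The determinants. -/
lemma siv_det {a : ℤ} {l H T : ℕ} (hl : l.Prime) (hla : ¬ (l : ℤ) ∣ a) (hlT : 2 * (H * T) < l)
    {s t : ℤ × ℕ} (hs : |s.1| ≤ H ∧ 1 ≤ s.2 ∧ s.2 ≤ T ∧ IsCoprime s.1 (s.2 : ℤ))
    (ht : |t.1| ≤ H ∧ 1 ≤ t.2 ∧ t.2 ≤ T ∧ IsCoprime t.1 (t.2 : ℤ)) (hst : s ≠ t) :
    ¬ (l : ℤ) ∣ (s.1 * a) * (t.2 : ℤ) - (t.1 * a) * (s.2 : ℤ) := by
  have e1 : (s.1 * a) * (t.2 : ℤ) - (t.1 * a) * (s.2 : ℤ) =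
      a * (s.1 * (t.2 : ℤ) - t.1 * (s.2 : ℤ)) := by ring
  rw [e1]
  intro hd
  have hlp : Prime (l : ℤ) := Nat.prime_iff_prime_int.1 hl
  rcases hlp.dvd_or_dvd hd with h1 | h1
  · exact hla h1
  · have hne : s.1 * (t.2 : ℤ) - t.1 * (s.2 : ℤ) ≠ 0 := by
      intro h0
      apply hst
      obtain ⟨h5, h6⟩ := siv_inj hs.2.1 hs.2.2.2 ht.2.2.2 (sub_eq_zero.1 h0)
      exact Prod.ext h5 h6
    have h7 : |s.1 * (t.2 : ℤ)| ≤ H * T := by
      rw [abs_mul]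
      have h9 : |((t.2 : ℕ) : ℤ)| ≤ T := by
        rw [abs_of_nonneg (Int.natCast_nonneg _)]
        exact_mod_cast ht.2.2.1
      exact mul_le_mul hs.1 h9 (abs_nonneg _) (Int.natCast_nonneg _)
    have h8 : |t.1 * (s.2 : ℤ)| ≤ H * T := by
      rw [abs_mul]
      have h9 : |((s.2 : ℕ) : ℤ)| ≤ T := by
        rw [abs_of_nonneg (Int.natCast_nonneg _)]
        exact_mod_cast hs.2.2.1
      exact mul_le_mul ht.1 h9 (abs_nonneg _) (Int.natCast_nonneg _)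
    have h9 : (2 * (H * T) : ℤ) < l := by exact_mod_cast hlT
    have h10 := abs_sub (s.1 * (t.2 : ℤ)) (t.1 * (s.2 : ℤ))
    have h11 : (0 : ℤ) < |s.1 * (t.2 : ℤ) - t.1 * (s.2 : ℤ)| := abs_pos.2 hne
    have h12 := Int.le_of_dvd h11 ((dvd_abs _ _).2 h1)
    linarith

/-- The numbers are composite. -/
lemma siv_sites {a : ℤ} {ρ z H T m : ℕ} {X : ℝ} {c : ℕ → ℕ}
    (hρ : ∀ l : ℕ, l.Prime → l ∣ ρ → (l : ℤ) ∣ a)
    (hexp : Real.exp (Real.sqrt (Real.log X)) ≤ X) (hzX : (z : ℝ) ≤ X) (hX1 : 1 ≤ X)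
    (hXm : X + H * a.natAbs < m)
    (hc1 : ∀ l ∈ pr z, l ∣ ρ → l ∣ c l)
    (hc2 : ∀ l ∈ pr z, ¬ l ∣ ρ → (l : ℤ) ∣ a + (c l : ℤ) * (m : ℤ))
    (hx : ∀ h : ℤ, ∀ k : ℕ, h ≠ 0 → |h| ≤ H → 1 ≤ k → k ≤ T → IsCoprime h (k : ℤ) →
      (∀ l ∈ pr z, ¬ (l : ℤ) ∣ (k : ℤ) - h * (c l : ℤ)) →
      ∃ l : ℕ, l.Prime ∧ (l : ℝ) ≤ Real.exp (Real.sqrt (Real.log X)) ∧
        (l : ℤ) ∣ h * a + (k : ℤ) * (m : ℤ))
    (h : ℤ) (k : ℕ) (h0 : h ≠ 0) (hhH : |h| ≤ H) (hk1 : 1 ≤ k) (hkT : k ≤ T) (q : ℕ)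
    (hq : q.Prime) : (q : ℤ) ≠ h * a + k * (m : ℤ) := by
  intro hqa
  have hmul : |h * a| ≤ H * a.natAbs := by
    rw [abs_mul, Int.natCast_natAbs]
    exact mul_le_mul_of_nonneg_right hhH (abs_nonneg _)
  have hqX : X < q := by
    have h3 : (m : ℤ) - H * a.natAbs ≤ q := by
      have h4 : (m : ℤ) ≤ k * (m : ℤ) := by
        have h5 : m ≤ k * m := Nat.le_mul_of_pos_left m hk1
        exact_mod_cast h5
      have h6 := (abs_le.1 hmul).1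
      rw [hqa]
      linarith
    have h6 : (((m : ℤ) - ((H : ℤ) * ((a.natAbs : ℕ) : ℤ)) : ℤ) : ℝ) ≤ ((q : ℤ) : ℝ) :=
      Int.cast_le.2 h3
    rw [Int.cast_sub, Int.cast_mul, Int.cast_natCast, Int.cast_natCast, Int.cast_natCast,
      Int.cast_natCast] at h6
    linarith
  have hmH : (H : ℤ) * a.natAbs + 1 < m := by
    have h1 : (1 : ℝ) + H * a.natAbs < m := by linarith
    have h2 : 1 + H * a.natAbs < m := by exact_mod_cast h1
    have h3 : (1 : ℤ) + H * a.natAbs < m := by exact_mod_cast h2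
    linarith
  have hcop := thh_nonprim hk1 hhH hmH hq hqa
  have hdiv : ∀ l : ℕ, l.Prime → (l : ℝ) ≤ X → (l : ℤ) ∣ h * a + k * (m : ℤ) → False := by
    intro l hl hlX hld
    rw [← hqa, Int.natCast_dvd_natCast] at hld
    have h1 := (Nat.prime_dvd_prime_iff_eq hl hq).1 hld
    rw [h1] at hlX
    linarith
  by_cases hsv : ∀ l ∈ pr z, ¬ (l : ℤ) ∣ (k : ℤ) - h * (c l : ℤ)
  · obtain ⟨l, hl1, hl3, hl4⟩ := hx h k h0 hhH hk1 hkT hcop hsv
    exact hdiv l hl1 (hl3.trans hexp) hl4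
  · push Not at hsv
    obtain ⟨l, hl, hld⟩ := hsv
    have hlp := (mem_pr.1 hl).1
    have hlz : (l : ℝ) ≤ z := by exact_mod_cast (mem_pr.1 hl).2
    refine hdiv l hlp (hlz.trans hzX) ?_
    by_cases hlρ : l ∣ ρ
    · have h1 : (l : ℤ) ∣ h * (c l : ℤ) :=
        Dvd.dvd.mul_left (Int.natCast_dvd_natCast.2 (hc1 l hl hlρ)) _
      have h2 : (l : ℤ) ∣ (k : ℤ) := (dvd_sub_left h1).1 hld
      exact dvd_add (Dvd.dvd.mul_left (hρ l hlp hlρ) _) (Dvd.dvd.mul_right h2 _)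
    · have h2 : h * a + k * (m : ℤ) =
          h * (a + (c l : ℤ) * (m : ℤ)) + ((k : ℤ) - h * (c l : ℤ)) * (m : ℤ) := by ring
      rw [h2]
      exact dvd_add (Dvd.dvd.mul_left (hc2 l hl hlρ) _) (Dvd.dvd.mul_right hld _)

/-- The coprimality. -/
lemma siv_coprime {a : ℤ} {ρ z H m : ℕ} {c : ℕ → ℕ} (hHz : H ≤ z)
    (hρ : ∀ l : ℕ, l.Prime → ((l : ℤ) ∣ a ↔ l ∣ ρ)) (hmρ : m.Coprime ρ)
    (hc2 : ∀ l ∈ pr z, ¬ l ∣ ρ → (l : ℤ) ∣ a + (c l : ℤ) * (m : ℤ)) (h : ℤ) (h0 : h ≠ 0)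
    (hhH : |h| ≤ H) : IsCoprime (h * a) (m : ℤ) := by
  rw [Int.isCoprime_iff_gcd_eq_one]
  by_contra hcon
  obtain ⟨l, hl, hld⟩ := Nat.exists_prime_and_dvd hcon
  have hlp : Prime (l : ℤ) := Nat.prime_iff_prime_int.1 hl
  have h3 : (l : ℤ) ∣ h * a := (Int.natCast_dvd_natCast.2 hld).trans (Int.gcd_dvd_left _ _)
  have h4 : (l : ℤ) ∣ m := (Int.natCast_dvd_natCast.2 hld).trans (Int.gcd_dvd_right _ _)
  have h4' : l ∣ m := Int.natCast_dvd_natCast.1 h4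
  have hρl : ¬ l ∣ ρ := by
    intro hlρ
    have h5 := Nat.dvd_gcd h4' hlρ
    rw [hmρ] at h5
    exact hl.one_lt.ne' (Nat.dvd_one.1 h5)
  rcases hlp.dvd_or_dvd h3 with h5 | h5
  · have h6 := Nat.le_of_dvd (Int.natAbs_pos.2 h0) (Int.natCast_dvd.1 h5)
    have h7 : ((h.natAbs : ℕ) : ℤ) ≤ H := by
      rw [Int.natCast_natAbs]
      exact hhH
    have h8 : h.natAbs ≤ H := by exact_mod_cast h7
    have h9 : l ∈ pr z := mem_pr.2 ⟨hl, (h6.trans h8).trans hHz⟩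
    have h10 := (dvd_add_left (Dvd.dvd.mul_left h4 (c l : ℤ))).1 (hc2 l h9 hρl)
    exact hρl ((hρ l hl).1 h10)
  · exact hρl ((hρ l hl).1 h5)

lemma siv_ev (X₀ : ℝ) : ∀ᶠ n : ℕ in atTop, 64 ≤ n ∧ 4 * X₀ ≤ (n : ℝ) ∧
    200 ≤ Real.log (n : ℝ) ∧ 16 * Real.log (n : ℝ) ≤ n := by
  have h2 : Tendsto (fun n : ℕ => Real.log (n : ℝ)) atTop atTop :=
    Real.tendsto_log_atTop.comp tendsto_natCast_atTop_atTop
  have h1 : Tendsto (fun n : ℕ => (n : ℝ)) atTop atTop := tendsto_natCast_atTop_atTop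
  have h3 := h1.eventually (ev_real 16 1)
  filter_upwards [eventually_ge_atTop 64, h1.eventually_ge_atTop (4 * X₀),
    h2.eventually_ge_atTop 200, h3] with n e1 e2 e3 e4
  exact ⟨e1, e2, e3, by simpa using e4⟩

theorem siv (hS : S_COV) : S_SIV := by
  classical
  obtain ⟨c₁, hc₁, hE⟩ := engL
  obtain ⟨c₂, hc₂⟩ : ∃ c₂, c₂ = min c₁ 1 := ⟨_, rfl⟩
  have hc2pos : 0 < c₂ := by rw [hc₂]; exact lt_min hc₁ one_pos
  have hc2c1 : c₂ ≤ c₁ := by rw [hc₂]; exact min_le_left _ _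
  obtain ⟨K, hK1, hsurv⟩ := hS
  have hK0 : 0 < K := by linarith
  obtain ⟨δ, hδ⟩ : ∃ δ, δ = min (c₂ / (2 * K)) (1 / 200) := ⟨_, rfl⟩
  have hδ0 : 0 < δ := by rw [hδ]; exact lt_min (by positivity) (by norm_num)
  have hKδ : K * δ ≤ c₂ / 2 := by
    have h1 : δ ≤ c₂ / (2 * K) := by rw [hδ]; exact min_le_left _ _
    rw [le_div_iff₀ (by positivity)] at h1
    linarith
  have hδ1 : δ ≤ 1 / 200 := by rw [hδ]; exact min_le_right _ _
  obtain ⟨X₀, hX₀⟩ := hE 1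
  obtain ⟨N₀, hN₀⟩ := hsurv δ hδ0 hδ1
  obtain ⟨N₁, hN₁⟩ := eventually_atTop.1 (siv_ev X₀)
  refine ⟨δ, hδ0, by linarith, max N₀ N₁, fun n hn a ha0 H hH1 hHρ y hay => ?_⟩
  obtain ⟨ρ, hρ⟩ : ∃ ρ : ℕ, ρ = ∏ p ∈ a.natAbs.primeFactors, p := ⟨_, rfl⟩
  rw [← hρ] at hHρ
  have hρ1 : 1 ≤ ρ := by
    rw [hρ]
    exact Finset.prod_pos fun p hp => (Nat.prime_of_mem_primeFactors hp).pos
  have hρa : ∀ l : ℕ, l.Prime → ((l : ℤ) ∣ a ↔ l ∣ ρ) := by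
    intro l hl
    rw [hρ, hl.prime.dvd_finsetProd_iff, Int.natCast_dvd]
    constructor
    · intro h
      exact ⟨l, Nat.mem_primeFactors.2 ⟨hl, h, Int.natAbs_ne_zero.2 ha0⟩, dvd_refl l⟩
    · rintro ⟨p, hp, hlp⟩
      exact hlp.trans (Nat.dvd_of_mem_primeFactors hp)
  obtain ⟨T, hT⟩ : ∃ T : ℕ, T = ⌊δ * (Real.log n + RR n / H)⌋₊ := ⟨_, rfl⟩
  obtain ⟨s1, s2, c, s3, s4⟩ := hN₀ n ((le_max_left _ _).trans hn) ρ H T hρ1 hH1 hHρ hT
  obtain ⟨g1, g2, g3, g4⟩ := hN₁ n ((le_max_right _ _).trans hn)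
  obtain ⟨L, hL⟩ : ∃ L, L = Real.log (n : ℝ) := ⟨_, rfl⟩
  rw [← hL] at g3 g4 s1 s2 s4 hHρ
  have hn4 : (64 : ℝ) ≤ n := by exact_mod_cast g1
  have hn0 : (0 : ℝ) < n := by linarith
  have hL0 : 0 < L := by linarith
  have hρr : (1 : ℝ) ≤ ρ := by exact_mod_cast hρ1
  have hH1r : (1 : ℝ) ≤ H := by exact_mod_cast hH1
  have hδL : δ * L ≤ L / 200 := by
    calc δ * L ≤ (1 / 200) * L := mul_le_mul_of_nonneg_right hδ1 hL0.le
      _ = L / 200 := by ring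
  have hHle : (H : ℝ) ≤ L / 200 := by
    have h1 : (H : ℝ) * 1 ≤ H * ρ := mul_le_mul_of_nonneg_left hρr (by linarith)
    linarith
  have hρle : (ρ : ℝ) ≤ L / 200 := by
    have h1 : 1 * (ρ : ℝ) ≤ H * ρ := mul_le_mul_of_nonneg_right hH1r (by linarith)
    linarith
  -- the parameter of the engine
  obtain ⟨X, hX⟩ : ∃ X : ℝ, X = (n : ℝ) / 4 := ⟨_, rfl⟩
  have hX0 : 0 < X := by rw [hX]; positivity
  have hX16 : 16 ≤ X := by rw [hX]; linarith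
  have hlogX : Real.log X = L - Real.log 4 := by
    rw [hX, Real.log_div hn0.ne' (by norm_num), ← hL]
  have hlog2 : 0 < Real.log 4 := Real.log_pos (by norm_num)
  have hlog2' : Real.log 4 < 2 := by
    have := log_four_le
    linarith
  have hlX1 : L / 2 ≤ Real.log X := by
    rw [hlogX]
    linarith
  have hlX2 : 2 ≤ Real.log X := by linarith
  have hXE : X₀ ≤ X := by
    rw [hX]
    linarith
  have hρX : (ρ : ℝ) ≤ X ^ 1 := by
    rw [pow_one, hX]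
    linarith
  -- the primes
  obtain ⟨z, hz⟩ : ∃ z : ℕ, z = yM 8 n := ⟨_, rfl⟩
  rw [← hz] at s3 s4
  have hz' : z = ⌊L / (3 * (13 : ℝ))⌋₊ := by
    rw [hz, yM, hL]
    norm_num
  have hzL : (z : ℝ) ≤ L / 39 := by
    rw [hz']
    refine (Nat.floor_le (by positivity)).trans (le_of_eq ?_)
    norm_num
  have hHz : H ≤ z := by
    rw [hz']
    apply Nat.le_floor
    rw [le_div_iff₀ (by norm_num)]
    linarith
  obtain ⟨Q, hQ⟩ : ∃ Q : Finset ℕ, Q = (pr z).filter (fun l => ¬ l ∣ ρ) := ⟨_, rfl⟩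
  have hQp : ∀ l ∈ Q, l.Prime := by
    intro l hl
    rw [hQ, mem_filter, mem_pr] at hl
    exact hl.1.1
  have hcQ : ∀ l ∈ Q, ¬ l ∣ c l := by
    intro l hl
    rw [hQ, mem_filter] at hl
    exact (s3 l hl.1).2 hl.2
  obtain ⟨y', hy'⟩ : ∃ y' : ℕ, y' = y + n / 4 + 1 := ⟨_, rfl⟩
  have hXy' : X + H * a.natAbs < y' := by
    have h1 : n < 4 * (n / 4 + 1) := by omega
    have h2 : (n : ℝ) < 4 * ((n / 4 + 1 : ℕ) : ℝ) := by exact_mod_cast h1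
    have h3 : (y' : ℝ) = y + ((n / 4 + 1 : ℕ) : ℝ) := by
      rw [hy']
      push_cast
      ring
    have h4 : (H : ℝ) * a.natAbs ≤ y := by exact_mod_cast hay
    rw [hX, h3]
    linarith
  obtain ⟨b, hb1, hb2, hb3⟩ := t_EXC a y' Q hQp c hcQ
  obtain ⟨W, hW⟩ : ∃ W : ℕ, W = ∏ l ∈ Q, l := ⟨_, rfl⟩
  rw [← hW] at hb2
  have hWpos : 1 ≤ W := by rw [hW]; exact Finset.prod_pos fun l hl => (hQp l hl).pos
  have hWX : (W : ℝ) ^ 8 ≤ X := by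
    rw [hW, hQ, hz]
    exact thd_W hL0 hX0 hlX1 (by rw [← hz]; exact hzL)
  have hWX1 : (W : ℝ) ≤ X := by
    refine le_trans ?_ hWX
    have h1 : (1 : ℝ) ≤ W := by exact_mod_cast hWpos
    exact le_self_pow₀ h1 (by norm_num)
  have hWρ : W.Coprime ρ := by
    rw [hW]
    refine Nat.Coprime.prod_left fun l hl => ?_
    rw [hQ] at hl
    exact (Nat.Prime.coprime_iff_not_dvd (mem_pr.1 (mem_filter.1 hl).1).1).2 (mem_filter.1 hl).2
  have hL4 : 2 * L ^ 2 ≤ (Real.log X) ^ 4 := by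
    have h2 : (L / 2) ^ 4 ≤ (Real.log X) ^ 4 := by gcongr
    refine le_trans ?_ h2
    have h3 : (32 : ℝ) ≤ L ^ 2 := by
      calc (32 : ℝ) ≤ 200 ^ 2 := by norm_num
        _ ≤ L ^ 2 := by gcongr
    calc 2 * L ^ 2 = 32 * L ^ 2 / 16 := by ring
      _ ≤ L ^ 2 * L ^ 2 / 16 := by gcongr
      _ = (L / 2) ^ 4 := by ring
  have hL2 : 0 ≤ L ^ 2 := by positivity
  have hHT : 2 * (H : ℝ) * T ≤ (Real.log X) ^ 4 := by
    refine le_trans ?_ hL4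
    linarith
  have hTX : (T : ℝ) ≤ (Real.log X) ^ 4 := by
    refine le_trans ?_ hL4
    linarith
  have hLL2 : L ≤ L ^ 2 := by
    calc L = 1 * L := (one_mul L).symm
      _ ≤ L * L := mul_le_mul_of_nonneg_right (by linarith) hL0.le
      _ = L ^ 2 := by ring
  have hWp : ∀ p : ℕ, p.Prime → p ∣ W → (p : ℝ) ≤ (Real.log X) ^ 4 := by
    intro p hp hpW
    rw [hW] at hpW
    obtain ⟨l, hl, hpl⟩ := (hp.prime.dvd_finsetProd_iff _).1 hpW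
    rw [(Nat.prime_dvd_prime_iff_eq hp (hQp l hl)).1 hpl]
    have h1 : (l : ℝ) ≤ z := by
      rw [hQ, mem_filter, mem_pr] at hl
      exact_mod_cast hl.1.2
    linarith
  -- the sites
  obtain ⟨S, hS⟩ : ∃ S : Finset (ℤ × ℕ), S = ((Icc (-(H : ℤ)) H) ×ˢ (Icc 1 T)).filter
      (fun s : ℤ × ℕ => (s.1 ≠ 0 ∧ ∀ l ∈ pr z, ¬ ((l : ℤ) ∣ (s.2 : ℤ) - s.1 * (c l : ℤ))) ∧
        IsCoprime s.1 (s.2 : ℤ)) := ⟨_, rfl⟩
  have hScard : (S.card : ℝ) ≤ K * δ * L := by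
    refine le_trans ?_ s4
    have h1 : S.card ≤ (((Icc (-(H : ℤ)) H) ×ˢ (Icc 1 T)).filter (fun s : ℤ × ℕ => s.1 ≠ 0 ∧
        ∀ l ∈ pr z, ¬ ((l : ℤ) ∣ (s.2 : ℤ) - s.1 * (c l : ℤ)))).card := by
      apply Finset.card_le_card
      rw [hS]
      intro s hs
      rw [mem_filter] at hs ⊢
      exact ⟨hs.1, hs.2.1⟩
    exact_mod_cast h1
  have hSm : ∀ s ∈ S, |s.1| ≤ H ∧ 1 ≤ s.2 ∧ s.2 ≤ T ∧ IsCoprime s.1 (s.2 : ℤ) := by
    intro s hs
    rw [hS, mem_filter, mem_product, mem_Icc, mem_Icc] at hs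
    exact ⟨abs_le.2 hs.1.1, hs.1.2.1, hs.1.2.2, hs.2.2⟩
  have hlw : ∀ l ∈ PL ρ X, T < l ∧ 2 * (H * T) < l := by
    intro l hl
    have h1 := (mem_PLe hl).2.1
    constructor
    · have h2 : (T : ℝ) < l := lt_of_le_of_lt hTX h1
      exact_mod_cast h2
    · have h2 : 2 * (H : ℝ) * T < l := lt_of_le_of_lt hHT h1
      have h3 : ((2 * (H * T) : ℕ) : ℝ) < l := by
        push_cast
        linarith
      exact_mod_cast h3
  obtain ⟨x, hx1, hx2, hx3⟩ := hX₀ X hXE ρ W b hρ1 hρX hWpos hWX hWρ hWp S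
    (fun s => s.1.1 * a) (fun s => (s.1.2 : ℤ))
    (by
      intro l hl s hd
      obtain ⟨h1, -⟩ := hlw l hl
      obtain ⟨-, h3, h4, -⟩ := hSm s.1 s.2
      have h5 := Nat.le_of_dvd h3 (Int.natCast_dvd_natCast.1 hd)
      omega)
    (by
      rintro l hl s t hst
      obtain ⟨p1, -, p3, -⟩ := mem_PLe hl
      exact siv_det p1 (fun h => p3 ((hρa l p1).1 h)) (hlw l hl).2 (hSm s.1 s.2) (hSm t.1 t.2)
        (fun h => hst (Subtype.ext h)))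
    (by
      rw [Fintype.card_coe]
      refine hScard.trans ?_
      calc K * δ * L ≤ c₂ / 2 * L := mul_le_mul_of_nonneg_right hKδ hL0.le
        _ = c₂ * (L / 2) := by ring
        _ ≤ c₁ * Real.log X := by gcongr)
  obtain ⟨m, hm⟩ : ∃ m : ℕ, m = b + W * x := ⟨_, rfl⟩
  rw [← hm] at hx2 hx3
  have hym : y' ≤ m := by rw [hm]; exact hb1.trans (Nat.le_add_right _ _)
  have hXm : X + H * a.natAbs < m := by
    have h1 : (y' : ℝ) ≤ m := by exact_mod_cast hym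
    linarith
  have hclm : ∀ l ∈ pr z, ¬ l ∣ ρ → (l : ℤ) ∣ a + (c l : ℤ) * (m : ℤ) := by
    intro l hl hlρ
    have hlQ : l ∈ Q := by rw [hQ, mem_filter]; exact ⟨hl, hlρ⟩
    have h1 := hb3 l hlQ (c l) (Nat.ModEq.refl _)
    have hlW : l ∣ W := by rw [hW]; exact Finset.dvd_prod_of_mem _ hlQ
    have h2 : a + (c l : ℤ) * (m : ℤ) = (a + (c l : ℤ) * (b : ℤ)) + (W : ℤ) * ((c l : ℤ) * x) := by
      rw [hm]
      push_cast
      ring
    rw [h2]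
    exact dvd_add h1 (Dvd.dvd.mul_right (Int.natCast_dvd_natCast.2 hlW) _)
  have hexp : Real.exp (Real.sqrt (Real.log X)) ≤ X := by
    have h1 : Real.sqrt (Real.log X) ≤ Real.log X := by
      rw [Real.sqrt_le_left (by linarith)]
      exact thd_ax8 hlX2
    calc Real.exp (Real.sqrt (Real.log X)) ≤ Real.exp (Real.log X) := Real.exp_le_exp.2 h1
      _ = X := Real.exp_log hX0
  have hnat : H * a.natAbs < m := by
    have h1 : (H : ℝ) * a.natAbs < m := by linarith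
    exact_mod_cast h1
  refine ⟨m, by omega, ?_, hnat, fun h h0 hh =>
    ⟨siv_coprime hHz hρa hx2 hclm h h0 hh, fun k hk1 hk2 q hq => ?_⟩⟩
  · push_cast at hx1
    have h1 : (b : ℝ) ≤ y' + W := by exact_mod_cast hb2.le
    have h4 : 4 * (y' : ℝ) ≤ 4 * y + n + 4 := by
      have : 4 * y' ≤ 4 * y + n + 4 := by omega
      exact_mod_cast this
    have h2 : 4 * X = (n : ℝ) := by rw [hX]; ring
    have h3 : (m : ℝ) ≤ ((y + n : ℕ) : ℝ) := by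
      rw [hm]
      push_cast
      linarith
    exact_mod_cast h3
  · have hkT : k ≤ T := by
      rw [hT]
      exact Nat.le_floor hk2
    refine siv_sites (ρ := ρ) (z := z) (H := H) (T := T) (X := X) (c := c)
      (fun l hl hlρ => (hρa l hl).2 hlρ) hexp (by linarith) (by linarith) hXm
      (fun l hl => (s3 l hl).1) hclm ?_ h k h0 hh hk1 hkT q hq
    intro h' k' h0' hh' hk1' hkT' hcop' hsv'
    have hmem : (h', k') ∈ S := by
      rw [hS, mem_filter, mem_product, mem_Icc, mem_Icc]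
      exact ⟨⟨abs_le.1 hh', hk1', hkT'⟩, ⟨h0', hsv'⟩, hcop'⟩
    obtain ⟨l, hl, hld⟩ := hx3 ⟨(h', k'), hmem⟩
    obtain ⟨p1, -, -, p4⟩ := mem_PLe hl
    exact ⟨l, p1, p4, hld⟩

/-- **The theorem.** -/
theorem fgv (hS : S_SIV) : S_FGV := by
  obtain ⟨δ, hδ, hδ1, n₀, h⟩ := hS
  refine ⟨δ / 2, by positivity, max n₀ 1, fun x hx a ha H hH hHρ y hy => ?_⟩
  have hx0 : n₀ ≤ x := (le_max_left _ _).trans hx
  have hx1 : 1 ≤ x := (le_max_right _ _).trans hx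
  have hL0 : 0 ≤ Real.log x := Real.log_nonneg (by exact_mod_cast hx1)
  have hHρ' : (H : ℝ) * ((∏ p ∈ a.natAbs.primeFactors, p : ℕ) : ℝ) ≤ δ * Real.log x := by
    refine hHρ.trans ?_
    apply mul_le_mul_of_nonneg_right _ hL0
    linarith
  have hy2 : 2 * (H * a.natAbs) ≤ y := by
    rw [← mul_assoc]
    exact hy
  obtain ⟨m, m1, m2, m3, m4⟩ := h x hx0 a ha H hH hHρ' y (by omega)
  refine ⟨m, m1, m2, fun i hi hiH => ⟨(m4 i hi hiH).1, fun q hq hqm hqi => ?_⟩⟩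
  have hmul := fgh_mul (a := a) hiH
  obtain ⟨k, hk1, hqk⟩ := fgd_k (lt_of_le_of_lt hmul m3) hqm hqi
  have hsize := fgh_size (a := i * a) (m := m) (by omega) hk1 hqk
  have hkT : δ * (Real.log x + RR x / H) < k := by
    by_contra hcon
    push Not at hcon
    exact (m4 i hi hiH).2 k hk1 hcon q hq hqk
  have hm0 : (0 : ℝ) < m := by
    have : 0 < m := by omega
    exact_mod_cast this
  have e1 : δ / 2 * (m * (Real.log x + Real.log x * Real.log (Real.log x) ^ 2 *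
      Real.log (Real.log (Real.log (Real.log x))) /
        (Real.log (Real.log (Real.log x))) ^ 2 / H)) =
      (δ * (Real.log x + RR x / H)) * m / 2 := by
    unfold RR
    ring
  rw [e1]
  have e2 : (δ * (Real.log x + RR x / H)) * m < k * m := mul_lt_mul_of_pos_right hkT hm0
  linarith

end

end Pool.Agent.FXC
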