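import Mathlib
import Pool.Agent.FXC.St
import Pool.Agent.FXC.J0B
import Pool.Agent.UNI.B4

set_option autoImplicit false

/-!
# FXC, module SVD: the covering with nonzero classes
-/

namespace Pool.Agent.FXC

open Finset Filter BlockSieve Pool.Agent.UNI

noncomputable section

lemma svd_factor {l : ℕ} (hl : l.Prime) :
    0 ≤ 1 - 1 / ((l : ℝ) - 1) ∧ 1 - 1 / ((l : ℝ) - 1) ≤ 1 - (1 : ℝ) / l ∧
      (1 - (1 : ℝ) / l) * ((l : ℝ) / ((l : ℝ) - 1)) = 1 ∧ 0 < 1 - (1 : ℝ) / l := by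
  have h2 : (2 : ℝ) ≤ l := by exact_mod_cast hl.two_le
  have h1 : (0 : ℝ) < (l : ℝ) - 1 := by linarith
  have h0 : (0 : ℝ) < l := by linarith
  refine ⟨?_, ?_, ?_, ?_⟩
  · rw [sub_nonneg, div_le_one h1]
    linarith
  · have h3 : (1 : ℝ) / l ≤ 1 / ((l : ℝ) - 1) := one_div_le_one_div_of_le h1 (by linarith)
    linarith
  · field_simp
  · rw [sub_pos, div_lt_one h0]
    linarith

lemma svd_prod (Q : Finset ℕ) (hQ : ∀ l ∈ Q, l.Prime) (k : ℕ) :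
    ∏ l ∈ Q.filter (fun l => ¬ l ∣ k), (1 - 1 / ((l : ℝ) - 1)) ≤
      (∏ l ∈ Q, (1 - (1 : ℝ) / l)) * ∏ l ∈ Q.filter (fun l => l ∣ k), ((l : ℝ) / ((l : ℝ) - 1)) := by
  have h1 : ∏ l ∈ Q.filter (fun l => ¬ l ∣ k), (1 - 1 / ((l : ℝ) - 1)) ≤
      ∏ l ∈ Q.filter (fun l => ¬ l ∣ k), (1 - (1 : ℝ) / l) := by
    apply Finset.prod_le_prod
    · intro l hl
      exact (svd_factor (hQ l (mem_filter.1 hl).1)).1
    · intro l hl
      exact (svd_factor (hQ l (mem_filter.1 hl).1)).2.1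
  refine h1.trans (le_of_eq ?_)
  have h2 : (∏ l ∈ Q.filter (fun l => l ∣ k), (1 - (1 : ℝ) / l)) *
      ∏ l ∈ Q.filter (fun l => l ∣ k), ((l : ℝ) / ((l : ℝ) - 1)) = 1 := by
    rw [← Finset.prod_mul_distrib]
    apply Finset.prod_eq_one
    intro l hl
    exact (svd_factor (hQ l (mem_filter.1 hl).1)).2.2.1
  rw [← Finset.prod_filter_mul_prod_filter_not Q (fun l => l ∣ k) (fun l : ℕ => 1 - (1 : ℝ) / l)]
  rw [mul_right_comm, h2, one_mul]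

/-- The choice of the classes, for a given shift `t`. -/
lemma svd_choice (hG : S_GRU) {y z T H t M : ℕ} (ht1 : 1 ≤ t) (htH : t ≤ H) (hHz : H ≤ z)
    (hzy : z ≤ y) : ∃ κ : ℕ → ℕ, (∀ l ∈ pr y, ¬ l ∣ M → ¬ l ∣ κ l) ∧
    (((Icc 1 T).filter (fun k => ∀ l ∈ pr y, ¬ l ∣ M → ¬ k ≡ κ l [MOD l])).card : ℝ) ≤
      H + (∏ l ∈ (pr z).filter (fun l => ¬ l ∣ M), (1 - (1 : ℝ) / l)) *
        ∑ j ∈ (Icc 1 T).filter (fun k => ∀ l ∈ (pr y \ pr z).filter (fun l => ¬ l ∣ M), ¬ l ∣ k),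
          ∏ l ∈ ((pr z).filter (fun l => ¬ l ∣ M)).filter (fun l => l ∣ j + t),
            ((l : ℝ) / ((l : ℝ) - 1)) := by
  classical
  obtain ⟨J₀, hJ₀⟩ : ∃ J₀, J₀ =
    (Icc 1 T).filter (fun k => ∀ l ∈ (pr y \ pr z).filter (fun l => ¬ l ∣ M), ¬ l ∣ k) := ⟨_, rfl⟩
  obtain ⟨Q, hQdef⟩ : ∃ Q, Q = (pr z).filter (fun l => ¬ l ∣ M) := ⟨_, rfl⟩
  rw [← hJ₀, ← hQdef]
  have hQ : ∀ l ∈ Q, l.Prime := by
    intro l hl
    rw [hQdef, mem_filter, mem_pr] at hl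
    exact hl.1.1
  obtain ⟨S₁, hS₁⟩ : ∃ S₁, S₁ = J₀.image (fun j => j + t) := ⟨_, rfl⟩
  obtain ⟨κ₂, hκ1, hκ2⟩ := hG S₁ Q hQ
  refine ⟨fun l => if l ∈ pr z then κ₂ l else t, ?_, ?_⟩
  · intro l hl hlM
    show ¬ l ∣ (if l ∈ pr z then κ₂ l else t)
    by_cases hz : l ∈ pr z
    · rw [if_pos hz]
      exact hκ1 l (by rw [hQdef, mem_filter]; exact ⟨hz, hlM⟩)
    · rw [if_neg hz]
      intro hd
      have h1 := Nat.le_of_dvd (by omega) hd
      apply hz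
      rw [mem_pr] at hl ⊢
      exact ⟨hl.1, by omega⟩
  · have hsub : (Icc 1 T).filter (fun k => ∀ l ∈ pr y, ¬ l ∣ M →
        ¬ k ≡ (if l ∈ pr z then κ₂ l else t) [MOD l]) ⊆
        Icc 1 H ∪ S₁.filter (fun k => ∀ l ∈ Q, ¬ k ≡ κ₂ l [MOD l]) := by
      intro k hk
      rw [mem_filter, mem_Icc] at hk
      rw [mem_union]
      rcases le_or_gt k H with hkH | hkH
      · left
        rw [mem_Icc]
        exact ⟨hk.1.1, hkH⟩
      right
      rw [mem_filter]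
      refine ⟨?_, ?_⟩
      · rw [hS₁, mem_image]
        refine ⟨k - t, ?_, by omega⟩
        rw [hJ₀, mem_filter, mem_Icc]
        refine ⟨⟨by omega, by omega⟩, ?_⟩
        intro l hl hd
        rw [mem_filter, Finset.mem_sdiff] at hl
        have h1 := hk.2 l hl.1.1 hl.2
        rw [if_neg hl.1.2] at h1
        apply h1
        exact ((Nat.modEq_iff_dvd' (by omega)).2 hd).symm
      · intro l hl
        rw [hQdef, mem_filter] at hl
        have h0 : l ∈ pr y := by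
          rw [mem_pr] at hl ⊢
          exact ⟨hl.1.1, hl.1.2.trans hzy⟩
        have h1 := hk.2 l h0 hl.2
        rwa [if_pos hl.1] at h1
    have h1 : (((Icc 1 T).filter (fun k => ∀ l ∈ pr y, ¬ l ∣ M →
        ¬ k ≡ (if l ∈ pr z then κ₂ l else t) [MOD l])).card : ℝ) ≤
        H + ((S₁.filter (fun k => ∀ l ∈ Q, ¬ k ≡ κ₂ l [MOD l])).card : ℝ) := by
      have h2 := (Finset.card_le_card hsub).trans (Finset.card_union_le _ _)
      rw [Nat.card_Icc, Nat.add_sub_cancel] at h2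
      exact_mod_cast h2
    refine h1.trans ?_
    have h2 : ∑ k ∈ S₁, ∏ l ∈ Q.filter (fun l => ¬ l ∣ k), (1 - 1 / ((l : ℝ) - 1)) ≤
        (∏ l ∈ Q, (1 - (1 : ℝ) / l)) *
          ∑ j ∈ J₀, ∏ l ∈ Q.filter (fun l => l ∣ j + t), ((l : ℝ) / ((l : ℝ) - 1)) := by
      rw [hS₁, Finset.sum_image (fun a _ b _ h => by simpa using h), Finset.mul_sum]
      apply Finset.sum_le_sum
      intro j _
      exact svd_prod Q hQ (j + t)
    linarith

/-- The choice of the shift. -/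
lemma svd_shift {C : ℝ} {T H : ℕ} (hH1 : 1 ≤ H) (Q J : Finset ℕ)
    (hJ : ∀ j ∈ J, j ≤ T)
    (h : ∀ j : ℕ, j ≤ T → ∑ t ∈ Icc 1 H, ∏ l ∈ Q.filter (fun l => l ∣ j + t),
      ((l : ℝ) / ((l : ℝ) - 1)) ≤ C * (H : ℝ)) :
    ∃ t : ℕ, 1 ≤ t ∧ t ≤ H ∧ ∑ j ∈ J, ∏ l ∈ Q.filter (fun l => l ∣ j + t),
      ((l : ℝ) / ((l : ℝ) - 1)) ≤ C * J.card := by
  have h1 : ∑ t ∈ Icc 1 H, ∑ j ∈ J, ∏ l ∈ Q.filter (fun l => l ∣ j + t),
      ((l : ℝ) / ((l : ℝ) - 1)) ≤ ∑ t ∈ Icc 1 H, C * (J.card : ℝ) := by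
    rw [Finset.sum_comm]
    calc ∑ j ∈ J, ∑ t ∈ Icc 1 H, ∏ l ∈ Q.filter (fun l => l ∣ j + t),
          ((l : ℝ) / ((l : ℝ) - 1)) ≤ ∑ j ∈ J, C * (H : ℝ) :=
          Finset.sum_le_sum fun j hj => h j (hJ j hj)
      _ = ∑ t ∈ Icc 1 H, C * (J.card : ℝ) := by
          rw [Finset.sum_const, Finset.sum_const, nsmul_eq_mul, nsmul_eq_mul, Nat.card_Icc,
            Nat.add_sub_cancel]
          ring
  obtain ⟨t, ht, ht2⟩ := Finset.exists_le_of_sum_le ⟨1, by rw [mem_Icc]; omega⟩ h1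
  rw [mem_Icc] at ht
  exact ⟨t, ht.1, ht.2, ht2⟩

/-- Numerical facts on `w`. -/
lemma svd_num {L w v r δ : ℝ} (hδ : 0 < δ) (hL : 0 < L) (hw : w = Real.log L) (g1 : 3136 ≤ w)
    (hv : v = Real.log w) (g2 : 16 * v ≤ r) (hr : r * r = w) (hr56 : 56 ≤ r)
    (g5 : -Real.log δ ≤ v) : Real.exp r ≤ δ * L ∧ L * w ^ 2 + Real.exp r ≤ Real.exp (2 * w) := by
  have h4 : 56 * r ≤ r * r := mul_le_mul_of_nonneg_right hr56 (by linarith)
  have hw0 : 0 < w := by linarith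
  have hLe : L = Real.exp w := by rw [hw, Real.exp_log hL]
  have hwe : w ^ 2 = Real.exp (2 * v) := by
    rw [hv, two_mul, Real.exp_add, Real.exp_log hw0]
    ring
  constructor
  · rw [← Real.exp_log hδ, hLe, ← Real.exp_add]
    apply Real.exp_le_exp.2
    linarith
  · have e1 : L * w ^ 2 ≤ Real.exp (2 * w - 1) := by
      rw [hwe, hLe, ← Real.exp_add]
      apply Real.exp_le_exp.2
      linarith
    have e2 : Real.exp r ≤ Real.exp (2 * w - 1) := by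
      apply Real.exp_le_exp.2
      linarith
    have e3 : Real.exp (2 * w) = Real.exp 1 * Real.exp (2 * w - 1) := by
      rw [← Real.exp_add]
      ring_nf
    have e4 : (2 : ℝ) ≤ Real.exp 1 := by
      have := Real.add_one_le_exp (1 : ℝ)
      linarith
    have e5 : 2 * Real.exp (2 * w - 1) ≤ Real.exp 1 * Real.exp (2 * w - 1) :=
      mul_le_mul_of_nonneg_right e4 (Real.exp_pos _).le
    linarith

lemma svd_ax2 {Λ v w s : ℝ} (h0 : 0 < w) (h1 : Λ ≤ w) (h2 : 1 ≤ v) (h3 : v * w ≤ s * (w * w)) :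
    Λ ≤ w * w * s := by
  have h4 : 1 * w ≤ v * w := mul_le_mul_of_nonneg_right h2 h0.le
  linarith

/-- The product over the small primes. -/
lemma svd_mertens {z M : ℕ} {Λ : ℝ} (hM0 : 0 < M) (hΛ : Λ = Real.log z) (hΛ0 : 0 < Λ)
    (hz0 : (0 : ℝ) < z) :
    (∏ l ∈ (pr z).filter (fun l => ¬ l ∣ M), (1 - (1 : ℝ) / l)) * ((M.totient : ℝ) / M) ≤
      1 / Λ := by
  apply prod_coprime_le hM0 hΛ0
  have h1 := log_le_prod z
  rw [Finset.prod_inv_distrib] at h1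
  have h2 : 0 < ∏ p ∈ pr z, (1 - (1 : ℝ) / p) := Finset.prod_pos fun p hp => one_sub_pos hp
  rw [le_div_iff₀ hΛ0]
  have h3 : Λ ≤ (∏ p ∈ pr z, (1 - (1 : ℝ) / p))⁻¹ := by
    refine le_trans ?_ h1
    rw [hΛ]
    exact Real.log_le_log hz0 (by linarith)
  rw [mul_comm]
  calc Λ * ∏ p ∈ pr z, (1 - (1 : ℝ) / p) ≤
        (∏ p ∈ pr z, (1 - (1 : ℝ) / p))⁻¹ * ∏ p ∈ pr z, (1 - (1 : ℝ) / p) := by gcongr
    _ = 1 := inv_mul_cancel₀ h2.ne'

/-- The final count. -/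
lemma svd_count {H P Sg C K₀ J X s δ L Λ R c : ℝ} (hc : c ≤ H + P * Sg) (hS : Sg ≤ C * J)
    (hJ : J ≤ K₀ * (X * s)) (hX : X = δ * R * (L * Λ / s)) (hs : 0 < s) (hP : 0 ≤ P)
    (hPR : P * R ≤ 1 / Λ) (hΛ : 0 < Λ) (hδ : 0 < δ) (hL : 0 < L) (hH : H ≤ δ * L) (hC : 0 ≤ C)
    (hK : 0 ≤ K₀) : c ≤ (1 + C * K₀) * δ * L := by
  have h1 : P * Sg ≤ P * (C * (K₀ * (X * s))) :=
    mul_le_mul_of_nonneg_left (hS.trans (mul_le_mul_of_nonneg_left hJ hC)) hP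
  have h2 : P * (C * (K₀ * (X * s))) = C * K₀ * (δ * (L * Λ)) * (P * R) := by
    rw [hX]
    field_simp
  have h3 : C * K₀ * (δ * (L * Λ)) * (P * R) ≤ C * K₀ * (δ * (L * Λ)) * (1 / Λ) := by gcongr
  have h4 : C * K₀ * (δ * (L * Λ)) * (1 / Λ) = C * K₀ * δ * L := by
    field_simp
  have h5 : (1 + C * K₀) * δ * L = δ * L + C * K₀ * δ * L := by ring
  linarith

theorem svd (hA : S_AVG) (hG : S_GRU) (hJ0 : S_J0B) : S_SVD := by
  classical
  obtain ⟨C, hC1, w₀, hAvg⟩ := hA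
  obtain ⟨K₀, hK₀, hJ0'⟩ := hJ0
  have hCK : 0 ≤ C * K₀ := by positivity
  refine ⟨1 + C * K₀, by linarith, fun δ hδ hδ1 => ?_⟩
  obtain ⟨N₁, hN₁⟩ := hJ0' δ hδ hδ1
  have hev : ∀ᶠ N : ℕ in atTop, _ :=
    ((Real.tendsto_log_atTop.comp tendsto_log_nat).eventually (j0b_ev δ)).and
      ((Real.tendsto_log_atTop.comp tendsto_log_nat).eventually_ge_atTop w₀)
  obtain ⟨M₁, hM₁⟩ := eventually_atTop.1 hev
  refine ⟨max (max M₁ N₁) (10 ^ 16), fun N hN => ?_⟩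
  obtain ⟨⟨g1, g2, g3, g4, g5⟩, g6⟩ :=
    hM₁ N ((le_max_left _ _).trans ((le_max_left _ _).trans hN))
  have hJN := hN₁ N ((le_max_right _ _).trans ((le_max_left _ _).trans hN))
  have hM1 : 10 ^ 16 ≤ N := (le_max_right _ _).trans hN
  have hM1' : 1 ≤ N := le_trans (by norm_num) hM1
  clear hM1
  simp only [Function.comp] at g1 g2 g3 g4 g5 g6
  obtain ⟨L, hL⟩ : ∃ L, L = Real.log (N : ℝ) := ⟨_, rfl⟩
  obtain ⟨w, hw⟩ : ∃ w, w = Real.log L := ⟨_, rfl⟩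
  obtain ⟨v, hv⟩ : ∃ v, v = Real.log w := ⟨_, rfl⟩
  obtain ⟨y, hy⟩ : ∃ y, y = yM 8 N := ⟨_, rfl⟩
  rw [← hL, ← hw] at g1 g2 g3 g4 g5 g6
  rw [← hv] at g2 g3 g4 g5
  rw [← hy, ← hL, ← hw, ← hv] at hJN ⊢
  have hw60 : 60 ≤ w := by linarith
  have hw0 : 0 < w := by linarith
  have hv0 : 0 < v := by linarith
  have hL0 : 0 ≤ L := by
    rw [hL]
    exact Real.log_nonneg (by exact_mod_cast hM1')
  have hLpos : 0 < L := by
    rcases hL0.lt_or_eq with h | h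
    · exact h
    · exfalso
      rw [← h, Real.log_zero] at hw
      linarith
  have hwL : w ≤ L - 1 := by
    rw [hw]
    exact Real.log_le_sub_one_of_pos hLpos
  have hsw : 0 < Real.sqrt w := Real.sqrt_pos.2 hw0
  have hssw : Real.sqrt w * Real.sqrt w = w := Real.mul_self_sqrt hw0.le
  have hs56 : 56 ≤ Real.sqrt w := Real.le_sqrt_of_sq_le (by linarith)
  have h5v := (j0b_ax1 g2 hssw hs56).1
  have h2v : 2 * v ≤ w := by linarith
  have hy' : y = ⌊L / (3 * (13 : ℝ))⌋₊ := by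
    rw [hy, yM, hL]
    norm_num
  obtain ⟨hy2, hy3, hlogy1, hlogy2⟩ :=
    y_facts (by norm_num) hLpos hw hv (by linarith) (by linarith) h2v hy'
  have hyle : (y : ℝ) ≤ L / 39 := by
    rw [hy']
    refine (Nat.floor_le (by positivity)).trans (le_of_eq ?_)
    norm_num
  obtain ⟨hn1, hn2⟩ := svd_num hδ hLpos hw g1 hv g2 hssw hs56 g5
  refine ⟨hw60, hyle, ?_⟩
  intro M hMpos z hz1 hzy s hs1 hvs hor
  have hM0 : 0 < M := hMpos
  obtain ⟨Λ, hΛ⟩ : ∃ Λ : ℝ, Λ = Real.log z := ⟨_, rfl⟩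
  have hJM := hJN M hMpos z hz1 hzy
  rw [← hΛ] at hz1 hor hJM ⊢
  have hΛ0 : 0 < Λ := by linarith
  have hs0 : 0 < s := lt_of_lt_of_le (by positivity) hvs
  have hz0 : (0 : ℝ) < z := by
    rcases Nat.eq_zero_or_pos z with h | h
    · rw [h, Nat.cast_zero, Real.log_zero] at hΛ
      linarith
    · exact_mod_cast h
  have hΛw : Λ ≤ w := by
    rw [hΛ]
    refine le_trans ?_ hlogy1
    exact Real.log_le_log hz0 (by exact_mod_cast hzy)
  obtain ⟨R, hRdef⟩ : ∃ R, R = (M.totient : ℝ) / M := ⟨_, rfl⟩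
  have hR1 : R ≤ 1 := by
    rw [hRdef, div_le_one (by exact_mod_cast hM0)]
    exact_mod_cast Nat.totient_le M
  have hR0 : 0 < R := by
    rw [hRdef]
    have h1 : (0 : ℝ) < M.totient := by exact_mod_cast Nat.totient_pos.2 hM0
    have h2 : (0 : ℝ) < M := by exact_mod_cast hM0
    positivity
  obtain ⟨X, hX⟩ : ∃ X, X = δ * R * (L * Λ / s) := ⟨_, rfl⟩
  rw [← hRdef, ← hX]
  have hX0 : 0 ≤ X := by rw [hX]; positivity
  -- the size of `X`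
  have hΛs : Λ / s ≤ w * w := by
    rw [div_le_iff₀ hs0]
    have h1 : v / w * (w * w) ≤ s * (w * w) := mul_le_mul_of_nonneg_right hvs (by positivity)
    have h2 : v / w * (w * w) = v * w := by field_simp
    rw [h2] at h1
    exact svd_ax2 hw0 hΛw (by linarith) h1
  have hXle : X ≤ L * w ^ 2 := by
    rw [hX]
    calc δ * R * (L * Λ / s) = (δ * R) * (L * (Λ / s)) := by ring
      _ ≤ (1 * 1) * (L * (w * w)) := by gcongr
      _ = _ := by ring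
  obtain ⟨T, hT⟩ : ∃ T : ℕ, T = ⌊X⌋₊ := ⟨_, rfl⟩
  have hTX : (T : ℝ) ≤ X := by rw [hT]; exact Nat.floor_le hX0
  rw [← hT]
  have hTL : (T : ℝ) ≤ L * w ^ 2 := hTX.trans hXle
  refine ⟨hTL, ?_⟩
  have hK1 : 1 ≤ 1 + C * K₀ := by linarith
  have hδL : 0 < δ * L := by positivity
  -- trivial case
  rcases le_or_gt (T : ℝ) (δ * L) with hTδ | hTδ
  · refine ⟨fun _ => 1, ?_, ?_⟩
    · intro l hl _ hd
      rw [mem_pr] at hl
      exact hl.1.one_lt.ne' (Nat.dvd_one.1 hd)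
    · have h1 : (((Icc 1 T).filter (fun k => ∀ l ∈ pr y, ¬ l ∣ M →
          ¬ k ≡ 1 [MOD l])).card : ℝ) ≤ T := by
        have h4 := Finset.card_filter_le (Icc 1 T) (fun k => ∀ l ∈ pr y, ¬ l ∣ M →
          ¬ k ≡ 1 [MOD l])
        rw [Nat.card_Icc, Nat.add_sub_cancel] at h4
        exact_mod_cast h4
      have h2 := le_mul_of_one_le_left hδL.le hK1
      calc (((Icc 1 T).filter (fun k => ∀ l ∈ pr y, ¬ l ∣ M →
          ¬ k ≡ 1 [MOD l])).card : ℝ) ≤ (1 + C * K₀) * (δ * L) := by linarith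
        _ = _ := by ring
  -- the parameters of the shift
  obtain ⟨H, hH⟩ : ∃ H : ℕ, H = ⌊Real.exp (Real.sqrt w)⌋₊ := ⟨_, rfl⟩
  have hHle : (H : ℝ) ≤ Real.exp (Real.sqrt w) := by rw [hH]; exact Nat.floor_le (Real.exp_pos _).le
  have hH1 : 1 ≤ H := by
    rw [hH]
    apply Nat.le_floor
    rw [Nat.cast_one]
    exact Real.one_le_exp hsw.le
  have hHz : H ≤ z := by
    have h1 : Real.exp (Real.sqrt w) ≤ z := by
      rw [← Real.exp_log hz0, ← hΛ]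
      exact Real.exp_le_exp.2 hz1
    exact_mod_cast hHle.trans h1
  obtain ⟨J₀, hJ₀⟩ : ∃ J₀, J₀ =
    (Icc 1 T).filter (fun k => ∀ l ∈ (pr y \ pr z).filter (fun l => ¬ l ∣ M), ¬ l ∣ k) := ⟨_, rfl⟩
  obtain ⟨Q, hQdef⟩ : ∃ Q, Q = (pr z).filter (fun l => ¬ l ∣ M) := ⟨_, rfl⟩
  have hQ : ∀ l ∈ Q, l.Prime := by
    intro l hl
    rw [hQdef, mem_filter, mem_pr] at hl
    exact hl.1.1
  have hJT : ∀ j ∈ J₀, j ≤ T := by
    intro j hj
    rw [hJ₀, mem_filter, mem_Icc] at hj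
    exact hj.1.2
  obtain ⟨t, ht1, htH, hsum⟩ := svd_shift (C := C) hH1 Q J₀ hJT (by
    intro j hj
    have h1 := hAvg w g6 Q hQ j (by
      have h2 : (j : ℝ) ≤ T := by exact_mod_cast hj
      linarith)
    rw [← hH] at h1
    exact h1)
  obtain ⟨κ, hκ1, hκ2⟩ := svd_choice hG (T := T) (M := M) ht1 htH hHz hzy
  rw [← hJ₀, ← hQdef] at hκ2
  refine ⟨κ, hκ1, ?_⟩
  have hJle : (J₀.card : ℝ) ≤ K₀ * (X * s) := by
    rcases hor with hs | hs
    · rw [hs, mul_one]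
      have h1 : J₀.card ≤ T := by
        rw [hJ₀]
        refine (Finset.card_filter_le _ _).trans ?_
        rw [Nat.card_Icc]
        omega
      have h2 : (J₀.card : ℝ) ≤ T := by exact_mod_cast h1
      calc (J₀.card : ℝ) ≤ X := h2.trans hTX
        _ ≤ K₀ * X := le_mul_of_one_le_left hX0 hK₀
    · have h1 := hJM T hTδ hTL
      rw [← hJ₀] at h1
      refine h1.trans (mul_le_mul_of_nonneg_left ?_ (by linarith))
      apply mul_le_mul hTX hs ?_ hX0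
      have h2 : 0 ≤ SG M z y := by
        unfold SG
        exact Finset.sum_nonneg fun p _ => by positivity
      have h3 : 0 ≤ v / w := by positivity
      have h4 := Real.exp_pos (2 * (w / Λ) - w / Λ * Real.log (w / Λ))
      linarith
  have hPR := svd_mertens hM0 hΛ hΛ0 hz0
  rw [← hQdef, ← hRdef] at hPR
  have hP0 : 0 ≤ ∏ l ∈ Q, (1 - (1 : ℝ) / l) :=
    Finset.prod_nonneg fun p hp => (svd_factor (hQ p hp)).2.2.2.le
  exact svd_count hκ2 hsum hJle hX hs0 hP0 hPR hΛ0 hδ hLpos (hHle.trans hn1) (by linarith)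
    (by linarith)

end

end Pool.Agent.FXC
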