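import Mathlib
import Pool.Agent.FXC.StH
import Pool.Agent.FXC.SVD

set_option autoImplicit false

/-!
# FXC, module SVH, part a: lemmas
-/

namespace Pool.Agent.FXC

open Finset Filter BlockSieve Pool.Agent.UNI

noncomputable section

lemma svh_one_le {l : ℕ} (hl : l.Prime) : (1 : ℝ) ≤ (l : ℝ) / ((l : ℝ) - 1) := by
  have h2 : (2 : ℝ) ≤ l := by exact_mod_cast hl.two_le
  rw [le_div_iff₀ (by linarith)]
  linarith

lemma svh_gI_nonneg {P : Finset ℕ} (hP : ∀ l ∈ P, l.Prime) (n : ℤ) : 0 ≤ gI P n := by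
  unfold gI
  apply Finset.prod_nonneg
  intro l hl
  have := svh_one_le (hP l (mem_filter.1 hl).1)
  linarith

lemma svh_gI_neg (P : Finset ℕ) (n : ℤ) : gI P (-n) = gI P n := by
  unfold gI
  congr 1
  apply Finset.filter_congr
  intro l _
  exact dvd_neg

lemma svh_prod (Q : Finset ℕ) (hQ : ∀ l ∈ Q, l.Prime) (h : ℤ) (k : ℕ) :
    ∏ l ∈ Q.filter (fun l : ℕ => ¬ (l : ℤ) ∣ h ∧ ¬ l ∣ k), (1 - 1 / ((l : ℝ) - 1)) ≤
      (∏ l ∈ Q, (1 - (1 : ℝ) / l)) * (gI Q h * gI Q (k : ℤ)) := by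
  classical
  obtain ⟨A, hA⟩ : ∃ A, A = Q.filter (fun l : ℕ => (l : ℤ) ∣ h) := ⟨_, rfl⟩
  obtain ⟨B, hB⟩ : ∃ B, B = Q.filter (fun l : ℕ => (l : ℤ) ∣ (k : ℤ)) := ⟨_, rfl⟩
  have hsplit : Q.filter (fun l : ℕ => (l : ℤ) ∣ h ∨ l ∣ k) = A ∪ B := by
    rw [hA, hB, ← Finset.filter_or]
    apply Finset.filter_congr
    intro l _
    rw [Int.natCast_dvd_natCast]
  have hneg : Q.filter (fun l : ℕ => ¬ (l : ℤ) ∣ h ∧ ¬ l ∣ k) =
      Q.filter (fun l : ℕ => ¬ ((l : ℤ) ∣ h ∨ l ∣ k)) := by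
    apply Finset.filter_congr
    intro l _
    rw [not_or]
  have hAB : ∀ l ∈ A ∪ B, l.Prime := by
    intro l hl
    rw [← hsplit] at hl
    exact hQ l (mem_filter.1 hl).1
  have hAp : ∀ l ∈ A, l.Prime := fun l hl => hAB l (mem_union_left _ hl)
  have hBp : ∀ l ∈ B, l.Prime := fun l hl => hAB l (mem_union_right _ hl)
  have h1 : ∏ l ∈ Q.filter (fun l : ℕ => ¬ ((l : ℤ) ∣ h ∨ l ∣ k)), (1 - 1 / ((l : ℝ) - 1)) ≤
      ∏ l ∈ Q.filter (fun l : ℕ => ¬ ((l : ℤ) ∣ h ∨ l ∣ k)), (1 - (1 : ℝ) / l) := by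
    apply Finset.prod_le_prod
    · intro l hl
      exact (svd_factor (hQ l (mem_filter.1 hl).1)).1
    · intro l hl
      exact (svd_factor (hQ l (mem_filter.1 hl).1)).2.1
  have h2 : (∏ l ∈ A ∪ B, (1 - (1 : ℝ) / l)) * ∏ l ∈ A ∪ B, ((l : ℝ) / ((l : ℝ) - 1)) = 1 := by
    rw [← Finset.prod_mul_distrib]
    apply Finset.prod_eq_one
    intro l hl
    exact (svd_factor (hAB l hl)).2.2.1
  have h3 : ∏ l ∈ A ∪ B, ((l : ℝ) / ((l : ℝ) - 1)) ≤ gI Q h * gI Q (k : ℤ) := by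
    have e1 : gI Q h * gI Q (k : ℤ) = (∏ l ∈ A ∪ B, ((l : ℝ) / ((l : ℝ) - 1))) *
        ∏ l ∈ A ∩ B, ((l : ℝ) / ((l : ℝ) - 1)) := by
      rw [Finset.prod_union_inter]
      unfold gI
      rw [← hA, ← hB]
    rw [e1]
    have e2 : 1 ≤ ∏ l ∈ A ∩ B, ((l : ℝ) / ((l : ℝ) - 1)) := by
      calc (1 : ℝ) = ∏ l ∈ A ∩ B, (1 : ℝ) := by rw [Finset.prod_const_one]
        _ ≤ _ := Finset.prod_le_prod (fun _ _ => zero_le_one)
          (fun l hl => svh_one_le (hAp l (mem_inter.1 hl).1))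
    have e3 : 0 ≤ ∏ l ∈ A ∪ B, ((l : ℝ) / ((l : ℝ) - 1)) := by
      apply Finset.prod_nonneg
      intro l hl
      have := svh_one_le (hAB l hl)
      linarith
    exact le_mul_of_one_le_right e3 e2
  have h4 : 0 ≤ ∏ l ∈ Q, (1 - (1 : ℝ) / l) :=
    Finset.prod_nonneg fun l hl => (svd_factor (hQ l hl)).2.2.2.le
  rw [hneg]
  refine h1.trans ?_
  calc ∏ l ∈ Q.filter (fun l : ℕ => ¬ ((l : ℤ) ∣ h ∨ l ∣ k)), (1 - (1 : ℝ) / l) =
        (∏ l ∈ Q, (1 - (1 : ℝ) / l)) * ∏ l ∈ A ∪ B, ((l : ℝ) / ((l : ℝ) - 1)) := by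
        rw [← Finset.prod_filter_mul_prod_filter_not Q (fun l : ℕ => (l : ℤ) ∣ h ∨ l ∣ k)
          (fun l : ℕ => 1 - (1 : ℝ) / l), hsplit, mul_right_comm, h2, one_mul]
    _ ≤ _ := mul_le_mul_of_nonneg_left h3 h4

/-- The nonzero multiples. -/
def HH (H : ℕ) : Finset ℤ := (Icc (-(H : ℤ)) H).filter (fun h => h ≠ 0)

lemma svh_mem_HH {H : ℕ} {h : ℤ} : h ∈ HH H ↔ h ≠ 0 ∧ |h| ≤ H := by
  unfold HH
  rw [mem_filter, mem_Icc, abs_le]
  constructor
  · rintro ⟨h1, h2⟩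
    exact ⟨h2, h1⟩
  · rintro ⟨h1, h2⟩
    exact ⟨h2, h1⟩

lemma svh_sum_HH (hM : S_SMH) (P : Finset ℕ) (hP : ∀ l ∈ P, l.Prime) (H : ℕ) :
    ∑ h ∈ HH H, gI P h ≤ 8 * (H : ℝ) := by
  classical
  have h1 := hM P hP H
  have hsub : HH H ⊆ (Icc 1 H).image (fun h : ℕ => (h : ℤ)) ∪
      (Icc 1 H).image (fun h : ℕ => -(h : ℤ)) := by
    intro h hh
    rw [svh_mem_HH, abs_le] at hh
    rw [mem_union, mem_image, mem_image]
    rcases le_total 0 h with h0 | h0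
    · left
      refine ⟨h.toNat, ?_, by omega⟩
      rw [mem_Icc]
      omega
    · right
      refine ⟨(-h).toNat, ?_, by omega⟩
      rw [mem_Icc]
      omega
  have h2 : ∑ h ∈ (Icc 1 H).image (fun h : ℕ => (h : ℤ)), gI P h =
      ∑ h ∈ Icc 1 H, gI P (h : ℤ) := by
    rw [Finset.sum_image]
    intro a _ b _ hab
    have hab' : (a : ℤ) = (b : ℤ) := hab
    exact_mod_cast hab'
  have h3 : ∑ h ∈ (Icc 1 H).image (fun h : ℕ => -(h : ℤ)), gI P h =
      ∑ h ∈ Icc 1 H, gI P (h : ℤ) := by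
    rw [Finset.sum_image]
    · apply Finset.sum_congr rfl
      intro h _
      exact svh_gI_neg P h
    · intro a _ b _ hab
      have : (a : ℤ) = b := by
        have h4 : -(a : ℤ) = -(b : ℤ) := hab
        omega
      exact_mod_cast this
  have h4 : ∑ h ∈ HH H, gI P h ≤ ∑ h ∈ (Icc 1 H).image (fun h : ℕ => (h : ℤ)) ∪
      (Icc 1 H).image (fun h : ℕ => -(h : ℤ)), gI P h :=
    Finset.sum_le_sum_of_subset_of_nonneg hsub (fun h _ _ => svh_gI_nonneg hP h)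
  have h5 : ∑ h ∈ (Icc 1 H).image (fun h : ℕ => (h : ℤ)) ∪
      (Icc 1 H).image (fun h : ℕ => -(h : ℤ)), gI P h ≤
      ∑ h ∈ (Icc 1 H).image (fun h : ℕ => (h : ℤ)), gI P h +
      ∑ h ∈ (Icc 1 H).image (fun h : ℕ => -(h : ℤ)), gI P h := by
    rw [← Finset.sum_union_inter]
    have : 0 ≤ ∑ h ∈ (Icc 1 H).image (fun h : ℕ => (h : ℤ)) ∩
      (Icc 1 H).image (fun h : ℕ => -(h : ℤ)), gI P h :=
      Finset.sum_nonneg (fun h _ => svh_gI_nonneg hP h)
    linarith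
  rw [h2, h3] at h5
  linarith

/-- The number of the pairs with `k ≤ D`. -/
lemma svh_small_card (H T D : ℕ) (hH : 1 ≤ H) :
    (((PR H T).filter (fun p => p.2 ≤ D)).card : ℝ) ≤ 3 * H * D := by
  classical
  have hsub : (PR H T).filter (fun p => p.2 ≤ D) ⊆ (Icc (-(H : ℤ)) H) ×ˢ (Icc 1 D) := by
    intro p hp
    rw [mem_filter, PR, mem_filter, mem_product, mem_Icc, mem_Icc] at hp
    rw [mem_product, mem_Icc, mem_Icc]
    exact ⟨hp.1.1.1, hp.1.1.2.1, hp.2⟩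
  have h1 := Finset.card_le_card hsub
  rw [Finset.card_product, Int.card_Icc, Nat.card_Icc, Nat.add_sub_cancel] at h1
  have h2 : ((H : ℤ) + 1 - -(H : ℤ)).toNat = 2 * H + 1 := by omega
  rw [h2] at h1
  have h3 : (2 * H + 1) * D ≤ 3 * H * D := Nat.mul_le_mul_right D (by omega)
  exact_mod_cast h1.trans h3

lemma svh_PR_card (H T : ℕ) (hH : 1 ≤ H) : ((PR H T).card : ℝ) ≤ 3 * H * T := by
  have h1 := svh_small_card H T T hH
  have h2 : (PR H T).filter (fun p => p.2 ≤ T) = PR H T := by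
    apply Finset.filter_true_of_mem
    intro p hp
    rw [PR, mem_filter, mem_product, mem_Icc, mem_Icc] at hp
    exact hp.1.2.2
  rwa [h2] at h1

/-- The inverse of a shift modulo a prime. -/
lemma svh_inv (a : ℤ) {t l : ℕ} (hl : l.Prime) (ht : ¬ l ∣ t) :
    ∃ g : ℕ, (l : ℤ) ∣ a + t * (g : ℤ) := by
  have hc : IsCoprime (t : ℤ) (l : ℤ) := by
    rw [Nat.isCoprime_iff_coprime]
    exact ((Nat.Prime.coprime_iff_not_dvd hl).2 ht).symm
  obtain ⟨u, v, huv⟩ := hc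
  have hl0 : (0 : ℤ) < l := by exact_mod_cast hl.pos
  refine ⟨((-(a * u)) % (l : ℤ)).toNat, ?_⟩
  rw [Int.toNat_of_nonneg (Int.emod_nonneg _ hl0.ne')]
  have h1 := Int.emod_add_mul_ediv (-(a * u)) (l : ℤ)
  obtain ⟨e, he⟩ : ∃ e, e = (-(a * u)) % (l : ℤ) := ⟨_, rfl⟩
  obtain ⟨f, hf⟩ : ∃ f, f = (-(a * u)) / (l : ℤ) := ⟨_, rfl⟩
  rw [← he, ← hf] at h1
  rw [← he]
  refine ⟨a * v - t * f, ?_⟩
  have h2 : e = -(a * u) - l * f := by linarith
  rw [h2]
  linear_combination (-a) * huv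

/-- The middle primes. -/
lemma svh_mid {a h : ℤ} {t l g k : ℕ} (hl : l.Prime) (ht : ¬ l ∣ t)
    (hg : (l : ℤ) ∣ a + t * (g : ℤ)) (hd : (l : ℤ) ∣ (k : ℤ) - h * t) :
    (l : ℤ) ∣ h * a + (k : ℤ) * (g : ℤ) := by
  have hlp : Prime (l : ℤ) := Nat.prime_iff_prime_int.1 hl
  have h1 : (l : ℤ) ∣ (t : ℤ) * (h * a + (k : ℤ) * (g : ℤ)) := by
    have h2 : (t : ℤ) * (h * a + (k : ℤ) * (g : ℤ)) =
        (a + t * (g : ℤ)) * k - ((k : ℤ) - h * t) * a := by ring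
    rw [h2]
    exact dvd_sub (Dvd.dvd.mul_right hg _) (Dvd.dvd.mul_right hd _)
  rcases hlp.dvd_or_dvd h1 with h3 | h3
  · exact absurd (Int.natCast_dvd_natCast.1 h3) ht
  · exact h3

/-- Numerical facts. -/
lemma svh_num {L w v r δ : ℝ} (hδ : 0 < δ) (hL : 0 < L) (hw : w = Real.log L) (g1 : 3136 ≤ w)
    (hv : v = Real.log w) (g2 : 16 * v ≤ r) (hr : r * r = w) (hr56 : 56 ≤ r)
    (g5 : -Real.log δ ≤ v) :
    3 * w ^ 4 * Real.exp r ≤ δ * L ∧
    L / w ^ 4 + w ^ 2 * Real.exp r + 1 ≤ δ * L / w ^ 2 ∧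
    2 * (L * w ^ 2) + w ^ 2 * Real.exp r ≤ Real.exp (2 * w) := by
  have h4 : 56 * r ≤ r * r := mul_le_mul_of_nonneg_right hr56 (by linarith)
  have hw0 : 0 < w := by linarith
  have hLe : L = Real.exp w := by rw [hw, Real.exp_log hL]
  have hwe : ∀ k : ℕ, w ^ k = Real.exp (k * v) := by
    intro k
    rw [hv, ← Real.log_pow, Real.exp_log (by positivity)]
  have h3e : (3 : ℝ) ≤ Real.exp 2 := by
    have := Real.add_one_le_exp (2 : ℝ)
    linarith
  have hδe : Real.exp (-v) ≤ δ := by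
    rw [← Real.exp_log hδ]
    apply Real.exp_le_exp.2
    linarith
  have hδL : Real.exp (w - v) ≤ δ * L := by
    rw [hLe, sub_eq_add_neg, Real.exp_add, mul_comm]
    exact mul_le_mul_of_nonneg_right hδe (Real.exp_pos _).le
  refine ⟨?_, ?_, ?_⟩
  · refine le_trans ?_ hδL
    rw [hwe 4]
    calc 3 * Real.exp ((4 : ℕ) * v) * Real.exp r ≤
          Real.exp 2 * Real.exp ((4 : ℕ) * v) * Real.exp r := by gcongr
      _ = Real.exp (2 + (4 : ℕ) * v + r) := by rw [Real.exp_add, Real.exp_add]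
      _ ≤ Real.exp (w - v) := by
          apply Real.exp_le_exp.2
          push_cast
          linarith
  · have e0 : Real.exp (w - 3 * v) ≤ δ * L / w ^ 2 := by
      rw [hwe 2, le_div_iff₀ (Real.exp_pos _), ← Real.exp_add]
      refine le_trans (le_of_eq ?_) hδL
      congr 1
      push_cast
      ring
    refine le_trans ?_ e0
    have e1 : L / w ^ 4 ≤ Real.exp (w - 3 * v) / 3 := by
      rw [hwe 4, hLe, ← Real.exp_sub]
      have e2 : w - ((4 : ℕ) : ℝ) * v = (w - 3 * v) + -v := by push_cast; ring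
      rw [e2, Real.exp_add]
      have e3 : Real.exp (-v) ≤ 1 / 3 := by
        rw [Real.exp_neg, hv, Real.exp_log hw0, ← one_div]
        apply one_div_le_one_div_of_le (by norm_num)
        linarith
      calc Real.exp (w - 3 * v) * Real.exp (-v) ≤ Real.exp (w - 3 * v) * (1 / 3) :=
            mul_le_mul_of_nonneg_left e3 (Real.exp_pos _).le
        _ = _ := by ring
    have e4 : w ^ 2 * Real.exp r ≤ Real.exp (w - 3 * v) / 3 := by
      rw [hwe 2, ← Real.exp_add, le_div_iff₀ (by norm_num)]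
      calc Real.exp (((2 : ℕ) : ℝ) * v + r) * 3 ≤ Real.exp (((2 : ℕ) : ℝ) * v + r) * Real.exp 2 := by
            gcongr
        _ = Real.exp (((2 : ℕ) : ℝ) * v + r + 2) := by rw [Real.exp_add _ 2]
        _ ≤ Real.exp (w - 3 * v) := by
            apply Real.exp_le_exp.2
            push_cast
            linarith
    have e5 : 1 ≤ Real.exp (w - 3 * v) / 3 := by
      rw [le_div_iff₀ (by norm_num)]
      have := Real.add_one_le_exp (w - 3 * v)
      linarith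
    linarith
  · have e1 : w ^ 2 * Real.exp r ≤ L * w ^ 2 := by
      rw [mul_comm L]
      apply mul_le_mul_of_nonneg_left _ (by positivity)
      rw [hLe]
      apply Real.exp_le_exp.2
      linarith
    have e2 : 3 * (L * w ^ 2) ≤ Real.exp (2 * w) := by
      rw [hwe 2, hLe, ← Real.exp_add]
      calc 3 * Real.exp (w + ((2 : ℕ) : ℝ) * v) ≤ Real.exp 2 * Real.exp (w + ((2 : ℕ) : ℝ) * v) := by
            gcongr
        _ = Real.exp (2 + (w + ((2 : ℕ) : ℝ) * v)) := by rw [Real.exp_add 2]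
        _ ≤ Real.exp (2 * w) := by
            apply Real.exp_le_exp.2
            push_cast
            linarith
    linarith

end

end Pool.Agent.FXC
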