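import Mathlib
import Pool.Agent.FXC.StH
import Pool.Agent.FXC.SVHa

set_option autoImplicit false

/-!
# FXC, module SVH: the covering for the pairs
-/

namespace Pool.Agent.FXC

open Finset Filter BlockSieve Pool.Agent.UNI

noncomputable section

/-- The sum over the pairs (h, j). -/
def FS (Q : Finset ℕ) (H : ℕ) (J : Finset ℕ) (t : ℕ) : ℝ :=
  ∑ h ∈ HH H, gI Q h * ∑ j ∈ J,
    if IsCoprime (j : ℤ) h ∧ 0 < (j : ℤ) + h * (t : ℤ) then gI Q ((j : ℤ) + h * (t : ℤ)) else 0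

/-- Choice of the shift. -/
lemma svh_shift (hM : S_SMH) {C : ℝ} (hC : 0 ≤ C) {H H' : ℕ} (hH1 : 1 ≤ H') (Q J : Finset ℕ)
    (hQ : ∀ l ∈ Q, l.Prime)
    (h : ∀ j ∈ J, ∀ h ∈ HH H, IsCoprime (j : ℤ) h →
      ∑ t ∈ (Icc 1 H').filter (fun t : ℕ => 0 < (j : ℤ) + h * (t : ℤ)),
        gI Q ((j : ℤ) + h * (t : ℤ)) ≤ C * (H' : ℝ)) :
    ∃ t : ℕ, 1 ≤ t ∧ t ≤ H' ∧ FS Q H J t ≤ 8 * C * H * J.card := by
  classical
  have h1 : ∑ t ∈ Icc 1 H', FS Q H J t ≤ ∑ t ∈ Icc 1 H', (8 * C * H * (J.card : ℝ)) := by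
    calc ∑ t ∈ Icc 1 H', FS Q H J t =
          ∑ h ∈ HH H, gI Q h * ∑ j ∈ J, ∑ t ∈ Icc 1 H',
            (if IsCoprime (j : ℤ) h ∧ 0 < (j : ℤ) + h * (t : ℤ) then
              gI Q ((j : ℤ) + h * (t : ℤ)) else 0) := by
          unfold FS
          rw [Finset.sum_comm]
          apply Finset.sum_congr rfl
          intro h _
          rw [← Finset.mul_sum, Finset.sum_comm]
      _ ≤ ∑ h ∈ HH H, gI Q h * ∑ j ∈ J, C * (H' : ℝ) := by
          apply Finset.sum_le_sum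
          intro i hi
          apply mul_le_mul_of_nonneg_left _ (svh_gI_nonneg hQ i)
          apply Finset.sum_le_sum
          intro j hj
          by_cases hc : IsCoprime (j : ℤ) i
          · refine le_trans (le_of_eq ?_) (h j hj i hi hc)
            rw [Finset.sum_filter]
            apply Finset.sum_congr rfl
            intro t _
            simp only [hc, true_and]
          · have : ∀ t ∈ Icc 1 H', (if IsCoprime (j : ℤ) i ∧ 0 < (j : ℤ) + i * (t : ℤ) then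
                gI Q ((j : ℤ) + i * (t : ℤ)) else 0) = 0 := by
              intro t _
              rw [if_neg (fun hh => hc hh.1)]
            rw [Finset.sum_congr rfl this, Finset.sum_const_zero]
            positivity
      _ = (C * (H' : ℝ) * J.card) * ∑ h ∈ HH H, gI Q h := by
          rw [Finset.sum_const, nsmul_eq_mul, ← Finset.sum_mul]
          ring
      _ ≤ (C * (H' : ℝ) * J.card) * (8 * (H : ℝ)) :=
          mul_le_mul_of_nonneg_left (svh_sum_HH hM Q hQ H) (by positivity)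
      _ = ∑ t ∈ Icc 1 H', (8 * C * H * (J.card : ℝ)) := by
          rw [Finset.sum_const, nsmul_eq_mul, Nat.card_Icc, Nat.add_sub_cancel]
          ring
  obtain ⟨t, ht, ht2⟩ := Finset.exists_le_of_sum_le ⟨1, by rw [mem_Icc]; omega⟩ h1
  rw [mem_Icc] at ht
  exact ⟨t, ht.1, ht.2, ht2⟩

/-- The passage from the pairs (h, k) to the pairs (h, j). -/
lemma svh_map {Q : Finset ℕ} (hQ : ∀ l ∈ Q, l.Prime) {H H' T t D : ℕ} (J : Finset ℕ)
    (htH : t ≤ H') (hD : D = H * H') (S₁ : Finset (ℤ × ℕ)) (hS₁ : S₁ ⊆ PR H T)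
    (hD1 : ∀ p ∈ S₁, D < p.2)
    (hJ : ∀ p ∈ S₁, ∀ j : ℕ, 1 ≤ j → j ≤ T + D → (j : ℤ) = (p.2 : ℤ) - p.1 * t → j ∈ J) :
    ∑ p ∈ S₁, gI Q p.1 * gI Q (p.2 : ℤ) ≤ FS Q H J t := by
  classical
  have hmem : ∀ p ∈ S₁, p.1 ≠ 0 ∧ |p.1| ≤ H ∧ 1 ≤ p.2 ∧ p.2 ≤ T ∧ IsCoprime p.1 (p.2 : ℤ) := by
    intro p hp
    have h1 := hS₁ hp
    rw [PR, mem_filter, mem_product, mem_Icc, mem_Icc] at h1
    exact ⟨h1.2.1, abs_le.2 h1.1.1, h1.1.2.1, h1.1.2.2, h1.2.2⟩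
  have hht : ∀ p ∈ S₁, |p.1 * (t : ℤ)| ≤ D := by
    intro p hp
    rw [abs_mul, hD, Nat.abs_cast]
    push_cast
    have h1 := (hmem p hp).2.1
    have h2 : (t : ℤ) ≤ H' := by exact_mod_cast htH
    exact mul_le_mul h1 h2 (by positivity) (by positivity)
  rw [← Finset.sum_fiberwise_of_maps_to (s := S₁) (t := HH H) (g := fun p => p.1)
    (fun p hp => svh_mem_HH.2 ⟨(hmem p hp).1, (hmem p hp).2.1⟩)]
  unfold FS
  apply Finset.sum_le_sum
  intro h hh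
  have e1 : ∑ p ∈ S₁.filter (fun p => p.1 = h), gI Q p.1 * gI Q (p.2 : ℤ) =
      gI Q h * ∑ p ∈ S₁.filter (fun p => p.1 = h), gI Q (p.2 : ℤ) := by
    rw [Finset.mul_sum]
    apply Finset.sum_congr rfl
    intro p hp
    rw [(mem_filter.1 hp).2]
  rw [e1]
  apply mul_le_mul_of_nonneg_left _ (svh_gI_nonneg hQ h)
  obtain ⟨G, hG⟩ : ∃ G : ℕ → ℝ, G = fun j : ℕ => if IsCoprime (j : ℤ) h ∧ 0 < (j : ℤ) + h * (t : ℤ) then
      gI Q ((j : ℤ) + h * (t : ℤ)) else 0 := ⟨_, rfl⟩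
  have hG0 : ∀ j, 0 ≤ G j := by
    intro j
    rw [hG]
    show 0 ≤ (if IsCoprime (j : ℤ) h ∧ 0 < (j : ℤ) + h * (t : ℤ) then
      gI Q ((j : ℤ) + h * (t : ℤ)) else 0)
    split_ifs
    · exact svh_gI_nonneg hQ _
    · exact le_refl _
  have e2 : ∀ p ∈ S₁.filter (fun p => p.1 = h),
      0 < (p.2 : ℤ) - h * t ∧ (p.2 : ℤ) - h * t ≤ T + D := by
    intro p hp
    rw [mem_filter] at hp
    have h1 := hht p hp.1
    rw [hp.2, abs_le] at h1
    have h2 := hD1 p hp.1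
    have h3 := (hmem p hp.1).2.2.2.1
    constructor
    · have : (D : ℤ) < p.2 := by exact_mod_cast h2
      linarith [h1.2]
    · have : (p.2 : ℤ) ≤ T := by exact_mod_cast h3
      linarith [h1.1]
  have e3 : ∀ p ∈ S₁.filter (fun p => p.1 = h), gI Q (p.2 : ℤ) = G ((p.2 : ℤ) - h * t).toNat := by
    intro p hp
    have h0 := e2 p hp
    rw [mem_filter] at hp
    have h1 : ((((p.2 : ℤ) - h * t).toNat : ℕ) : ℤ) = (p.2 : ℤ) - h * t :=
      Int.toNat_of_nonneg h0.1.le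
    rw [hG]
    show _ = (if IsCoprime ((((p.2 : ℤ) - h * t).toNat : ℕ) : ℤ) h ∧
      0 < ((((p.2 : ℤ) - h * t).toNat : ℕ) : ℤ) + h * (t : ℤ) then
      gI Q (((((p.2 : ℤ) - h * t).toNat : ℕ) : ℤ) + h * (t : ℤ)) else 0)
    rw [h1, sub_add_cancel, if_pos]
    refine ⟨?_, ?_⟩
    · have h2 := (hmem p hp.1).2.2.2.2
      rw [hp.2] at h2
      have h3 : (p.2 : ℤ) - h * t = (p.2 : ℤ) + h * (-(t : ℤ)) := by ring
      rw [h3]
      exact (IsCoprime.add_mul_left_left h2.symm _)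
    · have h2 := (hmem p hp.1).2.2.1
      exact_mod_cast h2
  rw [Finset.sum_congr rfl e3]
  have e4 : ∑ p ∈ S₁.filter (fun p => p.1 = h), G ((p.2 : ℤ) - h * t).toNat =
      ∑ j ∈ (S₁.filter (fun p => p.1 = h)).image (fun p => ((p.2 : ℤ) - h * t).toNat), G j := by
    rw [Finset.sum_image]
    intro p hp q hq hpq
    have hp' : p ∈ S₁.filter (fun p => p.1 = h) := by simpa using hp
    have hq' : q ∈ S₁.filter (fun p => p.1 = h) := by simpa using hq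
    have h1 := e2 p hp'
    have h2 := e2 q hq'
    have h3 : ((p.2 : ℤ) - h * t).toNat = ((q.2 : ℤ) - h * t).toNat := hpq
    have h4 : (p.2 : ℤ) = q.2 := by omega
    have h5 : p.2 = q.2 := by exact_mod_cast h4
    exact Prod.ext ((mem_filter.1 hp').2.trans (mem_filter.1 hq').2.symm) h5
  rw [e4]
  have e5 : (S₁.filter (fun p => p.1 = h)).image (fun p => ((p.2 : ℤ) - h * t).toNat) ⊆ J := by
    intro j hj
    rw [mem_image] at hj
    obtain ⟨p, hp, rfl⟩ := hj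
    have h0 := e2 p hp
    rw [mem_filter] at hp
    refine hJ p hp.1 _ (by omega) (by omega) ?_
    rw [Int.toNat_of_nonneg h0.1.le, hp.2]
  refine (Finset.sum_le_sum_of_subset_of_nonneg e5 (fun j _ _ => hG0 j)).trans (le_of_eq ?_)
  rw [hG]

/-- The choice of the classes, for a given shift `t`. -/
lemma svh_choice (hG : S_GRH) {a : ℤ} {y z T H H' D t : ℕ} (ht1 : 1 ≤ t) (htH : t ≤ H')
    (hH : 1 ≤ H) (hHz : H' ≤ z) (hzy : z ≤ y) (hD : D = H * H') :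
    ∃ β : ℕ → ℕ, (∀ l ∈ pr y, ¬ l ∣ a.natAbs → ¬ l ∣ β l) ∧
    (((PR H T).filter (fun p => ∀ l ∈ pr y, ¬ l ∣ a.natAbs →
      ¬ (l : ℤ) ∣ p.1 * a + (p.2 : ℤ) * (β l : ℤ))).card : ℝ) ≤
      3 * H * D + (∏ l ∈ (pr z).filter (fun l => ¬ l ∣ a.natAbs), (1 - (1 : ℝ) / l)) *
        FS ((pr z).filter (fun l => ¬ l ∣ a.natAbs)) H
          ((Icc 1 (T + D)).filter
            (fun k => ∀ l ∈ (pr y \ pr z).filter (fun l => ¬ l ∣ a.natAbs), ¬ l ∣ k)) t := by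
  classical
  obtain ⟨J, hJ⟩ : ∃ J, J = (Icc 1 (T + D)).filter
    (fun k => ∀ l ∈ (pr y \ pr z).filter (fun l => ¬ l ∣ a.natAbs), ¬ l ∣ k) := ⟨_, rfl⟩
  obtain ⟨Q, hQdef⟩ : ∃ Q, Q = (pr z).filter (fun l => ¬ l ∣ a.natAbs) := ⟨_, rfl⟩
  rw [← hJ, ← hQdef]
  have hQ : ∀ l ∈ Q, l.Prime := by
    intro l hl
    rw [hQdef, mem_filter, mem_pr] at hl
    exact hl.1.1
  have hQa : ∀ l ∈ Q, ¬ (l : ℤ) ∣ a := by
    intro l hl hd
    rw [hQdef, mem_filter] at hl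
    exact hl.2 (Int.natCast_dvd.1 hd)
  obtain ⟨S₁, hS₁⟩ : ∃ S₁ : Finset (ℤ × ℕ), S₁ = (PR H T).filter (fun p => D < p.2 ∧
    ∀ l ∈ (pr y \ pr z).filter (fun l => ¬ l ∣ a.natAbs), ¬ (l : ℤ) ∣ (p.2 : ℤ) - p.1 * t) :=
    ⟨_, rfl⟩
  obtain ⟨β₂, hβ1, hβ2⟩ := hG a S₁ Q hQ hQa
  -- the classes for the middle primes
  have hγ : ∀ l : ℕ, ∃ g : ℕ, l ∈ pr y \ pr z → (l : ℤ) ∣ a + t * (g : ℤ) := by
    intro l
    by_cases hl : l ∈ pr y \ pr z
    · rw [Finset.mem_sdiff, mem_pr, mem_pr] at hl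
      have ht : ¬ l ∣ t := by
        intro hd
        have h1 := Nat.le_of_dvd (by omega) hd
        exact hl.2 ⟨hl.1.1, by omega⟩
      obtain ⟨g, hg⟩ := svh_inv a hl.1.1 ht
      exact ⟨g, fun _ => hg⟩
    · exact ⟨0, fun h => absurd h hl⟩
  choose γ hγ using hγ
  have htl : ∀ l ∈ pr y \ pr z, ¬ l ∣ t := by
    intro l hl hd
    rw [Finset.mem_sdiff, mem_pr, mem_pr] at hl
    have h1 := Nat.le_of_dvd (by omega) hd
    exact hl.2 ⟨hl.1.1, by omega⟩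
  refine ⟨fun l => if l ∈ pr z then β₂ l else γ l, ?_, ?_⟩
  · intro l hl hla
    show ¬ l ∣ (if l ∈ pr z then β₂ l else γ l)
    by_cases hz : l ∈ pr z
    · rw [if_pos hz]
      exact hβ1 l (by rw [hQdef, mem_filter]; exact ⟨hz, hla⟩)
    · rw [if_neg hz]
      intro hd
      have h1 := hγ l (Finset.mem_sdiff.2 ⟨hl, hz⟩)
      have h2 : (l : ℤ) ∣ (t : ℤ) * (γ l : ℤ) :=
        Dvd.dvd.mul_left (Int.natCast_dvd_natCast.2 hd) _
      have h3 := (dvd_add_left h2).1 h1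
      exact hla (Int.natCast_dvd.1 h3)
  · have hsub : (PR H T).filter (fun p => ∀ l ∈ pr y, ¬ l ∣ a.natAbs →
        ¬ (l : ℤ) ∣ p.1 * a + (p.2 : ℤ) * ((if l ∈ pr z then β₂ l else γ l : ℕ) : ℤ)) ⊆
        (PR H T).filter (fun p => p.2 ≤ D) ∪
          S₁.filter (fun p => ∀ l ∈ Q, ¬ (l : ℤ) ∣ p.1 * a + (p.2 : ℤ) * (β₂ l : ℤ)) := by
      intro p hp
      rw [mem_filter] at hp
      rw [mem_union]
      rcases le_or_gt p.2 D with hkD | hkD
      · left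
        exact mem_filter.2 ⟨hp.1, hkD⟩
      right
      rw [mem_filter, hS₁, mem_filter]
      refine ⟨⟨hp.1, hkD, ?_⟩, ?_⟩
      · intro l hl hd
        rw [mem_filter] at hl
        have hl' := Finset.mem_sdiff.1 hl.1
        have h1 := hp.2 l hl'.1 hl.2
        rw [if_neg hl'.2] at h1
        exact h1 (svh_mid (mem_pr.1 hl'.1).1 (htl l hl.1) (hγ l hl.1) hd)
      · intro l hl
        rw [hQdef, mem_filter] at hl
        have h0 : l ∈ pr y := by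
          rw [mem_pr] at hl ⊢
          exact ⟨hl.1.1, hl.1.2.trans hzy⟩
        have h1 := hp.2 l h0 hl.2
        rwa [if_pos hl.1] at h1
    have h1 : (((PR H T).filter (fun p => ∀ l ∈ pr y, ¬ l ∣ a.natAbs →
        ¬ (l : ℤ) ∣ p.1 * a + (p.2 : ℤ) * ((if l ∈ pr z then β₂ l else γ l : ℕ) : ℤ))).card : ℝ) ≤
        3 * H * D + ((S₁.filter (fun p => ∀ l ∈ Q,
          ¬ (l : ℤ) ∣ p.1 * a + (p.2 : ℤ) * (β₂ l : ℤ))).card : ℝ) := by
      have h2 := (Finset.card_le_card hsub).trans (Finset.card_union_le _ _)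
      have h3 := svh_small_card H T D hH
      have h4 : (((PR H T).filter (fun p => ∀ l ∈ pr y, ¬ l ∣ a.natAbs →
        ¬ (l : ℤ) ∣ p.1 * a + (p.2 : ℤ) * ((if l ∈ pr z then β₂ l else γ l : ℕ) : ℤ))).card : ℝ) ≤
        (((PR H T).filter (fun p => p.2 ≤ D)).card : ℝ) +
        ((S₁.filter (fun p => ∀ l ∈ Q,
          ¬ (l : ℤ) ∣ p.1 * a + (p.2 : ℤ) * (β₂ l : ℤ))).card : ℝ) := by exact_mod_cast h2
      linarith
    refine h1.trans ?_
    have h2 : ∑ p ∈ S₁, ∏ l ∈ Q.filter (fun l : ℕ => ¬ (l : ℤ) ∣ p.1 ∧ ¬ l ∣ p.2),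
        (1 - 1 / ((l : ℝ) - 1)) ≤ (∏ l ∈ Q, (1 - (1 : ℝ) / l)) * FS Q H J t := by
      have h3 : ∑ p ∈ S₁, gI Q p.1 * gI Q (p.2 : ℤ) ≤ FS Q H J t := by
        refine svh_map (T := T) hQ J htH hD S₁ ?_ ?_ ?_
        · rw [hS₁]
          exact Finset.filter_subset _ _
        · intro p hp
          rw [hS₁, mem_filter] at hp
          exact hp.2.1
        · intro p hp j hj1 hj2 hj3
          rw [hS₁, mem_filter] at hp
          rw [hJ, mem_filter, mem_Icc]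
          refine ⟨⟨hj1, hj2⟩, fun l hl hd => ?_⟩
          refine hp.2.2 l hl ?_
          rw [← hj3]
          exact Int.natCast_dvd_natCast.2 hd
      have h4 : 0 ≤ ∏ l ∈ Q, (1 - (1 : ℝ) / l) :=
        Finset.prod_nonneg fun l hl => (svd_factor (hQ l hl)).2.2.2.le
      calc ∑ p ∈ S₁, ∏ l ∈ Q.filter (fun l : ℕ => ¬ (l : ℤ) ∣ p.1 ∧ ¬ l ∣ p.2),
          (1 - 1 / ((l : ℝ) - 1)) ≤
          ∑ p ∈ S₁, (∏ l ∈ Q, (1 - (1 : ℝ) / l)) * (gI Q p.1 * gI Q (p.2 : ℤ)) :=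
            Finset.sum_le_sum fun p _ => svh_prod Q hQ p.1 p.2
        _ = (∏ l ∈ Q, (1 - (1 : ℝ) / l)) * ∑ p ∈ S₁, gI Q p.1 * gI Q (p.2 : ℤ) := by
            rw [Finset.mul_sum]
        _ ≤ _ := mul_le_mul_of_nonneg_left h3 h4
    linarith

/-- The final count. -/
lemma svh_count {P Sg C K₀ J X s δ L Λ R c H T E : ℝ} (hc : c ≤ E + P * Sg)
    (hS : Sg ≤ 8 * C * H * J) (hJ : J ≤ K₀ * (2 * T * s)) (hHT : H * T ≤ X)
    (hX : X = δ * R * (L * Λ / s)) (hs : 0 < s) (hP : 0 ≤ P) (hH : 0 ≤ H)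
    (hPR : P * R ≤ 1 / Λ) (hΛ : 0 < Λ) (hδ : 0 < δ) (hL : 0 < L) (hE : E ≤ δ * L) (hC : 0 ≤ C)
    (hK : 0 ≤ K₀) : c ≤ (3 + 16 * (C * K₀)) * δ * L := by
  have h1 : P * Sg ≤ P * (8 * C * H * (K₀ * (2 * T * s))) :=
    mul_le_mul_of_nonneg_left (hS.trans (mul_le_mul_of_nonneg_left hJ (by positivity))) hP
  have h2 : P * (8 * C * H * (K₀ * (2 * T * s))) = (16 * (C * K₀) * (P * s)) * (H * T) := by ring
  have h3 : (16 * (C * K₀) * (P * s)) * (H * T) ≤ (16 * (C * K₀) * (P * s)) * X :=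
    mul_le_mul_of_nonneg_left hHT (by positivity)
  have h4 : (16 * (C * K₀) * (P * s)) * X = 16 * (C * K₀) * (δ * (L * Λ)) * (P * R) := by
    rw [hX]
    field_simp
  have h5 : 16 * (C * K₀) * (δ * (L * Λ)) * (P * R) ≤ 16 * (C * K₀) * (δ * (L * Λ)) * (1 / Λ) :=
    mul_le_mul_of_nonneg_left hPR (by positivity)
  have h6 : 16 * (C * K₀) * (δ * (L * Λ)) * (1 / Λ) = 16 * (C * K₀) * δ * L := by
    field_simp
  have h7 : (3 + 16 * (C * K₀)) * δ * L = 3 * (δ * L) + 16 * (C * K₀) * δ * L := by ring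
  have h8 : 0 ≤ δ * L := by positivity
  linarith

theorem svh (hA : S_AVH) (hM : S_SMH) (hG : S_GRH) (hJ0 : S_J0H) : S_SVH := by
  classical
  obtain ⟨C, hC1, w₀, hAvg⟩ := hA
  obtain ⟨K₀, hK₀, N₁, hN₁⟩ := hJ0
  have hC0 : 0 ≤ C := by linarith
  have hCK : 0 ≤ C * K₀ := by positivity
  refine ⟨3 + 16 * (C * K₀), by linarith, fun δ hδ hδ1 => ?_⟩
  have hev : ∀ᶠ N : ℕ in atTop, _ :=
    ((Real.tendsto_log_atTop.comp tendsto_log_nat).eventually (j0b_ev δ)).and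
      ((Real.tendsto_log_atTop.comp tendsto_log_nat).eventually_ge_atTop w₀)
  obtain ⟨M₁, hM₁⟩ := eventually_atTop.1 hev
  refine ⟨max (max M₁ N₁) (10 ^ 16), fun N hN => ?_⟩
  obtain ⟨⟨g1, g2, g3, g4, g5⟩, g6⟩ :=
    hM₁ N ((le_max_left _ _).trans ((le_max_left _ _).trans hN))
  have hJN := hN₁ N ((le_max_right _ _).trans ((le_max_left _ _).trans hN))
  have hM1 : 10 ^ 16 ≤ N := (le_max_right _ _).trans hN
  have hM1' : 1 ≤ N := le_trans (by norm_num) hM1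
  clear hM1
  simp only [Function.comp] at g1 g2 g3 g4 g5 g6
  obtain ⟨L, hL⟩ : ∃ L, L = Real.log (N : ℝ) := ⟨_, rfl⟩
  obtain ⟨w, hw⟩ : ∃ w, w = Real.log L := ⟨_, rfl⟩
  obtain ⟨v, hv⟩ : ∃ v, v = Real.log w := ⟨_, rfl⟩
  obtain ⟨y, hy⟩ : ∃ y, y = yM 8 N := ⟨_, rfl⟩
  rw [← hL, ← hw] at g1 g2 g3 g4 g5 g6
  rw [← hv] at g2 g3 g4 g5
  rw [← hy, ← hL, ← hw, ← hv] at hJN ⊢
  have hw60 : 60 ≤ w := by linarith
  have hw0 : 0 < w := by linarith
  have hv0 : 0 < v := by linarith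
  have hL0 : 0 ≤ L := by
    rw [hL]
    exact Real.log_nonneg (by exact_mod_cast hM1')
  have hLpos : 0 < L := by
    rcases hL0.lt_or_eq with h | h
    · exact h
    · exfalso
      rw [← h, Real.log_zero] at hw
      linarith
  have hwL : w ≤ L - 1 := by
    rw [hw]
    exact Real.log_le_sub_one_of_pos hLpos
  have hsw : 0 < Real.sqrt w := Real.sqrt_pos.2 hw0
  have hssw : Real.sqrt w * Real.sqrt w = w := Real.mul_self_sqrt hw0.le
  have hs56 : 56 ≤ Real.sqrt w := Real.le_sqrt_of_sq_le (by linarith)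
  have h5v := (j0b_ax1 g2 hssw hs56).1
  have h2v : 2 * v ≤ w := by linarith
  have hy' : y = ⌊L / (3 * (13 : ℝ))⌋₊ := by
    rw [hy, yM, hL]
    norm_num
  obtain ⟨hy2, hy3, hlogy1, hlogy2⟩ :=
    y_facts (by norm_num) hLpos hw hv (by linarith) (by linarith) h2v hy'
  have hyle : (y : ℝ) ≤ L / 39 := by
    rw [hy']
    refine (Nat.floor_le (by positivity)).trans (le_of_eq ?_)
    norm_num
  obtain ⟨r, hr⟩ : ∃ r, r = Real.sqrt w := ⟨_, rfl⟩
  obtain ⟨hn1, hn2, hn3⟩ := svh_num hδ hLpos hw g1 hv (hr ▸ g2) (hr ▸ hssw) (hr ▸ hs56) g5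
  refine ⟨hw60, hyle, ?_⟩
  intro a ha z hz1 hzy s hs1 hvs hor H hH hHw T hT
  obtain ⟨M, hMdef⟩ : ∃ M : ℕ, M = a.natAbs := ⟨_, rfl⟩
  have hM0 : 0 < M := by
    rw [hMdef]
    exact Int.natAbs_pos.2 ha
  obtain ⟨Λ, hΛ⟩ : ∃ Λ : ℝ, Λ = Real.log z := ⟨_, rfl⟩
  have hJM := hJN M hM0 z hz1 hzy
  rw [← hΛ, ← hMdef] at hor
  rw [← hΛ] at hz1 hJM hT
  rw [← hMdef] at hT ⊢
  have hΛ0 : 0 < Λ := by linarith
  have hs0 : 0 < s := lt_of_lt_of_le (by positivity) hvs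
  have hz0 : (0 : ℝ) < z := by
    rcases Nat.eq_zero_or_pos z with h | h
    · rw [h, Nat.cast_zero, Real.log_zero] at hΛ
      linarith
    · exact_mod_cast h
  have hΛw : Λ ≤ w := by
    rw [hΛ]
    refine le_trans ?_ hlogy1
    exact Real.log_le_log hz0 (by exact_mod_cast hzy)
  obtain ⟨R, hRdef⟩ : ∃ R, R = (M.totient : ℝ) / M := ⟨_, rfl⟩
  have hR1 : R ≤ 1 := by
    rw [hRdef, div_le_one (by exact_mod_cast hM0)]
    exact_mod_cast Nat.totient_le M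
  have hR0 : 0 < R := by
    rw [hRdef]
    have h1 : (0 : ℝ) < M.totient := by exact_mod_cast Nat.totient_pos.2 hM0
    have h2 : (0 : ℝ) < M := by exact_mod_cast hM0
    positivity
  obtain ⟨X, hX⟩ : ∃ X, X = δ * R * (L * Λ / s) := ⟨_, rfl⟩
  rw [← hRdef, ← hX] at hT
  have hX0 : 0 ≤ X := by rw [hX]; positivity
  -- the size of `X`
  have hΛs : Λ / s ≤ w * w := by
    rw [div_le_iff₀ hs0]
    have h1 : v / w * (w * w) ≤ s * (w * w) := mul_le_mul_of_nonneg_right hvs (by positivity)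
    have h2 : v / w * (w * w) = v * w := by field_simp
    rw [h2] at h1
    exact svd_ax2 hw0 hΛw (by linarith) h1
  have hXle : X ≤ L * w ^ 2 := by
    rw [hX]
    calc δ * R * (L * Λ / s) = (δ * R) * (L * (Λ / s)) := by ring
      _ ≤ (1 * 1) * (L * (w * w)) := by gcongr
      _ = _ := by ring
  have hH1 : (1 : ℝ) ≤ H := by exact_mod_cast hH
  have hH0 : (0 : ℝ) < H := by linarith
  have hTX : (T : ℝ) ≤ X / H := by
    rw [hT]
    exact Nat.floor_le (by positivity)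
  have hHT : (H : ℝ) * T ≤ X := by
    rw [le_div_iff₀ hH0] at hTX
    linarith
  refine ⟨hHT.trans hXle, ?_⟩
  have hδL : 0 < δ * L := by positivity
  -- trivial case
  rcases le_or_gt X (δ * L) with hXδ | hXδ
  · refine ⟨fun _ => 1, ?_, ?_⟩
    · intro l hl _ hd
      rw [mem_pr] at hl
      exact hl.1.one_lt.ne' (Nat.dvd_one.1 hd)
    · have h1 : (((PR H T).filter (fun p => ∀ l ∈ pr y, ¬ l ∣ M →
          ¬ (l : ℤ) ∣ p.1 * a + (p.2 : ℤ) * ((1 : ℕ) : ℤ))).card : ℝ) ≤ (PR H T).card := by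
        exact_mod_cast Finset.card_filter_le _ _
      have h2 := svh_PR_card H T hH
      have h3 : 0 ≤ 16 * (C * K₀) * (δ * L) := by positivity
      calc (((PR H T).filter (fun p => ∀ l ∈ pr y, ¬ l ∣ M →
          ¬ (l : ℤ) ∣ p.1 * a + (p.2 : ℤ) * ((1 : ℕ) : ℤ))).card : ℝ) ≤
            3 * (δ * L) + 16 * (C * K₀) * (δ * L) := by linarith
        _ = _ := by ring
  -- the parameters of the shift
  obtain ⟨H', hH'⟩ : ∃ H' : ℕ, H' = ⌊Real.exp r⌋₊ := ⟨_, rfl⟩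
  have hH'le : (H' : ℝ) ≤ Real.exp r := by rw [hH']; exact Nat.floor_le (Real.exp_pos _).le
  have hH'1 : 1 ≤ H' := by
    rw [hH']
    apply Nat.le_floor
    rw [Nat.cast_one]
    exact Real.one_le_exp (by rw [hr]; exact hsw.le)
  have hH'z : H' ≤ z := by
    have h1 : Real.exp r ≤ z := by
      rw [← Real.exp_log hz0, ← hΛ, hr]
      exact Real.exp_le_exp.2 hz1
    exact_mod_cast hH'le.trans h1
  obtain ⟨D, hD⟩ : ∃ D : ℕ, D = H * H' := ⟨_, rfl⟩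
  have hDle : (D : ℝ) ≤ w ^ 2 * Real.exp r := by
    rw [hD]
    push_cast
    exact mul_le_mul hHw hH'le (by positivity) (by positivity)
  have hTlow : L / w ^ 4 + w ^ 2 * Real.exp r < T := by
    have h1 : X / H < T + 1 := by
      rw [hT]
      exact Nat.lt_floor_add_one _
    have h2 : δ * L / w ^ 2 ≤ X / H := by
      apply div_le_div₀ hX0 hXδ.le hH0 hHw
    linarith
  have hLw4 : 0 < L / w ^ 4 := by positivity
  have hwr : 0 < w ^ 2 * Real.exp r := by positivity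
  have hTL : (T : ℝ) ≤ L * w ^ 2 := by
    have h1 : (T : ℝ) ≤ H * T := le_mul_of_one_le_left (Nat.cast_nonneg T) hH1
    linarith
  obtain ⟨J, hJ⟩ : ∃ J, J = (Icc 1 (T + D)).filter
    (fun k => ∀ l ∈ (pr y \ pr z).filter (fun l => ¬ l ∣ M), ¬ l ∣ k) := ⟨_, rfl⟩
  obtain ⟨Q, hQdef⟩ : ∃ Q, Q = (pr z).filter (fun l => ¬ l ∣ M) := ⟨_, rfl⟩
  have hQ : ∀ l ∈ Q, l.Prime := by
    intro l hl
    rw [hQdef, mem_filter, mem_pr] at hl
    exact hl.1.1
  have hT1 : ((T + D : ℕ) : ℝ) ≤ 2 * T := by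
    push_cast
    linarith
  have hT2 : L / w ^ 4 < ((T + D : ℕ) : ℝ) := by
    push_cast
    have : (0 : ℝ) ≤ D := Nat.cast_nonneg D
    linarith
  have hT3 : ((T + D : ℕ) : ℝ) ≤ 2 * (L * w ^ 2) := by linarith
  obtain ⟨t, ht1, htH, hsum⟩ := svh_shift hM hC0 (H := H) hH'1 Q J hQ (by
    intro j hj h hh hc
    rw [svh_mem_HH] at hh
    have h1 := hAvg w g6 Q hQ j h hc (by
      have h2 : |((j : ℤ) : ℝ)| ≤ 2 * (L * w ^ 2) := by
        rw [Int.cast_natCast, Nat.abs_cast]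
        rw [hJ, mem_filter, mem_Icc] at hj
        have h3 : (j : ℝ) ≤ ((T + D : ℕ) : ℝ) := by exact_mod_cast hj.1.2
        linarith
      have h4 : |(h : ℝ)| ≤ w ^ 2 := by
        have h5 : ((|h| : ℤ) : ℝ) ≤ ((H : ℤ) : ℝ) := Int.cast_le.2 hh.2
        rw [Int.cast_abs, Int.cast_natCast] at h5
        linarith
      have h6 : |(h : ℝ)| * Real.exp (Real.sqrt w) ≤ w ^ 2 * Real.exp r := by
        rw [hr]
        exact mul_le_mul_of_nonneg_right h4 (Real.exp_pos _).le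
      linarith)
    rw [← hr, ← hH'] at h1
    exact h1)
  obtain ⟨β, hβ1, hβ2⟩ := svh_choice hG (a := a) (T := T) ht1 htH hH hH'z hzy hD
  rw [← hMdef] at hβ1 hβ2
  rw [← hJ, ← hQdef] at hβ2
  refine ⟨β, hβ1, ?_⟩
  have hJle : (J.card : ℝ) ≤ K₀ * (2 * T * s) := by
    rcases hor with hs | hs
    · rw [hs, mul_one]
      have h1 : J.card ≤ T + D := by
        rw [hJ]
        refine (Finset.card_filter_le _ _).trans ?_
        rw [Nat.card_Icc]
        omega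
      have h2 : (J.card : ℝ) ≤ ((T + D : ℕ) : ℝ) := by exact_mod_cast h1
      calc (J.card : ℝ) ≤ 2 * T := h2.trans hT1
        _ ≤ K₀ * (2 * T) := le_mul_of_one_le_left (by positivity) hK₀
    · have h1 := hJM (T + D) hT2 hT3
      rw [← hJ] at h1
      refine h1.trans (mul_le_mul_of_nonneg_left ?_ (by linarith))
      apply mul_le_mul hT1 hs ?_ (by positivity)
      have h2 : 0 ≤ SG M z y := by
        unfold SG
        exact Finset.sum_nonneg fun p _ => by positivity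
      have h3 : 0 ≤ v / w := by positivity
      have h4 := Real.exp_pos (2 * (w / Λ) - w / Λ * Real.log (w / Λ))
      linarith
  have hPR := svd_mertens hM0 hΛ hΛ0 hz0
  rw [← hQdef, ← hRdef] at hPR
  have hP0 : 0 ≤ ∏ l ∈ Q, (1 - (1 : ℝ) / l) :=
    Finset.prod_nonneg fun p hp => (svd_factor (hQ p hp)).2.2.2.le
  have hE : 3 * (H : ℝ) * D ≤ δ * L := by
    refine le_trans ?_ hn1
    calc 3 * (H : ℝ) * D ≤ 3 * w ^ 2 * (w ^ 2 * Real.exp r) := by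
          apply mul_le_mul _ hDle (by positivity) (by positivity)
          linarith
      _ = 3 * w ^ 4 * Real.exp r := by ring
  exact svh_count hβ2 hsum hJle hHT hX hs0 hP0 hH0.le hPR hΛ0 hδ hLpos hE hC0 (by linarith)

end

end Pool.Agent.FXC
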